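import Mathlib

/-!
# EF1 allocations for three agents: incomplete allocations and completion

`v i S` is the value of the set `S` of goods for agent `i`.
-/

namespace Pool.F6

open Finset

variable {M : Type*} [DecidableEq M]

/-- pairwise disjoint bundles (a incomplete allocation) -/
def Disj (B : Fin 3 → Finset M) : Prop := ∀ i j, i ≠ j → Disjoint (B i) (B j)

/-- envy-freeness up to one good, for bundles `B` -/
def EF1 (v : Fin 3 → Finset M → ℝ) (B : Fin 3 → Finset M) : Prop :=
  ∀ i j, i ≠ j → v i (B j) ≤ v i (B i) ∨ ∃ g ∈ B j, v i ((B j).erase g) ≤ v i (B i)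

lemma f6_cycle (f : Fin 3 → Fin 3) (hf : ∀ j, f j ≠ j) :
    ∃ τ : Equiv.Perm (Fin 3), τ ≠ 1 ∧ ∀ i, τ i = i ∨ f (τ i) = i := by
  revert hf
  revert f
  decide

/-- envy cycle elimination: bundles can be permuted so that nobody loses and some bundle is
envied by nobody -/
lemma f6_unenvied (v : Fin 3 → Finset M → ℝ) (B : Fin 3 → Finset M) :
    ∃ σ : Equiv.Perm (Fin 3), (∀ i, v i (B i) ≤ v i (B (σ i))) ∧
      ∃ j, ∀ i, v i (B (σ j)) ≤ v i (B (σ i)) := by
  classical
  let S : Finset (Equiv.Perm (Fin 3)) :=
    Finset.univ.filter fun σ => ∀ i, v i (B i) ≤ v i (B (σ i))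
  have hS : S.Nonempty := ⟨1, by simp [S]⟩
  obtain ⟨σ, hσ, hmax⟩ := S.exists_max_image (fun σ => ∑ i, v i (B (σ i))) hS
  have hσ' : ∀ i, v i (B i) ≤ v i (B (σ i)) := by simpa [S] using hσ
  refine ⟨σ, hσ', ?_⟩
  by_contra hcon
  push Not at hcon
  choose f hf using hcon
  have hne : ∀ j, f j ≠ j := by
    intro j h
    have := hf j
    rw [h] at this
    exact lt_irrefl _ this
  obtain ⟨τ, hτ1, hτ⟩ := f6_cycle f hne
  have hle : ∀ i, v i (B (σ i)) ≤ v i (B (σ (τ i))) := by
    intro i
    rcases hτ i with h | h
    · rw [h]
    · have := hf (τ i)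
      rw [h] at this
      exact this.le
  have hlt : ∃ i, v i (B (σ i)) < v i (B (σ (τ i))) := by
    have : ∃ i, τ i ≠ i := by
      by_contra h
      push Not at h
      exact hτ1 (Equiv.ext h)
    obtain ⟨i, hi⟩ := this
    refine ⟨i, ?_⟩
    rcases hτ i with h | h
    · exact absurd h hi
    · have := hf (τ i)
      rw [h] at this
      exact this
  have hmem : σ * τ ∈ S := by
    simp only [S, Finset.mem_filter, Finset.mem_univ, true_and]
    intro i
    exact (hσ' i).trans (hle i)
  have h1 := hmax _ hmem
  have h2 : ∑ i, v i (B (σ i)) < ∑ i, v i (B ((σ * τ) i)) := by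
    obtain ⟨i, hi⟩ := hlt
    exact Finset.sum_lt_sum (fun i _ => hle i) ⟨i, Finset.mem_univ i, hi⟩
  exact absurd h2 (not_lt.mpr h1)

lemma f6_perm_EF1 {v : Fin 3 → Finset M → ℝ} {B : Fin 3 → Finset M} (hB : EF1 v B)
    (σ : Equiv.Perm (Fin 3)) (hσ : ∀ i, v i (B i) ≤ v i (B (σ i))) :
    EF1 v (fun i => B (σ i)) := by
  intro i j hij
  by_cases h : σ j = i
  · left
    show v i (B (σ j)) ≤ _
    rw [h]
    exact hσ i
  · rcases hB i (σ j) (Ne.symm h) with h1 | ⟨g, hg, h1⟩
    · exact Or.inl (h1.trans (hσ i))
    · exact Or.inr ⟨g, hg, h1.trans (hσ i)⟩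

/-- completion lemma: an incomplete EF1 allocation extends to a complete one, nobody loses -/
theorem f6_complete [Fintype M] (v : Fin 3 → Finset M → ℝ) (hmono : ∀ i, Monotone (v i))
    (B : Fin 3 → Finset M) (hd : Disj B) (hB : EF1 v B) :
    ∃ A : Fin 3 → Finset M, Disj A ∧ (∀ x, ∃ i, x ∈ A i) ∧ EF1 v A ∧
      ∀ i, v i (B i) ≤ v i (A i) := by
  classical
  -- induction on the number of unallocated goods
  induction hn : (Finset.univ \ (Finset.univ.biUnion B)).card using Nat.strong_induction_on
    generalizing B with
  | _ n ih =>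
    by_cases hall : ∀ x, ∃ i, x ∈ B i
    · exact ⟨B, hd, hall, hB, fun i => le_rfl⟩
    · push Not at hall
      obtain ⟨x, hx⟩ := hall
      obtain ⟨σ, hσ, j, hj⟩ := f6_unenvied v B
      have hE := f6_perm_EF1 hB σ hσ
      set C : Fin 3 → Finset M := fun i => if i = j then insert x (B (σ i)) else B (σ i) with hC
      have hCj : C j = insert x (B (σ j)) := by simp [hC]
      have hCi : ∀ i, i ≠ j → C i = B (σ i) := by
        intro i hi
        simp [hC, hi]
      have hCle : ∀ i, B (σ i) ⊆ C i := by
        intro i
        by_cases hi : i = j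
        · subst hi
          rw [hCj]
          exact Finset.subset_insert _ _
        · rw [hCi i hi]
      have hCd : Disj C := by
        intro a b hab
        by_cases ha : a = j
        · subst ha
          rw [hCj, hCi b (Ne.symm hab), Finset.disjoint_insert_left]
          exact ⟨hx _, hd _ _ (fun h => hab (σ.injective h))⟩
        · by_cases hb : b = j
          · subst hb
            rw [hCj, hCi a hab, Finset.disjoint_insert_right]
            exact ⟨hx _, hd _ _ (fun h => hab (σ.injective h))⟩
          · rw [hCi a ha, hCi b hb]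
            exact hd _ _ (fun h => hab (σ.injective h))
      have hCE : EF1 v C := by
        intro a b hab
        by_cases hb : b = j
        · subst hb
          right
          refine ⟨x, by rw [hCj]; exact Finset.mem_insert_self _ _, ?_⟩
          rw [hCj, Finset.erase_insert (hx _), hCi a hab]
          exact hj a
        · rw [hCi b hb]
          have hle : v a (B (σ a)) ≤ v a (C a) := hmono a (hCle a)
          rcases hE a b hab with h | ⟨g, hg, h⟩
          · exact Or.inl (h.trans hle)
          · exact Or.inr ⟨g, hg, h.trans hle⟩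
      have hcard : (Finset.univ \ (Finset.univ.biUnion C)).card < n := by
        rw [← hn]
        apply Finset.card_lt_card
        constructor
        · intro y hy
          simp only [Finset.mem_sdiff, Finset.mem_univ, true_and, Finset.mem_biUnion,
            not_exists] at hy ⊢
          intro i hi
          apply hy (σ.symm i)
          apply hCle
          rwa [Equiv.apply_symm_apply]
        · intro h
          have hx1 : x ∈ Finset.univ \ (Finset.univ.biUnion B) := by
            simp only [Finset.mem_sdiff, Finset.mem_univ, true_and, Finset.mem_biUnion,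
              not_exists]
            exact hx
          have hx2 := h hx1
          simp only [Finset.mem_sdiff, Finset.mem_univ, true_and, Finset.mem_biUnion,
            not_exists] at hx2
          apply hx2 j
          rw [hCj]
          exact Finset.mem_insert_self _ _
      obtain ⟨A, hA1, hA2, hA3, hA4⟩ := ih _ hcard C hCd hCE rfl
      exact ⟨A, hA1, hA2, hA3, fun i => (hσ i).trans ((hmono i (hCle i)).trans (hA4 i))⟩

end Pool.F6
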