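import Pool.Agent.F6.Small

/-!
# Certificate data: second case (the block 312 is large)
-/

namespace Pool.F6

/-- mask of the block 312 with its three parts -/
def mF : ℕ := 403177472

/-- lower bounds, first agent -/
def bLA : List Fc := baseL ++ [⟨0, mF, 499000000⟩]

/-- lower bounds, all agents -/
def bL1 : List Fc := baseL ++
  [⟨0, mF, 499000000⟩, ⟨1, mF, 499000000⟩, ⟨2, mF, 499000000⟩]

/-- facts A -/
def bTA : List Fc := [
    ⟨0, 37823634, 397205906⟩, ⟨1, 37823634, 500511474⟩, ⟨2, 37823634, 630544355⟩]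

/-- rectangle A -/
def bRA : RectC :=
  { f := ⟨0, 76695844, 0⟩
    Xs := [19173961]
    Ys := [403177472, 37823634]
    p := 0
    q := 1
    r := 2
    s := 1
    regs := [
      ⟨⟨536870911, 517696950, 517696950⟩, ⟨0, 0, 0⟩, ⟨2, [], 1, 0⟩, ⟨99, [], 3, 0⟩, ⟨99, [], 3, 0⟩⟩,
      ⟨⟨517696950, 536870911, 517696950⟩, ⟨0, 0, 0⟩, ⟨2, [], 1, 1⟩, ⟨99, [], 3, 0⟩, ⟨99, [], 3, 0⟩⟩,
      ⟨⟨95869805, 95869805, 536870911⟩, ⟨0, 0, 0⟩, ⟨99, [], 3, 0⟩, ⟨3, [], 1, 2⟩, ⟨99, [], 3, 0⟩⟩,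
      ⟨⟨95869805, 536870911, 95869805⟩, ⟨0, 0, 0⟩, ⟨99, [], 3, 0⟩, ⟨3, [], 1, 1⟩, ⟨99, [], 3, 0⟩⟩]
    tris := [
      (3, 441001106, 517696950, 536870911), (6, 0, 441001106, 536870911),
      (0, 0, 441001106, 517696950), (0, 0, 236760666047924516, 517696950),
      (0, 0, 236760665971228672, 236760666047924516),
      (2, 236760665971228672, 236760666047924516, 236760666067098477),
      (5, 0, 236760665971228672, 288230375614840832),
      (4, 236760666067098477, 536870911, 288230375614840832),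
      (2, 236760665971228672, 236760666067098477, 288230375614840832)]
    i1 := 2
    i2 := 1
    i3 := 0
    i4 := 3
    cells := [.add [
      ⟨0, 1, ⟨2, [], 2, 2⟩, ⟨3, [], 2, 0⟩, ⟨7, [], 1, 1⟩, 397205906, 0, 630544355⟩,
      ⟨0, 0, ⟨2, [], 2, 2⟩, ⟨99, [], 3, 0⟩, ⟨7, [], 1, 1⟩, 0, 500511474, 0⟩]
      (.fin []),
    .dir ⟨0, 1, ⟨9, [], 1, 1⟩, ⟨3, [], 2, 0⟩, ⟨7, [], 1, 1⟩, 0, 0, 0⟩] }

/-- facts P0 -/
def bTP0 : List Fc := [
    ⟨0, 114519478, 397205906⟩, ⟨1, 114519478, 500511474⟩, ⟨2, 114519478, 630544355⟩]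

/-- rectangle P0 -/
def bRP0 : RectC :=
  { f := ⟨0, 76695844, 0⟩
    Xs := [19173961]
    Ys := [37823634, 403177472]
    p := 0
    q := 1
    r := 2
    s := 1
    regs := [
      ⟨⟨536870911, 517696950, 517696950⟩, ⟨0, 0, 0⟩, ⟨2, [], 1, 0⟩, ⟨99, [], 3, 0⟩, ⟨99, [], 3, 0⟩⟩,
      ⟨⟨517696950, 536870911, 517696950⟩, ⟨0, 0, 0⟩, ⟨2, [], 1, 1⟩, ⟨99, [], 3, 0⟩, ⟨99, [], 3, 0⟩⟩,
      ⟨⟨95869805, 95869805, 536870911⟩, ⟨0, 0, 0⟩, ⟨99, [], 3, 0⟩, ⟨3, [], 1, 2⟩, ⟨99, [], 3, 0⟩⟩,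
      ⟨⟨95869805, 536870911, 95869805⟩, ⟨0, 0, 0⟩, ⟨99, [], 3, 0⟩, ⟨3, [], 1, 1⟩, ⟨99, [], 3, 0⟩⟩]
    tris := [
      (3, 441001106, 517696950, 536870911), (6, 0, 441001106, 536870911),
      (0, 0, 441001106, 517696950), (0, 0, 236760666047924516, 517696950),
      (0, 0, 236760665971228672, 236760666047924516),
      (2, 236760665971228672, 236760666047924516, 236760666067098477),
      (5, 0, 236760665971228672, 288230375614840832),
      (4, 236760666067098477, 536870911, 288230375614840832),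
      (2, 236760665971228672, 236760666067098477, 288230375614840832)]
    i1 := 2
    i2 := 1
    i3 := 0
    i4 := 3
    cells := [.dir ⟨0, 0, ⟨9, [], 1, 2⟩, ⟨10, [], 1, 2⟩, ⟨7, [], 1, 1⟩, 0, 0, 0⟩,
    .add [
      ⟨0, 1, ⟨2, [], 2, 2⟩, ⟨3, [], 2, 0⟩, ⟨7, [], 1, 1⟩, 397205906, 0, 630544355⟩,
      ⟨0, 0, ⟨2, [], 2, 2⟩, ⟨99, [], 3, 0⟩, ⟨7, [], 1, 1⟩, 0, 500511474, 0⟩]
      (.fin [])] }

set_option maxRecDepth 100000 in
lemma bRA_ok : rectOK ⟨bLA, baseU⟩ [bTA] bRA = true := by decide +kernel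

set_option maxRecDepth 100000 in
lemma bLowA_ok : lowOK ⟨bLA, baseU ++ bTA⟩ ⟨1, mF, 499000000⟩ 3 [4] = true := by
  decide +kernel

set_option maxRecDepth 100000 in
lemma bRP0_ok : rectOK ⟨bL1, baseU⟩ [bTP0] bRP0 = true := by decide +kernel

/-- facts P -/
def bTP : List Fc := [
    ⟨0, 115043766, 397205906⟩, ⟨1, 115043766, 500511474⟩, ⟨2, 115043766, 630544355⟩]

/-- facts S3 -/
def bTS3 : List Fc := [
    ⟨0, 268435456, 397205906⟩, ⟨1, 268435456, 500511474⟩, ⟨2, 268435456, 630544355⟩]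

/-- facts B -/
def bTB : List Fc := [
    ⟨0, 249261494, 397205906⟩, ⟨1, 249261494, 500511474⟩, ⟨2, 249261494, 630544355⟩]

/-- rectangle 1 -/
def bR1 : RectC :=
  { f := ⟨0, 76695844, 0⟩
    Xs := [19173961]
    Ys := [172565650, 268435456]
    p := 0
    q := 1
    r := 2
    s := 1
    regs := [
      ⟨⟨536870911, 517696950, 517696950⟩, ⟨0, 0, 0⟩, ⟨2, [], 1, 0⟩, ⟨99, [], 3, 0⟩, ⟨99, [], 3, 0⟩⟩,
      ⟨⟨517696950, 536870911, 517696950⟩, ⟨0, 0, 0⟩, ⟨2, [], 1, 1⟩, ⟨99, [], 3, 0⟩, ⟨99, [], 3, 0⟩⟩,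
      ⟨⟨95869805, 95869805, 536870911⟩, ⟨0, 0, 0⟩, ⟨99, [], 3, 0⟩, ⟨3, [], 1, 2⟩, ⟨99, [], 3, 0⟩⟩,
      ⟨⟨95869805, 536870911, 95869805⟩, ⟨0, 0, 0⟩, ⟨99, [], 3, 0⟩, ⟨3, [], 1, 1⟩, ⟨99, [], 3, 0⟩⟩]
    tris := [
      (3, 441001106, 517696950, 536870911), (6, 0, 441001106, 536870911),
      (0, 0, 441001106, 517696950), (0, 0, 236760666047924516, 517696950),
      (0, 0, 236760665971228672, 236760666047924516),
      (2, 236760665971228672, 236760666047924516, 236760666067098477),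
      (5, 0, 236760665971228672, 288230375614840832),
      (4, 236760666067098477, 536870911, 288230375614840832),
      (2, 236760665971228672, 236760666067098477, 288230375614840832)]
    i1 := 2
    i2 := 1
    i3 := 0
    i4 := 3
    cells := [.add [
      ⟨0, 1, ⟨2, [], 2, 2⟩, ⟨3, [], 2, 0⟩, ⟨7, [], 1, 1⟩, 397205906, 0, 630544355⟩,
      ⟨0, 0, ⟨2, [], 2, 2⟩, ⟨99, [], 3, 0⟩, ⟨7, [], 1, 1⟩, 0, 500511474, 0⟩]
      (.fin []),
    .add [
      ⟨0, 1, ⟨2, [], 2, 2⟩, ⟨3, [], 2, 0⟩, ⟨7, [], 1, 1⟩, 397205906, 0, 630544355⟩,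
      ⟨0, 0, ⟨2, [], 2, 2⟩, ⟨99, [], 3, 0⟩, ⟨7, [], 1, 1⟩, 0, 500511474, 0⟩]
      (.fin [])] }

/-- masks -/
def mP : ℕ := 115043766

/-- masks -/
def mP0 : ℕ := 114519478

/-- masks -/
def mB : ℕ := 249261494

/-- masks -/
def mC2 : ℕ := 441001106

/-- upper bounds P -/
def bUP : List Fc := baseU ++ bTP

set_option maxRecDepth 100000 in
lemma bR1_ok : rectOK ⟨bL1, bUP⟩ [bTS3, bTB] bR1 = true := by decide +kernel

/-- upper bounds Q -/
def bUQ : List Fc := bUP ++ bTS3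

/-- facts R2 -/
def bTR2 : List Fc := [
    ⟨0, 268435456, 500511474⟩, ⟨1, 268435456, 630544355⟩, ⟨2, 268435456, 397205906⟩]

/-- rectangle R2 -/
def bRR2 : RectC :=
  { f := ⟨0, 14708792, 0⟩
    Xs := [117670336]
    Ys := [136056327, 268435456]
    p := 0
    q := 1
    r := 2
    s := 1
    regs := [
      ⟨⟨536870911, 419200575, 419200575⟩, ⟨0, 0, 0⟩, ⟨99, [], 3, 0⟩, ⟨99, [], 3, 0⟩, ⟨8, [], 1, 0⟩⟩,
      ⟨⟨419200575, 536870911, 419200575⟩, ⟨0, 0, 0⟩, ⟨99, [], 3, 0⟩, ⟨99, [], 3, 0⟩, ⟨8, [], 1, 1⟩⟩,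
      ⟨⟨132379128, 132379128, 536870911⟩, ⟨0, 0, 0⟩, ⟨0, [], 1, 2⟩, ⟨99, [], 3, 0⟩, ⟨99, [], 3, 0⟩⟩,
      ⟨⟨132379128, 536870911, 132379128⟩, ⟨0, 0, 0⟩, ⟨0, [], 1, 1⟩, ⟨99, [], 3, 0⟩, ⟨99, [], 3, 0⟩⟩]
    tris := [
      (3, 404491783, 419200575, 536870911), (6, 0, 404491783, 536870911),
      (0, 0, 404491783, 419200575), (0, 0, 217159872450424888, 419200575),
      (0, 0, 217159872435716096, 217159872450424888),
      (2, 217159872435716096, 217159872450424888, 217159872568095224),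
      (5, 0, 217159872435716096, 288230375614840832),
      (4, 217159872568095224, 536870911, 288230375614840832),
      (2, 217159872435716096, 217159872568095224, 288230375614840832)]
    i1 := 2
    i2 := 1
    i3 := 0
    i4 := 3
    cells := [.add [
      ⟨2, 0, ⟨0, [], 2, 0⟩, ⟨4, [], 1, 1⟩, ⟨8, [], 2, 2⟩, 500511474, 630544355, 0⟩,
      ⟨0, 0, ⟨0, [], 2, 0⟩, ⟨4, [], 1, 1⟩, ⟨99, [], 3, 0⟩, 0, 0, 397205906⟩]
      (.fin []),
    .dir ⟨2, 0, ⟨0, [6], 1, 1⟩, ⟨4, [], 1, 1⟩, ⟨8, [], 2, 2⟩, 0, 0, 0⟩] }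

set_option maxRecDepth 100000 in
lemma bRR2_ok : rectOK ⟨bL1, bUQ⟩ [bTR2] bRR2 = true := by decide +kernel

/-- upper bounds R -/
def bUR : List Fc := bUQ ++ bTR2

/-- facts R3 -/
def bTR3 : List Fc := [
    ⟨0, 268435456, 630544355⟩, ⟨1, 268435456, 397205906⟩, ⟨2, 268435456, 500511474⟩]

/-- rectangle R3 -/
def bRR3 : RectC :=
  { f := ⟨0, 511, 0⟩
    Xs := [261632]
    Ys := [268173312, 268435456]
    p := 0
    q := 1
    r := 2
    s := 1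
    regs := [
      ⟨⟨536870911, 536609279, 536609279⟩, ⟨0, 0, 0⟩, ⟨99, [], 3, 0⟩, ⟨5, [], 1, 0⟩, ⟨99, [], 3, 0⟩⟩,
      ⟨⟨536609279, 536870911, 536609279⟩, ⟨0, 0, 0⟩, ⟨99, [], 3, 0⟩, ⟨5, [], 1, 1⟩, ⟨99, [], 3, 0⟩⟩,
      ⟨⟨262143, 262143, 536870911⟩, ⟨0, 0, 0⟩, ⟨99, [], 3, 0⟩, ⟨99, [], 3, 0⟩, ⟨6, [], 1, 2⟩⟩,
      ⟨⟨262143, 536870911, 262143⟩, ⟨0, 0, 0⟩, ⟨99, [], 3, 0⟩, ⟨99, [], 3, 0⟩, ⟨6, [], 1, 1⟩⟩]
    tris := [
      (3, 536608768, 536609279, 536870911), (6, 0, 536608768, 536870911),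
      (0, 0, 536608768, 536609279), (0, 0, 288089638663356927, 536609279),
      (0, 0, 288089638663356416, 288089638663356927),
      (2, 288089638663356416, 288089638663356927, 288089638663618559),
      (5, 0, 288089638663356416, 288230375614840832),
      (4, 288089638663618559, 536870911, 288230375614840832),
      (2, 288089638663356416, 288089638663618559, 288230375614840832)]
    i1 := 2
    i2 := 1
    i3 := 0
    i4 := 3
    cells := [.add [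
      ⟨1, 2, ⟨1, [], 1, 1⟩, ⟨5, [], 2, 2⟩, ⟨6, [], 2, 0⟩, 630544355, 0, 0⟩,
      ⟨0, 2, ⟨1, [], 1, 1⟩, ⟨99, [], 3, 0⟩, ⟨6, [], 2, 0⟩, 0, 397205906, 0⟩,
      ⟨1, 0, ⟨1, [], 1, 1⟩, ⟨5, [], 2, 2⟩, ⟨99, [], 3, 0⟩, 0, 0, 500511474⟩]
      (.fin []),
    .dir ⟨1, 0, ⟨1, [], 1, 1⟩, ⟨5, [], 2, 2⟩, ⟨6, [11], 1, 1⟩, 0, 0, 0⟩] }

set_option maxRecDepth 100000 in
lemma bRR3_ok : rectOK ⟨bL1, bUR⟩ [bTR3] bRR3 = true := by decide +kernel

/-- upper bounds S -/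
def bUS : List Fc := bUR ++ bTR3

/-- facts R4 -/
def bTR4 : List Fc := [
    ⟨0, 133956095, 630544355⟩, ⟨1, 133956095, 397205906⟩, ⟨2, 133956095, 500511474⟩]

/-- rectangle R4 -/
def bRR4 : RectC :=
  { f := ⟨0, 511, 0⟩
    Xs := [261632]
    Ys := [133955584, 402653184]
    p := 0
    q := 1
    r := 2
    s := 1
    regs := [
      ⟨⟨536870911, 536609279, 536609279⟩, ⟨0, 0, 0⟩, ⟨99, [], 3, 0⟩, ⟨5, [], 1, 0⟩, ⟨99, [], 3, 0⟩⟩,
      ⟨⟨536609279, 536870911, 536609279⟩, ⟨0, 0, 0⟩, ⟨99, [], 3, 0⟩, ⟨5, [], 1, 1⟩, ⟨99, [], 3, 0⟩⟩,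
      ⟨⟨262143, 262143, 536870911⟩, ⟨0, 0, 0⟩, ⟨99, [], 3, 0⟩, ⟨99, [], 3, 0⟩, ⟨6, [], 1, 2⟩⟩,
      ⟨⟨262143, 536870911, 262143⟩, ⟨0, 0, 0⟩, ⟨99, [], 3, 0⟩, ⟨99, [], 3, 0⟩, ⟨6, [], 1, 1⟩⟩]
    tris := [
      (3, 536608768, 536609279, 536870911), (6, 0, 536608768, 536870911),
      (0, 0, 536608768, 536609279), (0, 0, 288089638663356927, 536609279),
      (0, 0, 288089638663356416, 288089638663356927),
      (2, 288089638663356416, 288089638663356927, 288089638663618559),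
      (5, 0, 288089638663356416, 288230375614840832),
      (4, 288089638663618559, 536870911, 288230375614840832),
      (2, 288089638663356416, 288089638663618559, 288230375614840832)]
    i1 := 2
    i2 := 1
    i3 := 0
    i4 := 3
    cells := [.dir ⟨0, 2, ⟨1, [], 1, 1⟩, ⟨3, [4], 1, 2⟩, ⟨6, [], 2, 0⟩, 0, 0, 0⟩,
    .add [
      ⟨1, 2, ⟨1, [], 1, 1⟩, ⟨5, [], 2, 2⟩, ⟨6, [], 2, 0⟩, 630544355, 0, 0⟩,
      ⟨0, 2, ⟨1, [], 1, 1⟩, ⟨99, [], 3, 0⟩, ⟨6, [], 2, 0⟩, 0, 397205906, 0⟩,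
      ⟨1, 0, ⟨1, [], 1, 1⟩, ⟨5, [], 2, 2⟩, ⟨99, [], 3, 0⟩, 0, 0, 500511474⟩]
      (.fin [])] }

set_option maxRecDepth 100000 in
lemma bRR4_ok : rectOK ⟨bL1, bUS⟩ [bTR4] bRR4 = true := by decide +kernel

/-- upper bounds T -/
def bUT : List Fc := bUS ++ bTR4

/-- facts R5 -/
def bTR5 : List Fc := [
    ⟨0, 16547391, 500511474⟩, ⟨1, 16547391, 630544355⟩, ⟨2, 16547391, 397205906⟩]

/-- rectangle R5 -/
def bRR5 : RectC :=
  { f := ⟨0, 14708792, 0⟩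
    Xs := [117670336]
    Ys := [1838599, 402653184]
    p := 0
    q := 1
    r := 2
    s := 1
    regs := [
      ⟨⟨536870911, 419200575, 419200575⟩, ⟨0, 0, 0⟩, ⟨99, [], 3, 0⟩, ⟨99, [], 3, 0⟩, ⟨8, [], 1, 0⟩⟩,
      ⟨⟨419200575, 536870911, 419200575⟩, ⟨0, 0, 0⟩, ⟨99, [], 3, 0⟩, ⟨99, [], 3, 0⟩, ⟨8, [], 1, 1⟩⟩,
      ⟨⟨132379128, 132379128, 536870911⟩, ⟨0, 0, 0⟩, ⟨0, [], 1, 2⟩, ⟨99, [], 3, 0⟩, ⟨99, [], 3, 0⟩⟩,
      ⟨⟨132379128, 536870911, 132379128⟩, ⟨0, 0, 0⟩, ⟨0, [], 1, 1⟩, ⟨99, [], 3, 0⟩, ⟨99, [], 3, 0⟩⟩]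
    tris := [
      (3, 404491783, 419200575, 536870911), (6, 0, 404491783, 536870911),
      (0, 0, 404491783, 419200575), (0, 0, 217159872450424888, 419200575),
      (0, 0, 217159872435716096, 217159872450424888),
      (2, 217159872435716096, 217159872450424888, 217159872568095224),
      (5, 0, 217159872435716096, 288230375614840832),
      (4, 217159872568095224, 536870911, 288230375614840832),
      (2, 217159872435716096, 217159872568095224, 288230375614840832)]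
    i1 := 2
    i2 := 1
    i3 := 0
    i4 := 3
    cells := [.dir ⟨0, 0, ⟨0, [], 2, 0⟩, ⟨4, [], 1, 1⟩, ⟨6, [17], 1, 2⟩, 0, 0, 0⟩,
    .add [
      ⟨2, 0, ⟨0, [], 2, 0⟩, ⟨4, [], 1, 1⟩, ⟨8, [], 2, 2⟩, 500511474, 630544355, 0⟩,
      ⟨0, 0, ⟨0, [], 2, 0⟩, ⟨4, [], 1, 1⟩, ⟨99, [], 3, 0⟩, 0, 0, 397205906⟩]
      (.fin [])] }

set_option maxRecDepth 100000 in
lemma bRR5_ok : rectOK ⟨bL1, bUT⟩ [bTR5] bRR5 = true := by decide +kernel

/-- upper bounds V -/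
def bUV : List Fc := bUT ++ bTR5

/-- the symmetric list of upper bounds -/
def bUZ : List Fc := baseU ++ [
    ⟨0, 268435456, 397205906⟩, ⟨1, 268435456, 397205906⟩, ⟨2, 268435456, 397205906⟩,
    ⟨0, 115043766, 397205906⟩, ⟨1, 115043766, 500511474⟩, ⟨2, 115043766, 630544355⟩,
    ⟨0, 133956095, 630544355⟩, ⟨1, 133956095, 397205906⟩, ⟨2, 133956095, 500511474⟩,
    ⟨0, 16547391, 500511474⟩, ⟨1, 16547391, 630544355⟩, ⟨2, 16547391, 397205906⟩]

set_option maxRecDepth 100000 in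
lemma bUZ_ok : (bUZ.all (impl bUV)) = true := by decide +kernel

/-- the symmetric list of lower bounds -/
def bLZ : List Fc := bL1 ++ [
    ⟨0, 402653184, 499488526⟩, ⟨1, 402653184, 499488526⟩, ⟨2, 402653184, 499488526⟩]

set_option maxRecDepth 100000 in
lemma bLow0_ok : lowOK ⟨bL1, bUZ⟩ ⟨0, 402653184, 499488526⟩ 0 [12] = true := by decide +kernel

set_option maxRecDepth 100000 in
lemma bLow1_ok : lowOK ⟨bL1, bUZ⟩ ⟨1, 402653184, 499488526⟩ 3 [7] = true := by decide +kernel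

set_option maxRecDepth 100000 in
lemma bLow2_ok : lowOK ⟨bL1, bUZ⟩ ⟨2, 402653184, 499488526⟩ 6 [11] = true := by decide +kernel

set_option maxRecDepth 100000 in
lemma bLZ_rot : rotL bLZ bLZ = true := by decide +kernel

/-- facts of step B3 -/
def cT0 : List Fc := [
    ⟨0, 249261494, 397612643⟩]

/-- facts of step B3, rotated -/
def cV0 : List Fc := [
    ⟨1, 268173823, 397612643⟩]

/-- facts of step B3, rotated twice -/
def cW0 : List Fc := [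
    ⟨2, 150765119, 397612643⟩]

/-- rectangle of step B3 -/
def cR0 : RectC :=
  { f := ⟨0, 76695844, 0⟩
    Xs := [19173961]
    Ys := [38347922, 134217728, 268435456]
    p := 0
    q := 1
    r := 2
    s := 1
    regs := [
      ⟨⟨536870911, 517696950, 517696950⟩, ⟨0, 0, 0⟩, ⟨2, [], 1, 0⟩, ⟨99, [], 3, 0⟩, ⟨99, [], 3, 0⟩⟩,
      ⟨⟨517696950, 536870911, 517696950⟩, ⟨0, 0, 0⟩, ⟨2, [], 1, 1⟩, ⟨99, [], 3, 0⟩, ⟨99, [], 3, 0⟩⟩,
      ⟨⟨95869805, 95869805, 536870911⟩, ⟨0, 0, 0⟩, ⟨99, [], 3, 0⟩, ⟨3, [], 1, 2⟩, ⟨99, [], 3, 0⟩⟩,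
      ⟨⟨95869805, 536870911, 95869805⟩, ⟨0, 0, 0⟩, ⟨99, [], 3, 0⟩, ⟨3, [], 1, 1⟩, ⟨99, [], 3, 0⟩⟩]
    tris := [
      (3, 441001106, 517696950, 536870911), (6, 0, 441001106, 536870911),
      (0, 0, 441001106, 517696950), (0, 0, 236760666047924516, 517696950),
      (0, 0, 236760665971228672, 236760666047924516),
      (2, 236760665971228672, 236760666047924516, 236760666067098477),
      (5, 0, 236760665971228672, 288230375614840832),
      (4, 236760666067098477, 536870911, 288230375614840832),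
      (2, 236760665971228672, 236760666067098477, 288230375614840832)]
    i1 := 2
    i2 := 1
    i3 := 0
    i4 := 3
    cells := [.dir ⟨0, 0, ⟨0, [12], 1, 2⟩, ⟨3, [7], 1, 2⟩, ⟨7, [], 1, 1⟩, 0, 0, 0⟩,
    .add [
      ⟨0, 1, ⟨2, [], 2, 2⟩, ⟨3, [], 2, 0⟩, ⟨7, [], 1, 1⟩, 397205906, 0, 630544355⟩,
      ⟨0, 0, ⟨2, [], 2, 2⟩, ⟨99, [], 3, 0⟩, ⟨7, [], 1, 1⟩, 0, 500511474, 0⟩]
      (.ee ⟨0, 1, ⟨2, [], 2, 2⟩, ⟨3, [], 2, 0⟩, ⟨7, [], 1, 1⟩, 0, 500511474, 0⟩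
      (.fin [])
      (.add [
      ⟨0, 1, ⟨2, [], 2, 2⟩, ⟨3, [], 2, 0⟩, ⟨7, [], 1, 1⟩, 397205906, 0, 630544355⟩,
      ⟨0, 0, ⟨2, [], 2, 2⟩, ⟨3, [24], 1, 2⟩, ⟨7, [], 1, 1⟩, 0, 500511474, 0⟩]
      (.fin [⟨1, 3, [4, 24]⟩]))
      (.add [
      ⟨0, 1, ⟨2, [], 2, 2⟩, ⟨3, [], 2, 0⟩, ⟨7, [], 1, 1⟩, 397205906, 0, 630544355⟩,
      ⟨0, 0, ⟨2, [], 2, 2⟩, ⟨3, [24], 1, 1⟩, ⟨7, [], 1, 1⟩, 0, 500511474, 0⟩]
      (.ee ⟨0, 0, ⟨2, [], 2, 2⟩, ⟨3, [24], 1, 1⟩, ⟨7, [], 1, 1⟩, 397612643, 0, 0⟩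
      (.fin [])
      (.add [
      ⟨0, 1, ⟨2, [], 2, 2⟩, ⟨3, [], 2, 0⟩, ⟨7, [], 1, 1⟩, 397205906, 0, 630544355⟩,
      ⟨0, 0, ⟨2, [], 2, 2⟩, ⟨3, [24], 1, 1⟩, ⟨7, [], 1, 1⟩, 0, 500511474, 0⟩]
      (.fin []))
      (.add [
      ⟨0, 1, ⟨2, [], 2, 2⟩, ⟨3, [], 2, 0⟩, ⟨7, [], 1, 1⟩, 397205906, 0, 630544355⟩,
      ⟨0, 0, ⟨2, [], 2, 2⟩, ⟨3, [24], 1, 1⟩, ⟨7, [], 1, 1⟩, 0, 500511474, 0⟩]
      (.fin [⟨0, 0, [12, 34]⟩]))))),
    .dir ⟨0, 0, ⟨2, [], 2, 2⟩, ⟨3, [4], 1, 1⟩, ⟨7, [], 1, 1⟩, 0, 0, 0⟩] }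

set_option maxRecDepth 100000 in
lemma cR0_ok : rectOK ⟨bLZ, bUZ⟩ [cT0] cR0 = true := by decide +kernel

set_option maxRecDepth 100000 in
lemma cU0_rot : rotL bUZ bUZ = true := by decide +kernel

set_option maxRecDepth 100000 in
lemma cV0_ok : (cV0.all fun f' => cT0.any fun f => rotF f f') = true := by decide +kernel

set_option maxRecDepth 100000 in
lemma cW0_ok : (cW0.all fun f' => cV0.any fun f => rotF f f') = true := by decide +kernel

/-- upper bounds after step B3 -/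
def cU1 : List Fc := bUZ ++ (cT0 ++ cV0 ++ cW0)

/-- facts of step B4 -/
def cT1 : List Fc := [
    ⟨0, 345131300, 397205906⟩, ⟨1, 345131300, 500511474⟩, ⟨2, 345131300, 630544355⟩]

/-- facts of step B4, rotated -/
def cV1 : List Fc := [
    ⟨1, 268435967, 397205906⟩, ⟨2, 268435967, 500511474⟩, ⟨0, 268435967, 630544355⟩]

/-- facts of step B4, rotated twice -/
def cW1 : List Fc := [
    ⟨2, 283144248, 397205906⟩, ⟨0, 283144248, 500511474⟩, ⟨1, 283144248, 630544355⟩]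

/-- rectangle of step B4 -/
def cR1 : RectC :=
  { f := ⟨0, 76695844, 0⟩
    Xs := [19173961]
    Ys := [268435456, 134217728, 38347922]
    p := 0
    q := 1
    r := 2
    s := 1
    regs := [
      ⟨⟨536870911, 517696950, 517696950⟩, ⟨0, 0, 0⟩, ⟨2, [], 1, 0⟩, ⟨99, [], 3, 0⟩, ⟨99, [], 3, 0⟩⟩,
      ⟨⟨517696950, 536870911, 517696950⟩, ⟨0, 0, 0⟩, ⟨2, [], 1, 1⟩, ⟨99, [], 3, 0⟩, ⟨99, [], 3, 0⟩⟩,
      ⟨⟨95869805, 95869805, 536870911⟩, ⟨0, 0, 0⟩, ⟨99, [], 3, 0⟩, ⟨3, [], 1, 2⟩, ⟨99, [], 3, 0⟩⟩,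
      ⟨⟨95869805, 536870911, 95869805⟩, ⟨0, 0, 0⟩, ⟨99, [], 3, 0⟩, ⟨3, [], 1, 1⟩, ⟨99, [], 3, 0⟩⟩]
    tris := [
      (3, 441001106, 517696950, 536870911), (6, 0, 441001106, 536870911),
      (0, 0, 441001106, 517696950), (0, 0, 236760666047924516, 517696950),
      (0, 0, 236760665971228672, 236760666047924516),
      (2, 236760665971228672, 236760666047924516, 236760666067098477),
      (5, 0, 236760665971228672, 288230375614840832),
      (4, 236760666067098477, 536870911, 288230375614840832),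
      (2, 236760665971228672, 236760666067098477, 288230375614840832)]
    i1 := 2
    i2 := 1
    i3 := 0
    i4 := 3
    cells := [.dir ⟨0, 0, ⟨2, [], 2, 2⟩, ⟨3, [4], 1, 2⟩, ⟨7, [], 1, 1⟩, 0, 0, 0⟩,
    .add [
      ⟨0, 1, ⟨2, [], 2, 2⟩, ⟨3, [], 2, 0⟩, ⟨7, [], 1, 1⟩, 397205906, 0, 630544355⟩,
      ⟨0, 0, ⟨2, [], 2, 2⟩, ⟨3, [16], 2, 0⟩, ⟨7, [], 1, 1⟩, 0, 500511474, 0⟩]
      (.fin []),
    .dir ⟨0, 0, ⟨0, [12], 1, 1⟩, ⟨3, [7], 1, 1⟩, ⟨7, [], 1, 1⟩, 0, 0, 0⟩] }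

set_option maxRecDepth 100000 in
lemma cR1_ok : rectOK ⟨bLZ, cU1⟩ [cT1] cR1 = true := by decide +kernel

set_option maxRecDepth 100000 in
lemma cU1_rot : rotL cU1 cU1 = true := by decide +kernel

set_option maxRecDepth 100000 in
lemma cV1_ok : (cV1.all fun f' => cT1.any fun f => rotF f f') = true := by decide +kernel

set_option maxRecDepth 100000 in
lemma cW1_ok : (cW1.all fun f' => cV1.any fun f => rotF f f') = true := by decide +kernel

/-- upper bounds after step B4 -/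
def cU2 : List Fc := cU1 ++ (cT1 ++ cV1 ++ cW1)

/-- facts of step LL2 -/
def cT2 : List Fc := [
    ⟨0, 349325750, 397205906⟩]

/-- facts of step LL2, rotated -/
def cV2 : List Fc := [
    ⟨1, 284164607, 397205906⟩]

/-- facts of step LL2, rotated twice -/
def cW2 : List Fc := [
    ⟨2, 284194878, 397205906⟩]

/-- rectangle of step LL2 -/
def cR2 : RectC :=
  { f := ⟨0, 76695844, 0⟩
    Xs := [19173961]
    Ys := [272629906, 168371200]
    p := 0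
    q := 1
    r := 2
    s := 1
    regs := [
      ⟨⟨536870911, 517696950, 517696950⟩, ⟨0, 0, 0⟩, ⟨2, [], 1, 0⟩, ⟨99, [], 3, 0⟩, ⟨99, [], 3, 0⟩⟩,
      ⟨⟨517696950, 536870911, 517696950⟩, ⟨0, 0, 0⟩, ⟨2, [], 1, 1⟩, ⟨99, [], 3, 0⟩, ⟨99, [], 3, 0⟩⟩,
      ⟨⟨95869805, 95869805, 536870911⟩, ⟨0, 0, 0⟩, ⟨99, [], 3, 0⟩, ⟨3, [], 1, 2⟩, ⟨99, [], 3, 0⟩⟩,
      ⟨⟨95869805, 536870911, 95869805⟩, ⟨0, 0, 0⟩, ⟨99, [], 3, 0⟩, ⟨3, [], 1, 1⟩, ⟨99, [], 3, 0⟩⟩]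
    tris := [
      (3, 441001106, 517696950, 536870911), (6, 0, 441001106, 536870911),
      (0, 0, 441001106, 517696950), (0, 0, 236760666047924516, 517696950),
      (0, 0, 236760665971228672, 236760666047924516),
      (2, 236760665971228672, 236760666047924516, 236760666067098477),
      (5, 0, 236760665971228672, 288230375614840832),
      (4, 236760666067098477, 536870911, 288230375614840832),
      (2, 236760665971228672, 236760666067098477, 288230375614840832)]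
    i1 := 2
    i2 := 1
    i3 := 0
    i4 := 3
    cells := [.add [
      ⟨0, 1, ⟨2, [], 2, 2⟩, ⟨3, [], 2, 0⟩, ⟨7, [], 1, 1⟩, 397205906, 0, 630544355⟩,
      ⟨0, 0, ⟨2, [], 2, 2⟩, ⟨13, [4], 1, 2⟩, ⟨7, [], 1, 1⟩, 0, 500511474, 0⟩]
      (.nv [
      ⟨⟨536870911, 536609279, 536609279⟩, ⟨0, 0, 0⟩, ⟨99, [], 3, 0⟩, ⟨5, [], 1, 0⟩, ⟨99, [], 3, 0⟩⟩,
      ⟨⟨134217727, 536870911, 134217727⟩, ⟨0, 0, 0⟩, ⟨12, [], 1, 1⟩, ⟨13, [], 1, 1⟩, ⟨14, [], 1, 1⟩⟩,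
      ⟨⟨283377152, 536870400, 283377663⟩, ⟨0, 272704512, 0⟩, ⟨1, [], 1, 2⟩, ⟨3, [], 3, 0⟩, ⟨6, [24], 1, 1⟩⟩,
      ⟨⟨261632, 264240640, 536870911⟩, ⟨0, 0, 263979008⟩, ⟨1, [], 1, 2⟩, ⟨3, [35], 1, 2⟩, ⟨6, [], 2, 0⟩⟩]
      [
      (5, 0, 288089913004392448, 288230375614840832),
      (4, 536870911, 146367262494817792, 288230375614840832),
      (3, 146367262494556160, 288089913004392448, 288230375614840832),
      (3, 146367262494556160, 146367262494817792, 288230375614840832),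
      (0, 0, 146367262494556160, 288089913004392448), (6, 0, 402653184, 536870911),
      (0, 0, 402653184, 274862964736), (0, 0, 274594529280, 274862964736),
      (0, 0, 274594529280, 146367262494556160), (2, 274594529280, 274862964736, 274877906432),
      (1, 402653184, 274862964736, 274877906432), (1, 402653184, 536870911, 274877906432),
      (4, 536870911, 274877906432, 146367262494817792),
      (2, 274594529280, 274877906432, 146367262494817792),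
      (2, 274594529280, 146367262494556160, 146367262494817792)]),
    .add [
      ⟨0, 1, ⟨2, [], 2, 2⟩, ⟨3, [], 2, 0⟩, ⟨7, [], 1, 1⟩, 397205906, 0, 630544355⟩,
      ⟨0, 0, ⟨2, [], 2, 2⟩, ⟨13, [16], 1, 1⟩, ⟨7, [], 1, 1⟩, 0, 500511474, 0⟩]
      (.fin [])] }

set_option maxRecDepth 100000 in
lemma cR2_ok : rectOK ⟨bLZ, cU2⟩ [cT2] cR2 = true := by decide +kernel

set_option maxRecDepth 100000 in
lemma cU2_rot : rotL cU2 cU2 = true := by decide +kernel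

set_option maxRecDepth 100000 in
lemma cV2_ok : (cV2.all fun f' => cT2.any fun f => rotF f f') = true := by decide +kernel

set_option maxRecDepth 100000 in
lemma cW2_ok : (cW2.all fun f' => cV2.any fun f => rotF f f') = true := by decide +kernel

/-- upper bounds after step LL2 -/
def cU3 : List Fc := cU2 ++ (cT2 ++ cV2 ++ cW2)

/-- facts of step LL3 -/
def cT3 : List Fc := [
    ⟨0, 2363913, 397205906⟩]

/-- facts of step LL3, rotated -/
def cV3 : List Fc := [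
    ⟨1, 224256, 397205906⟩]

/-- facts of step LL3, rotated twice -/
def cW3 : List Fc := [
    ⟨2, 117440960, 397205906⟩]

/-- rectangle of step LL3 -/
def cR3 : RectC :=
  { f := ⟨0, 76695844, 0⟩
    Xs := [16810048, 2363913]
    Ys := [38347922, 402653184]
    p := 0
    q := 1
    r := 2
    s := 1
    regs := [
      ⟨⟨536870911, 517696950, 517696950⟩, ⟨0, 0, 0⟩, ⟨2, [], 1, 0⟩, ⟨99, [], 3, 0⟩, ⟨99, [], 3, 0⟩⟩,
      ⟨⟨517696950, 536870911, 517696950⟩, ⟨0, 0, 0⟩, ⟨2, [], 1, 1⟩, ⟨99, [], 3, 0⟩, ⟨99, [], 3, 0⟩⟩,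
      ⟨⟨95869805, 95869805, 536870911⟩, ⟨0, 0, 0⟩, ⟨99, [], 3, 0⟩, ⟨3, [], 1, 2⟩, ⟨99, [], 3, 0⟩⟩,
      ⟨⟨95869805, 536870911, 95869805⟩, ⟨0, 0, 0⟩, ⟨99, [], 3, 0⟩, ⟨3, [], 1, 1⟩, ⟨99, [], 3, 0⟩⟩]
    tris := [
      (3, 441001106, 517696950, 536870911), (6, 0, 441001106, 536870911),
      (0, 0, 441001106, 517696950), (0, 0, 236760666047924516, 517696950),
      (0, 0, 236760665971228672, 236760666047924516),
      (2, 236760665971228672, 236760666047924516, 236760666067098477),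
      (5, 0, 236760665971228672, 288230375614840832),
      (4, 236760666067098477, 536870911, 288230375614840832),
      (2, 236760665971228672, 236760666067098477, 288230375614840832)]
    i1 := 2
    i2 := 1
    i3 := 0
    i4 := 3
    cells := [.dir ⟨0, 0, ⟨0, [12], 1, 2⟩, ⟨3, [7], 1, 2⟩, ⟨7, [], 1, 1⟩, 0, 0, 0⟩,
    .add [
      ⟨0, 1, ⟨2, [], 2, 2⟩, ⟨3, [], 2, 0⟩, ⟨7, [], 1, 1⟩, 397205906, 0, 630544355⟩,
      ⟨0, 0, ⟨2, [], 2, 2⟩, ⟨4, [], 2, 2⟩, ⟨7, [], 1, 1⟩, 0, 500511474, 0⟩]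
      (.fin []),
    .dir ⟨0, 0, ⟨0, [12], 1, 2⟩, ⟨3, [7], 1, 2⟩, ⟨7, [], 1, 1⟩, 0, 0, 0⟩,
    .dir ⟨0, 0, ⟨2, [], 2, 2⟩, ⟨5, [13], 1, 1⟩, ⟨8, [], 1, 1⟩, 0, 0, 0⟩] }

set_option maxRecDepth 100000 in
lemma cR3_ok : rectOK ⟨bLZ, cU3⟩ [cT3] cR3 = true := by decide +kernel

set_option maxRecDepth 100000 in
lemma cU3_rot : rotL cU3 cU3 = true := by decide +kernel

set_option maxRecDepth 100000 in
lemma cV3_ok : (cV3.all fun f' => cT3.any fun f => rotF f f') = true := by decide +kernel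

set_option maxRecDepth 100000 in
lemma cW3_ok : (cW3.all fun f' => cV3.any fun f => rotF f f') = true := by decide +kernel

/-- upper bounds after step LL3 -/
def cU4 : List Fc := cU3 ++ (cT3 ++ cV3 ++ cW3)

/-- facts of step N1 -/
def cT4 : List Fc := [
    ⟨0, 418412606, 500511474⟩]

/-- facts of step N1, rotated -/
def cV4 : List Fc := [
    ⟨1, 483543478, 500511474⟩]

/-- facts of step N1, rotated twice -/
def cW4 : List Fc := [
    ⟨2, 418382335, 500511474⟩]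

/-- rectangle of step N1 -/
def cR4 : RectC :=
  { f := ⟨0, 14708792, 0⟩
    Xs := [117670336]
    Ys := [269486086, 134217728, 787969]
    p := 0
    q := 1
    r := 2
    s := 1
    regs := [
      ⟨⟨536870911, 419200575, 419200575⟩, ⟨0, 0, 0⟩, ⟨99, [], 3, 0⟩, ⟨99, [], 3, 0⟩, ⟨8, [], 1, 0⟩⟩,
      ⟨⟨419200575, 536870911, 419200575⟩, ⟨0, 0, 0⟩, ⟨99, [], 3, 0⟩, ⟨99, [], 3, 0⟩, ⟨8, [], 1, 1⟩⟩,
      ⟨⟨132379128, 132379128, 536870911⟩, ⟨0, 0, 0⟩, ⟨0, [], 1, 2⟩, ⟨99, [], 3, 0⟩, ⟨99, [], 3, 0⟩⟩,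
      ⟨⟨132379128, 536870911, 132379128⟩, ⟨0, 0, 0⟩, ⟨0, [], 1, 1⟩, ⟨99, [], 3, 0⟩, ⟨99, [], 3, 0⟩⟩]
    tris := [
      (3, 404491783, 419200575, 536870911), (6, 0, 404491783, 536870911),
      (0, 0, 404491783, 419200575), (0, 0, 217159872450424888, 419200575),
      (0, 0, 217159872435716096, 217159872450424888),
      (2, 217159872435716096, 217159872450424888, 217159872568095224),
      (5, 0, 217159872435716096, 288230375614840832),
      (4, 217159872568095224, 536870911, 288230375614840832),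
      (2, 217159872435716096, 217159872568095224, 288230375614840832)]
    i1 := 2
    i2 := 1
    i3 := 0
    i4 := 3
    cells := [.dir ⟨0, 2, ⟨0, [27], 1, 2⟩, ⟨4, [], 1, 1⟩, ⟨6, [32], 2, 0⟩, 0, 0, 0⟩,
    .add [
      ⟨2, 0, ⟨0, [], 2, 0⟩, ⟨4, [], 1, 1⟩, ⟨8, [], 2, 2⟩, 500511474, 630544355, 0⟩,
      ⟨0, 0, ⟨0, [], 2, 0⟩, ⟨4, [], 1, 1⟩, ⟨14, [17], 1, 1⟩, 0, 0, 397205906⟩]
      (.ee ⟨2, 0, ⟨0, [], 2, 0⟩, ⟨4, [], 1, 1⟩, ⟨8, [], 2, 2⟩, 500511474, 0, 0⟩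
      (.fin [])
      (.add [
      ⟨2, 0, ⟨0, [], 2, 0⟩, ⟨4, [], 1, 1⟩, ⟨8, [], 2, 2⟩, 500511474, 630544355, 0⟩,
      ⟨0, 0, ⟨0, [], 2, 0⟩, ⟨4, [], 1, 1⟩, ⟨14, [17], 1, 1⟩, 0, 0, 397205906⟩]
      (.fin []))
      (.add [
      ⟨2, 0, ⟨0, [], 2, 0⟩, ⟨4, [], 1, 1⟩, ⟨8, [], 2, 2⟩, 500511474, 630544355, 0⟩,
      ⟨0, 0, ⟨0, [], 2, 0⟩, ⟨4, [], 1, 1⟩, ⟨14, [17], 1, 1⟩, 0, 0, 397205906⟩]
      (.fin [⟨0, 0, [27, 42]⟩]))),
    .dir ⟨0, 0, ⟨0, [], 2, 0⟩, ⟨4, [], 1, 1⟩, ⟨6, [11], 1, 1⟩, 0, 0, 0⟩] }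

set_option maxRecDepth 100000 in
lemma cR4_ok : rectOK ⟨bLZ, cU4⟩ [cT4] cR4 = true := by decide +kernel

set_option maxRecDepth 100000 in
lemma cU4_rot : rotL cU4 cU4 = true := by decide +kernel

set_option maxRecDepth 100000 in
lemma cV4_ok : (cV4.all fun f' => cT4.any fun f => rotF f f') = true := by decide +kernel

set_option maxRecDepth 100000 in
lemma cW4_ok : (cW4.all fun f' => cV4.any fun f => rotF f f') = true := by decide +kernel

/-- upper bounds after step N1 -/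
def cU5 : List Fc := cU4 ++ (cT4 ++ cV4 ++ cW4)

/-- facts of step N2 -/
def cT5 : List Fc := [
    ⟨2, 249169920, 501023996⟩]

/-- facts of step N2, rotated -/
def cV5 : List Fc := [
    ⟨0, 136052935, 501023996⟩]

/-- facts of step N2, rotated twice -/
def cW5 : List Fc := [
    ⟨1, 141046802, 501023996⟩]

/-- rectangle of step N2 -/
def cR5 : RectC :=
  { f := ⟨268451840, 249169920, 2135039⟩
    Xs := [17039360]
    Ys := [74752]
    p := 1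
    q := 2
    r := 1
    s := 0
    regs := [
      ⟨⟨536870911, 536609279, 536609279⟩, ⟨0, 0, 0⟩, ⟨99, [], 3, 0⟩, ⟨5, [], 1, 0⟩, ⟨99, [], 3, 0⟩⟩,
      ⟨⟨517696950, 517696950, 536870911⟩, ⟨0, 0, 0⟩, ⟨2, [], 1, 2⟩, ⟨99, [], 3, 0⟩, ⟨99, [], 3, 0⟩⟩,
      ⟨⟨536870400, 268360192, 268360703⟩, ⟨0, 0, 268173312⟩, ⟨1, [], 1, 2⟩, ⟨3, [16], 1, 0⟩, ⟨6, [], 3, 0⟩⟩,
      ⟨⟨283377152, 536870400, 283377663⟩, ⟨0, 272704512, 0⟩, ⟨1, [], 1, 2⟩, ⟨3, [], 3, 0⟩, ⟨6, [24], 1, 1⟩⟩,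
      ⟨⟨134217727, 536870911, 134217727⟩, ⟨0, 0, 0⟩, ⟨12, [], 1, 1⟩, ⟨13, [], 1, 1⟩, ⟨14, [], 1, 1⟩⟩,
      ⟨⟨364304896, 536870400, 364305407⟩, ⟨0, 0, 364118016⟩, ⟨1, [], 1, 2⟩, ⟨3, [21], 1, 1⟩, ⟨6, [], 3, 0⟩⟩]
    tris := [
      (3, 274594529280, 1146240601369600, 1146240601294848),
      (2, 274341036032, 274594529280, 1146240601294848),
      (2, 274341036032, 1146240601294848, 10294177327351808),
      (2, 274341036032, 10294177078181888, 10294177327351808),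
      (1, 10293941928722432, 10294177078181888, 10294177327351808),
      (1, 10293941928722432, 10294177327426560, 10294177327351808),
      (3, 274594529280, 274598798336, 1146240601369600),
      (5, 274513601536, 274598798336, 1146240601369600),
      (5, 274513601536, 1146240601369600, 10294177327426560),
      (1, 10293941928722432, 10294177250747392, 10294177327426560),
      (5, 274513601536, 10294177250747392, 10294177327426560),
      (5, 274513601536, 274598798336, 274877906432),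
      (3, 274594529280, 274598798336, 274877906432), (8, 0, 402653184, 536870911),
      (0, 0, 274341036032, 274594529280), (0, 0, 402653184, 274862964736),
      (0, 0, 274594529280, 274862964736), (3, 274594529280, 274862964736, 274877906432),
      (4, 402653184, 274862964736, 274877906432), (4, 402653184, 536870911, 274877906432),
      (6, 536870911, 274877906432, 10294177595878400),
      (5, 274513601536, 274877906432, 10294177595878400),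
      (5, 274513601536, 10294177250747392, 10294177595878400),
      (1, 10293941928722432, 10294177250747392, 10294177595878400),
      (6, 536870911, 10293942446419382, 10294177595878400),
      (1, 10293941928722432, 10293942446419382, 10294177595878400),
      (7, 0, 274341036032, 10294177078181888), (7, 0, 10293941928722432, 10294177078181888),
      (7, 0, 10293941928722432, 288230375614840832),
      (6, 536870911, 10293942446419382, 288230375614840832),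
      (1, 10293941928722432, 10293942446419382, 288230375614840832)]
    i1 := 5
    i2 := 1
    i3 := 3
    i4 := 2
    cells := [.add [
      ⟨0, 0, ⟨1, [], 1, 2⟩, ⟨5, [31], 1, 2⟩, ⟨6, [11], 2, 2⟩, 750188000, 0, 501023996⟩,
      ⟨2, 0, ⟨1, [], 1, 2⟩, ⟨5, [31], 1, 2⟩, ⟨6, [], 3, 0⟩, 0, 595500000, 0⟩]
      (.fin [])] }

set_option maxRecDepth 100000 in
lemma cR5_ok : rectOK ⟨bLZ, cU5⟩ [cT5] cR5 = true := by decide +kernel

set_option maxRecDepth 100000 in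
lemma cU5_rot : rotL cU5 cU5 = true := by decide +kernel

set_option maxRecDepth 100000 in
lemma cV5_ok : (cV5.all fun f' => cT5.any fun f => rotF f f') = true := by decide +kernel

set_option maxRecDepth 100000 in
lemma cW5_ok : (cW5.all fun f' => cV5.any fun f => rotF f f') = true := by decide +kernel

/-- upper bounds after step N2 -/
def cU6 : List Fc := cU5 ++ (cT5 ++ cV5 ++ cW5)

/-- regions of the final step -/
def cReg : List RC := [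
  ⟨⟨453871299, 536870911, 453871299⟩, ⟨403441155, 0, 0⟩, ⟨0, [], 3, 0⟩, ⟨4, [], 1, 1⟩, ⟨7, [], 1, 1⟩⟩,
  ⟨⟨325169368, 401865212, 460175067⟩, ⟨0, 306258064, 0⟩, ⟨0, [18], 1, 2⟩, ⟨3, [], 3, 0⟩, ⟨7, [], 1, 1⟩⟩,
  ⟨⟨536870911, 134217727, 134217727⟩, ⟨0, 0, 0⟩, ⟨12, [], 1, 0⟩, ⟨13, [], 1, 0⟩, ⟨14, [], 1, 0⟩⟩,
  ⟨⟨459387098, 234027390, 158119515⟩, ⟨0, 0, 0⟩, ⟨0, [33], 1, 2⟩, ⟨3, [38], 1, 0⟩, ⟨7, [], 1, 1⟩⟩,
  ⟨⟨517696950, 517696950, 536870911⟩, ⟨0, 0, 0⟩, ⟨2, [], 1, 2⟩, ⟨99, [], 3, 0⟩, ⟨99, [], 3, 0⟩⟩]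

/-- triangles of the final step -/
def cTri : List (ℕ × ℕ × ℕ × ℕ) := [
  (5, 536870911, 10293942446419382, 82633562155870644),
  (5, 536870911, 72480633149192700, 82633562155870644),
  (4, 10293941928722432, 10293942446419382, 82633562155870644),
  (4, 10293941928722432, 82633561849612580, 82633562155870644),
  (1, 72480632824023332, 72480633149192700, 82633562155870644),
  (1, 72480632824023332, 82633561849612580, 82633562155870644),
  (5, 536870911, 10293942446419382, 288230375614840832),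
  (4, 10293941928722432, 10293942446419382, 288230375614840832),
  (6, 0, 10293941928722432, 288230375614840832), (2, 0, 10293941928722432, 10575966737942820),
  (4, 10293941928722432, 10575966737942820, 82633561849612580),
  (2, 0, 423037712353572, 10575966737942820),
  (3, 423037712353572, 10575966737942820, 82633561849612580),
  (3, 423037712353572, 72480632824023332, 82633561849612580),
  (3, 423037712353572, 72480632824023332, 72480632830327100),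
  (3, 423037712353572, 423037718657340, 72480632830327100),
  (2, 0, 423037712353572, 423037718657340), (0, 82999612, 423037718657340, 72480632830327100),
  (2, 0, 82999612, 423037718657340), (7, 0, 82999612, 536870911),
  (1, 72480632824023332, 72480632830327100, 72480633149192700),
  (0, 82999612, 536870911, 72480633149192700),
  (0, 82999612, 72480632830327100, 72480633149192700)]

set_option maxRecDepth 100000 in
lemma cRoot_ok : nvOK ⟨bLZ, cU6⟩ cReg cTri kloop = true := by decide +kernel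

variable {G : Type*} [DecidableEq G] [Fintype G] {v : Fin 3 → Finset G → ℝ} {c : Fin 3 → ℝ}
  {b : Fin 3 → G → Fin 3} {σ : G → Fin 3}

/-- the second case is impossible, after the pivot step -/
theorem big_core (h : Bs bLZ bUZ σ v c b) : False := by
  have h0 := h.step3 bLZ_rot cU0_rot cR0_ok cV0_ok cW0_ok
  have h1 := h0.step3 bLZ_rot cU1_rot cR1_ok cV1_ok cW1_ok
  have h2 := h1.step3 bLZ_rot cU2_rot cR2_ok cV2_ok cW2_ok
  have h3 := h2.step3 bLZ_rot cU3_rot cR3_ok cV3_ok cW3_ok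
  have h4 := h3.step3 bLZ_rot cU4_rot cR4_ok cV4_ok cW4_ok
  have h5 := h4.step3 bLZ_rot cU5_rot cR5_ok cV5_ok cW5_ok
  exact h5.root cRoot_ok

end Pool.F6
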