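import Pool.Agent.F6.BigA

/-!
# The second case and the final contradiction
-/

namespace Pool.F6

open Finset

variable {G : Type*} [DecidableEq G] [Fintype G] {v : Fin 3 → Finset G → ℝ} {c : Fin 3 → ℝ}
  {b : Fin 3 → G → Fin 3} {σ : G → Fin 3}

/-- the index before subdivision -/
def b0x (b : Fin 3 → G → Fin 3) (x : G) : ℕ := 9 * (b 0 x).val + 3 * (b 1 x).val + (b 2 x).val

omit [DecidableEq G] [Fintype G] in
lemma bx_of_ne {x : G} (h : b0x b x ≠ 19) (σ : G → Fin 3) : bx σ b x = b0x b x := by
  unfold bx sx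
  unfold b0x at h ⊢
  rw [if_neg h]

omit [DecidableEq G] [Fintype G] in
lemma bx_of_eq {x : G} (h : b0x b x = 19) (σ : G → Fin 3) : bx σ b x = sv (σ x) := by
  unfold bx sx
  unfold b0x at h
  rw [if_pos h]

omit [DecidableEq G] [Fintype G] in
lemma b0x_lt (x : G) : b0x b x < 27 := by
  unfold b0x
  have h0 := (b 0 x).isLt
  have h1 := (b 1 x).isLt
  have h2 := (b 2 x).isLt
  omega

/-- the masks agree outside the subdivided block -/
def agree (m m' : ℕ) : Bool :=
  (List.range 27).all fun i => i == 19 || m.testBit i == m'.testBit i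

omit [DecidableEq G] in
lemma bm_congr {m m' : ℕ} {σ σ' : G → Fin 3} (ha : agree m m' = true)
    (h : ∀ x, b0x b x = 19 → m.testBit (sv (σ x)) = m'.testBit (sv (σ' x))) :
    bm (bx σ b) m = bm (bx σ' b) m' := by
  ext x
  rw [mem_bm, mem_bm]
  by_cases hx : b0x b x = 19
  · rw [bx_of_eq hx, bx_of_eq hx, h x hx]
  · rw [bx_of_ne hx, bx_of_ne hx]
    unfold agree at ha
    rw [List.all_eq_true] at ha
    have h1 := ha (b0x b x) (List.mem_range.2 (b0x_lt x))
    rw [Bool.or_eq_true, beq_iff_eq, beq_iff_eq] at h1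
    rcases h1 with h1 | h1
    · exact absurd h1 hx
    · rw [h1]

lemma mF_sv : ∀ k : Fin 3, mF.testBit (sv k) = true := by decide

omit [DecidableEq G] in
lemma bm_mF (σ σ' : G → Fin 3) : bm (bx σ b) mF = bm (bx σ' b) mF :=
  bm_congr (by decide) (fun x _ => by rw [mF_sv, mF_sv])

/-- the lower bound for the big block -/
def BigF (v : Fin 3 → Finset G → ℝ) (c : Fin 3 → ℝ) (b : Fin 3 → G → Fin 3) (σ : G → Fin 3)
    (t : Fin 3) : Prop := HL v c (bx σ b) ⟨t, mF, 499000000⟩

omit [DecidableEq G] in
lemma BigF.any {t : Fin 3} (h : BigF v c b σ t) (σ' : G → Fin 3) : BigF v c b σ' t := by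
  unfold BigF HL at *
  rw [bm_mF σ' σ]
  exact h

omit [DecidableEq G] in
lemma BigF_rot (t : Fin 3) : BigF (fun t => v (t + 1)) (fun t => c (t + 1)) (rb3 b) σ t ↔
    BigF v c b σ (t + 1) := by
  unfold BigF
  apply HL_rot
  rcases aux3 t with rfl | rfl | rfl <;> decide

theorem big_next (h : Bs baseL baseU σ v c b) (h0 : BigF v c b σ 0) : BigF v c b σ 1 := by
  have h1 : Bs bLA baseU σ v c b := h.extL (by
    intro f hf
    rw [List.mem_singleton] at hf
    subst hf
    exact h0)
  have h2 := h1.ext (h1.step bRA_ok)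
  exact h2.low bLowA_ok

lemma baseU_rot : rotL baseU baseU = true := by decide +kernel

theorem big_all (h : Bs baseL baseU σ v c b) {t : Fin 3} (ht : BigF v c b σ t) :
    ∀ t, BigF v c b σ t := by
  have r1 := h.rot baseL_rot baseU_rot
  have r2 := r1.rot baseL_rot baseU_rot
  have s0 : BigF v c b σ 0 → BigF v c b σ 1 := big_next h
  have s1 : BigF v c b σ 1 → BigF v c b σ 2 := by
    intro h1
    have h2 := big_next r1 ((BigF_rot 0).2 h1)
    exact (BigF_rot 1).1 h2
  have s2 : BigF v c b σ 2 → BigF v c b σ 0 := by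
    intro h1
    have h2 : BigF (fun t => v (t + 1)) (fun t => c (t + 1)) (rb3 b) σ 1 := (BigF_rot 1).2 h1
    have h3 := (BigF_rot (v := fun t => v (t + 1)) (c := fun t => c (t + 1)) (b := rb3 b)
      (σ := σ) 0).2 h2
    have h4 := big_next r2 h3
    have h5 := (BigF_rot (v := fun t => v (t + 1)) (c := fun t => c (t + 1)) (b := rb3 b)
      (σ := σ) 1).1 h4
    exact (BigF_rot 2).1 h5
  have hall : BigF v c b σ 0 ∧ BigF v c b σ 1 ∧ BigF v c b σ 2 := by
    rcases aux3 t with rfl | rfl | rfl
    · exact ⟨ht, s0 ht, s1 (s0 ht)⟩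
    · exact ⟨s2 (s1 ht), ht, s1 ht⟩
    · exact ⟨s2 ht, s0 (s2 ht), ht⟩
  intro t
  rcases aux3 t with rfl | rfl | rfl
  · exact hall.1
  · exact hall.2.1
  · exact hall.2.2

lemma Bs.L1 (h : Bs baseL baseU σ v c b) (hF : ∀ t, BigF v c b σ t) : Bs bL1 baseU σ v c b :=
  h.extL (by
    intro f hf
    simp only [List.mem_cons, List.not_mem_nil, or_false] at hf
    rcases hf with rfl | rfl | rfl
    · exact hF 0
    · exact hF 1
    · exact hF 2)

/-- replace the list of upper bounds by implied ones -/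
lemma Bs.toU {L U U' : List Fc} (h : Bs L U σ v c b) (hU : (U'.all (impl U)) = true) :
    Bs L U' σ v c b := by
  refine ⟨h.ax, h.em, h.one, h.L, ?_⟩
  intro f hf
  rw [List.all_eq_true] at hU
  exact impl_ok h.ax h.U (hU f hf)

/-- subdivision of the big block given by a set -/
def sgA (A : Finset G) : G → Fin 3 := fun x => if x ∈ A then 0 else 2

/-- subdivision of the big block given by a set and a good -/
def sgB (A : Finset G) (g : G) : G → Fin 3 := fun x => if x ∈ A then 0 else if x = g then 1 else 2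

omit [Fintype G] in
lemma sgA_one (A : Finset G) : ∀ g g', sgA A g = 1 → sgA A g' = 1 → g = g' := by
  intro g g' h
  exfalso
  unfold sgA at h
  by_cases hg : g ∈ A
  · rw [if_pos hg] at h
    exact absurd h (by decide)
  · rw [if_neg hg] at h
    exact absurd h (by decide)

omit [Fintype G] in
lemma sgB_one (A : Finset G) (g0 : G) : ∀ g g', sgB A g0 g = 1 → sgB A g0 g' = 1 → g = g' := by
  have key : ∀ g, sgB A g0 g = 1 → g = g0 := by
    intro g h
    unfold sgB at h
    by_cases hg : g ∈ A
    · rw [if_pos hg] at h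
      exact absurd h (by decide)
    · rw [if_neg hg] at h
      by_contra hne
      rw [if_neg hne] at h
      exact absurd h (by decide)
  intro g g' h h'
  rw [key g h, key g' h']

/-- the facts of the list hold -/
def Hd (v : Fin 3 → Finset G → ℝ) (c : Fin 3 → ℝ) (b : Fin 3 → G → Fin 3) (σ : G → Fin 3)
    (T : List Fc) : Prop := ∀ f ∈ T, HU v c (bx σ b) f

omit [DecidableEq G] in
lemma Hd_P {σ' : G → Fin 3} {m m' : ℕ} (e : bm (bx σ b) m = bm (bx σ' b) m') {s1 s2 s3 : ℕ}
    (h : Hd v c b σ [⟨0, m, s1⟩, ⟨1, m, s2⟩, ⟨2, m, s3⟩]) :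
    Hd v c b σ' [⟨0, m', s1⟩, ⟨1, m', s2⟩, ⟨2, m', s3⟩] := by
  intro f hf
  simp only [List.mem_cons, List.not_mem_nil, or_false] at hf
  rcases hf with rfl | rfl | rfl
  · have := h ⟨0, m, s1⟩ (by simp)
    unfold HU at this ⊢
    rw [← e]
    exact this
  · have := h ⟨1, m, s2⟩ (by simp)
    unfold HU at this ⊢
    rw [← e]
    exact this
  · have := h ⟨2, m, s3⟩ (by simp)
    unfold HU at this ⊢
    rw [← e]
    exact this

lemma mP_bits : mP.testBit 19 = true ∧ mP.testBit 27 = false ∧ mP.testBit 28 = false := by decide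
lemma mP0_bits : mP0.testBit 19 = false ∧ mP0.testBit 27 = false ∧ mP0.testBit 28 = false := by
  decide
lemma mB_bits : mB.testBit 19 = true ∧ mB.testBit 27 = true ∧ mB.testBit 28 = false := by decide
lemma sv0 : sv 0 = 19 := rfl
lemma sv1 : sv 1 = 27 := rfl
lemma sv2 : sv 2 = 28 := rfl

/-- the second case is impossible -/
theorem big_false (C : Chain v c b) {σ0 : G → Fin 3} {t : Fin 3} (ht : BigF v c b σ0 t) :
    False := by
  -- the lower bounds for all subdivisions
  have hall : ∀ σ : G → Fin 3, (∀ g g', σ g = 1 → σ g' = 1 → g = g') → Bs bL1 baseU σ v c b := by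
    intro σ hσ
    have h := C.bs σ hσ
    exact h.L1 (big_all h (ht.any σ))
  -- the empty set
  have h0 : Hd v c b (sgA (∅ : Finset G)) bTP := by
    have h := (hall _ (sgA_one (∅ : Finset G))).step bRP0_ok
    refine Hd_P (σ := sgA (∅ : Finset G)) (m := mP0) (m' := mP) ?_ h
    apply bm_congr (by decide)
    intro x _
    have : sgA (∅ : Finset G) x = 2 := by unfold sgA; simp
    rw [this, sv2, mP0_bits.2.2, mP_bits.2.2]
  classical
  obtain ⟨A, hA, hmax⟩ := Finset.exists_max_image
    (Finset.univ.filter fun A : Finset G => Hd v c b (sgA A) bTP) Finset.card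
    ⟨∅, by rw [Finset.mem_filter]; exact ⟨Finset.mem_univ _, h0⟩⟩
  rw [Finset.mem_filter] at hA
  have hA2 := hA.2
  -- the set is not everything
  have hg : ∃ g, b0x b g = 19 ∧ g ∉ A := by
    by_contra hcon
    push Not at hcon
    have hB := hall _ (sgA_one A)
    have h1 : HU v c (bx (sgA A) b) ⟨1, mP, 500511474⟩ := hA2 _ (by
      show _ ∈ bTP
      unfold bTP mP
      simp)
    have h2 : HL v c (bx (sgA A) b) ⟨1, mC2, 1000000000⟩ := hB.L _ (by
      unfold bL1 baseL mC2
      simp)
    have h3 : bm (bx (sgA A) b) mC2 ⊆ bm (bx (sgA A) b) mP := by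
      intro x hx
      rw [mem_bm] at hx ⊢
      by_cases hx19 : b0x b x = 19
      · rw [bx_of_eq hx19]
        have : sgA A x = 0 := by unfold sgA; rw [if_pos (hcon x hx19)]
        rw [this, sv0, mP_bits.1]
      · rw [bx_of_ne hx19] at hx ⊢
        have key : ∀ i < 27, i ≠ 19 → mC2.testBit i = true → mP.testBit i = true := by decide
        exact key _ (b0x_lt x) hx19 hx
    have h4 := hB.ax.mono 1 h3
    have h5 := hB.ax.c_lo 1
    unfold HU at h1
    unfold HL at h2
    norm_num at h1 h2
    linarith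
  obtain ⟨g, hg19, hgA⟩ := hg
  have hB := hall _ (sgB_one A g)
  have hP : Hd v c b (sgB A g) bTP := by
    refine Hd_P (σ := sgA A) (m := mP) (m' := mP) ?_ hA2
    apply bm_congr (by decide)
    intro x _
    unfold sgA sgB
    by_cases hx : x ∈ A
    · rw [if_pos hx, if_pos hx]
    · rw [if_neg hx, if_neg hx]
      rw [sv2, mP_bits.2.2]
      split_ifs
      · rw [sv1, mP_bits.2.1]
      · rw [sv2, mP_bits.2.2]
  have k0 : Bs bL1 bUP (sgB A g) v c b := hB.ext hP
  obtain ⟨T, hT, hT2⟩ := k0.stepOr bR1_ok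
  have hS : Hd v c b (sgB A g) bTS3 := by
    simp only [List.mem_cons, List.not_mem_nil, or_false] at hT
    rcases hT with rfl | rfl
    · exact hT2
    · exfalso
      have h1 : Hd v c b (sgA (insert g A)) bTP := by
        refine Hd_P (σ := sgB A g) (m := mB) (m' := mP) ?_ hT2
        apply bm_congr (by decide)
        intro x _
        unfold sgA sgB
        by_cases hx : x ∈ A
        · rw [if_pos hx, if_pos (Finset.mem_insert_of_mem hx), sv0, mB_bits.1, mP_bits.1]
        · rw [if_neg hx]
          by_cases hxg : x = g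
          · rw [if_pos hxg, if_pos (by rw [hxg]; exact Finset.mem_insert_self _ _), sv0, sv1,
              mB_bits.2.1, mP_bits.1]
          · rw [if_neg hxg, if_neg (by
              rw [Finset.mem_insert, not_or]; exact ⟨hxg, hx⟩), sv2, mB_bits.2.2, mP_bits.2.2]
      have h2 := hmax (insert g A) (by rw [Finset.mem_filter]; exact ⟨Finset.mem_univ _, h1⟩)
      rw [Finset.card_insert_of_notMem hgA] at h2
      omega
  have k1 : Bs bL1 bUQ (sgB A g) v c b := k0.ext hS
  have k2 : Bs bL1 bUR (sgB A g) v c b := k1.ext (k1.step bRR2_ok)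
  have k3 : Bs bL1 bUS (sgB A g) v c b := k2.ext (k2.step bRR3_ok)
  have k4 : Bs bL1 bUT (sgB A g) v c b := k3.ext (k3.step bRR4_ok)
  have k5 : Bs bL1 bUV (sgB A g) v c b := k4.ext (k4.step bRR5_ok)
  have k6 : Bs bL1 bUZ (sgB A g) v c b := k5.toU bUZ_ok
  have k7 : Bs bLZ bUZ (sgB A g) v c b := k6.extL (by
    intro f hf
    simp only [List.mem_cons, List.not_mem_nil, or_false] at hf
    rcases hf with rfl | rfl | rfl
    · exact k6.low bLow0_ok
    · exact k6.low bLow1_ok
    · exact k6.low bLow2_ok)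
  exact big_core k7

/-- there is no chain -/
theorem chain_false (C : Chain v c b) : False := by
  by_cases h : ∃ t, BigF v c b (fun _ => 0) t
  · obtain ⟨t, ht⟩ := h
    exact big_false C ht
  · push Not at h
    have hB := C.bs (fun _ => 0) (by
      intro g g' h1
      exact absurd h1 (by decide))
    have hS : Bs baseL sU0 (fun _ => 0) v c b := hB.ext (by
      intro f hf
      have hn : ∀ t, HU v c (bx (fun _ => 0) b) ⟨t, mF, 499000000⟩ := by
        intro t
        have h1 := h t
        unfold BigF HL at h1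
        push Not at h1
        exact h1.le
      simp only [List.mem_cons, List.not_mem_nil, or_false] at hf
      rcases hf with rfl | rfl | rfl
      · exact hn 0
      · exact hn 1
      · exact hn 2)
    exact small_false hS

/-- there is no hypothetical instance -/
theorem inst_false (I : Inst v) : False := by
  obtain ⟨π, c, b, hC⟩ := I.chain
  exact chain_false hC

end Pool.F6
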