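import Pool.Agent.F6.Chain3

/-!
# Finite certificates for block regions
-/

namespace Pool.F6

open Finset

/-- block placement with base 3 code `c` -/
def p3 (n c : ℕ) : Fin n → Fin 3 := fun i => ⟨c / 3 ^ i.val % 3, Nat.mod_lt _ (by norm_num)⟩

/-- the code `c` lies in the region `r` -/
def inR {n : ℕ} (r : Fin n → Finset (Fin 3)) (c : ℕ) : Bool := decide (∀ i, p3 n c i ∈ r i)

lemma inR_mem {n : ℕ} {r : Fin n → Finset (Fin 3)} {c : ℕ} (h : inR r c = true) :
    ∀ i, p3 n c i ∈ r i := of_decide_eq_true h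

/-- add or cancel a pair -/
def tog (p : ℕ × ℕ) : List (ℕ × ℕ) → List (ℕ × ℕ)
  | [] => [p]
  | q :: L => if p = q then L else q :: tog p L

lemma tog_sum (f : ℕ × ℕ → ZMod 2) (p : ℕ × ℕ) (L : List (ℕ × ℕ)) :
    ((tog p L).map f).sum = f p + (L.map f).sum := by
  induction L with
  | nil => simp [tog]
  | cons q L ih =>
    unfold tog
    split_ifs with h
    · subst h
      rw [List.map_cons, List.sum_cons]
      have z := z2_add_self (f p)
      linear_combination (-1 : ZMod 2) * z
    · rw [List.map_cons, List.sum_cons, ih, List.map_cons, List.sum_cons]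
      ring

lemma foldr_tog_sum (f : ℕ × ℕ → ZMod 2) (L : List (ℕ × ℕ)) :
    ((L.foldr tog []).map f).sum = (L.map f).sum := by
  induction L with
  | nil => rfl
  | cons p L ih => rw [List.foldr_cons, tog_sum, ih, List.map_cons, List.sum_cons]

/-- the three pairs of a triangle -/
def sides (t : ℕ × ℕ × ℕ × ℕ) : List (ℕ × ℕ) :=
  [(t.2.1, t.2.2.1), (t.2.2.1, t.2.2.2), (t.2.1, t.2.2.2)]

/-- a triangle lies in the region with the given index -/
def triOK {n : ℕ} (regs : List (Fin n → Finset (Fin 3))) (t : ℕ × ℕ × ℕ × ℕ) : Bool :=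
  match regs[t.1]? with
  | none => false
  | some r => inR r t.2.1 && inR r t.2.2.1 && inR r t.2.2.2

/-- certificate check -/
def certOK {n : ℕ} (regs : List (Fin n → Finset (Fin 3))) (tris : List (ℕ × ℕ × ℕ × ℕ))
    (P : List (ℕ × ℕ)) : Bool :=
  tris.all (triOK regs) && ((tris.flatMap sides ++ P).foldr tog []).isEmpty

variable {G : Type*} [DecidableEq G] [Fintype G] {S : LabSys G}

/-- difference of two coded block placements -/
noncomputable def W (S : LabSys G) {n : ℕ} (b : G → Fin n) (x y : ℕ) : ZMod 2 :=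
  D S (pb b (p3 n x)) (pb b (p3 n y))

lemma tri_zero {n : ℕ} {b : G → Fin n} {regs : List (Fin n → Finset (Fin 3))}
    (hr : ∀ r ∈ regs, AddOn S (rb b r)) {t : ℕ × ℕ × ℕ × ℕ} (ht : triOK regs t = true) :
    ((sides t).map fun p => W S b p.1 p.2).sum = 0 := by
  unfold triOK at ht
  rcases hx : regs[t.1]? with _ | r
  · rw [hx] at ht
    exact absurd ht (by simp)
  · rw [hx] at ht
    simp only [Bool.and_eq_true] at ht
    have hmem : r ∈ regs := List.mem_of_getElem? hx
    have e := (hr r hmem).tri _ _ _ (inR_mem ht.1.1) (inR_mem ht.1.2) (inR_mem ht.2)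
    simp only [sides, List.map_cons, List.map_nil, List.sum_cons, List.sum_nil, add_zero]
    unfold W
    have z := z2_add_self (D S (pb b (p3 n t.2.1)) (pb b (p3 n t.2.2.2)))
    linear_combination e + z

/-- the certificate theorem -/
theorem cert_sum {n : ℕ} (b : G → Fin n) (regs : List (Fin n → Finset (Fin 3)))
    (hr : ∀ r ∈ regs, AddOn S (rb b r)) (tris : List (ℕ × ℕ × ℕ × ℕ)) (P : List (ℕ × ℕ))
    (hc : certOK regs tris P = true) : (P.map fun p => W S b p.1 p.2).sum = 0 := by
  unfold certOK at hc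
  rw [Bool.and_eq_true, List.all_eq_true] at hc
  obtain ⟨h1, h2⟩ := hc
  rw [List.isEmpty_iff] at h2
  have h3 := foldr_tog_sum (fun p => W S b p.1 p.2) (tris.flatMap sides ++ P)
  rw [h2] at h3
  rw [List.map_append, List.sum_append] at h3
  have h4 : ((tris.flatMap sides).map fun p => W S b p.1 p.2).sum = 0 := by
    clear h2 h3
    induction tris with
    | nil => rfl
    | cons t L ih =>
      rw [List.flatMap_cons, List.map_append, List.sum_append, ih (fun x hx => h1 x
        (List.mem_cons_of_mem _ hx)), tri_zero hr (h1 t List.mem_cons_self), add_zero]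
  rw [h4, zero_add] at h3
  exact h3.symm

/-- the faces as regions -/
def faceR (n : ℕ) (c : Fin 3) : Fin n → Finset (Fin 3) := fun _ => Finset.univ.erase c

lemma faceR_addOn (hF : FaceOK S) {n : ℕ} (b : G → Fin n) (c : Fin 3) :
    AddOn S (rb b (faceR n c)) :=
  hF.addOn c _ (by intro g; simp [rb, faceR])

omit [DecidableEq G] [Fintype G] in
lemma code_const (n : ℕ) (k x : ℕ) (hk : k < 3) (hx : ∀ i : Fin n, x / 3 ^ i.val % 3 = k)
    (b : G → Fin n) : pb b (p3 n x) = (cst ⟨k, hk⟩ : G → Fin 3) := by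
  funext g
  unfold pb p3 cst
  apply Fin.ext
  exact hx (b g)

/-- contradiction from a certificate for the boundary loop -/
theorem cert_false [Nonempty G] (hF : FaceOK S) {n : ℕ} (b : G → Fin n)
    (regs : List (Fin n → Finset (Fin 3))) (hr : ∀ r ∈ regs, AddOn S (rb b r))
    (tris : List (ℕ × ℕ × ℕ × ℕ)) (x1 x2 : ℕ)
    (h1 : ∀ i : Fin n, x1 / 3 ^ i.val % 3 = 1) (h2 : ∀ i : Fin n, x2 / 3 ^ i.val % 3 = 2)
    (hc : certOK regs tris [(0, x1), (x1, x2), (0, x2)] = true) : False := by
  have h := cert_sum b regs hr tris _ hc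
  apply kkm_contra hF
  have e0 := code_const n 0 0 (by norm_num) (by intro i; simp) b
  have e1 := code_const n 1 x1 (by norm_num) h1 b
  have e2 := code_const n 2 x2 (by norm_num) h2 b
  simp only [List.map_cons, List.map_nil, List.sum_cons, List.sum_nil, add_zero] at h
  unfold W at h
  rw [e0, e1, e2] at h
  have z := z2_add_self (D S (cst 0 : G → Fin 3) (cst 2))
  have h' : D S (cst 0 : G → Fin 3) (cst 1) + (D S (cst 1 : G → Fin 3) (cst 2) +
      D S (cst 0 : G → Fin 3) (cst 2)) = 0 := h
  linear_combination h' - z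

/-- union of blocks -/
def blk {n : ℕ} (b : G → Fin n) (T : Finset (Fin n)) : Finset G :=
  Finset.univ.filter fun g => b g ∈ T

omit [DecidableEq G] in
lemma mem_blk {n : ℕ} {b : G → Fin n} {T : Finset (Fin n)} {g : G} : g ∈ blk b T ↔ b g ∈ T := by
  simp [blk]

/-- guarantees in a region for an EF1 allocation `B` -/
structure Gua (v : Fin 3 → Finset G → ℝ) {n : ℕ} (b : G → Fin n) (R : Fin n → Finset (Fin 3))
    (V : Fin n → Fin 3) (B : Fin 3 → Finset G) : Prop where
  ef : EF1 v B
  dj : Disj B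
  g1 : ∀ (t : Fin 3) (T : Finset (Fin n)) (k : Fin 3), (∀ i ∈ T, R i = {k}) →
    v t (blk b T) ≤ v t (B t)
  g2 : ∀ (t : Fin 3) (T : Finset (Fin n)) (k k' : Fin 3),
    (∀ i ∈ T, R i ⊆ {k, k'} ∧ (V i = t ∨ (R i).card ≤ 1)) → v t (blk b T) ≤ 2 * v t (B t)
  g3 : ∀ (t : Fin 3) (T : Finset (Fin n)), (∀ i ∈ T, V i = t ∨ (R i).card ≤ 1) →
    v t (blk b T) ≤ 3 * v t (B t)
  g4 : ∀ (t : Fin 3) (T T' : Finset (Fin n)) (z : Fin n) (k k' : Fin 3), (∀ i ∈ T, R i = {k}) →
    (∀ i ∈ T', R i = {k'}) → R z ⊆ {k, k'} → (V z = t ∨ (R z).card ≤ 1) →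
    (∀ g g', b g = z → b g' = z → g = g') →
    v t (blk b (insert z T)) ≤ v t (B t) ∨ v t (blk b (insert z T')) ≤ v t (B t)

/-- a region is additive if the guarantees contradict a rule -/
theorem add_of {v : Fin 3 → Finset G → ℝ} (hv : ∀ i, Monotone (v i))
    (hs : ∀ i S T, v i (S ∪ T) ≤ v i S + v i T) {n : ℕ} (b : G → Fin n)
    (R : Fin n → Finset (Fin 3)) (V : Fin n → Fin 3)
    (h : ∀ B : Fin 3 → Finset G, Gua v b R V B → False) : AddOn (valSys v hv) (rb b R) := by
  apply Dead.addOn (V := fun g => V (b g))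
  intro x hx H hH hc
  by_contra hb
  obtain ⟨B, h1, h2, h3, _⟩ := extract_cons v hv x H hb hc
  apply h B
  refine ⟨h2, h1, ?_, ?_, ?_, ?_⟩
  · intro t T k hT
    exact guar1 (hv t) hx hH (k := k) (j := t) (fun g hg => hT _ (mem_blk.1 hg)) (h3 t)
  · intro t T k k' hT
    exact guar2 (hv t) (hs t) hx hH (k := k) (k' := k') (j := t)
      (fun g hg => hT _ (mem_blk.1 hg)) (h3 t)
  · intro t T hT
    exact guar3 (hv t) (hs t) hH (j := t) (fun g hg => hT _ (mem_blk.1 hg)) (h3 t)
  · intro t T T' z k k' hT hT' hz hV hsing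
    have hsub : ∀ (U : Finset (Fin n)) (j : Fin 3), (∀ i ∈ U, R i = {j}) →
        (∀ g, b g = z → x g = j) → blk b (insert z U) ⊆ pc x (H t) j := by
      intro U j hU hj g hg
      rw [mem_blk, Finset.mem_insert] at hg
      rw [mem_pc]
      rcases hg with e | e
      · refine ⟨hj g e, ?_⟩
        intro hgH
        have h4 := hH.2 t g hgH
        unfold rb at h4
        rw [e] at h4
        rcases hV with e' | e'
        · exact h4.1 (by show V (b g) = t; rw [e]; exact e')
        · omega
      · constructor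
        · have := hx g
          unfold rb at this
          rw [hU _ e, Finset.mem_singleton] at this
          exact this
        · intro hgH
          have h4 := (hH.2 t g hgH).2
          unfold rb at h4
          rw [hU _ e, Finset.card_singleton] at h4
          omega
    by_cases hne : ∃ g, b g = z
    · obtain ⟨g0, hg0⟩ := hne
      have hm := hz (by have := hx g0; unfold rb at this; rwa [hg0] at this)
      rw [Finset.mem_insert, Finset.mem_singleton] at hm
      rcases hm with e | e
      · left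
        exact (hv t (hsub T k hT (fun g hg => by rw [hsing g g0 hg hg0]; exact e))).trans (h3 t k)
      · right
        exact (hv t (hsub T' k' hT' (fun g hg => by rw [hsing g g0 hg hg0]; exact e))).trans
          (h3 t k')
    · left
      push Not at hne
      exact (hv t (hsub T k hT (fun g hg => absurd hg (hne g)))).trans (h3 t k)

end Pool.F6
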