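import Pool.Agent.F6.Tight

/-!
# The chain of three near maximal allocations
-/

namespace Pool.F6

open Finset

variable {G : Type*} [DecidableEq G] [Fintype G] {v : Fin 3 → Finset G → ℝ}

/-- the facts of a line cell, with upper bounds `ub` -/
def CellFacts (v : Fin 3 → Finset G → ℝ) (x : G → Fin 3) (a1 b1 : List G) (h g : G)
    (ub : Fin 3 → ℝ) : Prop :=
  ∀ νh νg : Fin 3, ∃ (c d : Fin 3) (H : Fin 3 → Finset G), (c = 1 ∨ c = 0) ∧ (d = 1 ∨ d = 2) ∧
      (∀ i, H i ⊆ {h, g}) ∧ h ∉ H νh ∧ g ∉ H νg ∧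
      ∀ t k, v t (pc (cellP x 0 2 a1 b1 h g c d) (H t) k) ≤ ub t

lemma CellFacts.mono {x : G → Fin 3} {a1 b1 : List G} {h g : G}
    {ub ub' : Fin 3 → ℝ} (hC : CellFacts v x a1 b1 h g ub) (hu : ∀ t, ub t ≤ ub' t) :
    CellFacts v x a1 b1 h g ub' := by
  intro νh νg
  obtain ⟨c, d, H, h1, h2, h3, h4, h5, h6⟩ := hC νh νg
  exact ⟨c, d, H, h1, h2, h3, h4, h5, fun t k => (h6 t k).trans (hu t)⟩

/-- an agent who views both moving goods: three pieces cover everything -/
lemma CellFacts.univ (I : Inst v) {x : G → Fin 3} {a1 b1 : List G} {h g : G}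
    {ub : Fin 3 → ℝ} (hC : CellFacts v x a1 b1 h g ub) (t : Fin 3) :
    v t Finset.univ ≤ 3 * ub t := by
  obtain ⟨c, d, H, h1, h2, h3, h4, h5, h6⟩ := hC t t
  set z := cellP x 0 2 a1 b1 h g c d
  have hsub : (Finset.univ : Finset G) ⊆ (pc z (H t) 0 ∪ pc z (H t) 1) ∪ pc z (H t) 2 := by
    intro y _
    have hy : y ∉ H t := by
      intro hy
      have := h3 t hy
      rw [Finset.mem_insert, Finset.mem_singleton] at this
      rcases this with rfl | rfl
      · exact h4 hy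
      · exact h5 hy
    rw [Finset.mem_union, Finset.mem_union, mem_pc, mem_pc, mem_pc]
    have h3 : z y = 0 ∨ z y = 1 ∨ z y = 2 := by
      generalize z y = u
      revert u; decide
    rcases h3 with e | e | e
    · exact Or.inl (Or.inl ⟨e, hy⟩)
    · exact Or.inl (Or.inr ⟨e, hy⟩)
    · exact Or.inr ⟨e, hy⟩
  have q1 := (I.mono t hsub).trans (I.sub t _ _)
  have q2 := I.sub t (pc z (H t) 0) (pc z (H t) 1)
  linarith [h6 t 0, h6 t 1, h6 t 2]

/-- line facts of an allocation with uncut agent `w` -/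
def LineFacts (v : Fin 3 → Finset G → ℝ) (b : G → Fin 3) (w : Fin 3) (ub : Fin 3 → ℝ) : Prop :=
  ∀ (e : Equiv.Perm (Fin 3)) (Ls : Fin 3 → List G), (∀ p, Enum (fun g => e (b g)) p (Ls p)) →
    ∃ i j : Fin 3, RType (e w) i j ∧ ∃ a1 h a2 b1 g b2, Ls i = a1 ++ h :: a2 ∧
      Ls j = b1 ++ g :: b2 ∧ h ≠ g ∧
      CellFacts v (pb (fun g => e (b g)) (st (e w))) a1 b1 h g ub

lemma LineFacts.mono {b : G → Fin 3} {w : Fin 3} {ub ub' : Fin 3 → ℝ}
    (hC : LineFacts v b w ub) (hu : ∀ t, ub t ≤ ub' t) : LineFacts v b w ub' := by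
  intro e Ls hL
  obtain ⟨i, j, h1, a1, h, a2, b1, g, b2, h2, h3, h4, h5⟩ := hC e Ls hL
  exact ⟨i, j, h1, a1, h, a2, b1, g, b2, h2, h3, h4, h5.mono hu⟩

/-- lower bound function for the uncut agent `w` -/
noncomputable def lw (v : Fin 3 → Finset G → ℝ) (b : G → Fin 3) (w t : Fin 3) : ℝ :=
  if t = w then v t (bl b t) else v t (bl b t) / 2

omit [DecidableEq G] in
lemma low_eq_lw (b : G → Fin 3) (e : Equiv.Perm (Fin 3)) (u t : Fin 3) :
    low v b e u t = lw v b (e.symm u) t := by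
  unfold low lw
  by_cases h : e t = u
  · rw [if_pos h, if_pos (by rw [← h]; simp)]
  · rw [if_neg h, if_neg (by rintro rfl; exact h (by simp))]

/-- winner, losers and all line facts of a near maximal allocation -/
theorem near_winner (I : Inst v) {P : ℝ} (hP0 : 0 < P) (hP : ∀ b, prd v b ≤ P) {b : G → Fin 3}
    (hb : Near v P b) : ∃ w : Fin 3, v w (bl b w) ≤ 1 ∧
      (∀ t, t ≠ w → 105 / 100 < v t (bl b t)) ∧
      (∃ B : Fin 3 → Finset G, Disj B ∧ EF1 v B ∧ ∀ t, lw v b w t ≤ v t (B t)) ∧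
      LineFacts v b w (fun t => 10001 / 10000 * lw v b w t) := by
  have key : ∀ (e : Equiv.Perm (Fin 3)) (Ls : Fin 3 → List G),
      (∀ p, Enum (fun g => e (b g)) p (Ls p)) → ∃ w : Fin 3, v w (bl b w) ≤ 1 ∧
      (∀ t, t ≠ w → 105 / 100 < v t (bl b t)) ∧
      (∃ B : Fin 3 → Finset G, Disj B ∧ EF1 v B ∧ ∀ t, lw v b w t ≤ v t (B t)) ∧
      ∃ i j : Fin 3, RType (e w) i j ∧ ∃ a1 h a2 b1 g b2, Ls i = a1 ++ h :: a2 ∧
      Ls j = b1 ++ g :: b2 ∧ h ≠ g ∧
      CellFacts v (pb (fun g => e (b g)) (st (e w))) a1 b1 h g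
        (fun t => 10001 / 10000 * lw v b w t) := by
    intro e Ls hL
    obtain ⟨u, i, j, hT, a1, h, a2, b1, g, b2, e1, e2, hne, hal⟩ := line_alive I hP0 hP hb e Ls hL
    obtain ⟨⟨B, hB1, hB2, hB3⟩, hf⟩ := tight I hP0 hP hb e hL hT e1 e2 hal
    have hCF : CellFacts v (pb (fun g => e (b g)) (st u)) a1 b1 h g
        (fun t => 10001 / 10000 * lw v b (e.symm u) t) := by
      intro νh νg
      obtain ⟨c, d, H, h1, h2, h3, h4, h5, h6⟩ := hf νh νg
      refine ⟨c, d, H, h1, h2, h3, h4, h5, fun t k => ?_⟩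
      have := h6 t k
      rwa [low_eq_lw] at this
    refine ⟨e.symm u, ?_, ?_, ⟨B, hB1, hB2, fun t => ?_⟩, i, j, ?_, a1, h, a2, b1, g, b2, e1, e2,
      hne, ?_⟩
    · have h1 := hB3 (e.symm u)
      rw [low_eq_lw] at h1
      unfold lw at h1
      rw [if_pos rfl] at h1
      exact h1.trans (I.top B hB1 hB2 _)
    · intro t ht
      have h1 := hCF.univ I t
      have h2 := I.all t
      unfold lw at h1
      rw [if_neg ht] at h1
      unfold RR at h2
      linarith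
    · have := hB3 t
      rwa [low_eq_lw] at this
    · rw [Equiv.apply_symm_apply]
      exact hT
    · rw [Equiv.apply_symm_apply]
      exact hCF
  -- canonical lists
  have hEn : ∀ p, Enum (fun g => (1 : Equiv.Perm (Fin 3)) (b g)) p (bl b p).toList := by
    intro p
    refine ⟨Finset.nodup_toList _, fun g => ?_⟩
    rw [Finset.mem_toList, mem_bl]
    simp
  obtain ⟨w, h1, h2, h3, _⟩ := key 1 _ hEn
  refine ⟨w, h1, h2, h3, ?_⟩
  intro e Ls hL
  obtain ⟨w', h1', h2', _, h4'⟩ := key e Ls hL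
  have : w' = w := by
    by_contra hne
    have := h2 w' hne
    linarith
  rw [this] at h4'
  exact h4'

omit [DecidableEq G] in
lemma lw_prod (b : G → Fin 3) (w : Fin 3) :
    4 * (lw v b w 0 * lw v b w 1 * lw v b w 2) = prd v b := by
  unfold prd lw
  fin_cases w
  · simp; ring
  · simp; ring
  · simp; ring

/-- one step of the chain -/
theorem chain_step (I : Inst v) {P : ℝ} (hP0 : 0 < P) (hP : ∀ b, prd v b ≤ P) {b : G → Fin 3}
    (hb : Near v P b) {w : Fin 3}
    (hw : ∃ B : Fin 3 → Finset G, Disj B ∧ EF1 v B ∧ ∀ t, lw v b w t ≤ v t (B t)) :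
    ∃ b' : G → Fin 3, (∀ t, RR * lw v b w t < v t (bl b' t)) ∧
      (∀ t, v t (bl b' t) ≤ 100002 / 100000 * (RR * lw v b w t)) ∧
      RR ^ 3 / 4 * prd v b ≤ prd v b' := by
  obtain ⟨B, hB1, hB2, hB3⟩ := hw
  obtain ⟨b', hb'⟩ := I.dom B hB1 hB2
  have hR : 0 < RR := by unfold RR; norm_num
  have hpos := fun t => hb.pos I hP0 t
  have hlow : ∀ t, 0 < lw v b w t := by
    intro t
    unfold lw
    split_ifs
    · exact hpos t
    · exact half_pos (hpos t)
  have h1 : ∀ t, RR * lw v b w t < v t (bl b' t) := fun t =>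
    lt_of_le_of_lt (mul_le_mul_of_nonneg_left (hB3 t) hR.le) (hb' t)
  have hRl : ∀ t, 0 < RR * lw v b w t := fun t => mul_pos hR (hlow t)
  have h2 : (RR * lw v b w 0) * (RR * lw v b w 1) * (RR * lw v b w 2) ≤ prd v b' :=
    three (hRl 0) (hRl 1) (hRl 2) (h1 0).le (h1 1).le (h1 2).le
  have h3 := lw_prod (v := v) b w
  have h4 : RR ^ 3 / 4 * prd v b ≤ prd v b' := by
    rw [← h3]
    calc _ = (RR * lw v b w 0) * (RR * lw v b w 1) * (RR * lw v b w 2) := by ring
      _ ≤ _ := h2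
  refine ⟨b', h1, ?_, h4⟩
  have hPb := hP b'
  unfold Near at hb
  apply cap (a := fun t => v t (bl b' t)) (l := fun t => RR * lw v b w t) hRl
    (K := 4 * (1000015 / 1000000)) ?_ (θ := 1) one_pos (fun t => by rw [one_mul]; exact (h1 t).le)
    (by norm_num) (by unfold RR; norm_num)
  show RR ^ 3 * prd v b' < _
  have h5 : (RR * lw v b w 0) * (RR * lw v b w 1) * (RR * lw v b w 2) = RR ^ 3 / 4 * prd v b := by
    rw [← h3]; ring
  rw [h5]
  have hR3 : 0 < RR ^ 3 := by positivity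
  have h6 : prd v b' < (4 * (1000015 / 1000000)) * (1 / 4 * prd v b) := by
    have : P ≤ 1 / (1 - 1 / 100000) * prd v b := by
      rw [div_mul_eq_mul_div, le_div_iff₀ (by norm_num)]
      linarith
    have hpb : 0 < prd v b := by nlinarith
    have h7 : (1 : ℝ) / (1 - 1 / 100000) * prd v b < 1000015 / 1000000 * prd v b := by
      apply mul_lt_mul_of_pos_right _ hpb
      norm_num
    linarith
  have := mul_lt_mul_of_pos_left h6 hR3
  linarith

end Pool.F6
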