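import Pool.Agent.F6.Chain

/-!
# Existence of the chain
-/

namespace Pool.F6

open Finset

variable {G : Type*} [DecidableEq G] [Fintype G] {v : Fin 3 → Finset G → ℝ}

omit [DecidableEq G] in
lemma bl_perm (π : Equiv.Perm (Fin 3)) (b : G → Fin 3) (t : Fin 3) :
    bl (fun g => π.symm (b g)) t = bl b (π t) := by
  ext g
  rw [mem_bl, mem_bl]
  exact Equiv.symm_apply_eq π

omit [DecidableEq G] in
lemma prd_perm (π : Equiv.Perm (Fin 3)) (b : G → Fin 3) :
    prd (fun t => v (π t)) (fun g => π.symm (b g)) = prd v b := by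
  have h := Equiv.prod_comp π (fun i => v i (bl b i))
  rw [Fin.prod_univ_three, Fin.prod_univ_three] at h
  unfold prd
  rw [bl_perm, bl_perm, bl_perm]
  exact h

lemma Inst.perm (I : Inst v) (π : Equiv.Perm (Fin 3)) : Inst (fun t => v (π t)) where
  mono i := I.mono _
  sub i := I.sub _
  emp i := I.emp _
  dom B h1 h2 := by
    obtain ⟨b, hb⟩ := I.dom (fun i => B (π.symm i))
      (fun i j hij => h1 _ _ (fun e => hij (π.symm.injective e)))
      (by
        intro i j hij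
        have := h2 (π.symm i) (π.symm j) (fun e => hij (π.symm.injective e))
        simpa using this)
    refine ⟨fun g => π.symm (b g), fun i => ?_⟩
    rw [bl_perm]
    have := hb (π i)
    simpa using this
  top B h1 h2 i := by
    have := I.top (fun i => B (π.symm i))
      (fun i j hij => h1 _ _ (fun e => hij (π.symm.injective e)))
      (by
        intro i j hij
        have := h2 (π.symm i) (π.symm j) (fun e => hij (π.symm.injective e))
        simpa using this) (π i)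
    simpa using this
  att i := by
    obtain ⟨B, h1, h2, h3⟩ := I.att (π i)
    refine ⟨fun i => B (π i), fun i j hij => h1 _ _ (fun e => hij (π.injective e)), ?_, h3⟩
    intro i j hij
    exact h2 (π i) (π j) (fun e => hij (π.injective e))

lemma CellFacts.perm {x : G → Fin 3} {a1 b1 : List G} {h g : G} {ub : Fin 3 → ℝ}
    (hC : CellFacts v x a1 b1 h g ub) (π : Equiv.Perm (Fin 3)) :
    CellFacts (fun t => v (π t)) x a1 b1 h g (fun t => ub (π t)) := by
  intro νh νg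
  obtain ⟨c, d, H, h1, h2, h3, h4, h5, h6⟩ := hC (π νh) (π νg)
  exact ⟨c, d, fun i => H (π i), h1, h2, fun i => h3 _, h4, h5, fun t k => h6 (π t) k⟩

lemma LineFacts.perm {b : G → Fin 3} {ub : Fin 3 → ℝ} (π : Equiv.Perm (Fin 3)) {m : Fin 3}
    (hC : LineFacts v b (π m) ub) :
    LineFacts (fun t => v (π t)) (fun g => π.symm (b g)) m (fun t => ub (π t)) := by
  intro e Ls hL
  obtain ⟨i, j, h1, a1, h, a2, b1, g, b2, h2, h3, h4, h5⟩ := hC (π.symm.trans e) Ls hL
  have e1 : (π.symm.trans e) (π m) = e m := by simp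
  rw [e1] at h1 h5
  exact ⟨i, j, h1, a1, h, a2, b1, g, b2, h2, h3, h4, h5.perm π⟩

/-- upper bound factors in the cells: uncut agent, C-agent, E-agent -/
noncomputable def ubf (m t : Fin 3) : ℝ :=
  if t = m then 6301 / 10000 else if m = t + 1 then 5001 / 10000 else 397 / 1000

/-- the chain: `b m` has uncut agent `m`; agent `t` has her D-bundle in `b t`, her C-bundle in
`b (t+1)`, her E-bundle in `b (t+2)` -/
structure Chain (v : Fin 3 → Finset G → ℝ) (c : Fin 3 → ℝ) (b : Fin 3 → G → Fin 3) : Prop where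
  inst : Inst v
  c_lo : ∀ t, 1333 / 1000 ≤ c t
  c_hi : ∀ t, c t ≤ 15876 / 10000
  vC : ∀ t, v t (bl (b (t + 1)) t) = c t
  vD_lo : ∀ t, 6299 / 10000 * c t ≤ v t (bl (b t) t)
  vD_hi : ∀ t, v t (bl (b t) t) ≤ 63 / 100 * c t
  vE_lo : ∀ t, 7936 / 10000 * c t ≤ v t (bl (b (t + 2)) t)
  vE_hi : ∀ t, v t (bl (b (t + 2)) t) ≤ 7938 / 10000 * c t
  univ : ∀ t, v t Finset.univ ≤ 1191 / 1000 * c t
  pr : ∀ B, Disj B → EF1 v B →
    v 0 (B 0) * v 1 (B 1) * v 2 (B 2) < 1251 / 10000 * (c 0 * c 1 * c 2)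
  lines : ∀ m, LineFacts v (b m) m (fun t => ubf m t * c t)

/-- three allocations for which agents 0, 1, 2 are uncut in turn -/
structure Pre (v : Fin 3 → Finset G → ℝ) (P : ℝ) (b : Fin 3 → G → Fin 3) : Prop where
  inst : Inst v
  hP0 : 0 < P
  hP : ∀ b, prd v b ≤ P
  p0 : prd v (b 0) = P
  pos : ∀ m t, 0 < v t (bl (b m) t)
  win : ∀ m, v m (bl (b m) m) ≤ 1
  lo0 : ∀ t, RR * lw v (b 0) 0 t < v t (bl (b 1) t)
  hi0 : ∀ t, v t (bl (b 1) t) ≤ 100002 / 100000 * (RR * lw v (b 0) 0 t)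
  lo1 : ∀ t, RR * lw v (b 1) 1 t < v t (bl (b 2) t)
  hi1 : ∀ t, v t (bl (b 2) t) ≤ 100002 / 100000 * (RR * lw v (b 1) 1 t)
  lines : ∀ m, LineFacts v (b m) m (fun t => 10001 / 10000 * lw v (b m) m t)

lemma Pre.univ {P : ℝ} {b : Fin 3 → G → Fin 3} (p : Pre v P b) (m t : Fin 3) (ht : t ≠ m) :
    v t Finset.univ ≤ 3 * (10001 / 10000 * (v t (bl (b m) t) / 2)) := by
  have hEn : ∀ q, Enum (fun g => (1 : Equiv.Perm (Fin 3)) (b m g)) q (bl (b m) q).toList := by
    intro q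
    refine ⟨Finset.nodup_toList _, fun g => ?_⟩
    rw [Finset.mem_toList, mem_bl]
    simp
  obtain ⟨i, j, h1, a1, h, a2, b1, g, b2, h2, h3, h4, h5⟩ := p.lines m 1 _ hEn
  have := h5.univ p.inst t
  unfold lw at this
  rw [if_neg ht] at this
  exact this

theorem Pre.chain {P : ℝ} {b : Fin 3 → G → Fin 3} (p : Pre v P b) :
    ∃ c, Chain v c b := by
  refine ⟨fun t => v t (bl (b (t + 1)) t), ?_⟩
  have I := p.inst
  -- the nine values
  have a1 := p.lo0 0
  have a2 := p.hi0 0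
  have a3 := p.lo1 0
  have a4 := p.hi1 0
  have b1 := p.lo0 1
  have b2 := p.hi0 1
  have b3 := p.lo1 1
  have b4 := p.hi1 1
  have c1 := p.lo0 2
  have c2 := p.hi0 2
  have c3 := p.lo1 2
  have c4 := p.hi1 2
  have u0 := p.univ 2 0 (by decide)
  have u1 := p.univ 0 1 (by decide)
  have u2 := p.univ 1 2 (by decide)
  have q0 := p.win 0
  have q1 := p.win 1
  have q2 := p.win 2
  have r0 := I.all 0
  have r1 := I.all 1
  have r2 := I.all 2
  unfold lw at a1 a2 a3 a4 b1 b2 b3 b4 c1 c2 c3 c4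
  unfold RR at *
  simp only [Fin.isValue, if_true, if_false,
    show (0 : Fin 3) ≠ 1 by decide, show (1 : Fin 3) ≠ 0 by decide,
    show (2 : Fin 3) ≠ 0 by decide, show (2 : Fin 3) ≠ 1 by decide] at a1 a2 a3 a4 b1 b2 b3 b4 c1 c2 c3 c4
  have e1 : (0 : Fin 3) + 1 = 1 := by decide
  have e2 : (1 : Fin 3) + 1 = 2 := by decide
  have e3 : (2 : Fin 3) + 1 = 0 := by decide
  have e4 : (0 : Fin 3) + 2 = 2 := by decide
  have e5 : (1 : Fin 3) + 2 = 0 := by decide
  have e6 : (2 : Fin 3) + 2 = 1 := by decide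
  refine ⟨I, ?_, ?_, fun t => rfl, ?_, ?_, ?_, ?_, ?_, ?_, ?_⟩
  · intro t
    fin_cases t
    · show _ ≤ v 0 (bl (b 1) 0); linarith
    · show _ ≤ v 1 (bl (b 2) 1); linarith
    · show _ ≤ v 2 (bl (b 0) 2); linarith
  · intro t
    fin_cases t
    · show v 0 (bl (b 1) 0) ≤ _; linarith
    · show v 1 (bl (b 2) 1) ≤ _; linarith
    · show v 2 (bl (b 0) 2) ≤ _; linarith
  · intro t
    fin_cases t
    · show _ * v 0 (bl (b 1) 0) ≤ v 0 (bl (b 0) 0); linarith
    · show _ * v 1 (bl (b 2) 1) ≤ v 1 (bl (b 1) 1); linarith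
    · show _ * v 2 (bl (b 0) 2) ≤ v 2 (bl (b 2) 2); linarith
  · intro t
    fin_cases t
    · show v 0 (bl (b 0) 0) ≤ _ * v 0 (bl (b 1) 0); linarith
    · show v 1 (bl (b 1) 1) ≤ _ * v 1 (bl (b 2) 1); linarith
    · show v 2 (bl (b 2) 2) ≤ _ * v 2 (bl (b 0) 2); linarith
  · intro t
    fin_cases t
    · show _ * v 0 (bl (b 1) 0) ≤ v 0 (bl (b 2) 0); linarith
    · show _ * v 1 (bl (b 2) 1) ≤ v 1 (bl (b 0) 1); linarith
    · show _ * v 2 (bl (b 0) 2) ≤ v 2 (bl (b 1) 2); linarith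
  · intro t
    fin_cases t
    · show v 0 (bl (b 2) 0) ≤ _ * v 0 (bl (b 1) 0); linarith
    · show v 1 (bl (b 0) 1) ≤ _ * v 1 (bl (b 2) 1); linarith
    · show v 2 (bl (b 1) 2) ≤ _ * v 2 (bl (b 0) 2); linarith
  · intro t
    fin_cases t
    · show v 0 Finset.univ ≤ _ * v 0 (bl (b 1) 0); linarith
    · show v 1 Finset.univ ≤ _ * v 1 (bl (b 2) 1); linarith
    · show v 2 Finset.univ ≤ _ * v 2 (bl (b 0) 2); linarith
  · intro B h1 h2
    have h3 := I.PR p.hP h1 h2
    rw [← p.p0] at h3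
    unfold RR prd at h3
    show _ < 1251 / 10000 * (v 0 (bl (b 1) 0) * v 1 (bl (b 2) 1) * v 2 (bl (b 0) 2))
    have k0 : v 0 (bl (b 0) 0) ≤ 63 / 100 * v 0 (bl (b 1) 0) := by linarith
    have k1 : v 1 (bl (b 0) 1) ≤ 7938 / 10000 * v 1 (bl (b 2) 1) := by linarith
    have k2 := three (p.pos 0 0) (p.pos 0 1) (p.pos 0 2) k0 k1 (le_refl (v 2 (bl (b 0) 2)))
    have k3 : 0 < v 0 (bl (b 1) 0) * v 1 (bl (b 2) 1) * v 2 (bl (b 0) 2) :=
      mul_pos (mul_pos (p.pos 1 0) (p.pos 2 1)) (p.pos 0 2)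
    nlinarith
  · intro m
    apply (p.lines m).mono
    intro t
    have pp := p.pos
    fin_cases m <;> fin_cases t
    · show 10001 / 10000 * lw v (b 0) 0 0 ≤ ubf 0 0 * v 0 (bl (b 1) 0)
      have : ubf 0 0 = 6301 / 10000 := by unfold ubf; simp
      rw [this]; unfold lw; simp only [if_true]; linarith
    · show 10001 / 10000 * lw v (b 0) 0 1 ≤ ubf 0 1 * v 1 (bl (b 2) 1)
      have : ubf 0 1 = 397 / 1000 := by unfold ubf; rw [if_neg (by decide), if_neg (by decide)]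
      rw [this]; unfold lw; rw [if_neg (by decide)]; linarith
    · show 10001 / 10000 * lw v (b 0) 0 2 ≤ ubf 0 2 * v 2 (bl (b 0) 2)
      have : ubf 0 2 = 5001 / 10000 := by unfold ubf; rw [if_neg (by decide), if_pos (by decide)]
      rw [this]; unfold lw; rw [if_neg (by decide)]; linarith [pp 0 2]
    · show 10001 / 10000 * lw v (b 1) 1 0 ≤ ubf 1 0 * v 0 (bl (b 1) 0)
      have : ubf 1 0 = 5001 / 10000 := by unfold ubf; rw [if_neg (by decide), if_pos (by decide)]
      rw [this]; unfold lw; rw [if_neg (by decide)]; linarith [pp 1 0]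
    · show 10001 / 10000 * lw v (b 1) 1 1 ≤ ubf 1 1 * v 1 (bl (b 2) 1)
      have : ubf 1 1 = 6301 / 10000 := by unfold ubf; simp
      rw [this]; unfold lw; simp only [if_true]; linarith
    · show 10001 / 10000 * lw v (b 1) 1 2 ≤ ubf 1 2 * v 2 (bl (b 0) 2)
      have : ubf 1 2 = 397 / 1000 := by unfold ubf; rw [if_neg (by decide), if_neg (by decide)]
      rw [this]; unfold lw; rw [if_neg (by decide)]; linarith
    · show 10001 / 10000 * lw v (b 2) 2 0 ≤ ubf 2 0 * v 0 (bl (b 1) 0)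
      have : ubf 2 0 = 397 / 1000 := by unfold ubf; rw [if_neg (by decide), if_neg (by decide)]
      rw [this]; unfold lw; rw [if_neg (by decide)]; linarith
    · show 10001 / 10000 * lw v (b 2) 2 1 ≤ ubf 2 1 * v 1 (bl (b 2) 1)
      have : ubf 2 1 = 5001 / 10000 := by unfold ubf; rw [if_neg (by decide), if_pos (by decide)]
      rw [this]; unfold lw; rw [if_neg (by decide)]; linarith [pp 2 1]
    · show 10001 / 10000 * lw v (b 2) 2 2 ≤ ubf 2 2 * v 2 (bl (b 0) 2)
      have : ubf 2 2 = 6301 / 10000 := by unfold ubf; simp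
      rw [this]; unfold lw; simp only [if_true]; linarith

end Pool.F6
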