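import Pool.Agent.F6.Chain2

/-!
# Every hypothetical instance has a chain
-/

namespace Pool.F6

open Finset

variable {G : Type*} [DecidableEq G] [Fintype G] {v : Fin 3 → Finset G → ℝ}

omit [DecidableEq G] in
lemma lw_perm (π : Equiv.Perm (Fin 3)) (b : G → Fin 3) (m t : Fin 3) :
    lw (fun t => v (π t)) (fun g => π.symm (b g)) m t = lw v b (π m) (π t) := by
  unfold lw
  rw [bl_perm]
  by_cases h : t = m
  · rw [if_pos h, if_pos (by rw [h])]
  · rw [if_neg h, if_neg (fun e => h (π.injective e))]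

lemma perm_of_three : ∀ w0 w1 w2 : Fin 3, (∀ t, t = w0 ∨ t = w1 ∨ t = w2) →
    ∃ π : Equiv.Perm (Fin 3), π 0 = w0 ∧ π 1 = w1 ∧ π 2 = w2 := by decide

lemma univ_of_lines (I : Inst v) {b : G → Fin 3} {w : Fin 3}
    (hl : LineFacts v b w (fun t => 10001 / 10000 * lw v b w t)) {t : Fin 3} (ht : t ≠ w) :
    v t Finset.univ ≤ 3 * (10001 / 10000 * (v t (bl b t) / 2)) := by
  have hEn : ∀ q, Enum (fun g => (1 : Equiv.Perm (Fin 3)) (b g)) q (bl b q).toList := by
    intro q
    refine ⟨Finset.nodup_toList _, fun g => ?_⟩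
    rw [Finset.mem_toList, mem_bl]
    simp
  obtain ⟨i, j, h1, a1, h, a2, b1, g, b2, h2, h3, h4, h5⟩ := hl 1 _ hEn
  have := h5.univ I t
  unfold lw at this
  rw [if_neg ht] at this
  exact this

theorem Inst.chain (I : Inst v) : ∃ (π : Equiv.Perm (Fin 3)) (c : Fin 3 → ℝ)
    (b : Fin 3 → G → Fin 3), Chain (fun t => v (π t)) c b := by
  obtain ⟨P, hP0, hP, b0, hb0⟩ := I.exP
  have hR : (999998 / 1000000 : ℝ) ≤ RR ^ 3 / 4 := by unfold RR; norm_num
  have n0 : Near v P b0 := by unfold Near; rw [hb0]; nlinarith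
  obtain ⟨w0, x1, x2, x3, x4⟩ := near_winner I hP0 hP n0
  obtain ⟨b1, s1, s2, s3⟩ := chain_step I hP0 hP n0 x3
  have m1 : 999998 / 1000000 * P ≤ prd v b1 := by
    rw [hb0] at s3
    exact (mul_le_mul_of_nonneg_right hR hP0.le).trans s3
  have n1 : Near v P b1 := by unfold Near; nlinarith
  obtain ⟨w1, y1, y2, y3, y4⟩ := near_winner I hP0 hP n1
  obtain ⟨b2, t1, t2, t3⟩ := chain_step I hP0 hP n1 y3
  have m2 : 999998 / 1000000 * (999998 / 1000000 * P) ≤ prd v b2 := by
    have hp : 0 ≤ prd v b1 := by nlinarith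
    exact (mul_le_mul_of_nonneg_left m1 (by norm_num)).trans
      ((mul_le_mul_of_nonneg_right hR hp).trans t3)
  have n2 : Near v P b2 := by unfold Near; nlinarith
  obtain ⟨w2, z1, z2, z3, z4⟩ := near_winner I hP0 hP n2
  have hall : ∀ t, t = w0 ∨ t = w1 ∨ t = w2 := by
    intro t
    by_contra hcon
    push Not at hcon
    obtain ⟨h0, h1, h2⟩ := hcon
    have e0 := s2 t
    have e1 := t2 t
    unfold lw at e0 e1
    rw [if_neg h0] at e0
    rw [if_neg h1] at e1
    have e2 := univ_of_lines I z4 h2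
    have e3 := I.mono t (Finset.subset_univ (bl b0 t))
    have e4 := n2.pos I hP0 t
    unfold RR at e0 e1
    linarith
  obtain ⟨π, p0, p1, p2⟩ := perm_of_three w0 w1 w2 hall
  subst p0 p1 p2
  refine ⟨π, ?_⟩
  have pre : Pre (fun t => v (π t)) P
      ![fun g => π.symm (b0 g), fun g => π.symm (b1 g), fun g => π.symm (b2 g)] := by
    refine ⟨I.perm π, hP0, ?_, ?_, ?_, ?_, ?_, ?_, ?_, ?_, ?_⟩
    · intro b
      have h1 := prd_perm (v := v) π (fun g => π (b g))
      simp only [Equiv.symm_apply_apply] at h1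
      rw [h1]
      exact hP _
    · show prd _ (fun g => π.symm (b0 g)) = P
      rw [prd_perm, hb0]
    · intro m t
      fin_cases m
      · show 0 < v (π t) (bl (fun g => π.symm (b0 g)) t)
        rw [bl_perm]; exact n0.pos I hP0 _
      · show 0 < v (π t) (bl (fun g => π.symm (b1 g)) t)
        rw [bl_perm]; exact n1.pos I hP0 _
      · show 0 < v (π t) (bl (fun g => π.symm (b2 g)) t)
        rw [bl_perm]; exact n2.pos I hP0 _
    · intro m
      fin_cases m
      · show v (π 0) (bl (fun g => π.symm (b0 g)) 0) ≤ 1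
        rw [bl_perm]; exact x1
      · show v (π 1) (bl (fun g => π.symm (b1 g)) 1) ≤ 1
        rw [bl_perm]; exact y1
      · show v (π 2) (bl (fun g => π.symm (b2 g)) 2) ≤ 1
        rw [bl_perm]; exact z1
    · intro t
      show RR * lw (fun t => v (π t)) (fun g => π.symm (b0 g)) 0 t <
        v (π t) (bl (fun g => π.symm (b1 g)) t)
      rw [bl_perm, lw_perm]; exact s1 _
    · intro t
      show v (π t) (bl (fun g => π.symm (b1 g)) t) ≤
        100002 / 100000 * (RR * lw (fun t => v (π t)) (fun g => π.symm (b0 g)) 0 t)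
      rw [bl_perm, lw_perm]; exact s2 _
    · intro t
      show RR * lw (fun t => v (π t)) (fun g => π.symm (b1 g)) 1 t <
        v (π t) (bl (fun g => π.symm (b2 g)) t)
      rw [bl_perm, lw_perm]; exact t1 _
    · intro t
      show v (π t) (bl (fun g => π.symm (b2 g)) t) ≤
        100002 / 100000 * (RR * lw (fun t => v (π t)) (fun g => π.symm (b1 g)) 1 t)
      rw [bl_perm, lw_perm]; exact t2 _
    · intro m
      fin_cases m
      · show LineFacts (fun t => v (π t)) (fun g => π.symm (b0 g)) 0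
          (fun t => 10001 / 10000 * lw (fun t => v (π t)) (fun g => π.symm (b0 g)) 0 t)
        have := x4.perm π
        refine this.mono fun t => ?_
        rw [lw_perm]
      · show LineFacts (fun t => v (π t)) (fun g => π.symm (b1 g)) 1
          (fun t => 10001 / 10000 * lw (fun t => v (π t)) (fun g => π.symm (b1 g)) 1 t)
        have := y4.perm π
        refine this.mono fun t => ?_
        rw [lw_perm]
      · show LineFacts (fun t => v (π t)) (fun g => π.symm (b2 g)) 2
          (fun t => 10001 / 10000 * lw (fun t => v (π t)) (fun g => π.symm (b2 g)) 2 t)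
        have := z4.perm π
        refine this.mono fun t => ?_
        rw [lw_perm]
  obtain ⟨c, hc⟩ := pre.chain
  exact ⟨c, _, hc⟩

end Pool.F6
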