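import Pool.Agent.F6.RectT

/-!
# The chain in mask form, and its rotation
-/

namespace Pool.F6

open Finset

/-- the masks of the bundles: coordinate `m` equals `t` -/
def dm (m t : Fin 3) : ℕ :=
  if m = 0 then (if t = 0 then 511 else if t = 1 then 261632 else 536608768)
  else if m = 1 then (if t = 0 then 404491783 else if t = 1 then 14708792 else 117670336)
  else (if t = 0 then 19173961 else if t = 1 then 441001106 else 76695844)

/-- the three parts of block 19 -/
def sv (k : Fin 3) : ℕ := if k = 0 then 19 else if k = 1 then 27 else 28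

/-- subdivision of the index -/
def sx (x y z k : Fin 3) : ℕ :=
  if 9 * x.val + 3 * y.val + z.val = 19 then sv k else 9 * x.val + 3 * y.val + z.val

lemma dm_bit : ∀ x y z m t k : Fin 3, (dm m t).testBit (sx x y z k) =
    decide ((if m = 0 then x else if m = 1 then y else z) = t) := by decide +kernel

lemma sx_lt : ∀ x y z k : Fin 3, sx x y z k < 29 := by decide

variable {G : Type*}

/-- index of the block of a good -/
def bx (σ : G → Fin 3) (b : Fin 3 → G → Fin 3) (g : G) : ℕ := sx (b 0 g) (b 1 g) (b 2 g) (σ g)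

lemma bx_lt (σ : G → Fin 3) (b : Fin 3 → G → Fin 3) (g : G) : bx σ b g < 29 := sx_lt _ _ _ _

variable [DecidableEq G] [Fintype G]

omit [DecidableEq G] in
lemma bm_dm (σ : G → Fin 3) (b : Fin 3 → G → Fin 3) (m t : Fin 3) :
    bm (bx σ b) (dm m t) = bl (b m) t := by
  ext g
  rw [mem_bm, mem_bl]
  unfold bx
  rw [dm_bit, decide_eq_true_iff]
  rcases aux3 m with rfl | rfl | rfl <;> simp

omit [DecidableEq G] in
lemma bm_FU (σ : G → Fin 3) (b : Fin 3 → G → Fin 3) : bm (bx σ b) FU = Finset.univ := by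
  ext g
  rw [mem_bm, FU_bit]
  simp [bx_lt σ b g]

/-- the basic lower bounds -/
def baseL : List Fc :=
  [⟨0, 404491783, 1000000000⟩, ⟨0, 511, 629900000⟩, ⟨0, 19173961, 793600000⟩,
   ⟨1, 441001106, 1000000000⟩, ⟨1, 14708792, 629900000⟩, ⟨1, 261632, 793600000⟩,
   ⟨2, 536608768, 1000000000⟩, ⟨2, 76695844, 629900000⟩, ⟨2, 117670336, 793600000⟩]

/-- the basic upper bounds -/
def baseU : List Fc := [⟨0, FU, 1191000000⟩, ⟨1, FU, 1191000000⟩, ⟨2, FU, 1191000000⟩]

/-- axioms, lower bounds, upper bounds -/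
structure Bs (L U : List Fc) (σ : G → Fin 3) (v : Fin 3 → Finset G → ℝ) (c : Fin 3 → ℝ)
    (b : Fin 3 → G → Fin 3) : Prop where
  ax : Ax v c
  em : ∀ t, v t ∅ ≤ 0
  one : ∀ g g', bx σ b g = 27 → bx σ b g' = 27 → g = g'
  L : ∀ f ∈ L, HL v c (bx σ b) f
  U : ∀ f ∈ U, HU v c (bx σ b) f

variable {σ : G → Fin 3} {v : Fin 3 → Finset G → ℝ} {c : Fin 3 → ℝ} {b : Fin 3 → G → Fin 3}

lemma Chain.ax (C : Chain v c b) : Ax v c where
  mono := C.inst.mono
  sa := C.inst.sub
  nn := C.inst.nn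
  ne := C.inst.nontrivial
  c_lo := C.c_lo
  top := C.inst.top
  S4 := fun _ h1 h2 => C.inst.S4 h1 h2
  S1 := fun _ h1 h2 k => C.inst.S1 h1 h2 k
  pr := C.pr

lemma sx27 : ∀ x y z k : Fin 3, sx x y z k = 27 → k = 1 := by decide

theorem Chain.bs (C : Chain v c b) (σ : G → Fin 3) (hσ : ∀ g g', σ g = 1 → σ g' = 1 → g = g') :
    Bs baseL baseU σ v c b := by
  have e00 : dm 0 0 = 511 := rfl
  have e11 : dm 1 1 = 14708792 := rfl
  have e22 : dm 2 2 = 76695844 := rfl
  have e10 : dm 1 0 = 404491783 := rfl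
  have e21 : dm 2 1 = 441001106 := rfl
  have e02 : dm 0 2 = 536608768 := rfl
  have e20 : dm 2 0 = 19173961 := rfl
  have e01 : dm 0 1 = 261632 := rfl
  have e12 : dm 1 2 = 117670336 := rfl
  refine ⟨C.ax, fun t => (C.inst.emp t).le,
    fun g g' h h' => hσ g g' (sx27 _ _ _ _ h) (sx27 _ _ _ _ h'), ?_, ?_⟩
  · intro f hf
    simp only [baseL, List.mem_cons, List.not_mem_nil, or_false] at hf
    rcases hf with rfl | rfl | rfl | rfl | rfl | rfl | rfl | rfl | rfl
    · show ((1000000000 : ℕ) : ℝ) * c 0 ≤ 10 ^ 9 * v 0 (bm (bx σ b) 404491783)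
      rw [← e10, bm_dm]
      have := C.vC 0
      rw [show (0 : Fin 3) + 1 = 1 from rfl] at this
      rw [this]
      norm_num
    · show ((629900000 : ℕ) : ℝ) * c 0 ≤ 10 ^ 9 * v 0 (bm (bx σ b) 511)
      rw [← e00, bm_dm]
      have := C.vD_lo 0
      norm_num
      linarith
    · show ((793600000 : ℕ) : ℝ) * c 0 ≤ 10 ^ 9 * v 0 (bm (bx σ b) 19173961)
      rw [← e20, bm_dm]
      have := C.vE_lo 0
      rw [show (0 : Fin 3) + 2 = 2 from rfl] at this
      norm_num
      linarith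
    · show ((1000000000 : ℕ) : ℝ) * c 1 ≤ 10 ^ 9 * v 1 (bm (bx σ b) 441001106)
      rw [← e21, bm_dm]
      have := C.vC 1
      rw [show (1 : Fin 3) + 1 = 2 from rfl] at this
      rw [this]
      norm_num
    · show ((629900000 : ℕ) : ℝ) * c 1 ≤ 10 ^ 9 * v 1 (bm (bx σ b) 14708792)
      rw [← e11, bm_dm]
      have := C.vD_lo 1
      norm_num
      linarith
    · show ((793600000 : ℕ) : ℝ) * c 1 ≤ 10 ^ 9 * v 1 (bm (bx σ b) 261632)
      rw [← e01, bm_dm]
      have := C.vE_lo 1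
      rw [show (1 : Fin 3) + 2 = 0 from rfl] at this
      norm_num
      linarith
    · show ((1000000000 : ℕ) : ℝ) * c 2 ≤ 10 ^ 9 * v 2 (bm (bx σ b) 536608768)
      rw [← e02, bm_dm]
      have := C.vC 2
      rw [show (2 : Fin 3) + 1 = 0 from rfl] at this
      rw [this]
      norm_num
    · show ((629900000 : ℕ) : ℝ) * c 2 ≤ 10 ^ 9 * v 2 (bm (bx σ b) 76695844)
      rw [← e22, bm_dm]
      have := C.vD_lo 2
      norm_num
      linarith
    · show ((793600000 : ℕ) : ℝ) * c 2 ≤ 10 ^ 9 * v 2 (bm (bx σ b) 117670336)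
      rw [← e12, bm_dm]
      have := C.vE_lo 2
      rw [show (2 : Fin 3) + 2 = 1 from rfl] at this
      norm_num
      linarith
  · intro f hf
    have hu := C.univ
    simp only [baseU, List.mem_cons, List.not_mem_nil, or_false] at hf
    rcases hf with rfl | rfl | rfl
    · show 10 ^ 9 * v 0 (bm (bx σ b) FU) ≤ ((1191000000 : ℕ) : ℝ) * c 0
      rw [bm_FU]
      have := hu 0
      norm_num
      linarith
    · show 10 ^ 9 * v 1 (bm (bx σ b) FU) ≤ ((1191000000 : ℕ) : ℝ) * c 1
      rw [bm_FU]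
      have := hu 1
      norm_num
      linarith
    · show 10 ^ 9 * v 2 (bm (bx σ b) FU) ≤ ((1191000000 : ℕ) : ℝ) * c 2
      rw [bm_FU]
      have := hu 2
      norm_num
      linarith

/-! ### Rotation -/

/-- rotated allocations -/
def rb3 (b : Fin 3 → G → Fin 3) : Fin 3 → G → Fin 3 := fun m g => b (m + 1) g + 2

/-- rotation of the block index -/
def ri (i : ℕ) : ℕ := if 27 ≤ i then i else
  9 * ((i % 3 + 1) % 3) + 3 * ((i / 9 + 1) % 3) + (i / 3 % 3 + 1) % 3

lemma ri_aux : ∀ x y z k : Fin 3, ri (sx (y + 2) (z + 2) (x + 2) k) = sx x y z k := by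
  decide +kernel

omit [DecidableEq G] [Fintype G] in
lemma ri_bx (b : Fin 3 → G → Fin 3) (g : G) : ri (bx σ (rb3 b) g) = bx σ b g :=
  ri_aux _ _ _ _

/-- `m'` is the rotation of `m` -/
def isRot (m m' : ℕ) : Bool := (List.range 29).all fun i => m.testBit i == m'.testBit (ri i)

omit [DecidableEq G] in
lemma bm_rot {m m' : ℕ} (h : isRot m m' = true) : bm (bx σ (rb3 b)) m = bm (bx σ b) m' := by
  unfold isRot at h
  rw [List.all_eq_true] at h
  ext g
  rw [mem_bm, mem_bm, ← ri_bx b g]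
  have h1 := h (bx σ (rb3 b) g) (List.mem_range.2 (bx_lt _ _ g))
  rw [beq_iff_eq] at h1
  rw [h1]

/-- `f'` is the rotation of `f` -/
def rotF (f f' : Fc) : Bool := f'.t == f.t + 1 && (isRot f.m f'.m && f'.w == f.w)

omit [DecidableEq G] in
lemma HU_rot {f f' : Fc} (h : rotF f f' = true) :
    HU (fun t => v (t + 1)) (fun t => c (t + 1)) (bx σ (rb3 b)) f ↔ HU v c (bx σ b) f' := by
  unfold rotF at h
  simp only [Bool.and_eq_true, beq_iff_eq] at h
  obtain ⟨h1, h2, h3⟩ := h
  unfold HU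
  rw [bm_rot h2, h1, h3]

omit [DecidableEq G] in
lemma HL_rot {f f' : Fc} (h : rotF f f' = true) :
    HL (fun t => v (t + 1)) (fun t => c (t + 1)) (bx σ (rb3 b)) f ↔ HL v c (bx σ b) f' := by
  unfold rotF at h
  simp only [Bool.and_eq_true, beq_iff_eq] at h
  obtain ⟨h1, h2, h3⟩ := h
  unfold HL
  rw [bm_rot h2, h1, h3]

lemma Ax.rot (A : Ax v c) : Ax (fun t => v (t + 1)) (fun t => c (t + 1)) := by
  have key : ∀ B : Fin 3 → Finset G, Disj B → EF1 (fun t => v (t + 1)) B →
      Disj (fun i => B (i + 2)) ∧ EF1 v (fun i => B (i + 2)) := by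
    intro B h1 h2
    refine ⟨fun i j hij => h1 _ _ (fun e => hij (add_right_cancel e)), ?_⟩
    intro i j hij
    have h := h2 (i + 2) (j + 2) (fun e => hij (add_right_cancel e))
    have e : ∀ i : Fin 3, i + 2 + 1 = i := by decide
    simp only [e] at h
    exact h
  have e2 : ∀ i : Fin 3, i + 1 + 2 = i := by decide
  refine ⟨fun i => A.mono _, fun i => A.sa _, fun i => A.nn _, A.ne, fun t => A.c_lo _, ?_, ?_,
    ?_, ?_⟩
  · intro B h1 h2 i
    obtain ⟨k1, k2⟩ := key B h1 h2
    have := A.top _ k1 k2 (i + 1)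
    simp only [e2] at this
    exact this
  · intro B h1 h2 h
    obtain ⟨k1, k2⟩ := key B h1 h2
    apply A.S4 _ k1 k2
    intro i
    have := h (i + 2)
    have e : ∀ i : Fin 3, i + 2 + 1 = i := by decide
    simp only [e] at this
    exact this
  · intro B h1 h2 k hk h
    obtain ⟨k1, k2⟩ := key B h1 h2
    apply A.S1 _ k1 k2 (k + 1)
    · simp only [e2]
      exact hk
    · intro i hi
      have e : ∀ i : Fin 3, i + 2 + 1 = i := by decide
      have := h (i + 2) (by
        rintro rfl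
        rw [e] at hi
        exact hi rfl)
      simp only [e] at this
      exact this
  · intro B h1 h2
    obtain ⟨k1, k2⟩ := key B h1 h2
    have := A.pr _ k1 k2
    simp only [show (0 : Fin 3) + 2 = 2 from rfl, show (1 : Fin 3) + 2 = 0 from rfl,
      show (2 : Fin 3) + 2 = 1 from rfl] at this
    show v (0 + 1) (B 0) * v (1 + 1) (B 1) * v (2 + 1) (B 2) < 1251 / 10000 * (c (0 + 1) *
      c (1 + 1) * c (2 + 1))
    simp only [show (0 : Fin 3) + 1 = 1 from rfl, show (1 : Fin 3) + 1 = 2 from rfl,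
      show (2 : Fin 3) + 1 = 0 from rfl]
    linarith

/-- every fact of the first list is rotated into the second list -/
def rotL (L L' : List Fc) : Bool := L.all fun f => L'.any fun f' => rotF f f'

lemma Bs.rot {L U L' U' : List Fc} (h : Bs L U σ v c b) (hL : rotL L' L = true)
    (hU : rotL U' U = true) :
    Bs L' U' σ (fun t => v (t + 1)) (fun t => c (t + 1)) (rb3 b) := by
  have key : ∀ g, bx σ (rb3 b) g = 27 → bx σ b g = 27 := by
    intro g hg
    rw [← ri_bx b g, hg]
    rfl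
  refine ⟨h.ax.rot, fun t => h.em _, fun g g' h1 h2 => h.one g g' (key g h1) (key g' h2),
    ?_, ?_⟩
  · intro f hf
    unfold rotL at hL
    rw [List.all_eq_true] at hL
    have h1 := hL f hf
    rw [List.any_eq_true] at h1
    obtain ⟨f', hf', h2⟩ := h1
    exact (HL_rot h2).2 (h.L f' hf')
  · intro f hf
    unfold rotL at hU
    rw [List.all_eq_true] at hU
    have h1 := hU f hf
    rw [List.any_eq_true] at h1
    obtain ⟨f', hf', h2⟩ := h1
    exact (HU_rot h2).2 (h.U f' hf')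

lemma Bs.fs {L U : List Fc} (h : Bs L U σ v c b) : (⟨L, U⟩ : Fs).ok v c (bx σ b) := ⟨h.L, h.U⟩

/-- one rectangle step -/
theorem Bs.step {L U : List Fc} (h : Bs L U σ v c b) {T : List Fc} {R : RectC}
    (hR : rectOK ⟨L, U⟩ [T] R = true) : ∀ f ∈ T, HU v c (bx σ b) f :=
  rect_ok h.ax (bx_lt σ b) h.one h.fs h.em hR

/-- one rectangle step with alternatives -/
theorem Bs.stepOr {L U : List Fc} (h : Bs L U σ v c b) {Ts : List (List Fc)} {R : RectC}
    (hR : rectOK ⟨L, U⟩ Ts R = true) : ∃ T ∈ Ts, ∀ f ∈ T, HU v c (bx σ b) f :=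
  rect_or h.ax (bx_lt σ b) h.one h.fs h.em hR

/-- check of a derived lower bound -/
def lowOK (F : Fs) (f : Fc) (il : ℕ) (ius : List ℕ) : Bool :=
  sub (sbt F.U f.t ius (lget F.L il f.t)).1 f.m &&
    Nat.ble f.w (sbt F.U f.t ius (lget F.L il f.t)).2

/-- a derived lower bound -/
theorem Bs.low {L U : List Fc} (h : Bs L U σ v c b) {f : Fc} {il : ℕ} {ius : List ℕ}
    (hf : lowOK ⟨L, U⟩ f il ius = true) : HL v c (bx σ b) f := by
  unfold lowOK at hf
  rw [Bool.and_eq_true] at hf
  have hp := h.ax.sbt (bx_lt σ b) h.U h.em f.t ius (lget L il f.t) (h.ax.lgetL h.L il f.t)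
  have h1 := h.ax.mono f.t (bm_mono (β := bx σ b) hf.1)
  have h2 : (f.w : ℝ) ≤ ((sbt U f.t ius (lget L il f.t)).2 : ℕ) := by
    exact_mod_cast Nat.le_of_ble_eq_true hf.2
  have hc := h.ax.c_lo f.t
  unfold HL
  nlinarith

/-- extend the list of upper bounds -/
lemma Bs.ext {L U T : List Fc} (h : Bs L U σ v c b) (hT : ∀ f ∈ T, HU v c (bx σ b) f) :
    Bs L (U ++ T) σ v c b := by
  refine ⟨h.ax, h.em, h.one, h.L, ?_⟩
  intro f hf
  rcases List.mem_append.1 hf with hf | hf
  · exact h.U f hf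
  · exact hT f hf

/-- extend the list of lower bounds -/
lemma Bs.extL {L U T : List Fc} (h : Bs L U σ v c b) (hT : ∀ f ∈ T, HL v c (bx σ b) f) :
    Bs (L ++ T) U σ v c b := by
  refine ⟨h.ax, h.em, h.one, ?_, h.U⟩
  intro f hf
  rcases List.mem_append.1 hf with hf | hf
  · exact h.L f hf
  · exact hT f hf

/-- rectangle step used with all rotations; the lists `L`, `U` are closed under rotation -/
theorem Bs.step3 {L U : List Fc} (h : Bs L U σ v c b) (hL : rotL L L = true)
    (hU : rotL U U = true) {T T1 T2 : List Fc} {R : RectC} (hR : rectOK ⟨L, U⟩ [T] R = true)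
    (h1 : (T1.all fun f' => T.any fun f => rotF f f') = true)
    (h2 : (T2.all fun f' => T1.any fun f => rotF f f') = true) :
    Bs L (U ++ (T ++ T1 ++ T2)) σ v c b := by
  have k0 := h.step hR
  have r1 := h.rot hL hU
  have r2 := r1.rot hL hU
  have k1 := r1.step hR
  have k2 := r2.step hR
  apply h.ext
  intro f hf
  have go : ∀ {v : Fin 3 → Finset G → ℝ} {c : Fin 3 → ℝ} {b : Fin 3 → G → Fin 3} {T T1 : List Fc},
      (T1.all fun f' => T.any fun f => rotF f f') = true →
      (∀ f ∈ T, HU (fun t => v (t + 1)) (fun t => c (t + 1)) (bx σ (rb3 b)) f) →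
      ∀ f ∈ T1, HU v c (bx σ b) f := by
    intro v c b T T1 h1 hk f hf
    rw [List.all_eq_true] at h1
    have h3 := h1 f hf
    rw [List.any_eq_true] at h3
    obtain ⟨f0, hf0, h4⟩ := h3
    exact (HU_rot h4).1 (hk f0 hf0)
  rcases List.mem_append.1 hf with hf | hf
  · rcases List.mem_append.1 hf with hf | hf
    · exact k0 f hf
    · exact go h1 k1 f hf
  · have k3 := go (v := fun t => v (t + 1)) (c := fun t => c (t + 1)) (b := rb3 b) h1 k2
    exact go h2 k3 f hf

/-- contradiction from a nerve certificate -/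
theorem Bs.root {L U : List Fc} (h : Bs L U σ v c b) {regs : List RC}
    {tris : List (ℕ × ℕ × ℕ × ℕ)} (hr : nvOK ⟨L, U⟩ regs tris kloop = true) : False :=
  nv_false h.ax (bx_lt σ b) h.fs h.em hr

end Pool.F6
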