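import Pool.Agent.F6.Maj

/-!
# Label systems and the edge cochain
-/

namespace Pool.F6

open Finset

/-- label functions `lab i x H`: favourite piece of agent `i` in the placement `x`, when the goods
in `H` are hidden from her -/
structure LabSys (G : Type*) [DecidableEq G] where
  lab : Fin 3 → (G → Fin 3) → Finset G → Fin 3
  hide : ∀ i x H g, g ∉ H → lab i x H = lab i x (insert g H) ∨ lab i x H = x g
  indep : ∀ i x H g s, g ∈ H → lab i (Function.update x g s) H = lab i x H

variable {G : Type*} [DecidableEq G] (S : LabSys G)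

/-- labels in the state `(x; H)` -/
def LabSys.L (x : G → Fin 3) (H : Fin 3 → Finset G) : Lb := fun i => S.lab i x (H i)

/-- the agents in `A` hide the good `g` -/
def hs (A : Finset (Fin 3)) (g : G) : Fin 3 → Finset G := fun i => if i ∈ A then {g} else ∅

/-- labels when the agents in `A` hide `g` -/
def LabSys.X (x : G → Fin 3) (g : G) (A : Finset (Fin 3)) : Lb := S.L x (hs A g)

lemma X_apply (x : G → Fin 3) (g : G) (A : Finset (Fin 3)) (i : Fin 3) :
    S.X x g A i = if i ∈ A then S.lab i x {g} else S.lab i x ∅ := by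
  unfold LabSys.X LabSys.L hs
  split_ifs <;> rfl

lemma X_update_mem (x : G → Fin 3) (g : G) (s : Fin 3) (A : Finset (Fin 3)) (i : Fin 3)
    (hi : i ∈ A) : S.X (Function.update x g s) g A i = S.X x g A i := by
  rw [X_apply, X_apply, if_pos hi, if_pos hi]
  exact S.indep i x {g} g s (Finset.mem_singleton_self g)

lemma X_univ_update (x : G → Fin 3) (g : G) (s : Fin 3) :
    S.X (Function.update x g s) g Finset.univ = S.X x g Finset.univ := by
  funext i
  exact X_update_mem S x g s _ i (Finset.mem_univ i)

/-- cost of hiding `g` from the two agents other than `ν` -/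
def hr (ν : Fin 3) (x : G → Fin 3) (g : G) : ZMod 2 :=
  th (S.X x g ∅) (S.X x g {ν + 1}) + th (S.X x g {ν + 1}) (S.X x g {ν + 1, ν + 2})

/-- edge sum with viewer `ν`: the good `g` moves to the piece `s` -/
def fv (ν : Fin 3) (x : G → Fin 3) (g : G) (s : Fin 3) : ZMod 2 :=
  hr S ν x g + th (S.X x g {ν + 1, ν + 2}) (S.X (Function.update x g s) g {ν + 1, ν + 2})
    + hr S ν (Function.update x g s) g

/-- all states at `x` where `ν` sees `g` are non-bijective -/
def VOK (ν : Fin 3) (x : G → Fin 3) (g : G) : Prop :=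
  ∀ A : Finset (Fin 3), ν ∉ A → NB (S.X x g A)

/-- the edge is good for the viewer `ν` -/
def EOK (ν : Fin 3) (x : G → Fin 3) (g : G) (s : Fin 3) : Prop :=
  VOK S ν x g ∧ VOK S ν (Function.update x g s) g

lemma fv_triv (ν : Fin 3) (x : G → Fin 3) (g : G) : fv S ν x g (x g) = 0 := by
  unfold fv
  rw [Function.update_eq_self, th_self, add_zero, z2_add_self]

lemma fv_symm (ν : Fin 3) (x : G → Fin 3) (g : G) (s : Fin 3) :
    fv S ν (Function.update x g s) g (x g) = fv S ν x g s := by
  unfold fv
  rw [Function.update_idem, Function.update_eq_self, th_symm]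
  ring

lemma X_ne (x : G → Fin 3) (g : G) (A B : Finset (Fin 3)) (i : Fin 3)
    (h : i ∈ A ↔ i ∈ B) : S.X x g A i = S.X x g B i := by
  rw [X_apply, X_apply]
  by_cases hi : i ∈ A
  · rw [if_pos hi, if_pos (h.1 hi)]
  · rw [if_neg hi, if_neg (fun hB => hi (h.2 hB))]

/-- order in which two agents hide is irrelevant -/
lemma X_sq (x : G → Fin 3) (g : G) (A : Finset (Fin 3)) (i j : Fin 3)
    (h0 : NB (S.X x g A)) (h1 : NB (S.X x g (insert i A))) (h2 : NB (S.X x g (insert j A)))
    (h3 : NB (S.X x g (insert j (insert i A)))) :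
    th (S.X x g A) (S.X x g (insert i A)) + th (S.X x g (insert i A)) (S.X x g (insert j (insert i A)))
      = th (S.X x g A) (S.X x g (insert j A)) +
        th (S.X x g (insert j A)) (S.X x g (insert j (insert i A))) := by
  apply unit_sq i j
  · intro k hk
    apply X_ne
    simp [hk]
  · intro k hk
    apply X_ne
    simp [hk]
  · intro k hk
    apply X_ne
    simp [hk]
  · intro k hk
    apply X_ne
    simp [hk]
  · exact h0
  · exact h1
  · exact h2
  · exact h3

lemma lab_hide1 (i : Fin 3) (x : G → Fin 3) (g : G) :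
    S.lab i x ∅ = S.lab i x {g} ∨ S.lab i x ∅ = x g := by
  have h := S.hide i x ∅ g (Finset.notMem_empty g)
  rwa [insert_empty_eq] at h

/-- if everybody hiding is bijective and `ν` sees `g` OK then `x g` is not her hidden label -/
lemma VOK_ne (ν : Fin 3) (x : G → Fin 3) (g : G) (h : VOK S ν x g)
    (hb : ¬ NB (S.X x g Finset.univ)) : x g ≠ S.lab ν x {g} := by
  intro hx
  apply hb
  have h1 := h (Finset.univ.erase ν) (Finset.notMem_erase ν _)
  have h2 : S.X x g (Finset.univ.erase ν) = S.X x g Finset.univ := by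
    funext i
    by_cases hi : i = ν
    · subst hi
      rw [X_apply, X_apply, if_neg (Finset.notMem_erase i _), if_pos (Finset.mem_univ i)]
      rcases lab_hide1 S i x g with h3 | h3
      · exact h3
      · rw [h3, hx]
    · apply X_ne
      simp [hi]
  rwa [h2] at h1

lemma not_NB_inj {l : Lb} (h : ¬ NB l) : Function.Injective l := by
  unfold NB at h
  push Not at h
  obtain ⟨h1, h2, h3⟩ := h
  intro a b hab
  fin_cases a <;> fin_cases b <;> simp_all

lemma NB_univ (ν ν' : Fin 3) (hν : ν ≠ ν') (x : G → Fin 3) (g : G) (s : Fin 3) (hs : s ≠ x g)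
    (h : EOK S ν x g s) (h' : EOK S ν' x g s) : NB (S.X x g Finset.univ) := by
  by_contra hb
  have hb' : ¬ NB (S.X (Function.update x g s) g Finset.univ) := by
    rw [X_univ_update]
    exact hb
  have e1 := VOK_ne S ν x g h.1 hb
  have e2 := VOK_ne S ν' x g h'.1 hb
  have e3 := VOK_ne S ν _ g h.2 hb'
  have e4 := VOK_ne S ν' _ g h'.2 hb'
  rw [Function.update_self, S.indep ν x {g} g s (Finset.mem_singleton_self g)] at e3
  rw [Function.update_self, S.indep ν' x {g} g s (Finset.mem_singleton_self g)] at e4
  have hinj := not_NB_inj hb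
  have hX : ∀ i, S.X x g Finset.univ i = S.lab i x {g} := by
    intro i
    rw [X_apply, if_pos (Finset.mem_univ i)]
  have hsurj := Finite.surjective_of_injective hinj
  obtain ⟨k, hk⟩ := hsurj (x g)
  obtain ⟨k', hk'⟩ := hsurj s
  rw [hX] at hk hk'
  have k1 : k ≠ ν := fun e => e1 (by rw [← hk, e])
  have k2 : k ≠ ν' := fun e => e2 (by rw [← hk, e])
  have k3 : k' ≠ ν := fun e => e3 (by rw [← hk', e])
  have k4 : k' ≠ ν' := fun e => e4 (by rw [← hk', e])
  have : k = k' := by
    revert k1 k2 k3 k4 hν
    clear * -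
    revert k k' ν ν'
    decide
  exact hs (by rw [← hk', ← hk, this])

/-- full hiding path in the order `i, j, k` -/
def ph (x : G → Fin 3) (g : G) (i j k : Fin 3) : ZMod 2 :=
  th (S.X x g ∅) (S.X x g {i}) + th (S.X x g {i}) (S.X x g {i, j})
    + th (S.X x g {i, j}) (S.X x g {i, j, k})

lemma notMem_oth : ∀ ν : Fin 3, ν ∉ ({ν + 1, ν + 2} : Finset (Fin 3)) := by decide

lemma mem_oth : ∀ ν k : Fin 3, k ≠ ν → k ∈ ({ν + 1, ν + 2} : Finset (Fin 3)) := by decide

lemma three_univ : ∀ ν : Fin 3, ({ν + 1, ν + 2, ν} : Finset (Fin 3)) = Finset.univ := by decide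

/-- for a good edge on which the all-hidden state is non-bijective the sum splits -/
lemma fv_split (ν : Fin 3) (x : G → Fin 3) (g : G) (s : Fin 3) (h : EOK S ν x g s)
    (hU : NB (S.X x g Finset.univ)) :
    fv S ν x g s = ph S x g (ν + 1) (ν + 2) ν + ph S (Function.update x g s) g (ν + 1) (ν + 2) ν := by
  unfold fv ph hr
  rw [three_univ, X_univ_update]
  have hnot := notMem_oth ν
  have h1 : th (S.X x g {ν + 1, ν + 2}) (S.X x g Finset.univ) +
      th (S.X x g Finset.univ) (S.X (Function.update x g s) g {ν + 1, ν + 2})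
      = th (S.X x g {ν + 1, ν + 2}) (S.X (Function.update x g s) g {ν + 1, ν + 2}) := by
    have hmem := mem_oth ν
    apply unit_tri ν
    · intro k hk
      apply X_ne
      simp only [Finset.mem_univ, true_iff]
      exact hmem k hk
    · intro k hk
      rw [X_update_mem S x g s _ k (hmem k hk)]
      apply X_ne
      simp only [Finset.mem_univ, iff_true]
      exact hmem k hk
    · exact h.1 _ hnot
    · exact hU
    · exact h.2 _ hnot
  rw [← h1, th_symm (S.X x g Finset.univ)]
  ring

/-- `ph` only depends on the placement, for orders ending in an agent whose states are OK -/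
lemma ph_swap12 (x : G → Fin 3) (g : G) (i j k : Fin 3)
    (h : VOK S k x g) (hik : i ≠ k) (hjk : j ≠ k) :
    ph S x g i j k = ph S x g j i k := by
  unfold ph
  have h0 := h ∅ (by simp)
  have h1 := h {i} (by simp [Ne.symm hik])
  have h2 := h {j} (by simp [Ne.symm hjk])
  have h3 := h {i, j} (by simp [Ne.symm hik, Ne.symm hjk])
  have e := X_sq S x g ∅ i j h0 (by simpa using h1) (by simpa using h2)
    (by
      have : insert j (insert i (∅ : Finset (Fin 3))) = {i, j} := by
        ext a; simp only [Finset.mem_insert, Finset.mem_singleton, Finset.notMem_empty]; tauto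
      rw [this]; exact h3)
  have s1 : insert j (insert i (∅ : Finset (Fin 3))) = {i, j} := by
    ext a; simp only [Finset.mem_insert, Finset.mem_singleton, Finset.notMem_empty]; tauto
  have s2 : ({j, i} : Finset (Fin 3)) = {i, j} := Finset.pair_comm j i
  have s3 : ({j, i, k} : Finset (Fin 3)) = {i, j, k} := Finset.insert_comm j i {k}
  rw [s1] at e
  rw [s2, s3]
  simp only [insert_empty_eq] at e
  rw [e]

lemma ph_swap23 (x : G → Fin 3) (g : G) (i j k : Fin 3)
    (hj : VOK S j x g) (hk : VOK S k x g) (hij : i ≠ j) (hik : i ≠ k) (hjk : j ≠ k)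
    (hU : NB (S.X x g Finset.univ)) :
    ph S x g i j k = ph S x g i k j := by
  unfold ph
  have hU' : ({i, j, k} : Finset (Fin 3)) = Finset.univ := by
    clear * - hij hik hjk; revert i j k; decide
  have hU'' : ({i, k, j} : Finset (Fin 3)) = Finset.univ := by
    clear * - hij hik hjk; revert i j k; decide
  have e := X_sq S x g {i} j k (hj {i} (by simp [Ne.symm hij]))
    (hk (insert j {i}) (by simp [Ne.symm hjk, Ne.symm hik]))
    (hj (insert k {i}) (by simp [hjk, Ne.symm hij]))
    (by
      have : insert k (insert j ({i} : Finset (Fin 3))) = Finset.univ := by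
        clear * - hij hik hjk; revert i j k; decide
      rw [this]; exact hU)
  have s0 : insert k (insert j ({i} : Finset (Fin 3))) = Finset.univ := by
    clear * - hij hik hjk; revert i j k; decide
  have s1 : insert j ({i} : Finset (Fin 3)) = {i, j} := Finset.pair_comm j i
  have s2 : insert k ({i} : Finset (Fin 3)) = {i, k} := Finset.pair_comm k i
  rw [s0, s1, s2] at e
  rw [hU', hU'', add_assoc, add_assoc, e]

/-- route equivalence: the edge sum does not depend on the viewer -/
theorem fv_eq (ν ν' : Fin 3) (x : G → Fin 3) (g : G) (s : Fin 3)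
    (h : EOK S ν x g s) (h' : EOK S ν' x g s) : fv S ν x g s = fv S ν' x g s := by
  by_cases hs : s = x g
  · subst hs
    rw [fv_triv, fv_triv]
  by_cases hν : ν = ν'
  · rw [hν]
  have hU := NB_univ S ν ν' hν x g s hs h h'
  have hU2 : NB (S.X (Function.update x g s) g Finset.univ) := by
    rw [X_univ_update]; exact hU
  rw [fv_split S ν x g s h hU, fv_split S ν' x g s h' hU]
  have key : ∀ y : G → Fin 3, VOK S ν y g → VOK S ν' y g → NB (S.X y g Finset.univ) →
      ph S y g (ν + 1) (ν + 2) ν = ph S y g (ν' + 1) (ν' + 2) ν' := by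
    intro y hy hy' hyU
    have hcase : ν' = ν + 1 ∨ ν' = ν + 2 := by
      clear * - hν; revert ν ν'; decide
    have n1 : ν + 1 ≠ ν := by clear * -; revert ν; decide
    have n2 : ν + 2 ≠ ν := by clear * -; revert ν; decide
    have n3 : ν + 1 ≠ ν + 2 := by clear * -; revert ν; decide
    rcases hcase with rfl | rfl
    · -- target order (ν+2, ν, ν+1)
      have a1 : ν + 1 + 1 = ν + 2 := by clear * -; revert ν; decide
      have a2 : ν + 1 + 2 = ν := by clear * -; revert ν; decide
      rw [a1, a2, ph_swap12 S y g (ν + 1) (ν + 2) ν hy n1 n2,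
        ph_swap23 S y g (ν + 2) (ν + 1) ν hy' hy n3.symm n2 n1 hyU]
    · -- target order (ν, ν+1, ν+2)
      have a1 : ν + 2 + 1 = ν := by clear * -; revert ν; decide
      have a2 : ν + 2 + 2 = ν + 1 := by clear * -; revert ν; decide
      rw [a1, a2, ph_swap23 S y g (ν + 1) (ν + 2) ν hy' hy n3 n1 n2 hyU,
        ph_swap12 S y g (ν + 1) ν (ν + 2) hy' n3 (Ne.symm n2)]
  rw [key x h.1 h'.1 hU, key _ h.2 h'.2 hU2]

/-- triangles are closed -/
theorem fv_tri (ν : Fin 3) (x : G → Fin 3) (g : G) (s t : Fin 3)
    (h : VOK S ν x g) (h1 : VOK S ν (Function.update x g s) g)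
    (h2 : VOK S ν (Function.update x g t) g) :
    fv S ν x g s + fv S ν (Function.update x g s) g t = fv S ν x g t := by
  unfold fv
  rw [Function.update_idem]
  have hnot := notMem_oth ν
  have hmem := mem_oth ν
  have e : th (S.X x g {ν + 1, ν + 2}) (S.X (Function.update x g s) g {ν + 1, ν + 2}) +
      th (S.X (Function.update x g s) g {ν + 1, ν + 2}) (S.X (Function.update x g t) g {ν + 1, ν + 2})
      = th (S.X x g {ν + 1, ν + 2}) (S.X (Function.update x g t) g {ν + 1, ν + 2}) := by
    apply unit_tri ν
    · intro k hk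
      exact X_update_mem S x g s _ k (hmem k hk)
    · intro k hk
      rw [X_update_mem S x g s _ k (hmem k hk), X_update_mem S x g t _ k (hmem k hk)]
    · exact h _ hnot
    · exact h1 _ hnot
    · exact h2 _ hnot
  rw [← e]
  have z := z2_add_self (hr S ν (Function.update x g s) g)
  linear_combination z

end Pool.F6
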