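import Pool.Agent.F6.Rect

/-!
# Block placements; the basic splitting theorem from an allocation
-/

namespace Pool.F6

open Finset

variable {G : Type*} [DecidableEq G] [Fintype G]

/-- block placement -/
def pb {n : ℕ} (b : G → Fin n) (σ : Fin n → Fin 3) : G → Fin 3 := fun g => σ (b g)

/-- block region -/
def rb {n : ℕ} (b : G → Fin n) (R : Fin n → Finset (Fin 3)) : G → Finset (Fin 3) :=
  fun g => R (b g)

omit [DecidableEq G] [Fintype G] in
lemma mem_rb {n : ℕ} {b : G → Fin n} {R : Fin n → Finset (Fin 3)} {σ : Fin n → Fin 3}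
    (h : ∀ i, σ i ∈ R i) : Mem (rb b R) (pb b σ) := fun g => h (b g)

/-- block `i` -/
def bl {n : ℕ} (b : G → Fin n) (i : Fin n) : Finset G := Finset.univ.filter fun g => b g = i

omit [DecidableEq G] in
lemma mem_bl {n : ℕ} {b : G → Fin n} {i : Fin n} {g : G} : g ∈ bl b i ↔ b g = i := by
  simp [bl]

variable {v : Fin 3 → Finset G → ℝ} {hv : ∀ i, Monotone (v i)}

/-- additivity in a block region, as used in certificates -/
lemma AddOn.tri {S : LabSys G} {n : ℕ} {b : G → Fin n} {R : Fin n → Finset (Fin 3)}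
    (h : AddOn S (rb b R)) (σ τ ρ : Fin n → Fin 3) (h1 : ∀ i, σ i ∈ R i) (h2 : ∀ i, τ i ∈ R i)
    (h3 : ∀ i, ρ i ∈ R i) : D S (pb b σ) (pb b τ) + D S (pb b τ) (pb b ρ) =
      D S (pb b σ) (pb b ρ) :=
  h _ _ _ (mem_rb h1) (mem_rb h2) (mem_rb h3)

/-- the FT theorem: from any allocation, an incomplete EF1 allocation with one full winner and two
halves, or two full winners and a third -/
theorem FT [Nontrivial G] (hv : ∀ i, Monotone (v i)) (hs : ∀ i S T, v i (S ∪ T) ≤ v i S + v i T)
    (b : G → Fin 3) :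
    (∃ j, ∃ B : Fin 3 → Finset G, Disj B ∧ EF1 v B ∧ v j (bl b j) ≤ v j (B j) ∧
      ∀ i, v i (bl b i) ≤ 2 * v i (B i)) ∨
    (∃ i, ∃ B : Fin 3 → Finset G, Disj B ∧ EF1 v B ∧ v i (bl b i) ≤ 3 * v i (B i) ∧
      ∀ k, k ≠ i → v k (bl b k) ≤ v k (B k)) := by
  by_contra hcon
  push Not at hcon
  obtain ⟨hc1, hc2⟩ := hcon
  set S := valSys v hv with hS
  have hF : FaceOK S := valSys_face v hv
  -- type 1 regions
  have hT1 : ∀ (j : Fin 3) (R : Fin 3 → Finset (Fin 3)) (p : Fin 3), R j = {p} →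
      (∀ i, ∃ k k', R i ⊆ {k, k'}) → AddOn S (rb b R) := by
    intro j R p hj hR
    apply Dead.addOn (V := b)
    intro x hx H hH hc
    by_contra hb
    obtain ⟨B, h1, h2, h3, _⟩ := extract_cons v hv x H hb hc
    obtain ⟨i, hi⟩ := hc1 j B h1 h2 (by
      apply guar1 (hv j) hx hH (k := p) (j := j)
      · intro g hg
        rw [mem_bl] at hg
        unfold rb
        rw [hg, hj]
      · exact h3 j)
    obtain ⟨k, k', hk⟩ := hR i
    have := guar2 (hv i) (hs i) hx hH (j := i) (T := bl b i) (k := k) (k' := k') (by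
      intro g hg
      rw [mem_bl] at hg
      unfold rb
      rw [hg]
      exact ⟨hk, Or.inl rfl⟩) (h3 i)
    linarith
  -- type 2 regions
  have hT2 : ∀ (i : Fin 3) (R : Fin 3 → Finset (Fin 3)), (∀ k, k ≠ i → ∃ p, R k = {p}) →
      AddOn S (rb b R) := by
    intro i R hR
    apply Dead.addOn (V := b)
    intro x hx H hH hc
    by_contra hb
    obtain ⟨B, h1, h2, h3, _⟩ := extract_cons v hv x H hb hc
    have hi := guar3 (hv i) (hs i) hH (j := i) (T := bl b i) (by
      intro g hg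
      rw [mem_bl] at hg
      exact Or.inl hg) (h3 i)
    obtain ⟨k, hk, hk'⟩ := hc2 i B h1 h2 hi
    obtain ⟨p, hp⟩ := hR k hk
    have := guar1 (hv k) hx hH (k := p) (j := k) (T := bl b k) (by
      intro g hg
      rw [mem_bl] at hg
      unfold rb
      rw [hg, hp]) (h3 k)
    linarith
  -- faces
  have hF0 := hF.addOn 0 (rb b (fun _ => {1, 2})) (by intro g; simp [rb])
  have hF1 := hF.addOn 1 (rb b (fun _ => {0, 2})) (by intro g; simp [rb])
  have hF2 := hF.addOn 2 (rb b (fun _ => {0, 1})) (by intro g; simp [rb])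
  have f1 := hF2.tri ![0,0,0] ![1,0,0] ![1,1,0] (by decide) (by decide) (by decide)
  have f2 := hF2.tri ![0,0,0] ![1,1,0] ![1,1,1] (by decide) (by decide) (by decide)
  have f3 := hF0.tri ![1,1,1] ![2,1,1] ![2,2,1] (by decide) (by decide) (by decide)
  have f4 := hF0.tri ![1,1,1] ![2,2,1] ![2,2,2] (by decide) (by decide) (by decide)
  have f5 := hF1.tri ![0,0,0] ![2,0,0] ![2,2,0] (by decide) (by decide) (by decide)
  have f6 := hF1.tri ![0,0,0] ![2,2,0] ![2,2,2] (by decide) (by decide) (by decide)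
  -- triangles
  have t1 := (hT2 0 ![Finset.univ, {0}, {0}] (by decide)).tri ![0,0,0] ![1,0,0] ![2,0,0]
    (by decide) (by decide) (by decide)
  have t2 := (hT2 1 ![{2}, Finset.univ, {0}] (by decide)).tri ![2,0,0] ![2,1,0] ![2,2,0]
    (by decide) (by decide) (by decide)
  have t3 := (hT2 2 ![{2}, {2}, Finset.univ] (by decide)).tri ![2,2,0] ![2,2,1] ![2,2,2]
    (by decide) (by decide) (by decide)
  -- squares
  have q1 := hT1 2 ![{1, 2}, {0, 1}, {0}] 0 (by decide) (by decide)
  have q1a := q1.tri ![1,0,0] ![2,0,0] ![2,1,0] (by decide) (by decide) (by decide)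
  have q1b := q1.tri ![1,0,0] ![1,1,0] ![2,1,0] (by decide) (by decide) (by decide)
  have q2 := hT1 1 ![{1, 2}, {1}, {0, 1}] 1 (by decide) (by decide)
  have q2a := q2.tri ![1,1,0] ![2,1,0] ![2,1,1] (by decide) (by decide) (by decide)
  have q2b := q2.tri ![1,1,0] ![1,1,1] ![2,1,1] (by decide) (by decide) (by decide)
  have q3 := hT1 0 ![{2}, {1, 2}, {0, 1}] 2 (by decide) (by decide)
  have q3a := q3.tri ![2,1,0] ![2,2,0] ![2,2,1] (by decide) (by decide) (by decide)
  have q3b := q3.tri ![2,1,0] ![2,1,1] ![2,2,1] (by decide) (by decide) (by decide)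
  apply kkm_contra hF
  have c0 : (cst 0 : G → Fin 3) = pb b ![0,0,0] := by
    funext g; unfold cst pb; generalize b g = u; revert u; decide
  have c1 : (cst 1 : G → Fin 3) = pb b ![1,1,1] := by
    funext g; unfold cst pb; generalize b g = u; revert u; decide
  have c2 : (cst 2 : G → Fin 3) = pb b ![2,2,2] := by
    funext g; unfold cst pb; generalize b g = u; revert u; decide
  rw [c0, c1, c2]
  linear_combination (norm := (ring_nf; reduce_mod_char)) f1 + f2 + f3 + f4 + f5 + f6 + t1 + t2 +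
    t3 + q1a + q1b + q2a + q2b + q3a + q3b

end Pool.F6
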