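import Pool.Agent.F6.Mask

/-!
# Facts, guarantees and dead regions, coded by numbers
-/

namespace Pool.F6

open Finset

/-- a fact: agent, mask, value in units `10 ^ (-9)` -/
structure Fc where
  t : Fin 3
  m : ℕ
  w : ℕ

/-- lists of lower and upper bounds -/
structure Fs where
  L : List Fc
  U : List Fc

variable {G : Type*} [DecidableEq G] [Fintype G]

/-- the lower bound holds -/
def HL (v : Fin 3 → Finset G → ℝ) (c : Fin 3 → ℝ) (β : G → ℕ) (f : Fc) : Prop :=
  (f.w : ℝ) * c f.t ≤ 10 ^ 9 * v f.t (bm β f.m)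

/-- the upper bound holds -/
def HU (v : Fin 3 → Finset G → ℝ) (c : Fin 3 → ℝ) (β : G → ℕ) (f : Fc) : Prop :=
  10 ^ 9 * v f.t (bm β f.m) ≤ (f.w : ℝ) * c f.t

/-- all facts hold -/
def Fs.ok (v : Fin 3 → Finset G → ℝ) (c : Fin 3 → ℝ) (β : G → ℕ) (F : Fs) : Prop :=
  (∀ f ∈ F.L, HL v c β f) ∧ ∀ f ∈ F.U, HU v c β f

/-- the fact with a given index, for agent `t` -/
def lget (L : List Fc) (i : ℕ) (t : Fin 3) : ℕ × ℕ :=
  match L[i]? with
  | none => (0, 0)
  | some f => if f.t = t then (f.m, f.w) else (0, 0)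

/-- subtract upper bounds -/
def sbt (U : List Fc) (t : Fin 3) : List ℕ → ℕ × ℕ → ℕ × ℕ
  | [], p => p
  | i :: is, p => sbt U t is (Nat.land p.1 (Nat.xor FU (lget U i t).1), p.2 - (lget U i t).2)

/-- guarantee data: index of the lower bound, indices of subtracted upper bounds, number of
pieces, the piece (one piece) or the excluded piece (two pieces) -/
structure Gd where
  il : ℕ
  ius : List ℕ
  ty : ℕ
  k : Fin 3

/-- blocks allowed in at least two pieces -/
def M3.free (a : M3) : ℕ :=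
  Nat.lor (Nat.lor (Nat.land a.a0 a.a1) (Nat.land a.a0 a.a2)) (Nat.land a.a1 a.a2)

/-- guaranteed value -/
def gval (F : Fs) (a w : M3) (t : Fin 3) (d : Gd) : ℕ :=
  let p := sbt F.U t d.ius (lget F.L d.il t)
  if d.ty = 1 then
    (if Nat.land p.1 (a.get (d.k + 1)) == 0 && Nat.land p.1 (a.get (d.k + 2)) == 0 then p.2 else 0)
  else if d.ty = 2 then
    (if Nat.land p.1 (a.get d.k) == 0 && sub (Nat.land p.1 a.free) (w.get t) then p.2 / 2 else 0)
  else (if sub (Nat.land p.1 a.free) (w.get t) then p.2 / 3 else 0)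

/-- viewer map of the masks -/
def vw (β : G → ℕ) (w : M3) : G → Fin 3 := fun g =>
  if w.a0.testBit (β g) = true then 0 else if w.a1.testBit (β g) = true then 1 else 2

/-- disjoint masks -/
def M3.dj (w : M3) : Bool :=
  Nat.land w.a0 w.a1 == 0 && (Nat.land w.a0 w.a2 == 0 && Nat.land w.a1 w.a2 == 0)

lemma land_bit {m m' i : ℕ} (h : (Nat.land m m' == 0) = true) (h1 : m.testBit i = true) :
    m'.testBit i = false := by
  rw [beq_iff_eq] at h
  have h2 : (m &&& m').testBit i = false := by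
    show (Nat.land m m').testBit i = false
    rw [h]
    exact Nat.zero_testBit i
  rw [Nat.testBit_and, h1, Bool.true_and] at h2
  exact h2

omit [DecidableEq G] [Fintype G] in
lemma vw_eq {β : G → ℕ} {w : M3} (hw : w.dj = true) {g : G} {t : Fin 3}
    (h : (w.get t).testBit (β g) = true) : vw β w g = t := by
  unfold M3.dj at hw
  simp only [Bool.and_eq_true] at hw
  obtain ⟨h01, h02, h12⟩ := hw
  have aux : ∀ t : Fin 3, t = 0 ∨ t = 1 ∨ t = 2 := by decide
  have ht := aux t
  unfold vw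
  rcases ht with rfl | rfl | rfl
  · rw [M3.get0] at h
    rw [if_pos h]
  · rw [M3.get1] at h
    have h0 : w.a0.testBit (β g) = false := by
      by_contra hc
      rw [Bool.not_eq_false] at hc
      rw [land_bit h01 hc] at h
      exact absurd h (by decide)
    rw [if_neg (by rw [h0]; decide), if_pos h]
  · rw [M3.get2] at h
    have h0 : w.a0.testBit (β g) = false := by
      by_contra hc
      rw [Bool.not_eq_false] at hc
      rw [land_bit h02 hc] at h
      exact absurd h (by decide)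
    have h1 : w.a1.testBit (β g) = false := by
      by_contra hc
      rw [Bool.not_eq_false] at hc
      rw [land_bit h12 hc] at h
      exact absurd h (by decide)
    rw [if_neg (by rw [h0]; decide), if_neg (by rw [h1]; decide)]

lemma card_aux1 : ∀ b0 b1 b2 : Bool, ((b0 && b1 || b0 && b2) || b1 && b2) = false →
    (Finset.univ.filter fun k : Fin 3 =>
      (if k = 0 then b0 else if k = 1 then b1 else b2) = true).card ≤ 1 := by decide

lemma card_aux2 : ∀ b0 b1 b2 : Bool, ((b0 && b1 || b0 && b2) || b1 && b2) = true →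
    2 ≤ (Finset.univ.filter fun k : Fin 3 =>
      (if k = 0 then b0 else if k = 1 then b1 else b2) = true).card := by decide

omit [DecidableEq G] [Fintype G] in
lemma rm_eq (β : G → ℕ) (a : M3) (g : G) : rm β a g = Finset.univ.filter fun k : Fin 3 =>
    (if k = 0 then a.a0.testBit (β g) else if k = 1 then a.a1.testBit (β g)
      else a.a2.testBit (β g)) = true := by
  ext k
  rw [mem_rm, Finset.mem_filter]
  unfold M3.get
  split_ifs <;> simp

lemma free_bit (a : M3) (i : ℕ) : a.free.testBit i =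
    ((a.a0.testBit i && a.a1.testBit i || a.a0.testBit i && a.a2.testBit i) ||
      a.a1.testBit i && a.a2.testBit i) := by
  show (((a.a0 &&& a.a1) ||| (a.a0 &&& a.a2)) ||| (a.a1 &&& a.a2)).testBit i = _
  rw [Nat.testBit_or, Nat.testBit_or, Nat.testBit_and, Nat.testBit_and, Nat.testBit_and]

omit [DecidableEq G] [Fintype G] in
lemma card_of_not_free {β : G → ℕ} {a : M3} {g : G} (h : a.free.testBit (β g) = false) :
    (rm β a g).card ≤ 1 := by
  rw [rm_eq]
  rw [free_bit] at h
  exact card_aux1 _ _ _ h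

omit [DecidableEq G] [Fintype G] in
lemma card_of_free {β : G → ℕ} {a : M3} {g : G} (h : a.free.testBit (β g) = true) :
    2 ≤ (rm β a g).card := by
  rw [rm_eq]
  rw [free_bit] at h
  exact card_aux2 _ _ _ h

/-- what is needed from the valuations -/
structure Ax (v : Fin 3 → Finset G → ℝ) (c : Fin 3 → ℝ) : Prop where
  mono : ∀ i, Monotone (v i)
  sa : ∀ i S T, v i (S ∪ T) ≤ v i S + v i T
  nn : ∀ i S, 0 ≤ v i S
  ne : Nontrivial G
  c_lo : ∀ t, 1333 / 1000 ≤ c t
  top : ∀ B, Disj B → EF1 v B → ∀ i, v i (B i) ≤ 1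
  S4 : ∀ B, Disj B → EF1 v B → ¬ ∀ i, 63 / 100 ≤ v i (B i)
  S1 : ∀ B, Disj B → EF1 v B → ∀ k, 397 / 1000 ≤ v k (B k) →
    (∀ i, i ≠ k → 7938 / 10000 ≤ v i (B i)) → False
  pr : ∀ B, Disj B → EF1 v B →
    v 0 (B 0) * v 1 (B 1) * v 2 (B 2) < 1251 / 10000 * (c 0 * c 1 * c 2)

variable {v : Fin 3 → Finset G → ℝ} {c : Fin 3 → ℝ} {β : G → ℕ}

omit [DecidableEq G] in
lemma bm_zero : bm β 0 = (∅ : Finset G) := by
  ext g
  simp [mem_bm]

lemma Ax.lgetL (A : Ax v c) {L : List Fc} (hL : ∀ f ∈ L, HL v c β f) (i : ℕ) (t : Fin 3) :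
    (((lget L i t).2 : ℕ) : ℝ) * c t ≤ 10 ^ 9 * v t (bm β (lget L i t).1) := by
  have h0 : (((0 : ℕ) : ℕ) : ℝ) * c t ≤ 10 ^ 9 * v t (bm β 0) := by
    have := A.nn t (bm β 0)
    push_cast
    linarith
  unfold lget
  rcases hx : L[i]? with _ | f
  · exact h0
  · simp only
    split_ifs with h
    · have := hL f (List.mem_of_getElem? hx)
      unfold HL at this
      rw [h] at this
      exact this
    · exact h0

lemma Ax.lgetU (A : Ax v c) {U : List Fc} (hU : ∀ f ∈ U, HU v c β f)
    (hem : ∀ t, v t ∅ ≤ 0) (i : ℕ) (t : Fin 3) :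
    10 ^ 9 * v t (bm β (lget U i t).1) ≤ (((lget U i t).2 : ℕ) : ℝ) * c t := by
  have h0 : 10 ^ 9 * v t (bm β 0) ≤ (((0 : ℕ) : ℕ) : ℝ) * c t := by
    rw [bm_zero]
    have := hem t
    push_cast
    linarith
  unfold lget
  rcases hx : U[i]? with _ | f
  · exact h0
  · simp only
    split_ifs with h
    · have := hU f (List.mem_of_getElem? hx)
      unfold HU at this
      rw [h] at this
      exact this
    · exact h0

lemma Ax.sbt (A : Ax v c) (hβ : ∀ g, β g < 29) {U : List Fc} (hU : ∀ f ∈ U, HU v c β f)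
    (hem : ∀ t, v t ∅ ≤ 0) (t : Fin 3) (is : List ℕ) (p : ℕ × ℕ)
    (hp : ((p.2 : ℕ) : ℝ) * c t ≤ 10 ^ 9 * v t (bm β p.1)) :
    (((sbt U t is p).2 : ℕ) : ℝ) * c t ≤ 10 ^ 9 * v t (bm β (sbt U t is p).1) := by
  induction is generalizing p with
  | nil => exact hp
  | cons i is ih =>
    rw [Pool.F6.sbt]
    apply ih
    have h1 := A.lgetU hU hem i t
    have hsub : bm β p.1 ⊆ bm β (Nat.land p.1 (Nat.xor FU (lget U i t).1)) ∪
        bm β (lget U i t).1 := by
      intro g hg
      rw [Finset.mem_union, mem_bm, mem_bm]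
      rw [mem_bm] at hg
      by_cases hx : (lget U i t).1.testBit (β g) = true
      · exact Or.inr hx
      · left
        show (p.1 &&& (FU ^^^ (lget U i t).1)).testBit (β g) = true
        rw [Nat.testBit_and, Nat.testBit_xor, FU_bit, hg, Bool.eq_false_iff.2 hx]
        simp [hβ g]
    have h2 := (A.mono t hsub).trans (A.sa t _ _)
    have hc := A.c_lo t
    have hnn := A.nn t (bm β (Nat.land p.1 (Nat.xor FU (lget U i t).1)))
    rcases le_total (lget U i t).2 p.2 with h | h
    · rw [Nat.cast_sub h]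
      nlinarith
    · rw [Nat.sub_eq_zero_of_le h]
      push_cast
      linarith

/-- soundness of the guarantees -/
lemma Ax.gval (A : Ax v c) (hβ : ∀ g, β g < 29) {F : Fs} (hF : F.ok v c β)
    (hem : ∀ t, v t ∅ ≤ 0) {a w : M3} (hw : w.dj = true) (t : Fin 3) (d : Gd)
    {x : G → Fin 3} (hx : Mem (rm β a) x) {H : Fin 3 → Finset G} (hH : Hid (rm β a) (vw β w) H)
    {B : Fin 3 → Finset G} (hB : ∀ k, v t (pc x (H t) k) ≤ v t (B t)) :
    ((gval F a w t d : ℕ) : ℝ) * c t ≤ 10 ^ 9 * v t (B t) := by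
  have hp := A.sbt hβ hF.2 hem t d.ius (lget F.L d.il t) (A.lgetL hF.1 d.il t)
  set p := Pool.F6.sbt F.U t d.ius (lget F.L d.il t) with hpdef
  have hnn := A.nn t (B t)
  have hc := A.c_lo t
  have h00 : (((0 : ℕ) : ℕ) : ℝ) * c t ≤ 10 ^ 9 * v t (B t) := by
    push_cast; linarith
  have hview : sub (Nat.land p.1 a.free) (w.get t) = true → ∀ g ∈ bm β p.1,
      vw β w g = t ∨ (rm β a g).card ≤ 1 := by
    intro hs g hg
    rw [mem_bm] at hg
    by_cases hf : a.free.testBit (β g) = true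
    · left
      apply vw_eq hw
      apply sub_bit hs
      show (p.1 &&& a.free).testBit (β g) = true
      rw [Nat.testBit_and, hg, hf]
      rfl
    · right
      exact card_of_not_free (Bool.eq_false_iff.2 hf)
  unfold Pool.F6.gval
  simp only [← hpdef]
  split_ifs with h1 h2 h3 h4 h5
  · -- one piece
    rw [Bool.and_eq_true] at h2
    have hg : v t (bm β p.1) ≤ v t (B t) := by
      apply guar1 (A.mono t) hx hH (k := d.k) _ hB
      intro g hg
      rw [mem_bm] at hg
      have e1 := land_bit h2.1 hg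
      have e2 := land_bit h2.2 hg
      have hsub : rm β a g ⊆ {d.k} := by
        intro k hk
        rw [mem_rm] at hk
        rw [Finset.mem_singleton]
        by_contra hne
        have aux : ∀ k k' : Fin 3, k ≠ k' → k = k' + 1 ∨ k = k' + 2 := by decide
        rcases aux _ _ hne with e | e
        · rw [e, e1] at hk
          exact absurd hk (by decide)
        · rw [e, e2] at hk
          exact absurd hk (by decide)
      have hm := hsub (hx g)
      rw [Finset.mem_singleton] at hm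
      apply le_antisymm hsub
      rw [Finset.le_iff_subset, Finset.singleton_subset_iff, ← hm]
      exact hx g
    nlinarith
  · exact h00
  · -- two pieces
    rw [Bool.and_eq_true] at h4
    have hg : v t (bm β p.1) ≤ 2 * v t (B t) := by
      apply guar2 (A.mono t) (A.sa t) hx hH (k := d.k + 1) (k' := d.k + 2) _ hB
      intro g hg
      refine ⟨?_, hview h4.2 g hg⟩
      rw [mem_bm] at hg
      have e1 := land_bit h4.1 hg
      intro k hk
      rw [mem_rm] at hk
      rw [Finset.mem_insert, Finset.mem_singleton]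
      have hne : k ≠ d.k := by
        rintro rfl
        rw [e1] at hk
        exact absurd hk (by decide)
      have aux : ∀ k k' : Fin 3, k ≠ k' → k = k' + 1 ∨ k = k' + 2 := by decide
      exact aux _ _ hne
    have hdiv : ((p.2 / 2 : ℕ) : ℝ) ≤ (p.2 : ℝ) / 2 := Nat.cast_div_le
    nlinarith
  · exact h00
  · -- three pieces
    have hg : v t (bm β p.1) ≤ 3 * v t (B t) :=
      guar3 (A.mono t) (A.sa t) hH (hview h5) hB
    have hdiv : ((p.2 / 3 : ℕ) : ℝ) ≤ (p.2 : ℝ) / 3 := Nat.cast_div_le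
    nlinarith
  · exact h00

lemma aux3 : ∀ i : Fin 3, i = 0 ∨ i = 1 ∨ i = 2 := by decide

/-- the rules -/
def viol (x y z : ℕ) : Bool :=
  Nat.ble 750188000 x || (Nat.ble 750188000 y || (Nat.ble 750188000 z ||
  ((Nat.ble 472619000 x && (Nat.ble 472619000 y && Nat.ble 472619000 z)) ||
  ((Nat.ble 297825000 x && (Nat.ble 595500000 y && Nat.ble 595500000 z)) ||
  ((Nat.ble 297825000 y && (Nat.ble 595500000 x && Nat.ble 595500000 z)) ||
  ((Nat.ble 297825000 z && (Nat.ble 595500000 x && Nat.ble 595500000 y)) ||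
  Nat.ble 125100000000000000000000000 (x * y * z)))))))

lemma Ax.viol (A : Ax v c) {B : Fin 3 → Finset G} (h1 : Disj B) (h2 : EF1 v B) {x y z : ℕ}
    (hx : (x : ℝ) * c 0 ≤ 10 ^ 9 * v 0 (B 0)) (hy : (y : ℝ) * c 1 ≤ 10 ^ 9 * v 1 (B 1))
    (hz : (z : ℝ) * c 2 ≤ 10 ^ 9 * v 2 (B 2)) : viol x y z = false := by
  have c0 := A.c_lo 0
  have c1 := A.c_lo 1
  have c2 := A.c_lo 2
  have key : ∀ (n m : ℕ) (ct w : ℝ), 1333 / 1000 ≤ ct → Nat.ble n m = true →
      (m : ℝ) * ct ≤ 10 ^ 9 * w → (n : ℝ) * (1333 / 1000) ≤ 10 ^ 9 * w := by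
    intro n m ct w hct hnm hm
    have h : (n : ℝ) ≤ m := by exact_mod_cast Nat.le_of_ble_eq_true hnm
    have hn : (0 : ℝ) ≤ n := Nat.cast_nonneg n
    nlinarith
  by_contra hcon
  rw [Bool.not_eq_false] at hcon
  unfold Pool.F6.viol at hcon
  simp only [Bool.or_eq_true, Bool.and_eq_true] at hcon
  rcases hcon with h | h | h | ⟨ha, hb, hd⟩ | ⟨ha, hb, hd⟩ | ⟨ha, hb, hd⟩ | ⟨ha, hb, hd⟩ | h
  · have := key _ _ _ _ c0 h hx
    have t := A.top B h1 h2 0
    norm_num at this
    linarith
  · have := key _ _ _ _ c1 h hy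
    have t := A.top B h1 h2 1
    norm_num at this
    linarith
  · have := key _ _ _ _ c2 h hz
    have t := A.top B h1 h2 2
    norm_num at this
    linarith
  · have k0 := key _ _ _ _ c0 ha hx
    have k1 := key _ _ _ _ c1 hb hy
    have k2 := key _ _ _ _ c2 hd hz
    norm_num at k0 k1 k2
    apply A.S4 B h1 h2
    intro i
    have hi := aux3 i
    rcases hi with rfl | rfl | rfl <;> linarith
  · have k0 := key _ _ _ _ c0 ha hx
    have k1 := key _ _ _ _ c1 hb hy
    have k2 := key _ _ _ _ c2 hd hz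
    norm_num at k0 k1 k2
    apply A.S1 B h1 h2 0 (by linarith)
    intro i hne
    have hi := aux3 i
    rcases hi with rfl | rfl | rfl
    · exact absurd rfl hne
    · linarith
    · linarith
  · have k0 := key _ _ _ _ c0 hb hx
    have k1 := key _ _ _ _ c1 ha hy
    have k2 := key _ _ _ _ c2 hd hz
    norm_num at k0 k1 k2
    apply A.S1 B h1 h2 1 (by linarith)
    intro i hne
    have hi := aux3 i
    rcases hi with rfl | rfl | rfl
    · linarith
    · exact absurd rfl hne
    · linarith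
  · have k0 := key _ _ _ _ c0 hb hx
    have k1 := key _ _ _ _ c1 hd hy
    have k2 := key _ _ _ _ c2 ha hz
    norm_num at k0 k1 k2
    apply A.S1 B h1 h2 2 (by linarith)
    intro i hne
    have hi := aux3 i
    rcases hi with rfl | rfl | rfl
    · linarith
    · linarith
    · exact absurd rfl hne
  · have hp := A.pr B h1 h2
    have hn : (125100000000000000000000000 : ℝ) ≤ (x : ℝ) * y * z := by
      exact_mod_cast Nat.le_of_ble_eq_true h
    have x0 : (0 : ℝ) ≤ x := Nat.cast_nonneg x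
    have y0 : (0 : ℝ) ≤ y := Nat.cast_nonneg y
    have z0 : (0 : ℝ) ≤ z := Nat.cast_nonneg z
    have p0 : 0 < c 0 := by linarith
    have p1 : 0 < c 1 := by linarith
    have p2 : 0 < c 2 := by linarith
    have e := three_nn (mul_nonneg x0 p0.le) (mul_nonneg y0 p1.le) (mul_nonneg z0 p2.le) hx hy hz
    have e2 : (x : ℝ) * c 0 * (y * c 1) * (z * c 2) = (x * y * z) * (c 0 * c 1 * c 2) := by ring
    have e3 : (10 : ℝ) ^ 9 * v 0 (B 0) * (10 ^ 9 * v 1 (B 1)) * (10 ^ 9 * v 2 (B 2)) =
        10 ^ 27 * (v 0 (B 0) * v 1 (B 1) * v 2 (B 2)) := by ring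
    rw [e2, e3] at e
    have e4 : 0 < c 0 * c 1 * c 2 := mul_pos (mul_pos p0 p1) p2
    have e5 := mul_le_mul_of_nonneg_right hn e4.le
    nlinarith

/-- region certificate -/
structure RC where
  a : M3
  w : M3
  g0 : Gd
  g1 : Gd
  g2 : Gd

/-- check of a region certificate -/
def rcOK (F : Fs) (r : RC) : Bool :=
  r.w.dj && viol (gval F r.a r.w 0 r.g0) (gval F r.a r.w 1 r.g1) (gval F r.a r.w 2 r.g2)

theorem rc_addOn (A : Ax v c) (hβ : ∀ g, β g < 29) {F : Fs} (hF : F.ok v c β)
    (hem : ∀ t, v t ∅ ≤ 0) {r : RC} (hr : rcOK F r = true) :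
    AddOn (valSys v A.mono) (rm β r.a) := by
  unfold rcOK at hr
  rw [Bool.and_eq_true] at hr
  apply Dead.addOn (V := vw β r.w)
  intro x hx H hH hc
  by_contra hb
  obtain ⟨B, h1, h2, h3, _⟩ := extract_cons v A.mono x H hb hc
  have := A.viol h1 h2
    (A.gval hβ hF hem hr.1 0 r.g0 hx hH (h3 0))
    (A.gval hβ hF hem hr.1 1 r.g1 hx hH (h3 1))
    (A.gval hβ hF hem hr.1 2 r.g2 hx hH (h3 2))
  rw [this] at hr
  exact absurd hr.2 (by decide)

/-- check of a nerve certificate -/
def nvOK (F : Fs) (regs : List RC) (tris : List (ℕ × ℕ × ℕ × ℕ)) (P : List (ℕ × ℕ)) : Bool :=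
  regs.all (rcOK F) && certM (regs.map RC.a ++ faces) tris P

lemma regs_addOn (A : Ax v c) (hβ : ∀ g, β g < 29) {F : Fs} (hF : F.ok v c β)
    (hem : ∀ t, v t ∅ ≤ 0) {regs : List RC} (hr : regs.all (rcOK F) = true) :
    ∀ r ∈ regs.map RC.a ++ faces, AddOn (valSys v A.mono) (rm β r) := by
  rw [List.all_eq_true] at hr
  have := A.ne
  have hFace := valSys_face v A.mono
  intro r hr'
  rw [List.mem_append, List.mem_map] at hr'
  rcases hr' with ⟨q, hq, rfl⟩ | h
  · exact rc_addOn A hβ hF hem (hr q hq)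
  · exact faces_addOn hFace r h

theorem nv_sum (A : Ax v c) (hβ : ∀ g, β g < 29) {F : Fs} (hF : F.ok v c β)
    (hem : ∀ t, v t ∅ ≤ 0) {regs : List RC} {tris : List (ℕ × ℕ × ℕ × ℕ)} {P : List (ℕ × ℕ)}
    (h : nvOK F regs tris P = true) :
    (P.map fun p => WM (valSys v A.mono) β p.1 p.2).sum = 0 := by
  unfold nvOK at h
  rw [Bool.and_eq_true] at h
  exact certM_sum hβ _ (regs_addOn A hβ hF hem h.1) tris P h.2

/-- contradiction from a nerve certificate -/
theorem nv_false (A : Ax v c) (hβ : ∀ g, β g < 29) {F : Fs} (hF : F.ok v c β)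
    (hem : ∀ t, v t ∅ ≤ 0) {regs : List RC} {tris : List (ℕ × ℕ × ℕ × ℕ)}
    (h : nvOK F regs tris kloop = true) : False := by
  have h1 := nv_sum A hβ hF hem h
  have := A.ne
  rw [kloop_sum (valSys_face v A.mono) hβ] at h1
  exact absurd h1 (by decide)

end Pool.F6
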