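import Pool.Agent.F6.Edge

/-!
# Grids of states in a square of two moving goods
-/

namespace Pool.F6

open Finset

/-- discrete Stokes on a grid -/
lemma grid_sum (m n : ℕ) (s : ℕ → ℕ → Lb)
    (hu : ∀ i < m, ∀ j < n, th (s i j) (s (i + 1) j) + th (s (i + 1) j) (s (i + 1) (j + 1)) =
      th (s i j) (s i (j + 1)) + th (s i (j + 1)) (s (i + 1) (j + 1))) :
    ∑ i ∈ range m, th (s i 0) (s (i + 1) 0) + ∑ j ∈ range n, th (s m j) (s m (j + 1)) =
      ∑ j ∈ range n, th (s 0 j) (s 0 (j + 1)) + ∑ i ∈ range m, th (s i n) (s (i + 1) n) := by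
  induction n with
  | zero => simp
  | succ n ih =>
    have ih' := ih (fun i hi j hj => hu i hi j (by omega))
    have hrow : ∀ m' ≤ m, ∑ i ∈ range m', th (s i n) (s (i + 1) n) + th (s m' n) (s m' (n + 1)) =
        th (s 0 n) (s 0 (n + 1)) + ∑ i ∈ range m', th (s i (n + 1)) (s (i + 1) (n + 1)) := by
      intro m' hm'
      induction m' with
      | zero => simp
      | succ k ihk =>
        have h1 := ihk (by omega)
        have h2 := hu k (by omega) n (by omega)
        rw [Finset.sum_range_succ, Finset.sum_range_succ]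
        linear_combination h1 + h2
    have h3 := hrow m le_rfl
    rw [Finset.sum_range_succ, Finset.sum_range_succ]
    linear_combination ih' + h3

variable {G : Type*} [DecidableEq G] (S : LabSys G)

/-- agents in `A` hide `h`, agents in `B` hide `g` -/
def H2 (A B : Finset (Fin 3)) (h g : G) : Fin 3 → Finset G :=
  fun k => (if k ∈ A then {h} else ∅) ∪ (if k ∈ B then {g} else ∅)

/-- `h` at `a`, `g` at `b` -/
def P2 (x : G → Fin 3) (h g : G) (a b : Fin 3) : G → Fin 3 :=
  Function.update (Function.update x h a) g b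

/-- labels of the state -/
def St (x : G → Fin 3) (h g : G) (a b : Fin 3) (A B : Finset (Fin 3)) : Lb :=
  S.L (P2 x h g a b) (H2 A B h g)

lemma P2_g (x : G → Fin 3) (h g : G) (a b : Fin 3) : P2 x h g a b g = b := by
  unfold P2; simp

lemma P2_h (x : G → Fin 3) (h g : G) (hgh : h ≠ g) (a b : Fin 3) : P2 x h g a b h = a := by
  unfold P2; rw [Function.update_of_ne hgh, Function.update_self]

lemma P2_upd_g (x : G → Fin 3) (h g : G) (a b b' : Fin 3) :
    Function.update (P2 x h g a b) g b' = P2 x h g a b' := by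
  unfold P2; rw [Function.update_idem]

lemma P2_upd_h (x : G → Fin 3) (h g : G) (hgh : h ≠ g) (a b a' : Fin 3) :
    Function.update (P2 x h g a b) h a' = P2 x h g a' b := by
  unfold P2
  rw [Function.update_comm hgh.symm, Function.update_idem]

lemma H2_A (A : Finset (Fin 3)) (h g : G) : H2 A ∅ h g = hs A h := by
  funext k; simp [H2, hs]

lemma H2_B (B : Finset (Fin 3)) (h g : G) : H2 ∅ B h g = hs B g := by
  funext k; simp [H2, hs]

lemma St_A (x : G → Fin 3) (h g : G) (a b : Fin 3) (A : Finset (Fin 3)) :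
    St S x h g a b A ∅ = S.X (P2 x h g a b) h A := by
  unfold St LabSys.X; rw [H2_A]

lemma St_B (x : G → Fin 3) (h g : G) (a b : Fin 3) (B : Finset (Fin 3)) :
    St S x h g a b ∅ B = S.X (P2 x h g a b) g B := by
  unfold St LabSys.X; rw [H2_B]

/-- label of the agent `k` in a state depends only on her own view -/
def lb (k : Fin 3) (x : G → Fin 3) (h g : G) (a b : Fin 3) (ha hb : Bool) : Fin 3 :=
  S.lab k (P2 x h g a b) ((if ha then {h} else ∅) ∪ (if hb then {g} else ∅))

lemma St_apply (x : G → Fin 3) (h g : G) (a b : Fin 3) (A B : Finset (Fin 3)) (k : Fin 3) :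
    St S x h g a b A B k = lb S k x h g a b (decide (k ∈ A)) (decide (k ∈ B)) := by
  unfold St LabSys.L lb H2
  by_cases h1 : k ∈ A <;> by_cases h2 : k ∈ B <;> simp [h1, h2]

lemma lb_hideA (k : Fin 3) (x : G → Fin 3) (h g : G) (hgh : h ≠ g) (a a' b : Fin 3) (hb : Bool) :
    lb S k x h g a b true hb = lb S k x h g a' b true hb := by
  unfold lb
  rw [← P2_upd_h x h g hgh a' b a]
  apply S.indep
  simp

lemma lb_hideB (k : Fin 3) (x : G → Fin 3) (h g : G) (a b b' : Fin 3) (ha : Bool) :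
    lb S k x h g a b ha true = lb S k x h g a b' ha true := by
  unfold lb
  rw [← P2_upd_g x h g a b' b]
  apply S.indep
  simp

/-- seeing `h` in addition changes the label only to its piece -/
lemma lb_A (k : Fin 3) (x : G → Fin 3) (h g : G) (hgh : h ≠ g) (a b : Fin 3) (hb : Bool) :
    lb S k x h g a b false hb = lb S k x h g a b true hb ∨ lb S k x h g a b false hb = a := by
  unfold lb
  have h1 := S.hide k (P2 x h g a b) (∅ ∪ (if hb then {g} else ∅)) h (by
    cases hb <;> simp [hgh])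
  rw [P2_h x h g hgh a b] at h1
  have e : insert h (∅ ∪ (if hb then ({g} : Finset G) else ∅)) = {h} ∪ (if hb then {g} else ∅) := by
    rw [Finset.empty_union]; rfl
  rw [e] at h1
  exact h1

lemma lb_B (k : Fin 3) (x : G → Fin 3) (h g : G) (hgh : h ≠ g) (a b : Fin 3) (ha : Bool) :
    lb S k x h g a b ha false = lb S k x h g a b ha true ∨ lb S k x h g a b ha false = b := by
  unfold lb
  have h1 := S.hide k (P2 x h g a b) ((if ha then {h} else ∅) ∪ ∅) g (by
    cases ha <;> simp [hgh.symm])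
  rw [P2_g x h g a b] at h1
  have e : insert g ((if ha then ({h} : Finset G) else ∅) ∪ ∅) = (if ha then {h} else ∅) ∪ {g} := by
    rw [Finset.union_empty]
    ext y
    simp only [Finset.mem_insert, Finset.mem_union, Finset.mem_singleton]
    tauto
  rw [e] at h1
  exact h1

/-- hiding schedule along an edge: order `o1, o2`, then back -/
def sch (o1 o2 : Fin 3) (i : ℕ) : Finset (Fin 3) :=
  if i = 0 then ∅ else if i = 1 then {o1} else if i = 2 then {o1, o2} else
    if i = 3 then {o1, o2} else if i = 4 then {o1} else ∅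

/-- the agent whose view changes in step `i` -/
def evt (o1 o2 ν : Fin 3) (i : ℕ) : Fin 3 :=
  if i = 0 then o1 else if i = 1 then o2 else if i = 2 then ν else if i = 3 then o2 else o1

/-- grid of states -/
def gs (x : G → Fin 3) (h g : G) (p q r s : Fin 3) (o1 o2 u1 u2 : Fin 3) (i j : ℕ) : Lb :=
  St S x h g (if i ≤ 2 then p else q) (if j ≤ 2 then r else s) (sch o1 o2 i) (sch u1 u2 j)

lemma sch_step (o1 o2 ν : Fin 3) (h12 : o1 ≠ o2) (i : ℕ) (hi : i < 5) (k : Fin 3)
    (hk : k ≠ evt o1 o2 ν i) : k ∈ sch o1 o2 (i + 1) ↔ k ∈ sch o1 o2 i := by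
  unfold evt at hk
  unfold sch
  interval_cases i <;> simp_all

lemma sch_flip (o1 o2 ν k : Fin 3) (h1 : o1 ≠ ν) (h2 : o2 ≠ ν) (h12 : o1 ≠ o2) (hk : k ≠ ν) :
    k ∈ sch o1 o2 2 := by
  unfold sch
  revert o1 o2 ν k
  decide

lemma gs_stepX (x : G → Fin 3) (h g : G) (hgh : h ≠ g) (p q r s : Fin 3) (o1 o2 ν u1 u2 : Fin 3)
    (h1 : o1 ≠ ν) (h2 : o2 ≠ ν) (h12 : o1 ≠ o2) (i j : ℕ) (hi : i < 5) (k : Fin 3)
    (hk : k ≠ evt o1 o2 ν i) :
    gs S x h g p q r s o1 o2 u1 u2 (i + 1) j k = gs S x h g p q r s o1 o2 u1 u2 i j k := by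
  unfold gs
  rw [St_apply, St_apply]
  have e := sch_step o1 o2 ν h12 i hi k hk
  by_cases hi2 : i = 2
  · subst hi2
    have hkν : k ≠ ν := by simpa [evt] using hk
    have hmem := sch_flip o1 o2 ν k h1 h2 h12 hkν
    have hmem' := e.2 hmem
    simp only [hmem, hmem', decide_true]
    exact lb_hideA S k x h g hgh _ _ _ _
  · have e1 : (if i + 1 ≤ 2 then p else q) = (if i ≤ 2 then p else q) := by
      by_cases hh : i ≤ 2
      · rw [if_pos (by omega), if_pos hh]
      · rw [if_neg (by omega), if_neg hh]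
    rw [e1]
    congr 1
    rw [decide_eq_decide]
    exact e

lemma gs_stepY (x : G → Fin 3) (h g : G) (p q r s : Fin 3) (o1 o2 ν u1 u2 : Fin 3)
    (h1 : u1 ≠ ν) (h2 : u2 ≠ ν) (h12 : u1 ≠ u2) (i j : ℕ) (hj : j < 5) (k : Fin 3)
    (hk : k ≠ evt u1 u2 ν j) :
    gs S x h g p q r s o1 o2 u1 u2 i (j + 1) k = gs S x h g p q r s o1 o2 u1 u2 i j k := by
  unfold gs
  rw [St_apply, St_apply]
  have e := sch_step u1 u2 ν h12 j hj k hk
  by_cases hj2 : j = 2
  · subst hj2
    have hkν : k ≠ ν := by simpa [evt] using hk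
    have hmem := sch_flip u1 u2 ν k h1 h2 h12 hkν
    have hmem' := e.2 hmem
    simp only [hmem, hmem', decide_true]
    exact lb_hideB S k x h g _ _ _ _
  · have e1 : (if j + 1 ≤ 2 then r else s) = (if j ≤ 2 then r else s) := by
      by_cases hh : j ≤ 2
      · rw [if_pos (by omega), if_pos hh]
      · rw [if_neg (by omega), if_neg hh]
    rw [e1]
    congr 1
    rw [decide_eq_decide]
    exact e

/-- a unit square of the grid -/
lemma gs_unit (x : G → Fin 3) (h g : G) (hgh : h ≠ g) (p q r s : Fin 3)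
    (o1 o2 νh u1 u2 νg : Fin 3)
    (h1 : o1 ≠ νh) (h2 : o2 ≠ νh) (h12 : o1 ≠ o2) (k1 : u1 ≠ νg) (k2 : u2 ≠ νg) (k12 : u1 ≠ u2)
    (i j : ℕ) (hi : i < 5) (hj : j < 5)
    (n1 : NB (gs S x h g p q r s o1 o2 u1 u2 i j))
    (n2 : NB (gs S x h g p q r s o1 o2 u1 u2 (i + 1) j))
    (n3 : NB (gs S x h g p q r s o1 o2 u1 u2 i (j + 1)))
    (n4 : NB (gs S x h g p q r s o1 o2 u1 u2 (i + 1) (j + 1))) :
    th (gs S x h g p q r s o1 o2 u1 u2 i j) (gs S x h g p q r s o1 o2 u1 u2 (i + 1) j) +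
      th (gs S x h g p q r s o1 o2 u1 u2 (i + 1) j)
        (gs S x h g p q r s o1 o2 u1 u2 (i + 1) (j + 1)) =
    th (gs S x h g p q r s o1 o2 u1 u2 i j) (gs S x h g p q r s o1 o2 u1 u2 i (j + 1)) +
      th (gs S x h g p q r s o1 o2 u1 u2 i (j + 1))
        (gs S x h g p q r s o1 o2 u1 u2 (i + 1) (j + 1)) := by
  apply unit_sq (evt o1 o2 νh i) (evt u1 u2 νg j)
  · intro k hk
    exact gs_stepX S x h g hgh p q r s o1 o2 νh u1 u2 h1 h2 h12 i j hi k hk
  · intro k hk
    exact gs_stepX S x h g hgh p q r s o1 o2 νh u1 u2 h1 h2 h12 i (j + 1) hi k hk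
  · intro k hk
    exact gs_stepY S x h g p q r s o1 o2 νg u1 u2 k1 k2 k12 i j hj k hk
  · intro k hk
    exact gs_stepY S x h g p q r s o1 o2 νg u1 u2 k1 k2 k12 (i + 1) j hj k hk
  · exact n1
  · exact n2
  · exact n3
  · exact n4

/-- edge sum with explicit order of the hiding agents -/
def fo (x : G → Fin 3) (g : G) (s : Fin 3) (o1 o2 : Fin 3) : ZMod 2 :=
  th (S.X x g ∅) (S.X x g {o1}) + th (S.X x g {o1}) (S.X x g {o1, o2}) +
    th (S.X x g {o1, o2}) (S.X (Function.update x g s) g {o1, o2}) +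
    th (S.X (Function.update x g s) g {o1, o2}) (S.X (Function.update x g s) g {o1}) +
    th (S.X (Function.update x g s) g {o1}) (S.X (Function.update x g s) g ∅)

lemma hr_order (ν o1 o2 : Fin 3) (x : G → Fin 3) (g : G) (h : VOK S ν x g)
    (h1 : o1 ≠ ν) (h2 : o2 ≠ ν) (h12 : o1 ≠ o2) :
    th (S.X x g ∅) (S.X x g {o1}) + th (S.X x g {o1}) (S.X x g {o1, o2}) = hr S ν x g := by
  have hcase : (o1 = ν + 1 ∧ o2 = ν + 2) ∨ (o1 = ν + 2 ∧ o2 = ν + 1) := by
    clear * - h1 h2 h12; revert ν o1 o2; decide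
  rcases hcase with ⟨rfl, rfl⟩ | ⟨rfl, rfl⟩
  · rfl
  · unfold hr
    have n0 := h ∅ (by simp)
    have n1 := h {ν + 2} (by simp)
    have n2 := h {ν + 1} (by simp)
    have n3 := h {ν + 1, ν + 2} (notMem_oth ν)
    have e := X_sq S x g ∅ (ν + 2) (ν + 1) n0 (by simpa using n1) (by simpa using n2)
      (by simpa using n3)
    simp only [insert_empty_eq] at e
    rw [Finset.pair_comm (ν + 2) (ν + 1)]
    exact e

lemma fo_eq (ν o1 o2 : Fin 3) (x : G → Fin 3) (g : G) (s : Fin 3) (h : EOK S ν x g s)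
    (h1 : o1 ≠ ν) (h2 : o2 ≠ ν) (h12 : o1 ≠ o2) : fo S x g s o1 o2 = fv S ν x g s := by
  unfold fo fv
  rw [← hr_order S ν o1 o2 x g h.1 h1 h2 h12, ← hr_order S ν o1 o2 _ g h.2 h1 h2 h12]
  have hset : ({o1, o2} : Finset (Fin 3)) = {ν + 1, ν + 2} := by
    clear * - h1 h2 h12; revert ν o1 o2; decide
  rw [hset, th_symm (S.X (Function.update x g s) g {ν + 1, ν + 2}) (S.X (Function.update x g s) g {o1}),
    th_symm (S.X (Function.update x g s) g {o1}) (S.X (Function.update x g s) g ∅)]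
  ring

end Pool.F6
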