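import Pool.Agent.F6.Line

/-!
# A hypothetical instance all of whose EF1 allocations are dominated: rules and near maximal
allocations
-/

namespace Pool.F6

open Finset

variable {G : Type*} [DecidableEq G] [Fintype G]

/-- the domination factor -/
noncomputable def RR : ℝ := 15874 / 10000

/-- a normalised instance in which every EF1 allocation is dominated by the factor `RR` -/
structure Inst (v : Fin 3 → Finset G → ℝ) : Prop where
  mono : ∀ i, Monotone (v i)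
  sub : ∀ i S T, v i (S ∪ T) ≤ v i S + v i T
  emp : ∀ i, v i ∅ = 0
  dom : ∀ B, Disj B → EF1 v B → ∃ b : G → Fin 3, ∀ i, RR * v i (B i) < v i (bl b i)
  top : ∀ B, Disj B → EF1 v B → ∀ i, v i (B i) ≤ 1
  att : ∀ i, ∃ B, Disj B ∧ EF1 v B ∧ v i (B i) = 1

variable {v : Fin 3 → Finset G → ℝ}

lemma Inst.nn (I : Inst v) (i : Fin 3) (S : Finset G) : 0 ≤ v i S := by
  rw [← I.emp i]
  exact I.mono i (Finset.empty_subset _)

omit [DecidableEq G] [Fintype G] in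
lemma disj_empty : Disj (fun _ => (∅ : Finset G)) := fun _ _ _ => Finset.disjoint_empty_left _

omit [Fintype G] in
lemma EF1_empty : EF1 v (fun _ => (∅ : Finset G)) := fun _ _ _ => Or.inl le_rfl

lemma Inst.pos (I : Inst v) : ∃ b : G → Fin 3, ∀ i, 0 < v i (bl b i) := by
  obtain ⟨b, hb⟩ := I.dom _ disj_empty EF1_empty
  refine ⟨b, fun i => ?_⟩
  have := hb i
  simp only [I.emp, mul_zero] at this
  exact this

lemma Inst.nontrivial (I : Inst v) : Nontrivial G := by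
  obtain ⟨b, hb⟩ := I.pos
  have h : ∀ i, ∃ g, b g = i := by
    intro i
    by_contra hcon
    push Not at hcon
    have : bl b i = ∅ := by
      ext g
      simp [mem_bl, hcon g]
    have h2 := hb i
    rw [this, I.emp] at h2
    exact lt_irrefl _ h2
  obtain ⟨g0, h0⟩ := h 0
  obtain ⟨g1, h1⟩ := h 1
  refine ⟨⟨g0, g1, ?_⟩⟩
  rintro rfl
  rw [h0] at h1
  exact absurd h1 (by decide)

lemma Inst.all (I : Inst v) (i : Fin 3) : RR < v i Finset.univ := by
  obtain ⟨B, h1, h2, h3⟩ := I.att i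
  obtain ⟨b, hb⟩ := I.dom B h1 h2
  have := hb i
  rw [h3, mul_one] at this
  exact this.trans_le (I.mono i (Finset.subset_univ _))

/-- the splitting theorem for instances -/
lemma Inst.FT (I : Inst v) (b : G → Fin 3) :
    (∃ j, ∃ B : Fin 3 → Finset G, Disj B ∧ EF1 v B ∧ v j (bl b j) ≤ v j (B j) ∧
      ∀ i, v i (bl b i) ≤ 2 * v i (B i)) ∨
    (∃ i, ∃ B : Fin 3 → Finset G, Disj B ∧ EF1 v B ∧ v i (bl b i) ≤ 3 * v i (B i) ∧
      ∀ k, k ≠ i → v k (bl b k) ≤ v k (B k)) := by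
  have := I.nontrivial
  exact Pool.F6.FT I.mono I.sub b

/-- rule S4 -/
lemma Inst.S4 (I : Inst v) {B : Fin 3 → Finset G} (h1 : Disj B) (h2 : EF1 v B) :
    ¬ ∀ i, 63 / 100 ≤ v i (B i) := by
  intro h
  obtain ⟨b, hb⟩ := I.dom B h1 h2
  have hb1 : ∀ i, 1 < v i (bl b i) := by
    intro i
    have h3 := hb i
    have h4 := h i
    unfold RR at h3
    nlinarith
  rcases I.FT b with ⟨j, C, hC1, hC2, hC3, _⟩ | ⟨i, C, hC1, hC2, _, hC3⟩
  · have := I.top C hC1 hC2 j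
    linarith [hb1 j]
  · obtain ⟨k, hk⟩ : ∃ k, k ≠ i := exists_ne i
    have := I.top C hC1 hC2 k
    linarith [hb1 k, hC3 k hk]

/-- rule S1 -/
lemma Inst.S1 (I : Inst v) {B : Fin 3 → Finset G} (h1 : Disj B) (h2 : EF1 v B) (k : Fin 3)
    (hk : 397 / 1000 ≤ v k (B k)) (h : ∀ i, i ≠ k → 7938 / 10000 ≤ v i (B i)) : False := by
  obtain ⟨b, hb⟩ := I.dom B h1 h2
  have hbk : 63 / 100 < v k (bl b k) := by
    have h3 := hb k
    unfold RR at h3
    linarith
  have hbi : ∀ i, i ≠ k → 126 / 100 < v i (bl b i) := by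
    intro i hi
    have h3 := hb i
    have h4 := h i hi
    unfold RR at h3
    linarith
  rcases I.FT b with ⟨j, C, hC1, hC2, hC3, hC4⟩ | ⟨i, C, hC1, hC2, _, hC3⟩
  · by_cases hj : j = k
    · subst hj
      apply I.S4 hC1 hC2
      intro i
      by_cases hi : i = j
      · subst hi
        linarith
      · have := hbi i hi
        have := hC4 i
        linarith
    · have := I.top C hC1 hC2 j
      linarith [hbi j hj]
  · have aux : ∀ i k : Fin 3, ∃ l, l ≠ i ∧ l ≠ k := by decide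
    obtain ⟨l, hl, hl'⟩ := aux i k
    have := I.top C hC1 hC2 l
    linarith [hbi l hl', hC3 l hl]

/-- product of the values of an allocation -/
def prd (v : Fin 3 → Finset G → ℝ) (b : G → Fin 3) : ℝ :=
  v 0 (bl b 0) * v 1 (bl b 1) * v 2 (bl b 2)

lemma three {a b c x y z : ℝ} (hx : 0 < x) (hy : 0 < y) (hz : 0 < z) (h1 : x ≤ a) (h2 : y ≤ b)
    (h3 : z ≤ c) : x * y * z ≤ a * b * c := by
  have h4 : x * y ≤ a * b := mul_le_mul h1 h2 hy.le (hx.le.trans h1)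
  exact mul_le_mul h4 h3 hz.le ((mul_pos hx hy).le.trans h4)

lemma three_nn {a b c x y z : ℝ} (hx : 0 ≤ x) (hy : 0 ≤ y) (hz : 0 ≤ z) (h1 : x ≤ a) (h2 : y ≤ b)
    (h3 : z ≤ c) : x * y * z ≤ a * b * c := by
  have h4 : x * y ≤ a * b := mul_le_mul h1 h2 hy (hx.trans h1)
  exact mul_le_mul h4 h3 hz ((mul_nonneg hx hy).trans h4)

/-- the largest product -/
lemma Inst.exP (I : Inst v) : ∃ P, 0 < P ∧ (∀ b, prd v b ≤ P) ∧ ∃ b, prd v b = P := by
  classical
  obtain ⟨b0, hb0⟩ := I.pos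
  obtain ⟨b, _, hb⟩ := Finset.exists_max_image (Finset.univ : Finset (G → Fin 3)) (prd v)
    ⟨b0, Finset.mem_univ _⟩
  refine ⟨prd v b, ?_, fun c => hb c (Finset.mem_univ _), b, rfl⟩
  refine lt_of_lt_of_le ?_ (hb b0 (Finset.mem_univ _))
  exact mul_pos (mul_pos (hb0 0) (hb0 1)) (hb0 2)

/-- rule PR -/
lemma Inst.PR (I : Inst v) {P : ℝ} (hP : ∀ b, prd v b ≤ P) {B : Fin 3 → Finset G}
    (h1 : Disj B) (h2 : EF1 v B) : RR ^ 3 * (v 0 (B 0) * v 1 (B 1) * v 2 (B 2)) < P := by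
  obtain ⟨b, hb⟩ := I.dom B h1 h2
  refine lt_of_lt_of_le ?_ (hP b)
  unfold prd
  have hR : 0 < RR := by unfold RR; norm_num
  have e : RR ^ 3 * (v 0 (B 0) * v 1 (B 1) * v 2 (B 2)) =
      (RR * v 0 (B 0)) * (RR * v 1 (B 1)) * (RR * v 2 (B 2)) := by ring
  rw [e]
  have n0 : 0 ≤ RR * v 0 (B 0) := mul_nonneg hR.le (I.nn _ _)
  have n1 : 0 ≤ RR * v 1 (B 1) := mul_nonneg hR.le (I.nn _ _)
  have n2 : 0 ≤ RR * v 2 (B 2) := mul_nonneg hR.le (I.nn _ _)
  have p0 := lt_of_le_of_lt n0 (hb 0)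
  have p1 := lt_of_le_of_lt n1 (hb 1)
  have q : (RR * v 0 (B 0)) * (RR * v 1 (B 1)) < v 0 (bl b 0) * v 1 (bl b 1) :=
    mul_lt_mul'' (hb 0) (hb 1) n0 n1
  exact mul_lt_mul'' q (hb 2) (mul_nonneg n0 n1) n2

end Pool.F6
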