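import Pool.Agent.F6.Region

/-!
# Differences, faces, and the boundary loop
-/

namespace Pool.F6

open Finset

variable {G : Type*} [DecidableEq G] [Fintype G] (S : LabSys G)
variable {A : G → Finset (Fin 3)} {V : G → Fin 3}

/-- sum of the cochain along the standard path from `x` to `y` -/
noncomputable def D (x y : G → Fin 3) : ZMod 2 := pl S (Finset.univ : Finset G).toList x y

variable {S}

omit [Fintype G] in
lemma up_all (L : List G) (hL : ∀ g, g ∈ L) (x y : G → Fin 3) : up L x y = y := by
  funext k
  exact up_apply_mem L x y k (hL k)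

/-- on a dead region the differences are additive -/
theorem Dead.add (hD : Dead S A V) {x y z : G → Fin 3}
    (hx : Mem A x) (hy : Mem A y) (hz : Mem A z) : D S x y + D S y z = D S x z := by
  have e := hD.pl_add (Finset.univ : Finset G).toList (Finset.nodup_toList _) hx hy hz
  rw [up_all _ (fun g => Finset.mem_toList.2 (Finset.mem_univ g))] at e
  exact e

omit [Fintype G] in
lemma pl_eq_of_eq (L : List G) (x y : G → Fin 3) (h : ∀ g ∈ L, x g = y g) :
    pl S L x y = 0 := by
  induction L generalizing x with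
  | nil => rfl
  | cons g L ih =>
    have h1 := h g List.mem_cons_self
    rw [pl, ← h1, fe_triv, Function.update_eq_self, zero_add]
    exact ih x (fun k hk => h k (List.mem_cons_of_mem _ hk))

lemma D_self (x : G → Fin 3) : D S x x = 0 := pl_eq_of_eq _ x x (fun _ _ => rfl)

omit [Fintype G] in
lemma pl_single (L : List G) (hL : L.Nodup) (x : G → Fin 3) (g : G) (t : Fin 3) (hg : g ∈ L) :
    pl S L x (Function.update x g t) = fe S x g t := by
  induction L generalizing x with
  | nil => exact absurd hg List.not_mem_nil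
  | cons k L ih =>
    rw [List.nodup_cons] at hL
    by_cases hk : g = k
    · subst hk
      rw [pl, Function.update_self, pl_eq_of_eq, add_zero]
      intro _ _
      rfl
    · rw [pl, Function.update_of_ne (Ne.symm hk), fe_triv, Function.update_eq_self, zero_add]
      exact ih hL.2 x ((List.mem_cons.1 hg).resolve_left hk)

/-- one move -/
lemma D_update (x : G → Fin 3) (g : G) (t : Fin 3) :
    D S x (Function.update x g t) = fe S x g t :=
  pl_single _ (Finset.nodup_toList _) x g t (Finset.mem_toList.2 (Finset.mem_univ g))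

theorem Dead.symm (hD : Dead S A V) {x y : G → Fin 3}
    (hx : Mem A x) (hy : Mem A y) : D S x y = D S y x := by
  have e := hD.add hx hy hx
  rw [D_self] at e
  have z := z2_add_self (D S y x)
  linear_combination e - z

/-! ### faces -/

variable (S)

/-- if a piece is empty and at most one good is hidden, nobody prefers this piece -/
def FaceOK : Prop :=
  ∀ (x : G → Fin 3) (c : Fin 3), (∀ g, x g ≠ c) → ∀ i g, S.lab i x ∅ ≠ c ∧ S.lab i x {g} ≠ c

variable {S}

omit [Fintype G] in
lemma FaceOK.X_ne (hF : FaceOK S) {x : G → Fin 3} {c : Fin 3} (hx : ∀ g, x g ≠ c) (g : G)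
    (B : Finset (Fin 3)) (i : Fin 3) : S.X x g B i ≠ c := by
  rw [X_apply]
  split_ifs
  · exact (hF x c hx i g).2
  · exact (hF x c hx i g).1

lemma maj_ne : ∀ l : Lb, ∀ c, (∀ i, l i ≠ c) → maj l ≠ c := by decide

/-- potential on the face without piece 2 -/
def ph2 (l : Lb) : ZMod 2 := if maj l = 0 then 1 else 0

lemma th_face2 (l l' : Lb) (h : maj l ≠ 2) (h' : maj l' ≠ 2) : th l l' = ph2 l + ph2 l' := by
  have e : maj l = 0 ∨ maj l = 1 := by
    generalize maj l = u at *
    revert u; decide
  have e' : maj l' = 0 ∨ maj l' = 1 := by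
    generalize maj l' = u at *
    revert u; decide
  unfold th ph2
  rcases e with e | e <;> rcases e' with e' | e' <;> rw [e, e'] <;> decide

lemma th_face01 (l l' : Lb) (c : Fin 3) (hc : c ≠ 2) (h : maj l ≠ c) (h' : maj l' ≠ c) :
    th l l' = 0 := by
  unfold th
  rw [if_neg]
  have : c = 0 ∨ c = 1 := by clear * - hc; revert c; decide
  rintro (⟨e1, e2⟩ | ⟨e1, e2⟩)
  · rcases this with rfl | rfl
    · exact h e1
    · exact h' e2
  · rcases this with rfl | rfl
    · exact h' e2
    · exact h e1

omit [Fintype G] in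
lemma fv_face2 (hF : FaceOK S) {x : G → Fin 3} (hx : ∀ g, x g ≠ 2) (ν : Fin 3) (g : G)
    (s : Fin 3) (hs : s ≠ 2) :
    fv S ν x g s = ph2 (S.X x g ∅) + ph2 (S.X (Function.update x g s) g ∅) := by
  have hx' : ∀ k, Function.update x g s k ≠ 2 := by
    intro k
    by_cases hk : k = g
    · subst hk; simpa using hs
    · rw [Function.update_of_ne hk]; exact hx k
  have m : ∀ B, maj (S.X x g B) ≠ 2 := fun B => maj_ne _ _ (hF.X_ne hx g B)
  have m' : ∀ B, maj (S.X (Function.update x g s) g B) ≠ 2 :=
    fun B => maj_ne _ _ (hF.X_ne hx' g B)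
  unfold fv hr
  rw [th_face2 _ _ (m _) (m _), th_face2 _ _ (m _) (m _), th_face2 _ _ (m _) (m' _),
    th_face2 _ _ (m' _) (m' _), th_face2 _ _ (m' _) (m' _)]
  have z1 := z2_add_self (ph2 (S.X x g {ν + 1}))
  have z2 := z2_add_self (ph2 (S.X x g {ν + 1, ν + 2}))
  have z3 := z2_add_self (ph2 (S.X (Function.update x g s) g {ν + 1}))
  have z4 := z2_add_self (ph2 (S.X (Function.update x g s) g {ν + 1, ν + 2}))
  linear_combination z1 + z2 + z3 + z4

omit [Fintype G] in
lemma fv_face01 (hF : FaceOK S) {x : G → Fin 3} {c : Fin 3} (hc : c ≠ 2) (hx : ∀ g, x g ≠ c)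
    (ν : Fin 3) (g : G) (s : Fin 3) (hs : s ≠ c) : fv S ν x g s = 0 := by
  have hx' : ∀ k, Function.update x g s k ≠ c := by
    intro k
    by_cases hk : k = g
    · subst hk; simpa using hs
    · rw [Function.update_of_ne hk]; exact hx k
  have m : ∀ B, maj (S.X x g B) ≠ c := fun B => maj_ne _ _ (hF.X_ne hx g B)
  have m' : ∀ B, maj (S.X (Function.update x g s) g B) ≠ c :=
    fun B => maj_ne _ _ (hF.X_ne hx' g B)
  unfold fv hr
  rw [th_face01 _ _ c hc (m _) (m _), th_face01 _ _ c hc (m _) (m _),
    th_face01 _ _ c hc (m _) (m' _), th_face01 _ _ c hc (m' _) (m' _),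
    th_face01 _ _ c hc (m' _) (m' _)]
  simp

/-- labels with nothing hidden -/
def lfull (S : LabSys G) (x : G → Fin 3) : Lb := fun i => S.lab i x ∅

omit [Fintype G] in
lemma X_empty (x : G → Fin 3) (g : G) : S.X x g ∅ = lfull S x := by
  funext i
  rw [X_apply]
  simp [lfull]

omit [Fintype G] in
lemma pl_face2 (hF : FaceOK S) (L : List G) {x y : G → Fin 3} (hx : ∀ g, x g ≠ 2)
    (hy : ∀ g, y g ≠ 2) : pl S L x y = ph2 (lfull S x) + ph2 (lfull S (up L x y)) := by
  induction L generalizing x with
  | nil => simp only [pl, up]; exact (z2_add_self _).symm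
  | cons g L ih =>
    have hx' : ∀ k, Function.update x g (y g) k ≠ 2 := by
      intro k
      by_cases hk : k = g
      · subst hk; simpa using hy k
      · rw [Function.update_of_ne hk]; exact hx k
    rw [pl, up, ih hx']
    have hfe : fe S x g (y g) = ph2 (S.X x g ∅) + ph2 (S.X (Function.update x g (y g)) g ∅) := by
      unfold fe
      split_ifs <;> exact fv_face2 hF hx _ g _ (hy g)
    rw [hfe, X_empty, X_empty]
    have z1 := z2_add_self (ph2 (lfull S (Function.update x g (y g))))
    linear_combination z1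

omit [Fintype G] in
lemma pl_face01 (hF : FaceOK S) (L : List G) {x y : G → Fin 3} {c : Fin 3} (hc : c ≠ 2)
    (hx : ∀ g, x g ≠ c) (hy : ∀ g, y g ≠ c) : pl S L x y = 0 := by
  induction L generalizing x with
  | nil => rfl
  | cons g L ih =>
    have hx' : ∀ k, Function.update x g (y g) k ≠ c := by
      intro k
      by_cases hk : k = g
      · subst hk; simpa using hy k
      · rw [Function.update_of_ne hk]; exact hx k
    rw [pl, ih hx', add_zero]
    unfold fe
    split_ifs <;> exact fv_face01 hF hc hx _ g _ (hy g)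

/-- the face without piece 2 -/
theorem D_face2 (hF : FaceOK S) {x y : G → Fin 3} (hx : ∀ g, x g ≠ 2)
    (hy : ∀ g, y g ≠ 2) : D S x y = ph2 (lfull S x) + ph2 (lfull S y) := by
  have e := pl_face2 hF (Finset.univ : Finset G).toList hx hy
  rw [up_all _ (fun g => Finset.mem_toList.2 (Finset.mem_univ g))] at e
  exact e

/-- the faces without piece 0 or 1 -/
theorem D_face01 (hF : FaceOK S) {x y : G → Fin 3} {c : Fin 3} (hc : c ≠ 2)
    (hx : ∀ g, x g ≠ c) (hy : ∀ g, y g ≠ c) : D S x y = 0 :=
  pl_face01 hF _ hc hx hy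

/-- every face is additive -/
theorem face_add (hF : FaceOK S) {x y z : G → Fin 3} {c : Fin 3}
    (hx : ∀ g, x g ≠ c) (hy : ∀ g, y g ≠ c) (hz : ∀ g, z g ≠ c) :
    D S x y + D S y z = D S x z := by
  by_cases hc : c = 2
  · subst hc
    rw [D_face2 hF hx hy, D_face2 hF hy hz, D_face2 hF hx hz]
    have z1 := z2_add_self (ph2 (lfull S y))
    linear_combination z1
  · rw [D_face01 hF hc hx hy, D_face01 hF hc hy hz, D_face01 hF hc hx hz, add_zero]

omit [Fintype G] in
lemma lfull_const [Nonempty G] (hF : FaceOK S) (a : Fin 3) : lfull S (fun _ => a) = fun _ => a := by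
  funext i
  by_contra hne
  have g : G := Classical.arbitrary G
  exact (hF (fun _ => a) (S.lab i (fun _ => a) ∅) (fun _ e => hne e.symm) i g).1 rfl

/-- all goods in piece `a` -/
def cst (a : Fin 3) : G → Fin 3 := fun _ => a

/-- the boundary loop has sum 1 -/
theorem loop01 [Nonempty G] (hF : FaceOK S) : D S (cst 0) (cst 1) = 1 := by
  rw [D_face2 hF (by intro g; simp [cst]) (by intro g; simp [cst])]
  have e0 : lfull S (cst 0 : G → Fin 3) = fun _ => 0 := lfull_const hF 0
  have e1 : lfull S (cst 1 : G → Fin 3) = fun _ => 1 := lfull_const hF 1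
  rw [e0, e1]
  decide

theorem loop12 (hF : FaceOK S) : D S (cst 1 : G → Fin 3) (cst 2) = 0 :=
  D_face01 hF (c := 0) (by decide) (by intro g; simp [cst]) (by intro g; simp [cst])

theorem loop02 (hF : FaceOK S) : D S (cst 0 : G → Fin 3) (cst 2) = 0 :=
  D_face01 hF (c := 1) (by decide) (by intro g; simp [cst]) (by intro g; simp [cst])

/-- contradiction from a null-homologous boundary loop -/
theorem kkm_contra [Nonempty G] (hF : FaceOK S)
    (h : D S (cst 0 : G → Fin 3) (cst 1) + D S (cst 1) (cst 2) = D S (cst 0) (cst 2)) : False := by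
  rw [loop01 hF, loop12 hF, loop02 hF, add_zero] at h
  exact absurd h (by decide)

end Pool.F6
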