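import Pool.Agent.F6.FT

/-!
# Alive cells of rectangles (block form) and lines
-/

namespace Pool.F6

open Finset

variable {G : Type*} [DecidableEq G]

/-- placement in a cell of a rectangle: the goods of `a1` have moved to `q`, the goods of `b1`
have moved to `s`, the goods `h`, `g` are at `c`, `d` -/
def cellP (x : G → Fin 3) (q s : Fin 3) (a1 b1 : List G) (h g : G) (c d : Fin 3) : G → Fin 3 :=
  fun y => if y = g then d else if y = h then c else if y ∈ b1 then s else if y ∈ a1 then q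
    else x y

lemma P2_cellP (x : G → Fin 3) (q s : Fin 3) (a1 b1 : List G) (h g : G) (c d : Fin 3) :
    P2 (up b1 (up a1 x (fun _ => q)) (fun _ => s)) h g c d = cellP x q s a1 b1 h g c d := by
  funext y
  unfold P2 cellP
  by_cases hg : y = g
  · subst hg; simp
  · rw [Function.update_of_ne hg, if_neg hg]
    by_cases hh : y = h
    · subst hh; simp
    · rw [Function.update_of_ne hh, if_neg hh]
      by_cases hb : y ∈ b1
      · rw [if_pos hb, up_apply_mem b1 _ _ y hb]
      · rw [if_neg hb, up_apply_notMem b1 _ _ y hb]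
        by_cases ha : y ∈ a1
        · rw [if_pos ha, up_apply_mem a1 _ _ y ha]
        · rw [if_neg ha, up_apply_notMem a1 _ _ y ha]

/-- all alive facts of a cell: for all viewers of the moving goods there is an EF1 allocation -/
def Alive (v : Fin 3 → Finset G → ℝ) [Fintype G] (x : G → Fin 3) (q s : Fin 3)
    (a1 b1 : List G) (h g : G) : Prop :=
  ∀ νh νg : Fin 3, ∃ (c d : Fin 3) (H : Fin 3 → Finset G), (c = x h ∨ c = q) ∧ (d = x g ∨ d = s) ∧
    (∀ i, H i ⊆ {h, g}) ∧ h ∉ H νh ∧ g ∉ H νg ∧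
    ∃ B : Fin 3 → Finset G, Disj B ∧ EF1 v B ∧
      ∀ j k, v j (pc (cellP x q s a1 b1 h g c d) (H j) k) ≤ v j (B j)

variable [Fintype G]

/-- the W-lemma: a rectangle whose sides are additive and whose boundary sum does not vanish
has an alive cell -/
theorem rect_cell (v : Fin 3 → Finset G → ℝ) (hv : ∀ i, Monotone (v i))
    (q s : Fin 3) (a b : List G) (hab : ∀ g ∈ a, g ∉ b) (ha : a.Nodup) (hb : b.Nodup)
    (x : G → Fin 3)
    {A1 A2 A3 A4 : G → Finset (Fin 3)}
    (h1 : AddOn (valSys v hv) A1) (h2 : AddOn (valSys v hv) A2)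
    (h3 : AddOn (valSys v hv) A3) (h4 : AddOn (valSys v hv) A4)
    (m1 : Mem A1 x) (m1' : Mem A1 (up a x (fun _ => q)))
    (m2 : Mem A2 (up a x (fun _ => q))) (m2' : Mem A2 (up b (up a x (fun _ => q)) (fun _ => s)))
    (m3 : Mem A3 x) (m3' : Mem A3 (up b x (fun _ => s)))
    (m4 : Mem A4 (up b x (fun _ => s))) (m4' : Mem A4 (up a (up b x (fun _ => s)) (fun _ => q)))
    (ho : D (valSys v hv) x (up a x (fun _ => q)) +
        D (valSys v hv) (up a x (fun _ => q)) (up b (up a x (fun _ => q)) (fun _ => s)) ≠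
      D (valSys v hv) x (up b x (fun _ => s)) +
        D (valSys v hv) (up b x (fun _ => s)) (up a (up b x (fun _ => s)) (fun _ => q))) :
    ∃ a1 h a2 b1 g b2, a = a1 ++ h :: a2 ∧ b = b1 ++ g :: b2 ∧ h ≠ g ∧
      Alive v x q s a1 b1 h g := by
  have ho' : pl (valSys v hv) a x (fun _ => q) +
        pl (valSys v hv) b (up a x (fun _ => q)) (fun _ => s) ≠
      pl (valSys v hv) b x (fun _ => s) +
        pl (valSys v hv) a (up b x (fun _ => s)) (fun _ => q) := by
    rw [h1.pl_eq a m1 m1', h2.pl_eq b m2 m2', h3.pl_eq b m3 m3', h4.pl_eq a m4 m4']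
    exact ho
  obtain ⟨a1, h, a2, b1, g, b2, e1, e2, hne, hal⟩ := rect_alive v hv q s a b hab ha x ho'
  refine ⟨a1, h, a2, b1, g, b2, e1, e2, hne, ?_⟩
  intro νh νg
  obtain ⟨c, d, H, hc, hd, hH, hνh, hνg, B, hB1, hB2, hB3, _⟩ := hal νh νg
  have hha : h ∈ a := by rw [e1]; simp
  have hgb : g ∈ b := by rw [e2]; simp
  have hh1 : h ∉ a1 := by
    intro hm
    rw [e1] at ha
    have := (List.nodup_append.1 ha).2.2 h hm h List.mem_cons_self
    exact this rfl
  have hh2 : h ∉ b1 := by
    intro hm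
    apply hab h hha
    rw [e2]
    exact List.mem_append_left _ hm
  have hg1 : g ∉ a1 := by
    intro hm
    have : g ∈ a := by rw [e1]; exact List.mem_append_left _ hm
    exact hab g this hgb
  have hg2 : g ∉ b1 := by
    intro hm
    rw [e2] at hb
    have := (List.nodup_append.1 hb).2.2 g hm g List.mem_cons_self
    exact this rfl
  rw [up_apply_notMem b1 _ _ h hh2, up_apply_notMem a1 _ _ h hh1] at hc
  rw [up_apply_notMem b1 _ _ g hg2, up_apply_notMem a1 _ _ g hg1] at hd
  refine ⟨c, d, H, hc, hd, hH, hνh, hνg, B, hB1, hB2, ?_⟩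
  intro j k
  have := hB3 j k
  rwa [P2_cellP] at this

/-- a list enumerates block `i` -/
def Enum {n : ℕ} (b : G → Fin n) (i : Fin n) (L : List G) : Prop :=
  L.Nodup ∧ ∀ g, g ∈ L ↔ b g = i

omit [Fintype G] in
lemma up_pb {n : ℕ} {b : G → Fin n} {i : Fin n} {L : List G} (hL : Enum b i L)
    (σ : Fin n → Fin 3) (q : Fin 3) :
    up L (pb b σ) (fun _ => q) = pb b (Function.update σ i q) := by
  funext y
  by_cases hy : y ∈ L
  · rw [up_apply_mem L _ _ y hy]
    unfold pb
    rw [(hL.2 y).1 hy, Function.update_self]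
  · rw [up_apply_notMem L _ _ y hy]
    unfold pb
    rw [Function.update_of_ne]
    intro e
    exact hy ((hL.2 y).2 e)

/-- block form of the W-lemma -/
theorem rect_block (v : Fin 3 → Finset G → ℝ) (hv : ∀ i, Monotone (v i)) {n : ℕ}
    (b : G → Fin n) (i j : Fin n) (hij : i ≠ j) (q s : Fin 3) (La Lb : List G)
    (hLa : Enum b i La) (hLb : Enum b j Lb) (σ : Fin n → Fin 3)
    {A1 A2 A3 A4 : Fin n → Finset (Fin 3)}
    (h1 : AddOn (valSys v hv) (rb b A1)) (h2 : AddOn (valSys v hv) (rb b A2))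
    (h3 : AddOn (valSys v hv) (rb b A3)) (h4 : AddOn (valSys v hv) (rb b A4))
    (m1 : ∀ k, σ k ∈ A1 k) (m1' : ∀ k, Function.update σ i q k ∈ A1 k)
    (m2 : ∀ k, Function.update σ i q k ∈ A2 k)
    (m2' : ∀ k, Function.update (Function.update σ i q) j s k ∈ A2 k)
    (m3 : ∀ k, σ k ∈ A3 k) (m3' : ∀ k, Function.update σ j s k ∈ A3 k)
    (m4 : ∀ k, Function.update σ j s k ∈ A4 k)
    (m4' : ∀ k, Function.update (Function.update σ j s) i q k ∈ A4 k)
    (ho : D (valSys v hv) (pb b σ) (pb b (Function.update σ i q)) +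
        D (valSys v hv) (pb b (Function.update σ i q))
          (pb b (Function.update (Function.update σ i q) j s)) ≠
      D (valSys v hv) (pb b σ) (pb b (Function.update σ j s)) +
        D (valSys v hv) (pb b (Function.update σ j s))
          (pb b (Function.update (Function.update σ j s) i q))) :
    ∃ a1 h a2 b1 g b2, La = a1 ++ h :: a2 ∧ Lb = b1 ++ g :: b2 ∧ h ≠ g ∧
      Alive v (pb b σ) q s a1 b1 h g := by
  apply rect_cell v hv q s La Lb (by
    intro g hg hg'
    exact hij (((hLa.2 g).1 hg).symm.trans ((hLb.2 g).1 hg'))) hLa.1 hLb.1 (pb b σ) h1 h2 h3 h4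
  · exact mem_rb m1
  · rw [up_pb hLa]; exact mem_rb m1'
  · rw [up_pb hLa]; exact mem_rb m2
  · rw [up_pb hLa, up_pb hLb]; exact mem_rb m2'
  · exact mem_rb m3
  · rw [up_pb hLb]; exact mem_rb m3'
  · rw [up_pb hLb]; exact mem_rb m4
  · rw [up_pb hLb, up_pb hLa]; exact mem_rb m4'
  · rw [up_pb hLa, up_pb hLb, up_pb hLb, up_pb hLa]
    exact ho

end Pool.F6
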