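import Pool.Agent.F6.Reduce

/-!
# The main statement, reduced to the non existence of hypothetical instances
-/

namespace Pool.F6

open Finset

/-- a valuation of sets of goods: normalised, monotone and subadditive -/
def IsValuation {m : ℕ} (v : Finset (Fin m) → ℝ) : Prop :=
  v ∅ = 0 ∧ (∀ S T, S ⊆ T → v S ≤ v T) ∧ ∀ S T, v (S ∪ T) ≤ v S + v T

/-- an allocation of all goods: an ordered partition, bundles may be empty -/
def IsAllocation {n m : ℕ} (A : Fin n → Finset (Fin m)) : Prop :=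
  (∀ i j, i ≠ j → Disjoint (A i) (A j)) ∧ ∀ g, ∃ i, g ∈ A i

/-- envy-freeness up to one good -/
def IsEF1 {n m : ℕ} (v : Fin n → Finset (Fin m) → ℝ) (A : Fin n → Finset (Fin m)) : Prop :=
  ∀ i j, i ≠ j → v i (A i) < v i (A j) → ∃ g ∈ A j, v i (A j \ {g}) ≤ v i (A i)

/-- approximate Pareto optimality -/
def IsPO {n m : ℕ} (α : ℝ) (v : Fin n → Finset (Fin m) → ℝ) (A : Fin n → Finset (Fin m)) : Prop :=
  ¬ ∃ B : Fin n → Finset (Fin m), IsAllocation B ∧ ∀ i, v i (A i) < α * v i (B i)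

/-- every instance with `n` agents has an allocation that is EF1 and `α`-PO -/
def Attains (n : ℕ) (α : ℝ) : Prop :=
  ∀ (m : ℕ) (v : Fin n → Finset (Fin m) → ℝ), (∀ i, IsValuation (v i)) →
    ∃ A : Fin n → Finset (Fin m), IsAllocation A ∧ IsEF1 v A ∧ IsPO α v A

/-- the supremum of all `α` in `[0, 1]` attained by all instances with `n` agents -/
noncomputable def alphaStar (n : ℕ) : ℝ := sSup {α : ℝ | 0 ≤ α ∧ α ≤ 1 ∧ Attains n α}

/-- reduction: without hypothetical instances the value `5000 / 7937` is attained -/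
theorem attains_of (hno : ∀ (m : ℕ) (v : Fin 3 → Finset (Fin m) → ℝ), ¬ Inst v) :
    Attains 3 (5000 / 7937) := by
  intro m v hv
  by_contra hcon
  push Not at hcon
  have hm : ∀ i, Monotone (v i) := fun i S T h => (hv i).2.1 S T h
  obtain ⟨v', hv'⟩ := exists_inst (v := v) hm (fun i => (hv i).2.2) (fun i => (hv i).1) (by
    intro B h1 h2
    obtain ⟨A, hA1, hA2, hA3, hA4⟩ := f6_complete v hm B h1 h2
    have hE : IsEF1 v A := by
      intro i j hij hlt
      rcases hA3 i j hij with h | ⟨g, hg, h⟩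
      · exact absurd hlt (not_lt.2 h)
      · refine ⟨g, hg, ?_⟩
        rwa [Finset.sdiff_singleton_eq_erase]
    have h3 := hcon A ⟨hA1, hA2⟩ hE
    unfold IsPO at h3
    rw [not_not] at h3
    obtain ⟨C, hC, hlt⟩ := h3
    choose b hb using hC.2
    refine ⟨b, fun i => ?_⟩
    have hbl : bl b i = C i := by
      ext g
      rw [mem_bl]
      constructor
      · intro h
        rw [← h]
        exact hb g
      · intro h
        by_contra hne
        exact Finset.disjoint_left.1 (hC.1 _ _ hne) (hb g) h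
    rw [hbl]
    have h4 := hA4 i
    have h5 := hlt i
    unfold RR
    linarith)
  exact hno m v' hv'

lemma alpha_gt : (2 : ℝ) ^ (-(1 - 1 / (3 : ℝ))) < 5000 / 7937 := by
  have h1 : ((2 : ℝ) ^ (-(1 - 1 / (3 : ℝ)))) ^ 3 = 1 / 4 := by
    rw [← Real.rpow_natCast, ← Real.rpow_mul (by norm_num)]
    have : (-(1 - 1 / (3 : ℝ))) * ((3 : ℕ) : ℝ) = -2 := by norm_num
    rw [this, Real.rpow_neg (by norm_num)]
    norm_num
  by_contra hcon
  push Not at hcon
  have h2 : (5000 / 7937 : ℝ) ^ 3 ≤ ((2 : ℝ) ^ (-(1 - 1 / (3 : ℝ)))) ^ 3 :=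
    pow_le_pow_left₀ (by norm_num) hcon 3
  rw [h1] at h2
  norm_num at h2

/-- the main theorem from the non existence of hypothetical instances -/
theorem main_of (hno : ∀ (m : ℕ) (v : Fin 3 → Finset (Fin m) → ℝ), ¬ Inst v) :
    (∃ α : ℝ, (2 : ℝ) ^ (-(1 - 1 / (3 : ℝ))) < α ∧ α ≤ 1 ∧ Attains 3 α) ∧
    ¬ ∀ n : ℕ, 3 ≤ n → alphaStar n = (2 : ℝ) ^ (-(1 - 1 / (n : ℝ))) := by
  have hA := attains_of hno
  refine ⟨⟨5000 / 7937, alpha_gt, by norm_num, hA⟩, ?_⟩
  intro h
  have h3 := h 3 le_rfl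
  have h4 : (5000 / 7937 : ℝ) ≤ alphaStar 3 := by
    unfold alphaStar
    apply le_csSup
    · exact ⟨1, fun x hx => hx.2.1⟩
    · exact ⟨by norm_num, by norm_num, hA⟩
  rw [h3] at h4
  have h5 := alpha_gt
  push_cast at h4
  linarith

end Pool.F6
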