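import Mathlib

/-!
# The majority cocycle on label triples
-/

namespace Pool.F6

/-- labels of the three agents: agent ↦ preferred piece -/
abbrev Lb := Fin 3 → Fin 3

/-- two agents prefer the same piece -/
def NB (l : Lb) : Prop := l 0 = l 1 ∨ l 0 = l 2 ∨ l 1 = l 2

instance (l : Lb) : Decidable (NB l) := by unfold NB; infer_instance

/-- majority label (symmetric in the agents) -/
def maj (l : Lb) : Fin 3 :=
  if (l 0 = 0 ∧ l 1 = 0) ∨ (l 0 = 0 ∧ l 2 = 0) ∨ (l 1 = 0 ∧ l 2 = 0) then 0
  else if (l 0 = 1 ∧ l 1 = 1) ∨ (l 0 = 1 ∧ l 2 = 1) ∨ (l 1 = 1 ∧ l 2 = 1) then 1 else 2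

/-- the cocycle: counts passages between majorities `0` and `1` -/
def th (l l' : Lb) : ZMod 2 :=
  if (maj l = 0 ∧ maj l' = 1) ∨ (maj l = 1 ∧ maj l' = 0) then 1 else 0

lemma th_self (l : Lb) : th l l = 0 := by
  unfold th
  rw [if_neg]
  rintro (⟨h1, h2⟩ | ⟨h1, h2⟩) <;> rw [h1] at h2 <;> exact absurd h2 (by decide)

lemma th_symm (l l' : Lb) : th l l' = th l' l := by
  unfold th
  congr 1
  rw [eq_iff_iff]
  tauto

lemma z2_add_self (a : ZMod 2) : a + a = 0 := by revert a; decide

/-- triples given by three values -/
def mk3 (a b c : Fin 3) : Lb := ![a, b, c]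

lemma mk3_eta (l : Lb) : mk3 (l 0) (l 1) (l 2) = l := by
  funext i
  fin_cases i <;> rfl

/-- Boolean version of the unit lemma for agents 0, 1 -/
lemma unit_aux : ∀ i j : Fin 3, ∀ a0 a1 a2 x y z : Fin 3,
    NB (mk3 a0 a1 a2) →
    NB (Function.update (mk3 a0 a1 a2) i x) →
    NB (Function.update (mk3 a0 a1 a2) j y) →
    NB (if i = j then Function.update (mk3 a0 a1 a2) i z else
      Function.update (Function.update (mk3 a0 a1 a2) i x) j y) →
    th (mk3 a0 a1 a2) (Function.update (mk3 a0 a1 a2) i x) +
      th (Function.update (mk3 a0 a1 a2) i x)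
        (if i = j then Function.update (mk3 a0 a1 a2) i z else
          Function.update (Function.update (mk3 a0 a1 a2) i x) j y) =
    th (mk3 a0 a1 a2) (Function.update (mk3 a0 a1 a2) j y) +
      th (Function.update (mk3 a0 a1 a2) j y)
        (if i = j then Function.update (mk3 a0 a1 a2) i z else
          Function.update (Function.update (mk3 a0 a1 a2) i x) j y) := by
  decide

/-- unit square: horizontally only agent `i` changes, vertically only agent `j` -/
lemma unit_sq (i j : Fin 3) (a b c d : Lb) (hab : ∀ k, k ≠ i → b k = a k)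
    (hcd : ∀ k, k ≠ i → d k = c k) (hac : ∀ k, k ≠ j → c k = a k)
    (hbd : ∀ k, k ≠ j → d k = b k) (ha : NB a) (hb : NB b) (hc : NB c) (hd : NB d) :
    th a b + th b d = th a c + th c d := by
  have eb : b = Function.update a i (b i) := by
    funext k
    by_cases hk : k = i
    · subst hk; simp
    · rw [Function.update_of_ne hk, hab k hk]
  have ec : c = Function.update a j (c j) := by
    funext k
    by_cases hk : k = j
    · subst hk; simp
    · rw [Function.update_of_ne hk, hac k hk]
  have ed : d = if i = j then Function.update a i (d i) else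
      Function.update (Function.update a i (b i)) j (c j) := by
    funext k
    by_cases hij : i = j
    · rw [if_pos hij]
      by_cases hk : k = i
      · subst hk; simp
      · rw [Function.update_of_ne hk, hcd k hk, hac k (by rw [← hij]; exact hk)]
    · rw [if_neg hij]
      by_cases hk : k = j
      · subst hk
        rw [Function.update_self, hcd k (Ne.symm hij)]
      · rw [Function.update_of_ne hk, hbd k hk]
        by_cases hk2 : k = i
        · subst hk2; simp
        · rw [Function.update_of_ne hk2, hab k hk2]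
  have h := unit_aux i j (a 0) (a 1) (a 2) (b i) (c j) (d i)
  rw [mk3_eta, ← ed, ← eb, ← ec] at h
  exact h ha hb hc hd

/-- only one agent changes: paths can be shortened -/
lemma unit_tri (i : Fin 3) (a b c : Lb) (hab : ∀ k, k ≠ i → b k = a k)
    (hbc : ∀ k, k ≠ i → c k = b k) (ha : NB a) (hb : NB b) (hc : NB c) :
    th a b + th b c = th a c := by
  have h := unit_sq i i a b a c hab (fun k hk => (hbc k hk).trans (hab k hk))
    (fun k hk => rfl) hbc ha hb ha hc
  rw [h, th_self, zero_add]

end Pool.F6
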