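import Pool.Agent.F6.Cert

/-!
# Block regions and placements coded by bit masks
-/

namespace Pool.F6

open Finset

/-- all 29 blocks -/
def FU : ℕ := 536870911

lemma FU_bit (i : ℕ) : FU.testBit i = decide (i < 29) := by
  have h : FU = 2 ^ 29 - 1 := by norm_num [FU]
  rw [h]
  exact Nat.testBit_two_pow_sub_one 29 i

/-- masks of the blocks allowed in the three pieces (also: viewed by the three agents) -/
structure M3 where
  a0 : ℕ
  a1 : ℕ
  a2 : ℕ

/-- component -/
def M3.get (a : M3) (k : Fin 3) : ℕ := if k = 0 then a.a0 else if k = 1 then a.a1 else a.a2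

lemma M3.get0 (a : M3) : a.get 0 = a.a0 := rfl
lemma M3.get1 (a : M3) : a.get 1 = a.a1 := rfl
lemma M3.get2 (a : M3) : a.get 2 = a.a2 := rfl

variable {G : Type*}

/-- the region with the given masks -/
def rm (β : G → ℕ) (a : M3) : G → Finset (Fin 3) :=
  fun g => Finset.univ.filter fun k => (a.get k).testBit (β g) = true

lemma mem_rm {β : G → ℕ} {a : M3} {g : G} {k : Fin 3} :
    k ∈ rm β a g ↔ (a.get k).testBit (β g) = true := by
  simp [rm]

/-- placement with code `c = p1 + 2^29 * p2` -/
def plc (β : G → ℕ) (c : ℕ) : G → Fin 3 := fun g =>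
  if (c % 536870912).testBit (β g) = true then 1
  else if (c / 536870912).testBit (β g) = true then 2 else 0

/-- `m` is contained in `m'` -/
def sub (m m' : ℕ) : Bool := Nat.land m m' == m

lemma sub_bit {m m' : ℕ} (h : sub m m' = true) {i : ℕ} (hi : m.testBit i = true) :
    m'.testBit i = true := by
  unfold sub at h
  rw [beq_iff_eq] at h
  have h2 : (m &&& m').testBit i = m.testBit i := by
    show (Nat.land m m').testBit i = _
    rw [h]
  rw [Nat.testBit_and, hi, Bool.true_and] at h2
  exact h2

/-- the placement with code `c` lies in the region `a` -/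
def inM (a : M3) (c : ℕ) : Bool :=
  sub (c % 536870912) a.a1 && (sub (c / 536870912) a.a2 &&
    sub (Nat.xor FU (Nat.lor (c % 536870912) (c / 536870912))) a.a0)

lemma inM_mem {β : G → ℕ} (hβ : ∀ g, β g < 29) {a : M3} {c : ℕ} (h : inM a c = true) :
    Mem (rm β a) (plc β c) := by
  unfold inM at h
  simp only [Bool.and_eq_true] at h
  obtain ⟨h1, h2, h0⟩ := h
  intro g
  rw [mem_rm]
  unfold plc
  split_ifs with e1 e2
  · exact sub_bit h1 e1
  · exact sub_bit h2 e2
  · apply sub_bit h0
    show (FU ^^^ ((c % 536870912) ||| (c / 536870912))).testBit (β g) = true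
    rw [Nat.testBit_xor, Nat.testBit_or, FU_bit, Bool.eq_false_iff.2 e1, Bool.eq_false_iff.2 e2]
    simp [hβ g]

/-- region with a given index, the faces come at the end -/
def faces : List M3 := [⟨0, FU, FU⟩, ⟨FU, 0, FU⟩, ⟨FU, FU, 0⟩]

/-- a triangle lies in the region with the given index -/
def triM (regs : List M3) (t : ℕ × ℕ × ℕ × ℕ) : Bool :=
  match regs[t.1]? with
  | none => false
  | some r => inM r t.2.1 && (inM r t.2.2.1 && inM r t.2.2.2)

/-- certificate check -/
def certM (regs : List M3) (tris : List (ℕ × ℕ × ℕ × ℕ)) (P : List (ℕ × ℕ)) : Bool :=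
  tris.all (triM regs) && ((tris.flatMap sides ++ P).foldr tog []).isEmpty

variable [DecidableEq G] [Fintype G] {S : LabSys G}

/-- difference of two coded placements -/
noncomputable def WM (S : LabSys G) (β : G → ℕ) (x y : ℕ) : ZMod 2 :=
  D S (plc β x) (plc β y)

lemma triM_zero {β : G → ℕ} (hβ : ∀ g, β g < 29) {regs : List M3}
    (hr : ∀ r ∈ regs, AddOn S (rm β r)) {t : ℕ × ℕ × ℕ × ℕ} (ht : triM regs t = true) :
    ((sides t).map fun p => WM S β p.1 p.2).sum = 0 := by
  unfold triM at ht
  rcases hx : regs[t.1]? with _ | r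
  · rw [hx] at ht
    exact absurd ht (by simp)
  · rw [hx] at ht
    simp only [Bool.and_eq_true] at ht
    have hmem : r ∈ regs := List.mem_of_getElem? hx
    have e := hr r hmem _ _ _ (inM_mem hβ ht.1) (inM_mem hβ ht.2.1) (inM_mem hβ ht.2.2)
    simp only [sides, List.map_cons, List.map_nil, List.sum_cons, List.sum_nil, add_zero]
    unfold WM
    have z := z2_add_self (D S (plc β t.2.1) (plc β t.2.2.2))
    linear_combination e + z

/-- the certificate theorem -/
theorem certM_sum {β : G → ℕ} (hβ : ∀ g, β g < 29) (regs : List M3)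
    (hr : ∀ r ∈ regs, AddOn S (rm β r)) (tris : List (ℕ × ℕ × ℕ × ℕ)) (P : List (ℕ × ℕ))
    (hc : certM regs tris P = true) : (P.map fun p => WM S β p.1 p.2).sum = 0 := by
  unfold certM at hc
  rw [Bool.and_eq_true, List.all_eq_true] at hc
  obtain ⟨h1, h2⟩ := hc
  rw [List.isEmpty_iff] at h2
  have h3 := foldr_tog_sum (fun p => WM S β p.1 p.2) (tris.flatMap sides ++ P)
  rw [h2] at h3
  rw [List.map_append, List.sum_append] at h3
  have h4 : ((tris.flatMap sides).map fun p => WM S β p.1 p.2).sum = 0 := by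
    clear h2 h3
    induction tris with
    | nil => rfl
    | cons t L ih =>
      rw [List.flatMap_cons, List.map_append, List.sum_append, ih (fun x hx => h1 x
        (List.mem_cons_of_mem _ hx)), triM_zero hβ hr (h1 t List.mem_cons_self), add_zero]
  rw [h4, zero_add] at h3
  exact h3.symm

lemma faces_addOn (hF : FaceOK S) {β : G → ℕ} :
    ∀ r ∈ faces, AddOn S (rm β r) := by
  intro r hr
  simp only [faces, List.mem_cons, List.not_mem_nil, or_false] at hr
  rcases hr with rfl | rfl | rfl
  · refine hF.addOn 0 _ (fun g h => ?_)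
    rw [mem_rm] at h
    simp [M3.get] at h
  · refine hF.addOn 1 _ (fun g h => ?_)
    rw [mem_rm] at h
    simp [M3.get] at h
  · refine hF.addOn 2 _ (fun g h => ?_)
    rw [mem_rm] at h
    simp [M3.get] at h

omit [DecidableEq G] [Fintype G] in
lemma plc0 {β : G → ℕ} : plc β 0 = (cst 0 : G → Fin 3) := by
  funext g
  simp [plc, cst]

/-- code of the placement with everything in piece 1 -/
def K1 : ℕ := 536870911

/-- code of the placement with everything in piece 2 -/
def K2 : ℕ := 288230375614840832

omit [DecidableEq G] [Fintype G] in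
lemma plc1 {β : G → ℕ} (hβ : ∀ g, β g < 29) : plc β K1 = (cst 1 : G → Fin 3) := by
  funext g
  have h : K1 % 536870912 = FU := by norm_num [K1, FU]
  unfold plc
  rw [h, FU_bit]
  simp [hβ g, cst]

omit [DecidableEq G] [Fintype G] in
lemma plc2 {β : G → ℕ} (hβ : ∀ g, β g < 29) : plc β K2 = (cst 2 : G → Fin 3) := by
  funext g
  have h : K2 % 536870912 = 0 := by norm_num [K2]
  have h' : K2 / 536870912 = FU := by norm_num [K2, FU]
  unfold plc
  rw [h, h', FU_bit]
  simp [hβ g, cst]

/-- the boundary loop -/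
def kloop : List (ℕ × ℕ) := [(0, K1), (K1, K2), (0, K2)]

lemma kloop_sum [Nonempty G] (hF : FaceOK S) {β : G → ℕ} (hβ : ∀ g, β g < 29) :
    (kloop.map fun p => WM S β p.1 p.2).sum = 1 := by
  simp only [kloop, List.map_cons, List.map_nil, List.sum_cons, List.sum_nil, add_zero]
  unfold WM
  rw [plc0, plc1 hβ, plc2 hβ, loop01 hF, loop12 hF, loop02 hF]
  decide

/-- union of the blocks of a mask -/
def bm (β : G → ℕ) (m : ℕ) : Finset G := Finset.univ.filter fun g => m.testBit (β g) = true

omit [DecidableEq G] in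
lemma mem_bm {β : G → ℕ} {m : ℕ} {g : G} : g ∈ bm β m ↔ m.testBit (β g) = true := by
  simp [bm]

omit [DecidableEq G] in
lemma bm_mono {β : G → ℕ} {m m' : ℕ} (h : sub m m' = true) : bm β m ⊆ bm β m' := by
  intro g hg
  rw [mem_bm] at *
  exact sub_bit h hg

end Pool.F6
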