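import Pool.Agent.F6.Inst

/-!
# Near maximal allocations: every line has an alive cell, tight facts
-/

namespace Pool.F6

open Finset

variable {G : Type*} [DecidableEq G] [Fintype G]

/-- the open line: not all three rectangles of a line have vanishing boundary sum -/
theorem line_open {S : LabSys G} [Nonempty G] (hF : FaceOK S) (b : G → Fin 3)
    (t0 : AddOn S (rb b ![Finset.univ, {2}, {2}])) (t1 : AddOn S (rb b ![{0}, Finset.univ, {2}]))
    (t2 : AddOn S (rb b ![{0}, {0}, Finset.univ]))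
    (c1 : D S (pb b ![1,1,1]) (pb b ![0,1,1]) + D S (pb b ![0,1,1]) (pb b ![0,1,2]) =
      D S (pb b ![1,1,1]) (pb b ![1,1,2]) + D S (pb b ![1,1,2]) (pb b ![0,1,2]))
    (c2 : D S (pb b ![1,1,2]) (pb b ![0,1,2]) + D S (pb b ![0,1,2]) (pb b ![0,2,2]) =
      D S (pb b ![1,1,2]) (pb b ![1,2,2]) + D S (pb b ![1,2,2]) (pb b ![0,2,2]))
    (c0 : D S (pb b ![0,1,1]) (pb b ![0,0,1]) + D S (pb b ![0,0,1]) (pb b ![0,0,2]) =
      D S (pb b ![0,1,1]) (pb b ![0,1,2]) + D S (pb b ![0,1,2]) (pb b ![0,0,2])) : False := by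
  have hF0 := hF.addOn 0 (rb b (fun _ => {1, 2})) (by intro g; simp [rb])
  have hF1 := hF.addOn 1 (rb b (fun _ => {0, 2})) (by intro g; simp [rb])
  have hF2 := hF.addOn 2 (rb b (fun _ => {0, 1})) (by intro g; simp [rb])
  have f1 := hF2.tri ![0,0,0] ![0,0,1] ![0,1,1] (by decide) (by decide) (by decide)
  have f2 := hF2.tri ![0,0,0] ![0,1,1] ![1,1,1] (by decide) (by decide) (by decide)
  have f3 := hF0.tri ![1,1,1] ![1,1,2] ![1,2,2] (by decide) (by decide) (by decide)
  have f4 := hF0.tri ![1,1,1] ![1,2,2] ![2,2,2] (by decide) (by decide) (by decide)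
  have f5 := hF1.tri ![0,0,0] ![0,0,2] ![0,2,2] (by decide) (by decide) (by decide)
  have f6 := hF1.tri ![0,0,0] ![0,2,2] ![2,2,2] (by decide) (by decide) (by decide)
  have g1 : D S (pb b ![1,1,1]) (pb b ![0,1,1]) = D S (pb b ![0,1,1]) (pb b ![1,1,1]) :=
    hF2.symm (mem_rb (by decide)) (mem_rb (by decide))
  have g2 : D S (pb b ![0,1,1]) (pb b ![0,0,1]) = D S (pb b ![0,0,1]) (pb b ![0,1,1]) :=
    hF2.symm (mem_rb (by decide)) (mem_rb (by decide))
  have g3 : D S (pb b ![1,2,2]) (pb b ![0,2,2]) = D S (pb b ![0,2,2]) (pb b ![1,2,2]) :=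
    t0.symm (mem_rb (by decide)) (mem_rb (by decide))
  have g4 : D S (pb b ![0,1,2]) (pb b ![0,0,2]) = D S (pb b ![0,0,2]) (pb b ![0,1,2]) :=
    t1.symm (mem_rb (by decide)) (mem_rb (by decide))
  have e0 := t0.tri ![0,2,2] ![1,2,2] ![2,2,2] (by decide) (by decide) (by decide)
  have e1 := t1.tri ![0,0,2] ![0,1,2] ![0,2,2] (by decide) (by decide) (by decide)
  have e2 := t2.tri ![0,0,0] ![0,0,1] ![0,0,2] (by decide) (by decide) (by decide)
  apply kkm_contra hF
  have k0 : (cst 0 : G → Fin 3) = pb b ![0,0,0] := by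
    funext g; unfold cst pb; generalize b g = u; revert u; decide
  have k1 : (cst 1 : G → Fin 3) = pb b ![1,1,1] := by
    funext g; unfold cst pb; generalize b g = u; revert u; decide
  have k2 : (cst 2 : G → Fin 3) = pb b ![2,2,2] := by
    funext g; unfold cst pb; generalize b g = u; revert u; decide
  rw [k0, k1, k2]
  linear_combination (norm := (ring_nf; reduce_mod_char)) f1 + f2 + f3 + f4 + f5 + f6 + g1 + g2 +
    g3 + g4 + e0 + e1 + e2 + c0 + c1 + c2

variable {v : Fin 3 → Finset G → ℝ}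

/-- near maximal allocation -/
def Near (v : Fin 3 → Finset G → ℝ) (P : ℝ) (b : G → Fin 3) : Prop :=
  (1 - 1 / 100000) * P ≤ prd v b

lemma Near.pos (I : Inst v) {P : ℝ} (hP0 : 0 < P) {b : G → Fin 3} (hb : Near v P b) (i : Fin 3) :
    0 < v i (bl b i) := by
  have h : 0 < prd v b := lt_of_lt_of_le (by nlinarith) hb
  unfold prd at h
  have n := fun i => I.nn i (bl b i)
  rcases (n i).lt_or_eq with h1 | h1
  · exact h1
  · exfalso
    have : v 0 (bl b 0) * v 1 (bl b 1) * v 2 (bl b 2) = 0 := by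
      fin_cases i
      · have h2 : v 0 (bl b 0) = 0 := h1.symm
        rw [h2]; ring
      · have h2 : v 1 (bl b 1) = 0 := h1.symm
        rw [h2]; ring
      · have h2 : v 2 (bl b 2) = 0 := h1.symm
        rw [h2]; ring
    rw [this] at h
    exact lt_irrefl _ h

/-- guarantee for the owner of a block in a region, everybody views her own block -/
lemma own_guar (I : Inst v) {b : G → Fin 3} {e : Equiv.Perm (Fin 3)}
    {R : Fin 3 → Finset (Fin 3)} {x : G → Fin 3}
    (hx : Mem (rb (fun g => e (b g)) R) x) {H : Fin 3 → Finset G}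
    (hH : Hid (rb (fun g => e (b g)) R) b H) {i : Fin 3} {B : Finset G}
    (hB : ∀ k, v i (pc x (H i) k) ≤ v i B) (hne : (R (e i)).Nonempty) :
    v i (bl b i) ≤ ((R (e i)).card : ℝ) * v i B := by
  have hcase : ∀ T : Finset (Fin 3), T.Nonempty → (∃ k, T = {k}) ∨ (∃ k k', T = {k, k'} ∧
      T.card = 2) ∨ T.card = 3 := by decide
  rcases hcase _ hne with ⟨k, hk⟩ | ⟨k, k', hk, h2⟩ | h3
  · rw [hk, Finset.card_singleton]
    have := guar1 (I.mono i) hx hH (j := i) (T := bl b i) (k := k) (by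
      intro g hg
      rw [mem_bl] at hg
      show R (e (b g)) = {k}
      rw [hg, hk]) hB
    push_cast
    linarith
  · rw [h2]
    have := guar2 (I.mono i) (I.sub i) hx hH (j := i) (T := bl b i) (k := k) (k' := k') (by
      intro g hg
      rw [mem_bl] at hg
      refine ⟨?_, Or.inl hg⟩
      show R (e (b g)) ⊆ {k, k'}
      rw [hg, hk]) hB
    push_cast
    linarith
  · rw [h3]
    have := guar3 (I.mono i) (I.sub i) hH (j := i) (T := bl b i) (by
      intro g hg
      rw [mem_bl] at hg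
      exact Or.inl hg) hB
    push_cast
    linarith

/-- small regions of a near maximal allocation are additive -/
lemma near_addOn (I : Inst v) {P : ℝ} (hP0 : 0 < P) (hP : ∀ b, prd v b ≤ P) {b : G → Fin 3}
    (hb : Near v P b) (e : Equiv.Perm (Fin 3)) (R : Fin 3 → Finset (Fin 3))
    (hne : ∀ i, (R i).Nonempty)
    (hR0 : (R 0).card * (R 1).card * (R 2).card ≤ 3) :
    AddOn (valSys v I.mono) (rb (fun g => e (b g)) R) := by
  have hR : (R (e 0)).card * (R (e 1)).card * (R (e 2)).card ≤ 3 := by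
    have h := Equiv.prod_comp e (fun i => (R i).card)
    rw [Fin.prod_univ_three, Fin.prod_univ_three] at h
    rw [h]
    exact hR0
  apply Dead.addOn (V := b)
  intro x hx H hH hc
  by_contra hnb
  obtain ⟨B, h1, h2, h3, _⟩ := extract_cons v I.mono x H hnb hc
  have hg : ∀ i, v i (bl b i) ≤ ((R (e i)).card : ℝ) * v i (B i) := fun i =>
    own_guar I hx hH (h3 i) (hne _)
  have hpr := I.PR hP h1 h2
  have hp : prd v b ≤ (((R (e 0)).card : ℝ) * v 0 (B 0)) * (((R (e 1)).card : ℝ) * v 1 (B 1)) *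
      (((R (e 2)).card : ℝ) * v 2 (B 2)) :=
    three_nn (I.nn _ _) (I.nn _ _) (I.nn _ _) (hg 0) (hg 1) (hg 2)
  have hR' : ((R (e 0)).card : ℝ) * ((R (e 1)).card : ℝ) * ((R (e 2)).card : ℝ) ≤ 3 := by
    exact_mod_cast hR
  have hn : 0 ≤ v 0 (B 0) * v 1 (B 1) * v 2 (B 2) :=
    mul_nonneg (mul_nonneg (I.nn _ _) (I.nn _ _)) (I.nn _ _)
  have e1 : (((R (e 0)).card : ℝ) * v 0 (B 0)) * (((R (e 1)).card : ℝ) * v 1 (B 1)) *
      (((R (e 2)).card : ℝ) * v 2 (B 2)) = (((R (e 0)).card : ℝ) * ((R (e 1)).card : ℝ) *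
      ((R (e 2)).card : ℝ)) * (v 0 (B 0) * v 1 (B 1) * v 2 (B 2)) := by ring
  rw [e1] at hp
  have h4 := mul_le_mul_of_nonneg_right hR' hn
  unfold Near at hb
  unfold RR at hpr
  norm_num at hpr
  nlinarith

/-- the three rectangle types of a line: uncut position, positions cut -/
def RType (u i j : Fin 3) : Prop :=
  (u = 1 ∧ i = 0 ∧ j = 2) ∨ (u = 2 ∧ i = 0 ∧ j = 1) ∨ (u = 0 ∧ i = 1 ∧ j = 2)

/-- start placement of the rectangle with uncut position `u` -/
def st (u : Fin 3) : Fin 3 → Fin 3 := fun p => if p = u then u else 1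

/-- every line of a near maximal allocation has an alive cell -/
theorem line_alive (I : Inst v) {P : ℝ} (hP0 : 0 < P) (hP : ∀ b, prd v b ≤ P) {b : G → Fin 3}
    (hb : Near v P b) (e : Equiv.Perm (Fin 3)) (Ls : Fin 3 → List G)
    (hL : ∀ p, Enum (fun g => e (b g)) p (Ls p)) :
    ∃ u i j : Fin 3, RType u i j ∧ ∃ a1 h a2 b1 g b2, Ls i = a1 ++ h :: a2 ∧
      Ls j = b1 ++ g :: b2 ∧ h ≠ g ∧ Alive v (pb (fun g => e (b g)) (st u)) 0 2 a1 b1 h g := by
  have := I.nontrivial
  have hF : FaceOK (valSys v I.mono) := valSys_face v I.mono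
  have key := near_addOn I hP0 hP hb e
  have k1 := key ![{0, 1}, {1}, {1}] (by decide) (by decide)
  have k2 := key ![{0}, {1}, {1, 2}] (by decide) (by decide)
  have k3 := key ![{1}, {1}, {1, 2}] (by decide) (by decide)
  have k4 := key ![{0, 1}, {1}, {2}] (by decide) (by decide)
  have k5 := key ![{0}, {1, 2}, {2}] (by decide) (by decide)
  have k6 := key ![{1}, {1, 2}, {2}] (by decide) (by decide)
  have k7 := key ![{0, 1}, {2}, {2}] (by decide) (by decide)
  have k8 := key ![{0}, {0, 1}, {1}] (by decide) (by decide)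
  have k9 := key ![{0}, {0}, {1, 2}] (by decide) (by decide)
  have k10 := key ![{0}, {0, 1}, {2}] (by decide) (by decide)
  have t0 := key ![Finset.univ, {2}, {2}] (by decide) (by decide)
  have t1 := key ![{0}, Finset.univ, {2}] (by decide) (by decide)
  have t2 := key ![{0}, {0}, Finset.univ] (by decide) (by decide)
  by_contra hcon
  apply line_open hF (fun g => e (b g)) t0 t1 t2
  · by_contra ho
    apply hcon
    refine ⟨1, 0, 2, Or.inl ⟨rfl, rfl, rfl⟩, ?_⟩
    have es : st 1 = ![1, 1, 1] := by decide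
    rw [es]
    exact rect_block v I.mono (fun g => e (b g)) 0 2 (by decide) 0 2 (Ls 0) (Ls 2) (hL 0) (hL 2)
      ![1, 1, 1] k1 k2 k3 k4 (by decide) (by decide) (by decide) (by decide) (by decide)
      (by decide) (by decide) (by decide) (by
        have q1 : Function.update (![1, 1, 1] : Fin 3 → Fin 3) 0 0 = ![0, 1, 1] := by decide
        have q2 : Function.update (![0, 1, 1] : Fin 3 → Fin 3) 2 2 = ![0, 1, 2] := by decide
        have q3 : Function.update (![1, 1, 1] : Fin 3 → Fin 3) 2 2 = ![1, 1, 2] := by decide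
        have q4 : Function.update (![1, 1, 2] : Fin 3 → Fin 3) 0 0 = ![0, 1, 2] := by decide
        rw [q1, q2, q3, q4]
        exact ho)
  · by_contra ho
    apply hcon
    refine ⟨2, 0, 1, Or.inr (Or.inl ⟨rfl, rfl, rfl⟩), ?_⟩
    have es : st 2 = ![1, 1, 2] := by decide
    rw [es]
    exact rect_block v I.mono (fun g => e (b g)) 0 1 (by decide) 0 2 (Ls 0) (Ls 1) (hL 0) (hL 1)
      ![1, 1, 2] k4 k5 k6 k7 (by decide) (by decide) (by decide) (by decide) (by decide)
      (by decide) (by decide) (by decide) (by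
        have q1 : Function.update (![1, 1, 2] : Fin 3 → Fin 3) 0 0 = ![0, 1, 2] := by decide
        have q2 : Function.update (![0, 1, 2] : Fin 3 → Fin 3) 1 2 = ![0, 2, 2] := by decide
        have q3 : Function.update (![1, 1, 2] : Fin 3 → Fin 3) 1 2 = ![1, 2, 2] := by decide
        have q4 : Function.update (![1, 2, 2] : Fin 3 → Fin 3) 0 0 = ![0, 2, 2] := by decide
        rw [q1, q2, q3, q4]
        exact ho)
  · by_contra ho
    apply hcon
    refine ⟨0, 1, 2, Or.inr (Or.inr ⟨rfl, rfl, rfl⟩), ?_⟩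
    have es : st 0 = ![0, 1, 1] := by decide
    rw [es]
    exact rect_block v I.mono (fun g => e (b g)) 1 2 (by decide) 0 2 (Ls 1) (Ls 2) (hL 1) (hL 2)
      ![0, 1, 1] k8 k9 k2 k10 (by decide) (by decide) (by decide) (by decide) (by decide)
      (by decide) (by decide) (by decide) (by
        have q1 : Function.update (![0, 1, 1] : Fin 3 → Fin 3) 1 0 = ![0, 0, 1] := by decide
        have q2 : Function.update (![0, 0, 1] : Fin 3 → Fin 3) 2 2 = ![0, 0, 2] := by decide
        have q3 : Function.update (![0, 1, 1] : Fin 3 → Fin 3) 2 2 = ![0, 1, 2] := by decide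
        have q4 : Function.update (![0, 1, 2] : Fin 3 → Fin 3) 1 0 = ![0, 0, 2] := by decide
        rw [q1, q2, q3, q4]
        exact ho)

end Pool.F6
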