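import Pool.Agent.F6.Val

/-!
# Additive regions, path sums, rectangles with an alive cell
-/

namespace Pool.F6

open Finset

variable {G : Type*} [DecidableEq G] [Fintype G] {S : LabSys G}

variable (S) in
/-- the differences are additive on the product region `A` -/
def AddOn (A : G → Finset (Fin 3)) : Prop :=
  ∀ x y z : G → Fin 3, Mem A x → Mem A y → Mem A z → D S x y + D S y z = D S x z

lemma Dead.addOn {A : G → Finset (Fin 3)} {V : G → Fin 3} (h : Dead S A V) : AddOn S A :=
  fun _ _ _ hx hy hz => h.add hx hy hz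

lemma FaceOK.addOn (hF : FaceOK S) (c : Fin 3) (A : G → Finset (Fin 3)) (hA : ∀ g, c ∉ A g) :
    AddOn S A :=
  fun _ _ _ hx hy hz => face_add hF (c := c) (fun g e => hA g (e ▸ hx g))
    (fun g e => hA g (e ▸ hy g)) (fun g e => hA g (e ▸ hz g))

lemma AddOn.symm {A : G → Finset (Fin 3)} (h : AddOn S A) {x y : G → Fin 3}
    (hx : Mem A x) (hy : Mem A y) : D S x y = D S y x := by
  have e := h x y x hx hy hx
  rw [D_self] at e
  have z := z2_add_self (D S y x)
  linear_combination e - z

lemma AddOn.mono {A A' : G → Finset (Fin 3)} (h : AddOn S A) (hA : ∀ g, A' g ⊆ A g) :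
    AddOn S A' :=
  fun x y z hx hy hz => h x y z (fun g => hA g (hx g)) (fun g => hA g (hy g))
    (fun g => hA g (hz g))

/-- on an additive region every path sum is a difference -/
lemma AddOn.pl_eq {A : G → Finset (Fin 3)} (h : AddOn S A) (L : List G) {x y : G → Fin 3}
    (hx : Mem A x) (hu : Mem A (up L x y)) : pl S L x y = D S x (up L x y) := by
  induction L generalizing x with
  | nil => simp only [pl, up]; exact (D_self x).symm
  | cons g L ih =>
    have hyg : y g ∈ A g := by
      have e := hu g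
      rwa [up_apply_mem (g :: L) x y g List.mem_cons_self] at e
    have hx1 : Mem A (Function.update x g (y g)) := hx.upd hyg
    rw [pl, up] at *
    rw [ih hx1 hu, ← D_update, h x _ _ hx hx1 hu]

/-! ### rectangles -/

/-- the cell at `y`: `h` moves to `q`, `g` moves to `s` -/
def CellClosed (S : LabSys G) (y : G → Fin 3) (h g : G) (q s : Fin 3) : Prop :=
  fe S y h q + fe S (Function.update y h q) g s = fe S y g s + fe S (Function.update y g s) h q

omit [Fintype G] in
lemma strip (h : G) (q s : Fin 3) (b : List G) (hb : h ∉ b) (x : G → Fin 3)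
    (hc : ∀ b1 g b2, b = b1 ++ g :: b2 →
      fe S (up b1 x (fun _ => s)) h q + fe S (Function.update (up b1 x (fun _ => s)) h q) g s =
      fe S (up b1 x (fun _ => s)) g s +
        fe S (Function.update (up b1 x (fun _ => s)) g s) h q) :
    fe S x h q + pl S b (Function.update x h q) (fun _ => s) =
      pl S b x (fun _ => s) + fe S (up b x (fun _ => s)) h q := by
  induction b generalizing x with
  | nil => simp [pl, up]
  | cons g b ih =>
    rw [List.mem_cons, not_or] at hb
    have e0 := hc [] g b rfl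
    have e1 := ih hb.2 (Function.update x g s) (by
      intro b1 k b2 hk
      have e := hc (g :: b1) k b2 (by rw [hk]; rfl)
      simpa only [up] using e)
    simp only [up] at e0
    rw [pl, pl, up, Function.update_comm hb.1]
    linear_combination e0 + e1

omit [Fintype G] in
/-- a rectangle all of whose cells are closed has closed boundary -/
lemma rect_closed (q s : Fin 3) (a b : List G) (hab : ∀ g ∈ a, g ∉ b) (ha : a.Nodup)
    (x : G → Fin 3)
    (hc : ∀ a1 h a2 b1 g b2, a = a1 ++ h :: a2 → b = b1 ++ g :: b2 →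
      fe S (up b1 (up a1 x (fun _ => q)) (fun _ => s)) h q +
        fe S (Function.update (up b1 (up a1 x (fun _ => q)) (fun _ => s)) h q) g s =
      fe S (up b1 (up a1 x (fun _ => q)) (fun _ => s)) g s +
        fe S (Function.update (up b1 (up a1 x (fun _ => q)) (fun _ => s)) g s) h q) :
    pl S a x (fun _ => q) + pl S b (up a x (fun _ => q)) (fun _ => s) =
      pl S b x (fun _ => s) + pl S a (up b x (fun _ => s)) (fun _ => q) := by
  induction a generalizing x with
  | nil => simp [pl, up]
  | cons h a ih =>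
    have hb : h ∉ b := hab h List.mem_cons_self
    have e0 := strip h q s b hb x (by
      intro b1 g b2 hg
      have e := hc [] h a b1 g b2 rfl hg
      simpa only [up] using e)
    rw [List.nodup_cons] at ha
    have e1 := ih (fun g hg => hab g (List.mem_cons_of_mem _ hg)) ha.2 (Function.update x h q) (by
      intro a1 k a2 b1 g b2 hk hg
      have e := hc (h :: a1) k a2 b1 g b2 (by rw [hk]; rfl) hg
      simpa only [up] using e)
    rw [pl, pl, up]
    rw [up_update b x _ h q hb] at e1
    linear_combination e0 + e1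

omit [Fintype G] in
/-- an open cell is not dead for any viewers -/
lemma cell_alive (y : G → Fin 3) (h g : G) (hgh : h ≠ g) (q s : Fin 3)
    (ho : fe S y h q + fe S (Function.update y h q) g s ≠
      fe S y g s + fe S (Function.update y g s) h q) (νh νg : Fin 3) :
    ∃ a b B C, (a = y h ∨ a = q) ∧ (b = y g ∨ b = s) ∧ νh ∉ B ∧ νg ∉ C ∧
      Cons2 S y h g a b B C ∧ ¬ NB (St S y h g a b B C) := by
  by_contra hcon
  push Not at hcon
  have H : SqNB S νh νg y h g (y h) q (y g) s := by
    intro a b ha hb B C hB hC hc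
    exact hcon a b B C ha hb hB hC hc
  have e := sq_closed S νh νg y h g hgh (y h) q (y g) s H
  have o1 := H.eoh hgh (Or.inl rfl : y g = y g ∨ y g = s)
  have o2 := H.eoh hgh (Or.inr rfl : s = y g ∨ s = s)
  have o3 := H.eog (Or.inl rfl : y h = y h ∨ y h = q)
  have o4 := H.eog (Or.inr rfl : q = y h ∨ q = q)
  rw [P2_self] at o1 o3
  rw [P2_s] at o2
  rw [P2_q y h g hgh] at o4
  rw [P2_self, P2_q y h g hgh, P2_s] at e
  apply ho
  rw [fe_eq S νh y h q o1, fe_eq S νh _ h q o2, fe_eq S νg y g s o3, fe_eq S νg _ g s o4]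
  exact e

/-- alive cell for valuations: for all viewers there is an EF1 allocation -/
lemma cell_alive_val (v : Fin 3 → Finset G → ℝ) (hv : ∀ i, Monotone (v i))
    (y : G → Fin 3) (h g : G) (hgh : h ≠ g) (q s : Fin 3)
    (ho : fe (valSys v hv) y h q + fe (valSys v hv) (Function.update y h q) g s ≠
      fe (valSys v hv) y g s + fe (valSys v hv) (Function.update y g s) h q) (νh νg : Fin 3) :
    ∃ (a b : Fin 3) (H : Fin 3 → Finset G), (a = y h ∨ a = q) ∧ (b = y g ∨ b = s) ∧
      (∀ i, H i ⊆ {h, g}) ∧ h ∉ H νh ∧ g ∉ H νg ∧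
      ∃ B : Fin 3 → Finset G, Disj B ∧ EF1 v B ∧
        (∀ j k, v j (pc (P2 y h g a b) (H j) k) ≤ v j (B j)) ∧
        ∀ j, B j = pc (P2 y h g a b) (H j) ((valSys v hv).L (P2 y h g a b) H j) := by
  obtain ⟨a, b, B, C, ha, hb, hB, hC, hcons, hbij⟩ := cell_alive y h g hgh q s ho νh νg
  refine ⟨a, b, H2 B C h g, ha, hb, ?_, ?_, ?_, ?_⟩
  · intro i
    unfold H2
    split_ifs <;> simp
  · unfold H2
    simp [hB]
    split_ifs <;> simp [hgh]
  · unfold H2
    simp [hC]
    split_ifs <;> simp [hgh.symm]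
  · apply extract_cons v hv _ _ hbij
    intro i j hij c d hcd hci hdi hcj hdj hxx
    have hmemH : ∀ k z, z ∈ H2 B C h g k ↔ (z = h ∧ k ∈ B) ∨ (z = g ∧ k ∈ C) := by
      intro k z
      unfold H2
      rw [Finset.mem_union]
      split_ifs <;> simp_all
    rw [hmemH] at hci hdi hcj hdj
    have hh : (c = h ∧ d = g) ∨ (c = g ∧ d = h) := by
      rcases hci with ⟨e1, _⟩ | ⟨e1, _⟩ <;> rcases hdi with ⟨e2, _⟩ | ⟨e2, _⟩
      · exact absurd (e1.trans e2.symm) hcd
      · exact Or.inl ⟨e1, e2⟩
      · exact Or.inr ⟨e1, e2⟩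
      · exact absurd (e1.trans e2.symm) hcd
    rcases hh with ⟨rfl, rfl⟩ | ⟨rfl, rfl⟩
    · obtain ⟨e1, e2⟩ := hxx
      rw [P2_h y c d hgh] at e1
      rw [P2_g y c d] at e2
      simp only [true_and, hgh, hgh.symm, false_and, or_false, false_or] at hci hdi hcj hdj
      exact hcons i j hij hci hdi hcj hdj ⟨e1, e2⟩
    · obtain ⟨e1, e2⟩ := hxx
      rw [P2_g y d c] at e1
      rw [P2_h y d c hgh] at e2
      simp only [true_and, hgh, hgh.symm, false_and, or_false, false_or] at hci hdi hcj hdj
      exact hcons i j hij hdi hci hdj hcj ⟨e2, e1⟩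

/-- W-lemma: a rectangle with non-closed boundary has a cell with all alive facts -/
theorem rect_alive (v : Fin 3 → Finset G → ℝ) (hv : ∀ i, Monotone (v i))
    (q s : Fin 3) (a b : List G) (hab : ∀ g ∈ a, g ∉ b) (ha : a.Nodup) (x : G → Fin 3)
    (ho : pl (valSys v hv) a x (fun _ => q) +
        pl (valSys v hv) b (up a x (fun _ => q)) (fun _ => s) ≠
      pl (valSys v hv) b x (fun _ => s) +
        pl (valSys v hv) a (up b x (fun _ => s)) (fun _ => q)) :
    ∃ a1 h a2 b1 g b2, a = a1 ++ h :: a2 ∧ b = b1 ++ g :: b2 ∧ h ≠ g ∧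
      ∀ νh νg : Fin 3, ∃ (c d : Fin 3) (H : Fin 3 → Finset G),
        (c = up b1 (up a1 x (fun _ => q)) (fun _ => s) h ∨ c = q) ∧
        (d = up b1 (up a1 x (fun _ => q)) (fun _ => s) g ∨ d = s) ∧
        (∀ i, H i ⊆ {h, g}) ∧ h ∉ H νh ∧ g ∉ H νg ∧
        ∃ B : Fin 3 → Finset G, Disj B ∧ EF1 v B ∧
          (∀ j k, v j (pc (P2 (up b1 (up a1 x (fun _ => q)) (fun _ => s)) h g c d) (H j) k)
            ≤ v j (B j)) ∧
          ∀ j, B j = pc (P2 (up b1 (up a1 x (fun _ => q)) (fun _ => s)) h g c d) (H j)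
            ((valSys v hv).L (P2 (up b1 (up a1 x (fun _ => q)) (fun _ => s)) h g c d) H j) := by
  by_contra hcon
  apply ho
  apply rect_closed q s a b hab ha x
  intro a1 h a2 b1 g b2 e1 e2
  by_contra hcell
  apply hcon
  have hh : h ∈ a := by rw [e1]; simp
  have hg : g ∈ b := by rw [e2]; simp
  have hgh : h ≠ g := fun e => hab h hh (e ▸ hg)
  exact ⟨a1, h, a2, b1, g, b2, e1, e2, hgh,
    fun νh νg => cell_alive_val v hv _ h g hgh q s hcell νh νg⟩

end Pool.F6
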