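import Pool.Agent.F6.Fact

/-!
# Rectangle steps, coded by numbers
-/

namespace Pool.F6

open Finset

/-- union of masks -/
def orAll : List ℕ → ℕ
  | [] => 0
  | m :: L => Nat.lor m (orAll L)

/-- splittings: union before, group, union after -/
def splits : ℕ → List ℕ → List (ℕ × ℕ × ℕ)
  | _, [] => []
  | acc, m :: L => (acc, m, orAll L) :: splits (Nat.lor acc m) L

lemma orAll_bit_cons (m : ℕ) (L : List ℕ) (i : ℕ) :
    (orAll (m :: L)).testBit i = (m.testBit i || (orAll L).testBit i) := by
  show (m ||| orAll L).testBit i = _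
  rw [Nat.testBit_or]

lemma orAll_append (L L' : List ℕ) (i : ℕ) :
    (orAll (L ++ L')).testBit i = ((orAll L).testBit i || (orAll L').testBit i) := by
  induction L with
  | nil => simp [orAll]
  | cons m L ih => rw [List.cons_append, orAll_bit_cons, orAll_bit_cons, ih, Bool.or_assoc]

lemma splits_mem (L1 : List ℕ) (m : ℕ) (L2 : List ℕ) (acc : ℕ) :
    ∃ u, (u, m, orAll L2) ∈ splits acc (L1 ++ m :: L2) ∧
      ∀ i, u.testBit i = (acc.testBit i || (orAll L1).testBit i) := by
  induction L1 generalizing acc with
  | nil =>
    refine ⟨acc, ?_, ?_⟩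
    · simp [splits]
    · intro i; simp [orAll]
  | cons a L1 ih =>
    obtain ⟨u, h1, h2⟩ := ih (Nat.lor acc a)
    refine ⟨u, ?_, ?_⟩
    · rw [List.cons_append, splits]
      exact List.mem_cons_of_mem _ h1
    · intro i
      rw [h2, orAll_bit_cons]
      have : (Nat.lor acc a).testBit i = (acc.testBit i || a.testBit i) := by
        show (acc ||| a).testBit i = _
        rw [Nat.testBit_or]
      rw [this, Bool.or_assoc]

/-- disjoint masks covering everything -/
def djs : ℕ → List ℕ → Bool
  | acc, [] => acc == FU
  | acc, m :: L => Nat.land acc m == 0 && djs (Nat.lor acc m) L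

lemma djs_bit (L : List ℕ) (acc : ℕ) (h : djs acc L = true) (i : ℕ) :
    (acc.testBit i || (orAll L).testBit i) = decide (i < 29) := by
  induction L generalizing acc with
  | nil =>
    rw [djs, beq_iff_eq] at h
    rw [h, FU_bit]
    simp [orAll]
  | cons m L ih =>
    rw [djs, Bool.and_eq_true] at h
    have := ih _ h.2
    rw [orAll_bit_cons, ← this, ← Bool.or_assoc]
    congr 1
    show _ = (acc ||| m).testBit i
    rw [Nat.testBit_or]

lemma djs_disj (L : List ℕ) (acc : ℕ) (h : djs acc L = true) (i : ℕ)
    (hi : acc.testBit i = true) : (orAll L).testBit i = false := by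
  induction L generalizing acc with
  | nil => simp [orAll]
  | cons m L ih =>
    rw [djs, Bool.and_eq_true] at h
    rw [orAll_bit_cons, land_bit h.1 hi, Bool.false_or]
    apply ih _ h.2
    show (acc ||| m).testBit i = true
    rw [Nat.testBit_or, hi, Bool.true_or]

lemma djs_tail (L : List ℕ) (acc m : ℕ) (h : djs acc (m :: L) = true) :
    djs (Nat.lor acc m) L = true := by
  rw [djs, Bool.and_eq_true] at h
  exact h.2

lemma lor_bit (m m' i : ℕ) : (Nat.lor m m').testBit i = (m.testBit i || m'.testBit i) := by
  show (m ||| m').testBit i = _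
  rw [Nat.testBit_or]

/-- consecutive masks of a disjoint list: a set bit of the first excludes the others -/
lemma djs_two (L1 : List ℕ) (m : ℕ) (L2 : List ℕ) (acc : ℕ) (h : djs acc (L1 ++ m :: L2) = true)
    (i : ℕ) : (m.testBit i = true → acc.testBit i = false ∧ (orAll L1).testBit i = false ∧
      (orAll L2).testBit i = false) := by
  induction L1 generalizing acc with
  | nil =>
    intro hm
    rw [List.nil_append, djs, Bool.and_eq_true] at h
    refine ⟨?_, by simp [orAll], ?_⟩
    · by_contra hc
      rw [Bool.not_eq_false] at hc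
      rw [land_bit h.1 hc] at hm
      exact absurd hm (by decide)
    · apply djs_disj L2 _ h.2
      rw [lor_bit, hm, Bool.or_true]
  | cons a L1 ih =>
    intro hm
    rw [List.cons_append, djs, Bool.and_eq_true] at h
    have h1 := ih _ h.2 hm
    rw [lor_bit, Bool.or_eq_false_iff] at h1
    refine ⟨h1.1.1, ?_, h1.2.2⟩
    rw [orAll_bit_cons, h1.1.2, h1.2.1]
    rfl

section lists

variable {G : Type*} [DecidableEq G] [Fintype G]

/-- the goods of the groups, in order -/
noncomputable def LL (β : G → ℕ) : List ℕ → List G
  | [] => []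
  | m :: L => (bm β m).toList ++ LL β L

omit [DecidableEq G] in
lemma mem_LL (β : G → ℕ) (L : List ℕ) (g : G) :
    g ∈ LL β L ↔ (orAll L).testBit (β g) = true := by
  induction L with
  | nil => simp [LL, orAll]
  | cons m L ih =>
    rw [LL, List.mem_append, Finset.mem_toList, mem_bm, ih, orAll_bit_cons, Bool.or_eq_true]

omit [DecidableEq G] in
lemma LL_nodup (β : G → ℕ) (L : List ℕ) (acc : ℕ) (h : djs acc L = true ∨
    ∃ L', djs acc (L ++ L') = true) : (LL β L).Nodup := by
  induction L generalizing acc with
  | nil => simp [LL]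
  | cons m L ih =>
    rw [LL, List.nodup_append]
    have h' : ∃ L', djs acc (m :: (L ++ L')) = true := by
      rcases h with h | ⟨L', h⟩
      · exact ⟨[], by rwa [List.append_nil]⟩
      · exact ⟨L', by rwa [List.cons_append] at h⟩
    obtain ⟨L', h'⟩ := h'
    refine ⟨Finset.nodup_toList _, ih _ (Or.inr ⟨L', djs_tail _ _ _ h'⟩), ?_⟩
    intro a ha b hb hab
    subst hab
    rw [Finset.mem_toList, mem_bm] at ha
    rw [mem_LL] at hb
    have h1 := (djs_two [] m (L ++ L') acc (by rwa [List.nil_append]) (β a) ha).2.2
    rw [orAll_append, hb] at h1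
    exact absurd h1 (by simp)

omit [DecidableEq G] in
lemma LL_split (β : G → ℕ) (L : List ℕ) (a1 : List G) (h : G) (a2 : List G)
    (e : LL β L = a1 ++ h :: a2) : ∃ L1 m L2, L = L1 ++ m :: L2 ∧ m.testBit (β h) = true ∧
      (∀ g, (orAll L1).testBit (β g) = true → g ∈ a1) ∧
      ∀ g, (orAll L2).testBit (β g) = true → g ∈ a2 := by
  induction L generalizing a1 with
  | nil => simp [LL] at e
  | cons m L ih =>
    rw [LL, List.append_eq_append_iff] at e
    rcases e with ⟨a', e1, e2⟩ | ⟨c', e1, e2⟩
    · -- a1 = toList ++ a', LL = a' ++ h :: a2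
      obtain ⟨L1, m', L2, h1, h2, h3, h4⟩ := ih a' e2
      refine ⟨m :: L1, m', L2, by rw [h1, List.cons_append], h2, ?_, h4⟩
      intro g hg
      rw [orAll_bit_cons, Bool.or_eq_true] at hg
      rw [e1, List.mem_append]
      rcases hg with hg | hg
      · left
        rw [Finset.mem_toList, mem_bm]
        exact hg
      · exact Or.inr (h3 g hg)
    · rcases c' with _ | ⟨x, c'⟩
      · rw [List.nil_append] at e2
        obtain ⟨L1, m', L2, h1, h2, h3, h4⟩ := ih [] (by rw [List.nil_append]; exact e2.symm)
        refine ⟨m :: L1, m', L2, by rw [h1, List.cons_append], h2, ?_, h4⟩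
        intro g hg
        rw [orAll_bit_cons, Bool.or_eq_true] at hg
        rcases hg with hg | hg
        · have : g ∈ (bm β m).toList := by rw [Finset.mem_toList, mem_bm]; exact hg
          rw [e1, List.append_nil] at this
          exact this
        · exact absurd (h3 g hg) (by simp)
      · rw [List.cons_append, List.cons.injEq] at e2
        obtain ⟨e3, e4⟩ := e2
        subst e3
        refine ⟨[], m, L, rfl, ?_, ?_, ?_⟩
        · have : h ∈ (bm β m).toList := by rw [e1]; simp
          rw [Finset.mem_toList, mem_bm] at this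
          exact this
        · intro g hg
          simp [orAll] at hg
        · intro g hg
          rw [e4, List.mem_append]
          exact Or.inr ((mem_LL β L g).2 hg)

end lists

end Pool.F6
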