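import Pool.Agent.F6.RectM

/-!
# Soundness of rectangle steps
-/

namespace Pool.F6

open Finset

/-- mask or zero -/
def im (b : Bool) (m : ℕ) : ℕ := if b = true then m else 0

lemma im_bit (b : Bool) (m i : ℕ) : (im b m).testBit i = (b && m.testBit i) := by
  unfold im
  cases b <;> simp

/-- code of the placement with `X` in `a`, `Y` in `b` -/
def pcode (f : M3) (X Y : ℕ) (a b : Fin 3) : ℕ :=
  Nat.lor (Nat.lor f.a1 (im (a == 1) X)) (im (b == 1) Y) +
    536870912 * Nat.lor (Nat.lor f.a2 (im (a == 2) X)) (im (b == 2) Y)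

section

variable {G : Type*}

/-- the placement with `X` in `a`, `Y` in `b` -/
def pf (β : G → ℕ) (f : M3) (X Y : ℕ) (a b : Fin 3) : G → Fin 3 := fun g =>
  if X.testBit (β g) = true then a else if Y.testBit (β g) = true then b
  else if f.a1.testBit (β g) = true then 1 else if f.a2.testBit (β g) = true then 2 else 0

lemma pf_aux : ∀ (a b : Fin 3) (x y f1 f2 : Bool), (x && y) = false → (x && f1) = false →
    (x && f2) = false → (y && f1) = false → (y && f2) = false → (f1 && f2) = false →
    (if ((f1 || ((a == 1) && x)) || ((b == 1) && y)) = true then (1 : Fin 3)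
      else if ((f2 || ((a == 2) && x)) || ((b == 2) && y)) = true then 2 else 0) =
    (if x = true then a else if y = true then b else if f1 = true then 1
      else if f2 = true then 2 else 0) := by decide

/-- shape of the masks: the masks are disjoint and cover everything -/
def shape (f : M3) (Xs Ys : List ℕ) : Bool := djs 0 (f.a0 :: f.a1 :: f.a2 :: (Xs ++ Ys))

lemma orAll_nil_bit (i : ℕ) : (orAll []).testBit i = false := by simp [orAll]

structure Sh (f : M3) (X Y : ℕ) : Prop where
  xy : ∀ i, X.testBit i = true → Y.testBit i = false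
  xf : ∀ i k, X.testBit i = true → (f.get k).testBit i = false
  yf : ∀ i k, Y.testBit i = true → (f.get k).testBit i = false
  ff : ∀ i k k', k ≠ k' → (f.get k).testBit i = true → (f.get k').testBit i = false
  lt : ∀ i, X.testBit i = true → i < 29
  lt' : ∀ i, Y.testBit i = true → i < 29
  ltf : ∀ i k, (f.get k).testBit i = true → i < 29
  cov : ∀ i, i < 29 → X.testBit i = true ∨ Y.testBit i = true ∨ ∃ k, (f.get k).testBit i = true

lemma shape_Sh {f : M3} {Xs Ys : List ℕ} (h : shape f Xs Ys = true) :
    Sh f (orAll Xs) (orAll Ys) := by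
  unfold shape at h
  have hb := djs_bit _ _ h
  have d0 := djs_two [] f.a0 (f.a1 :: f.a2 :: (Xs ++ Ys)) 0 h
  have d1 := djs_two [f.a0] f.a1 (f.a2 :: (Xs ++ Ys)) 0 h
  have d2 := djs_two [f.a0, f.a1] f.a2 (Xs ++ Ys) 0 h
  simp only [orAll_bit_cons, orAll_append, Bool.or_eq_false_iff, orAll_nil_bit, Nat.zero_testBit,
    Bool.or_false, Bool.false_or, true_and] at hb d0 d1 d2
  have dx : ∀ i, (orAll Xs).testBit i = true → (orAll Ys).testBit i = false := by
    intro i
    have key : ∀ (L : List ℕ) (acc : ℕ) (L' : List ℕ), djs acc (L ++ L') = true →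
        (orAll L).testBit i = true → (orAll L').testBit i = false := by
      intro L
      induction L with
      | nil => intro acc L' _ h2; simp [orAll] at h2
      | cons m L ih =>
        intro acc L' h1 h2
        rw [orAll_bit_cons, Bool.or_eq_true] at h2
        rcases h2 with h2 | h2
        · have := (djs_two [] m (L ++ L') acc h1 i h2).2.2
          rw [orAll_append, Bool.or_eq_false_iff] at this
          exact this.2
        · exact ih _ L' (djs_tail _ _ _ h1) h2
    have h3 := djs_tail _ _ _ (djs_tail _ _ _ (djs_tail _ _ _ h))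
    exact key Xs _ Ys h3
  have hfk : ∀ (k : Fin 3) i, (f.get k).testBit i = true →
      (orAll Xs).testBit i = false ∧ (orAll Ys).testBit i = false := by
    intro k i hi
    rcases aux3 k with rfl | rfl | rfl
    · exact (d0 i hi).2.2
    · exact (d1 i hi).2.2
    · exact (d2 i hi).2
  refine ⟨dx, ?_, ?_, ?_, ?_, ?_, ?_, ?_⟩
  · intro i k hi
    by_contra hc
    rw [Bool.not_eq_false] at hc
    rw [(hfk k i hc).1] at hi
    exact absurd hi (by decide)
  · intro i k hi
    by_contra hc
    rw [Bool.not_eq_false] at hc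
    rw [(hfk k i hc).2] at hi
    exact absurd hi (by decide)
  · intro i k k' hne hi
    by_contra hc
    rw [Bool.not_eq_false] at hc
    have hk : ∀ k : Fin 3, (f.get k).testBit i = true → ∀ k' : Fin 3, (f.get k').testBit i = true →
        k.val < k'.val → False := by
      intro k hk k' hk' hlt
      rcases aux3 k with rfl | rfl | rfl <;> rcases aux3 k' with rfl | rfl | rfl <;>
        simp at hlt
      · have := (d0 i hk).1
        rw [M3.get1] at hk'
        rw [hk'] at this
        exact absurd this (by decide)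
      · have := (d0 i hk).2.1
        rw [M3.get2] at hk'
        rw [hk'] at this
        exact absurd this (by decide)
      · have := (d1 i hk).2.1
        rw [M3.get2] at hk'
        rw [hk'] at this
        exact absurd this (by decide)
    rcases lt_trichotomy k.val k'.val with h1 | h1 | h1
    · exact hk k hi k' hc h1
    · exact hne (Fin.ext h1)
    · exact hk k' hc k hi h1
  · intro i hi
    have := hb i
    rw [hi] at this
    simpa using this.symm
  · intro i hi
    have := hb i
    rw [hi] at this
    simpa using this.symm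
  · intro i k hi
    have := hb i
    rcases aux3 k with rfl | rfl | rfl
    · rw [M3.get0] at hi
      rw [hi] at this
      simpa using this.symm
    · rw [M3.get1] at hi
      rw [hi] at this
      simpa using this.symm
    · rw [M3.get2] at hi
      rw [hi] at this
      simpa using this.symm
  · intro i hi
    have := hb i
    rw [decide_eq_true hi] at this
    simp only [Bool.or_eq_true] at this
    rcases this with e | e | e | e | e
    · exact Or.inr (Or.inr ⟨0, e⟩)
    · exact Or.inr (Or.inr ⟨1, e⟩)
    · exact Or.inr (Or.inr ⟨2, e⟩)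
    · exact Or.inl e
    · exact Or.inr (Or.inl e)

lemma lt_of_bits {m : ℕ} (h : ∀ i, m.testBit i = true → i < 29) : m < 536870912 := by
  have h2 : m < 2 ^ 29 := by
    apply Nat.lt_pow_two_of_testBit
    intro i hi
    by_contra hc
    rw [Bool.not_eq_false] at hc
    exact absurd (h i hc) (by omega)
  norm_num at h2
  exact h2

lemma plc_pcode {β : G → ℕ} {f : M3} {X Y : ℕ} (h : Sh f X Y) (a b : Fin 3) :
    plc β (pcode f X Y a b) = pf β f X Y a b := by
  have l1 : Nat.lor (Nat.lor f.a1 (im (a == 1) X)) (im (b == 1) Y) < 536870912 := by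
    apply lt_of_bits
    intro i hi
    rw [lor_bit, lor_bit, im_bit, im_bit, Bool.or_eq_true, Bool.or_eq_true, Bool.and_eq_true,
      Bool.and_eq_true] at hi
    rcases hi with (hi | hi) | hi
    · exact h.ltf i 1 hi
    · exact h.lt i hi.2
    · exact h.lt' i hi.2
  have e1 : pcode f X Y a b % 536870912 =
      Nat.lor (Nat.lor f.a1 (im (a == 1) X)) (im (b == 1) Y) := by
    unfold pcode
    rw [Nat.add_mul_mod_self_left, Nat.mod_eq_of_lt l1]
  have e2 : pcode f X Y a b / 536870912 =
      Nat.lor (Nat.lor f.a2 (im (a == 2) X)) (im (b == 2) Y) := by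
    unfold pcode
    rw [Nat.add_mul_div_left _ _ (by norm_num), Nat.div_eq_of_lt l1, Nat.zero_add]
  funext g
  unfold plc pf
  rw [e1, e2, lor_bit, lor_bit, lor_bit, lor_bit, im_bit, im_bit, im_bit, im_bit]
  have na : ∀ x y : Bool, (x = true → y = false) → (x && y) = false := by decide
  exact pf_aux a b _ _ _ _ (na _ _ (h.xy _)) (na _ _ (h.xf _ 1)) (na _ _ (h.xf _ 2))
    (na _ _ (h.yf _ 1)) (na _ _ (h.yf _ 2)) (na _ _ (h.ff _ 1 2 (by decide)))

/-- mask of the blocks allowed in piece `k` in a cell -/
def cmask (f : M3) (sx sy : ℕ × ℕ × ℕ) (p q r s : Fin 3) (k : Fin 3) : ℕ :=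
  Nat.lor (f.get k) (Nat.lor (Nat.lor (im (k == q) (Nat.lor sx.1 sx.2.1))
    (im (k == p) (Nat.lor sx.2.2 sx.2.1))) (Nat.lor (im (k == s) (Nat.lor sy.1 sy.2.1))
    (im (k == r) (Nat.lor sy.2.2 sy.2.1))))

/-- region of a cell -/
def creg (f : M3) (sx sy : ℕ × ℕ × ℕ) (p q r s : Fin 3) : M3 :=
  ⟨cmask f sx sy p q r s 0, cmask f sx sy p q r s 1, cmask f sx sy p q r s 2⟩

lemma creg_get (f : M3) (sx sy : ℕ × ℕ × ℕ) (p q r s k : Fin 3) :
    (creg f sx sy p q r s).get k = cmask f sx sy p q r s k := by
  rcases aux3 k with rfl | rfl | rfl <;> rfl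

lemma cmask_bit (f : M3) (sx sy : ℕ × ℕ × ℕ) (p q r s k : Fin 3) (i : ℕ) :
    (cmask f sx sy p q r s k).testBit i = ((f.get k).testBit i ||
      ((((k == q) && (sx.1.testBit i || sx.2.1.testBit i)) ||
        ((k == p) && (sx.2.2.testBit i || sx.2.1.testBit i))) ||
      (((k == s) && (sy.1.testBit i || sy.2.1.testBit i)) ||
        ((k == r) && (sy.2.2.testBit i || sy.2.1.testBit i))))) := by
  unfold cmask
  simp only [lor_bit, im_bit]

/-- viewers of a cell -/
def cview (mx my : ℕ) (νh νg : Fin 3) : M3 :=
  ⟨Nat.lor (im (νh == 0) mx) (im (νg == 0) my), Nat.lor (im (νh == 1) mx) (im (νg == 1) my),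
    Nat.lor (im (νh == 2) mx) (im (νg == 2) my)⟩

lemma cview_get (mx my : ℕ) (νh νg k : Fin 3) :
    (cview mx my νh νg).get k = Nat.lor (im (νh == k) mx) (im (νg == k) my) := by
  rcases aux3 k with rfl | rfl | rfl <;> rfl

end

end Pool.F6
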