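import Pool.Agent.F6.RectS

/-!
# Soundness of rectangle steps, final part
-/

namespace Pool.F6

open Finset

variable {G : Type*} [DecidableEq G] [Fintype G]

omit [Fintype G] in
lemma up_pf {β : G → ℕ} {f : M3} {X Y : ℕ} {p b q : Fin 3} {L : List G}
    (hL : ∀ g, g ∈ L ↔ X.testBit (β g) = true) :
    up L (pf β f X Y p b) (fun _ => q) = pf β f X Y q b := by
  funext g
  by_cases hg : g ∈ L
  · rw [up_apply_mem L _ _ g hg]
    unfold pf
    rw [if_pos ((hL g).1 hg)]
  · rw [up_apply_notMem L _ _ g hg]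
    unfold pf
    have : ¬ X.testBit (β g) = true := fun h => hg ((hL g).2 h)
    rw [if_neg this, if_neg this]

omit [Fintype G] in
lemma up_pf' {β : G → ℕ} {f : M3} {X Y : ℕ} (hS : Sh f X Y) {a r s : Fin 3} {L : List G}
    (hL : ∀ g, g ∈ L ↔ Y.testBit (β g) = true) :
    up L (pf β f X Y a r) (fun _ => s) = pf β f X Y a s := by
  funext g
  by_cases hg : g ∈ L
  · rw [up_apply_mem L _ _ g hg]
    unfold pf
    have hy := (hL g).1 hg
    have hx : ¬ X.testBit (β g) = true := by
      intro hx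
      rw [hS.xy _ hx] at hy
      exact absurd hy (by decide)
    rw [if_neg hx, if_pos hy]
  · rw [up_apply_notMem L _ _ g hg]
    unfold pf
    have : ¬ Y.testBit (β g) = true := fun h => hg ((hL g).2 h)
    rw [if_neg this, if_neg this]

/-- what an alive cell gives -/
def CellG (v : Fin 3 → Finset G → ℝ) (β : G → ℕ) (a w : M3) : Prop :=
  ∃ (x : G → Fin 3) (H : Fin 3 → Finset G) (B : Fin 3 → Finset G), Mem (rm β a) x ∧
    Hid (rm β a) (vw β w) H ∧ Disj B ∧ EF1 v B ∧ ∀ j k, v j (pc x (H j) k) ≤ v j (B j)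

lemma cview_dj {mx my : ℕ} (h : ∀ i, mx.testBit i = true → my.testBit i = false)
    (νh νg : Fin 3) : (cview mx my νh νg).dj = true := by
  have key : ∀ k k' : Fin 3, k ≠ k' → (Nat.land ((cview mx my νh νg).get k)
      ((cview mx my νh νg).get k') == 0) = true := by
    intro k k' hne
    rw [beq_iff_eq]
    apply Nat.eq_of_testBit_eq
    intro i
    show ((cview mx my νh νg).get k &&& (cview mx my νh νg).get k').testBit i = _
    rw [Nat.testBit_and, cview_get, cview_get, lor_bit, lor_bit, im_bit, im_bit, im_bit, im_bit,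
      Nat.zero_testBit]
    have aux : ∀ (νh νg k k' : Fin 3) (x y : Bool), k ≠ k' → (x = true → y = false) →
        (((νh == k) && x || (νg == k) && y) && ((νh == k') && x || (νg == k') && y)) = false := by
      decide
    exact aux νh νg k k' _ _ hne (h i)
  unfold M3.dj
  rw [Bool.and_eq_true, Bool.and_eq_true]
  exact ⟨key 0 1 (by decide), key 0 2 (by decide), key 1 2 (by decide)⟩

/-- the region of an alive cell -/
theorem cell_gua (v : Fin 3 → Finset G → ℝ) {β : G → ℕ} (hβ : ∀ g, β g < 29) {f : M3}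
    {Xs Ys : List ℕ} (hsh : shape f Xs Ys = true) {p q r s : Fin 3} (hpq : p ≠ q) (hrs : r ≠ s)
    {a1 b1 a2 b2 : List G} {h g : G} (ea : LL β Xs = a1 ++ h :: a2)
    (eb : LL β Ys = b1 ++ g :: b2)
    (hal : Alive v (pf β f (orAll Xs) (orAll Ys) p r) q s a1 b1 h g) :
    ∃ sx ∈ splits 0 Xs, ∃ sy ∈ splits 0 Ys, ∀ νh νg,
      (cview sx.2.1 sy.2.1 νh νg).dj = true ∧
      CellG v β (creg f sx sy p q r s) (cview sx.2.1 sy.2.1 νh νg) := by
  have hS := shape_Sh hsh
  have hdj := hsh
  unfold shape at hdj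
  have hd3 := djs_tail _ _ _ (djs_tail _ _ _ (djs_tail _ _ _ hdj))
  obtain ⟨L1, m, L2, e1, e2, e3, e4⟩ := LL_split β Xs a1 h a2 ea
  obtain ⟨K1', m', K2', k1, k2, k3, k4⟩ := LL_split β Ys b1 g b2 eb
  obtain ⟨u, hu1, hu2⟩ := splits_mem L1 m L2 0
  obtain ⟨u', hu1', hu2'⟩ := splits_mem K1' m' K2' 0
  rw [← e1] at hu1
  rw [← k1] at hu1'
  refine ⟨(u, m, orAll L2), hu1, (u', m', orAll K2'), hu1', ?_⟩
  have ndX : (LL β Xs).Nodup := LL_nodup β Xs _ (Or.inr ⟨Ys, hd3⟩)
  have ndY : (LL β Ys).Nodup := by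
    have : ∃ acc, djs acc Ys = true := by
      have key : ∀ (L : List ℕ) (acc : ℕ), djs acc (L ++ Ys) = true → ∃ acc, djs acc Ys = true := by
        intro L
        induction L with
        | nil => intro acc h; exact ⟨acc, h⟩
        | cons m L ih => intro acc h; exact ih _ (djs_tail _ _ _ h)
      exact key Xs _ hd3
    obtain ⟨acc, hacc⟩ := this
    exact LL_nodup β Ys acc (Or.inl hacc)
  have memX : ∀ z, z ∈ LL β Xs ↔ (orAll Xs).testBit (β z) = true := mem_LL β Xs
  have memY : ∀ z, z ∈ LL β Ys ↔ (orAll Ys).testBit (β z) = true := mem_LL β Ys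
  rw [ea] at ndX memX
  rw [eb] at ndY memY
  -- bits of the unions
  have bX : ∀ i, (orAll Xs).testBit i =
      ((orAll L1).testBit i || (m.testBit i || (orAll L2).testBit i)) := by
    intro i; rw [e1, orAll_append, orAll_bit_cons]
  have bY : ∀ i, (orAll Ys).testBit i =
      ((orAll K1').testBit i || (m'.testBit i || (orAll K2').testBit i)) := by
    intro i; rw [k1, orAll_append, orAll_bit_cons]
  have hu2s : ∀ i, u.testBit i = (orAll L1).testBit i := by
    intro i; rw [hu2, Nat.zero_testBit, Bool.false_or]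
  have hu2s' : ∀ i, u'.testBit i = (orAll K1').testBit i := by
    intro i; rw [hu2', Nat.zero_testBit, Bool.false_or]
  have hxh : (orAll Xs).testBit (β h) = true := by rw [bX, e2]; simp
  have hyg : (orAll Ys).testBit (β g) = true := by rw [bY, k2]; simp
  -- nodup consequences
  have na : ∀ z ∈ a1, z ≠ h ∧ z ∉ a2 := by
    intro z hz
    have := List.nodup_append.1 ndX
    refine ⟨this.2.2 z hz h List.mem_cons_self, fun hc => ?_⟩
    exact this.2.2 z hz z (List.mem_cons_of_mem _ hc) rfl
  have na2 : ∀ z ∈ a2, z ≠ h := by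
    intro z hz e
    subst e
    exact (List.nodup_cons.1 (List.nodup_append.1 ndX).2.1).1 hz
  have nb : ∀ z ∈ b1, z ≠ g ∧ z ∉ b2 := by
    intro z hz
    have := List.nodup_append.1 ndY
    refine ⟨this.2.2 z hz g List.mem_cons_self, fun hc => ?_⟩
    exact this.2.2 z hz z (List.mem_cons_of_mem _ hc) rfl
  have nb2 : ∀ z ∈ b2, z ≠ g := by
    intro z hz e
    subst e
    exact (List.nodup_cons.1 (List.nodup_append.1 ndY).2.1).1 hz
  have xa1 : ∀ z ∈ a1, (orAll Xs).testBit (β z) = true := fun z hz =>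
    (memX z).1 (List.mem_append_left _ hz)
  have yb1 : ∀ z ∈ b1, (orAll Ys).testBit (β z) = true := fun z hz =>
    (memY z).1 (List.mem_append_left _ hz)
  -- disjointness of the middle groups
  have mm : ∀ i, m.testBit i = true → m'.testBit i = false := by
    intro i hi
    have h1 : (orAll Xs).testBit i = true := by rw [bX, hi]; simp
    have h2 := hS.xy i h1
    rw [bY, Bool.or_eq_false_iff, Bool.or_eq_false_iff] at h2
    exact h2.2.1
  intro νh νg
  refine ⟨cview_dj mm νh νg, ?_⟩
  obtain ⟨c, d, H, hc, hd, hH, hνh, hνg, B, hB1, hB2, hB3⟩ := hal νh νg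
  have pfh : pf β f (orAll Xs) (orAll Ys) p r h = p := by unfold pf; rw [if_pos hxh]
  have hgx : ¬ (orAll Xs).testBit (β g) = true := by
    intro hx
    rw [hS.xy _ hx] at hyg
    exact absurd hyg (by decide)
  have pfg : pf β f (orAll Xs) (orAll Ys) p r g = r := by
    unfold pf; rw [if_neg hgx, if_pos hyg]
  rw [pfh] at hc
  rw [pfg] at hd
  have hgh : g ≠ h := by
    rintro rfl
    exact hgx hxh
  refine ⟨_, H, B, ?_, ?_, hB1, hB2, hB3⟩
  · intro z
    rw [mem_rm, creg_get, cmask_bit]
    simp only [hu2s, hu2s']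
    unfold cellP
    rcases hS.cov (β z) (hβ z) with hx | hy | ⟨k, hk⟩
    · -- z in X
      have hzy := hS.xy _ hx
      have hzg : z ≠ g := by
        rintro rfl
        exact hgx hx
      have hzb : z ∉ b1 := by
        intro hz
        rw [yb1 z hz] at hzy
        exact absurd hzy (by decide)
      rw [if_neg hzg]
      by_cases hzh : z = h
      · rw [if_pos hzh, hzh, e2]
        rcases hc with rfl | rfl <;> simp
      · rw [if_neg hzh, if_neg hzb]
        rw [bX, Bool.or_eq_true, Bool.or_eq_true] at hx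
        rcases hx with hx | hx | hx
        · rw [if_pos (e3 z hx), hx]
          simp
        · by_cases hz1 : z ∈ a1
          · rw [if_pos hz1, hx]; simp
          · rw [if_neg hz1]
            have : pf β f (orAll Xs) (orAll Ys) p r z = p := by
              unfold pf; rw [if_pos]; rw [bX, hx]; simp
            rw [this, hx]; simp
        · have hz2 := e4 z hx
          have hz1 : z ∉ a1 := fun hz1 => (na z hz1).2 hz2
          rw [if_neg hz1]
          have : pf β f (orAll Xs) (orAll Ys) p r z = p := by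
            unfold pf; rw [if_pos]; rw [bX, hx]; simp
          rw [this, hx]; simp
    · -- z in Y
      have hzx : ¬ (orAll Xs).testBit (β z) = true := by
        intro hx
        rw [hS.xy _ hx] at hy
        exact absurd hy (by decide)
      have hzh : z ≠ h := by
        rintro rfl
        exact hzx hxh
      have hza : z ∉ a1 := fun hz => hzx (xa1 z hz)
      have hpf : pf β f (orAll Xs) (orAll Ys) p r z = r := by
        unfold pf; rw [if_neg hzx, if_pos hy]
      by_cases hzg : z = g
      · rw [if_pos hzg, hzg, k2]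
        rcases hd with rfl | rfl <;> simp
      · rw [if_neg hzg, if_neg hzh, if_neg hza, hpf]
        rw [bY, Bool.or_eq_true, Bool.or_eq_true] at hy
        rcases hy with hy | hy | hy
        · rw [if_pos (k3 z hy), hy]
          simp
        · by_cases hz1 : z ∈ b1
          · rw [if_pos hz1, hy]; simp
          · rw [if_neg hz1, hy]; simp
        · have hz2 := k4 z hy
          have hz1 : z ∉ b1 := fun hz1 => (nb z hz1).2 hz2
          rw [if_neg hz1, hy]; simp
    · -- z fixed
      have hzx : ¬ (orAll Xs).testBit (β z) = true := by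
        intro hx
        rw [hS.xf _ k hx] at hk
        exact absurd hk (by decide)
      have hzy : ¬ (orAll Ys).testBit (β z) = true := by
        intro hx
        rw [hS.yf _ k hx] at hk
        exact absurd hk (by decide)
      have hzh : z ≠ h := by rintro rfl; exact hzx hxh
      have hzg : z ≠ g := by rintro rfl; exact hzy hyg
      have hza : z ∉ a1 := fun hz => hzx (xa1 z hz)
      have hzb : z ∉ b1 := fun hz => hzy (yb1 z hz)
      rw [if_neg hzg, if_neg hzh, if_neg hzb, if_neg hza]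
      have hpf : pf β f (orAll Xs) (orAll Ys) p r z = k := by
        unfold pf
        rw [if_neg hzx, if_neg hzy]
        rcases aux3 k with rfl | rfl | rfl
        · have h1 := hS.ff _ 0 1 (by decide) hk
          have h2 := hS.ff _ 0 2 (by decide) hk
          rw [M3.get1] at h1
          rw [M3.get2] at h2
          rw [h1, h2]
          simp
        · rw [M3.get1] at hk
          rw [if_pos hk]
        · have h1 := hS.ff _ 2 1 (by decide) hk
          rw [M3.get1] at h1
          rw [M3.get2] at hk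
          rw [h1, if_pos hk]
          simp
      rw [hpf, hk]
      simp
  · refine ⟨⟨h, g, hH⟩, ?_⟩
    intro i z hz
    have hz' := hH i hz
    rw [Finset.mem_insert, Finset.mem_singleton] at hz'
    have hdjv := cview_dj mm νh νg
    rcases hz' with rfl | rfl
    · constructor
      · have : vw β (cview m m' νh νg) z = νh := by
          apply vw_eq hdjv
          rw [cview_get, lor_bit, im_bit, im_bit, e2]
          simp
        rw [this]
        rintro rfl
        exact hνh hz
      · apply two_le_card (a := p) (b := q) _ _ hpq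
        · rw [mem_rm, creg_get, cmask_bit, e2]; simp
        · rw [mem_rm, creg_get, cmask_bit, e2]; simp
    · constructor
      · have : vw β (cview m m' νh νg) z = νg := by
          apply vw_eq hdjv
          rw [cview_get, lor_bit, im_bit, im_bit, k2]
          simp
        rw [this]
        rintro rfl
        exact hνg hz
      · apply two_le_card (a := r) (b := s) _ _ hrs
        · rw [mem_rm, creg_get, cmask_bit, k2]; simp
        · rw [mem_rm, creg_get, cmask_bit, k2]; simp

/-- viewers, guarantees and upper bounds in a cell -/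
structure VC where
  vX : Fin 3
  vY : Fin 3
  g0 : Gd
  g1 : Gd
  g2 : Gd
  u0 : ℕ
  u1 : ℕ
  u2 : ℕ

/-- blocks allowed only in piece `k` -/
def M3.inner (a : M3) (k : Fin 3) : ℕ :=
  Nat.land (a.get k) (Nat.xor FU (Nat.lor (a.get (k + 1)) (a.get (k + 2))))

/-- three facts for agent `t` -/
def fc3 (a : M3) (t : Fin 3) (u : ℕ) : List Fc := [⟨t, a.inner 0, u⟩, ⟨t, a.inner 1, u⟩,
  ⟨t, a.inner 2, u⟩]

/-- new upper bounds of a cell -/
def newU (F : Fs) (a w : M3) (d : VC) : List Fc :=
  let l0 := gval F a w 0 d.g0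
  let l1 := gval F a w 1 d.g1
  let l2 := gval F a w 2 d.g2
  (if viol d.u0 l1 l2 = true then fc3 a 0 d.u0 else []) ++
    ((if viol l0 d.u1 l2 = true then fc3 a 1 d.u1 else []) ++
    (if viol l0 l1 d.u2 = true then fc3 a 2 d.u2 else []))

/-- the cell is excluded directly -/
def direct (F : Fs) (a w : M3) (d : VC) : Bool :=
  viol (gval F a w 0 d.g0) (gval F a w 1 d.g1) (gval F a w 2 d.g2)

/-- contradiction data: agent, lower bound, upper bounds of a cover -/
structure Ct where
  t : Fin 3
  il : ℕ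
  ius : List ℕ

/-- a lower bound contradicts upper bounds -/
def ctOK (F : Fs) (d : Ct) : Bool :=
  (sbt F.U d.t d.ius (lget F.L d.il d.t)).1 == 0 &&
    Nat.ble 1 (sbt F.U d.t d.ius (lget F.L d.il d.t)).2

/-- certificate of a cell: a tree -/
inductive CT where
  | fin (cts : List Ct) : CT
  | nv (regs : List RC) (tris : List (ℕ × ℕ × ℕ × ℕ)) : CT
  | dir (d : VC) : CT
  | add (vcs : List VC) (T : CT) : CT
  | ee (d : VC) (T0 T1 T2 : CT) : CT

/-- the upper bound `f` follows from the list -/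
def impl (U : List Fc) (f : Fc) : Bool :=
  U.any fun u => (u.t == f.t) && (sub f.m u.m && Nat.ble u.w f.w)

/-- a contradiction or one of the targets -/
def finish (F : Fs) (tgts : List (List Fc)) (cts : List Ct) : Bool :=
  cts.any (ctOK F) || tgts.any (fun tgt => tgt.all (impl F.U))

/-- bound of the viewing agent -/
def VC.uY (d : VC) : ℕ := if d.vY = 0 then d.u0 else if d.vY = 1 then d.u1 else d.u2

/-- the bound of the viewing agent is justified -/
def eev (F : Fs) (a w : M3) (d : VC) : Bool :=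
  viol (if d.vY = 0 then d.u0 else gval F a w 0 d.g0)
    (if d.vY = 1 then d.u1 else gval F a w 1 d.g1)
    (if d.vY = 2 then d.u2 else gval F a w 2 d.g2)

/-- new fact if the single good lies in piece `k` -/
def eef (a : M3) (my : ℕ) (d : VC) (k : Fin 3) : Fc := ⟨d.vY, Nat.lor (a.inner k) my, d.uY⟩

/-- check of a cell -/
def chk (L : List Fc) (a : M3) (mx my : ℕ) (tgts : List (List Fc)) : CT → List Fc → Bool
  | .fin cts, U => finish ⟨L, U⟩ tgts cts
  | .nv regs tris, U => nvOK ⟨L, U⟩ regs tris kloop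
  | .dir d, U => direct ⟨L, U⟩ a (cview mx my d.vX d.vY) d
  | .add vcs T, U => chk L a mx my tgts T
      (U ++ vcs.flatMap (fun d => newU ⟨L, U⟩ a (cview mx my d.vX d.vY) d))
  | .ee d T0 T1 T2, U => my == 134217728 && (eev ⟨L, U⟩ a (cview mx my d.vX d.vY) d &&
      (((Nat.land (a.get 0) my == 0) || chk L a mx my tgts T0 (U ++ [eef a my d 0])) &&
      (((Nat.land (a.get 1) my == 0) || chk L a mx my tgts T1 (U ++ [eef a my d 1])) &&
      (((Nat.land (a.get 2) my == 0) || chk L a mx my tgts T2 (U ++ [eef a my d 2])) &&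
      !((Nat.land (a.get 0) my == 0) && ((Nat.land (a.get 1) my == 0) &&
        (Nat.land (a.get 2) my == 0)))))))

variable {v : Fin 3 → Finset G → ℝ} {c : Fin 3 → ℝ} {β : G → ℕ}

lemma Ax.inner (A : Ax v c) (hβ : ∀ g, β g < 29) {a w : M3} {x : G → Fin 3} {H : Fin 3 → Finset G}
    (hx : Mem (rm β a) x) (hH : Hid (rm β a) (vw β w) H) {B : Finset G} {t : Fin 3}
    (hB : ∀ k, v t (pc x (H t) k) ≤ v t B) (k : Fin 3) : v t (bm β (a.inner k)) ≤ v t B := by
  apply guar1 (A.mono t) hx hH (k := k) _ hB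
  intro z hz
  rw [mem_bm] at hz
  have h1 : (a.get k).testBit (β z) = true ∧ (a.get (k + 1)).testBit (β z) = false ∧
      (a.get (k + 2)).testBit (β z) = false := by
    have e : (a.inner k).testBit (β z) = ((a.get k).testBit (β z) &&
        (FU.testBit (β z) ^^ ((a.get (k + 1)).testBit (β z) || (a.get (k + 2)).testBit (β z)))) := by
      show (a.get k &&& (FU ^^^ (a.get (k + 1) ||| a.get (k + 2)))).testBit (β z) = _
      rw [Nat.testBit_and, Nat.testBit_xor, Nat.testBit_or]
    rw [e] at hz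
    have ha : (a.get k).testBit (β z) = true := by
      rw [Bool.and_eq_true] at hz
      exact hz.1
    refine ⟨ha, ?_⟩
    rw [ha, Bool.true_and, FU_bit, decide_eq_true (hβ z)] at hz
    have a2 : ∀ b b' : Bool, (true ^^ (b || b')) = true → b = false ∧ b' = false := by decide
    exact a2 _ _ hz
  ext l
  rw [mem_rm, Finset.mem_singleton]
  constructor
  · intro hl
    by_contra hne
    have aux : ∀ k k' : Fin 3, k ≠ k' → k = k' + 1 ∨ k = k' + 2 := by decide
    rcases aux _ _ hne with e | e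
    · rw [e, h1.2.1] at hl
      exact absurd hl (by decide)
    · rw [e, h1.2.2] at hl
      exact absurd hl (by decide)
  · rintro rfl
    exact h1.1

omit [DecidableEq G] in
lemma inner_bits (hβ : ∀ g, β g < 29) {a : M3} {k : Fin 3} {z : G}
    (hz : (a.inner k).testBit (β z) = true) : rm β a z = {k} := by
  have h1 : (a.get k).testBit (β z) = true ∧ (a.get (k + 1)).testBit (β z) = false ∧
      (a.get (k + 2)).testBit (β z) = false := by
    have e : (a.inner k).testBit (β z) = ((a.get k).testBit (β z) &&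
        (FU.testBit (β z) ^^ ((a.get (k + 1)).testBit (β z) || (a.get (k + 2)).testBit (β z)))) := by
      show (a.get k &&& (FU ^^^ (a.get (k + 1) ||| a.get (k + 2)))).testBit (β z) = _
      rw [Nat.testBit_and, Nat.testBit_xor, Nat.testBit_or]
    rw [e] at hz
    have ha : (a.get k).testBit (β z) = true := by
      rw [Bool.and_eq_true] at hz
      exact hz.1
    refine ⟨ha, ?_⟩
    rw [ha, Bool.true_and, FU_bit, decide_eq_true (hβ z)] at hz
    have a2 : ∀ b b' : Bool, (true ^^ (b || b')) = true → b = false ∧ b' = false := by decide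
    exact a2 _ _ hz
  ext l
  rw [mem_rm, Finset.mem_singleton]
  constructor
  · intro hl
    by_contra hne
    have aux : ∀ k k' : Fin 3, k ≠ k' → k = k' + 1 ∨ k = k' + 2 := by decide
    rcases aux _ _ hne with e | e
    · rw [e, h1.2.1] at hl
      exact absurd hl (by decide)
    · rw [e, h1.2.2] at hl
      exact absurd hl (by decide)
  · rintro rfl
    exact h1.1

lemma inner_sub (hβ : ∀ g, β g < 29) {a w : M3} {x : G → Fin 3} {H : Fin 3 → Finset G}
    (hx : Mem (rm β a) x) (hH : Hid (rm β a) (vw β w) H) {t k : Fin 3} :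
    bm β (a.inner k) ⊆ pc x (H t) k := by
  intro z hz
  rw [mem_bm] at hz
  have h1 := inner_bits hβ hz
  have h2 := hx z
  rw [h1, Finset.mem_singleton] at h2
  rw [mem_pc]
  refine ⟨h2, fun hm => ?_⟩
  have := (hH.2 _ z hm).2
  rw [h1, Finset.card_singleton] at this
  omega

/-- the new upper bounds of a cell hold -/
lemma newU_ok (A : Ax v c) (hβ : ∀ g, β g < 29) {F : Fs} (hF : F.ok v c β)
    (hem : ∀ t, v t ∅ ≤ 0) {a w : M3} (hw : w.dj = true) (hC : CellG v β a w) (d : VC) :
    direct F a w d = false ∧ ∀ f ∈ newU F a w d, HU v c β f := by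
  obtain ⟨x, H, B, hx, hH, h1, h2, h3⟩ := hC
  have k0 := A.gval hβ hF hem hw 0 d.g0 hx hH (h3 0)
  have k1 := A.gval hβ hF hem hw 1 d.g1 hx hH (h3 1)
  have k2 := A.gval hβ hF hem hw 2 d.g2 hx hH (h3 2)
  have c0 := A.c_lo 0
  have c1 := A.c_lo 1
  have c2 := A.c_lo 2
  refine ⟨A.viol h1 h2 k0 k1 k2, ?_⟩
  have fin : ∀ (t : Fin 3) (u : ℕ), 10 ^ 9 * v t (B t) ≤ (u : ℝ) * c t →
      ∀ f ∈ fc3 a t u, HU v c β f := by
    intro t u hu f hf
    have i0 := A.inner hβ hx hH (h3 t) 0
    have i1 := A.inner hβ hx hH (h3 t) 1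
    have i2 := A.inner hβ hx hH (h3 t) 2
    simp only [fc3, List.mem_cons, List.not_mem_nil, or_false] at hf
    rcases hf with rfl | rfl | rfl
    · unfold HU
      show 10 ^ 9 * v t (bm β (a.inner 0)) ≤ (u : ℝ) * c t
      linarith
    · unfold HU
      show 10 ^ 9 * v t (bm β (a.inner 1)) ≤ (u : ℝ) * c t
      linarith
    · unfold HU
      show 10 ^ 9 * v t (bm β (a.inner 2)) ≤ (u : ℝ) * c t
      linarith
  intro f hf
  unfold newU at hf
  simp only at hf
  rw [List.mem_append, List.mem_append] at hf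
  rcases hf with hf | hf | hf
  · split_ifs at hf with hv
    · refine fin 0 d.u0 ?_ f hf
      by_contra hc
      push Not at hc
      have := A.viol h1 h2 hc.le k1 k2
      rw [this] at hv
      exact absurd hv (by decide)
    · exact absurd hf (by simp)
  · split_ifs at hf with hv
    · refine fin 1 d.u1 ?_ f hf
      by_contra hc
      push Not at hc
      have := A.viol h1 h2 k0 hc.le k2
      rw [this] at hv
      exact absurd hv (by decide)
    · exact absurd hf (by simp)
  · split_ifs at hf with hv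
    · refine fin 2 d.u2 ?_ f hf
      by_contra hc
      push Not at hc
      have := A.viol h1 h2 k0 k1 hc.le
      rw [this] at hv
      exact absurd hv (by decide)
    · exact absurd hf (by simp)

lemma impl_ok (A : Ax v c) {U : List Fc} (hU : ∀ f ∈ U, HU v c β f) {f : Fc}
    (h : impl U f = true) : HU v c β f := by
  unfold impl at h
  rw [List.any_eq_true] at h
  obtain ⟨u, hu, h⟩ := h
  simp only [Bool.and_eq_true] at h
  obtain ⟨e1, e2, e3⟩ := h
  rw [beq_iff_eq] at e1
  have h1 := hU u hu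
  have h2 := A.mono f.t (bm_mono (β := β) e2)
  have h3 : (u.w : ℝ) ≤ f.w := by exact_mod_cast Nat.le_of_ble_eq_true e3
  unfold HU at *
  rw [e1] at h1
  have hc := A.c_lo f.t
  nlinarith

/-- a lower bound contradicting upper bounds -/
lemma ct_false (A : Ax v c) (hβ : ∀ g, β g < 29) {F : Fs} (hF : F.ok v c β)
    (hem : ∀ t, v t ∅ ≤ 0) {d : Ct} (h : ctOK F d = true) : False := by
  unfold ctOK at h
  rw [Bool.and_eq_true, beq_iff_eq] at h
  have hp := A.sbt hβ hF.2 hem d.t d.ius (lget F.L d.il d.t) (A.lgetL hF.1 d.il d.t)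
  rw [h.1, bm_zero] at hp
  have h1 := hem d.t
  have h2 : (1 : ℝ) ≤ ((sbt F.U d.t d.ius (lget F.L d.il d.t)).2 : ℕ) := by
    exact_mod_cast Nat.le_of_ble_eq_true h.2
  have hc := A.c_lo d.t
  nlinarith

lemma finish_ok (A : Ax v c) (hβ : ∀ g, β g < 29) {F : Fs} (hF : F.ok v c β)
    (hem : ∀ t, v t ∅ ≤ 0) {tgts : List (List Fc)} {cts : List Ct}
    (h : finish F tgts cts = true) : ∃ T ∈ tgts, ∀ f ∈ T, HU v c β f := by
  unfold finish at h
  rw [Bool.or_eq_true] at h
  rcases h with h | h
  · exfalso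
    rw [List.any_eq_true] at h
    obtain ⟨d, _, hd⟩ := h
    exact ct_false A hβ hF hem hd
  · rw [List.any_eq_true] at h
    obtain ⟨T, hT, h⟩ := h
    rw [List.all_eq_true] at h
    exact ⟨T, hT, fun f hf => impl_ok A hF.2 (h f hf)⟩

/-- the bound of the viewing agent holds -/
lemma eev_ok (A : Ax v c) (hβ : ∀ g, β g < 29) {F : Fs} (hF : F.ok v c β)
    (hem : ∀ t, v t ∅ ≤ 0) {a w : M3} (hw : w.dj = true) {x : G → Fin 3}
    {H B : Fin 3 → Finset G} (hx : Mem (rm β a) x) (hH : Hid (rm β a) (vw β w) H) (h1 : Disj B)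
    (h2 : EF1 v B) (h3 : ∀ j k, v j (pc x (H j) k) ≤ v j (B j)) {d : VC}
    (hd : eev F a w d = true) :
    10 ^ 9 * v d.vY (B d.vY) ≤ (d.uY : ℝ) * c d.vY := by
  by_contra hc
  push Not at hc
  have k0 := A.gval hβ hF hem hw 0 d.g0 hx hH (h3 0)
  have k1 := A.gval hβ hF hem hw 1 d.g1 hx hH (h3 1)
  have k2 := A.gval hβ hF hem hw 2 d.g2 hx hH (h3 2)
  unfold eev at hd
  unfold VC.uY at hc
  rcases aux3 d.vY with e | e | e <;> rw [e] at hd hc
  · simp only [if_true, Fin.isValue, show (0 : Fin 3) ≠ 1 by decide,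
      show (0 : Fin 3) ≠ 2 by decide, if_false] at hd hc
    rw [A.viol h1 h2 hc.le k1 k2] at hd
    exact absurd hd (by decide)
  · simp only [if_true, Fin.isValue, show (1 : Fin 3) ≠ 0 by decide,
      show (1 : Fin 3) ≠ 2 by decide, if_false] at hd hc
    rw [A.viol h1 h2 k0 hc.le k2] at hd
    exact absurd hd (by decide)
  · simp only [if_true, Fin.isValue, show (2 : Fin 3) ≠ 0 by decide,
      show (2 : Fin 3) ≠ 1 by decide, if_false] at hd hc
    rw [A.viol h1 h2 k0 k1 hc.le] at hd
    exact absurd hd (by decide)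

lemma bit27 (i : ℕ) : (134217728 : ℕ).testBit i = decide (i = 27) := by
  have h : (134217728 : ℕ) = 2 ^ 27 := by norm_num
  rw [h, Nat.testBit_two_pow]
  by_cases hi : i = 27
  · simp [hi]
  · simp [hi, Ne.symm hi]

lemma land27 {m : ℕ} (h : m.testBit 27 = true) : (Nat.land m 134217728 == 0) = false := by
  by_contra hc
  rw [Bool.not_eq_false] at hc
  have := land_bit hc h
  rw [bit27] at this
  exact absurd this (by decide)

/-- facts from a single good -/
lemma ee_ok (A : Ax v c) (hβ : ∀ g, β g < 29) (one : ∀ g g', β g = 27 → β g' = 27 → g = g')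
    {F : Fs} (hF : F.ok v c β) (hem : ∀ t, v t ∅ ≤ 0) {a : M3} {mx my : ℕ}
    (hC : ∀ νh νg, (cview mx my νh νg).dj = true ∧ CellG v β a (cview mx my νh νg))
    {d : VC} (hmy : my = 134217728) (hev : eev F a (cview mx my d.vX d.vY) d = true)
    (hne : ((Nat.land (a.get 0) my == 0) && ((Nat.land (a.get 1) my == 0) &&
        (Nat.land (a.get 2) my == 0))) = false) :
    ∃ k : Fin 3, (Nat.land (a.get k) my == 0) = false ∧ HU v c β (eef a my d k) := by
  subst hmy
  obtain ⟨hw, x, H, B, hx, hH, hB1, hB2, hB3⟩ := hC d.vX d.vY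
  have hu := eev_ok A hβ hF hem hw hx hH hB1 hB2 hB3 hev
  by_cases hz : ∃ z, β z = 27
  · obtain ⟨z, hz⟩ := hz
    have hxz := hx z
    rw [mem_rm, hz] at hxz
    refine ⟨x z, land27 hxz, ?_⟩
    have hzH : z ∉ H d.vY := by
      intro hm
      have h4 := (hH.2 _ z hm).1
      apply h4
      apply vw_eq hw
      rw [cview_get, lor_bit, im_bit, im_bit, hz, bit27]
      simp
    have hsub : bm β (Nat.lor (a.inner (x z)) 134217728) ⊆ pc x (H d.vY) (x z) := by
      intro y hy
      rw [mem_bm, lor_bit, bit27, Bool.or_eq_true, decide_eq_true_eq] at hy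
      rcases hy with hy | hy
      · have h5 : bm β (a.inner (x z)) ⊆ pc x (H d.vY) (x z) :=
          inner_sub hβ hx hH
        exact h5 (by rw [mem_bm]; exact hy)
      · have := one _ _ hy hz
        subst this
        rw [mem_pc]
        exact ⟨rfl, hzH⟩
    have h6 := (A.mono d.vY hsub).trans (hB3 d.vY (x z))
    unfold HU
    show 10 ^ 9 * v d.vY (bm β (Nat.lor (a.inner (x z)) 134217728)) ≤
      (d.uY : ℝ) * c d.vY
    linarith
  · push Not at hz
    have hex : ∃ k : Fin 3, (Nat.land (a.get k) 134217728 == 0) = false := by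
      by_contra hcon
      push Not at hcon
      have q0 := hcon 0
      have q1 := hcon 1
      have q2 := hcon 2
      rw [ne_eq, Bool.not_eq_false] at q0 q1 q2
      rw [q0, q1, q2] at hne
      exact absurd hne (by decide)
    obtain ⟨k, hk⟩ := hex
    refine ⟨k, hk, ?_⟩
    have hsub : bm β (Nat.lor (a.inner k) 134217728) ⊆ bm β (a.inner k) := by
      intro y hy
      rw [mem_bm, lor_bit, bit27, Bool.or_eq_true, decide_eq_true_eq] at hy
      rcases hy with hy | hy
      · rw [mem_bm]; exact hy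
      · exact absurd hy (hz y)
    have h6 := (A.mono d.vY hsub).trans (A.inner hβ hx hH (hB3 d.vY) k)
    unfold HU
    show 10 ^ 9 * v d.vY (bm β (Nat.lor (a.inner k) 134217728)) ≤ (d.uY : ℝ) * c d.vY
    linarith

/-- soundness of a cell certificate -/
lemma chk_ok (A : Ax v c) (hβ : ∀ g, β g < 29) (one : ∀ g g', β g = 27 → β g' = 27 → g = g')
    {L : List Fc} (hL : ∀ f ∈ L, HL v c β f) (hem : ∀ t, v t ∅ ≤ 0) {a : M3} {mx my : ℕ}
    (hC : ∀ νh νg, (cview mx my νh νg).dj = true ∧ CellG v β a (cview mx my νh νg))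
    {tgts : List (List Fc)} (T : CT) {U : List Fc} (hU : ∀ f ∈ U, HU v c β f)
    (h : chk L a mx my tgts T U = true) : ∃ T ∈ tgts, ∀ f ∈ T, HU v c β f := by
  induction T generalizing U with
  | fin cts =>
    rw [chk] at h
    exact finish_ok A hβ (F := ⟨L, U⟩) ⟨hL, hU⟩ hem h
  | nv regs tris =>
    rw [chk] at h
    exact (nv_false A hβ (F := ⟨L, U⟩) ⟨hL, hU⟩ hem h).elim
  | dir d =>
    rw [chk] at h
    rw [(newU_ok A hβ (F := ⟨L, U⟩) ⟨hL, hU⟩ hem (hC _ _).1 (hC _ _).2 d).1] at h
    exact absurd h (by decide)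
  | add vcs T ih =>
    rw [chk] at h
    apply ih _ h
    intro f hf
    rw [List.mem_append, List.mem_flatMap] at hf
    rcases hf with hf | ⟨d, _, hf⟩
    · exact hU f hf
    · exact (newU_ok A hβ (F := ⟨L, U⟩) ⟨hL, hU⟩ hem (hC _ _).1 (hC _ _).2 d).2 f hf
  | ee d T0 T1 T2 ih0 ih1 ih2 =>
    rw [chk] at h
    simp only [Bool.and_eq_true] at h
    obtain ⟨hmy, hev, h0, h1, h2, h3⟩ := h
    rw [beq_iff_eq] at hmy
    have hne : ((Nat.land (a.get 0) my == 0) && ((Nat.land (a.get 1) my == 0) &&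
        (Nat.land (a.get 2) my == 0))) = false := by
      rw [Bool.not_eq_true'] at h3
      exact h3
    obtain ⟨k, hk, hf⟩ := ee_ok A hβ one (F := ⟨L, U⟩) ⟨hL, hU⟩ hem hC hmy hev hne
    have hU' : ∀ f ∈ U ++ [eef a my d k], HU v c β f := by
      intro f hf'
      rw [List.mem_append, List.mem_singleton] at hf'
      rcases hf' with hf' | rfl
      · exact hU f hf'
      · exact hf
    rcases aux3 k with rfl | rfl | rfl
    · rw [hk, Bool.false_or] at h0
      exact ih0 hU' h0
    · rw [hk, Bool.false_or] at h1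
      exact ih1 hU' h1
    · rw [hk, Bool.false_or] at h2
      exact ih2 hU' h2

/-- certificate of a rectangle step -/
structure RectC where
  f : M3
  Xs : List ℕ
  Ys : List ℕ
  p : Fin 3
  q : Fin 3
  r : Fin 3
  s : Fin 3
  regs : List RC
  tris : List (ℕ × ℕ × ℕ × ℕ)
  i1 : ℕ
  i2 : ℕ
  i3 : ℕ
  i4 : ℕ
  cells : List CT

/-- both codes lie in the region with index `i` -/
def side2 (regs : List M3) (i x y : ℕ) : Bool :=
  match regs[i]? with
  | none => false
  | some r => inM r x && inM r y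

/-- every element of the first list has a partner -/
def all2 {α γ : Type} (P : α → γ → Bool) : List α → List γ → Bool
  | [], _ => true
  | a :: L, b :: M => P a b && all2 P L M
  | _ :: _, [] => false

lemma all2_mem {α γ : Type} {P : α → γ → Bool} {L : List α} {M : List γ}
    (h : all2 P L M = true) {a : α} (ha : a ∈ L) : ∃ b, P a b = true := by
  induction L generalizing M with
  | nil => exact absurd ha (by simp)
  | cons x L ih =>
    cases M with
    | nil => simp [all2] at h
    | cons y M =>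
      rw [all2, Bool.and_eq_true] at h
      rcases List.mem_cons.1 ha with rfl | ha
      · exact ⟨y, h.1⟩
      · exact ih h.2 ha

/-- all pairs of splittings -/
def pairs (L M : List (ℕ × ℕ × ℕ)) : List ((ℕ × ℕ × ℕ) × (ℕ × ℕ × ℕ)) :=
  L.flatMap fun a => M.map fun b => (a, b)

/-- the boundary of the rectangle -/
def rbd (R : RectC) : List (ℕ × ℕ) :=
  [(pcode R.f (orAll R.Xs) (orAll R.Ys) R.p R.r, pcode R.f (orAll R.Xs) (orAll R.Ys) R.q R.r),
   (pcode R.f (orAll R.Xs) (orAll R.Ys) R.q R.r, pcode R.f (orAll R.Xs) (orAll R.Ys) R.q R.s),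
   (pcode R.f (orAll R.Xs) (orAll R.Ys) R.p R.r, pcode R.f (orAll R.Xs) (orAll R.Ys) R.p R.s),
   (pcode R.f (orAll R.Xs) (orAll R.Ys) R.p R.s, pcode R.f (orAll R.Xs) (orAll R.Ys) R.q R.s)]

/-- check of a rectangle step -/
def rectOK (F : Fs) (tgts : List (List Fc)) (R : RectC) : Bool :=
  shape R.f R.Xs R.Ys && (!(R.p == R.q) && (!(R.r == R.s) &&
  (nvOK F R.regs R.tris (rbd R ++ kloop) &&
  (side2 (R.regs.map RC.a ++ faces) R.i1 (pcode R.f (orAll R.Xs) (orAll R.Ys) R.p R.r)
    (pcode R.f (orAll R.Xs) (orAll R.Ys) R.q R.r) &&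
  (side2 (R.regs.map RC.a ++ faces) R.i2 (pcode R.f (orAll R.Xs) (orAll R.Ys) R.q R.r)
    (pcode R.f (orAll R.Xs) (orAll R.Ys) R.q R.s) &&
  (side2 (R.regs.map RC.a ++ faces) R.i3 (pcode R.f (orAll R.Xs) (orAll R.Ys) R.p R.r)
    (pcode R.f (orAll R.Xs) (orAll R.Ys) R.p R.s) &&
  (side2 (R.regs.map RC.a ++ faces) R.i4 (pcode R.f (orAll R.Xs) (orAll R.Ys) R.p R.s)
    (pcode R.f (orAll R.Xs) (orAll R.Ys) R.q R.s) &&
  all2 (fun a cc => chk F.L (creg R.f a.1 a.2 R.p R.q R.r R.s) a.1.2.1 a.2.2.1 tgts cc F.U)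
    (pairs (splits 0 R.Xs) (splits 0 R.Ys)) R.cells)))))))

omit [DecidableEq G] [Fintype G] in
lemma side2_mem (hβ : ∀ g, β g < 29) {regs : List M3} {i x y : ℕ} (h : side2 regs i x y = true) :
    ∃ r ∈ regs, Mem (rm β r) (plc β x) ∧ Mem (rm β r) (plc β y) := by
  unfold side2 at h
  rcases hx : regs[i]? with _ | r
  · rw [hx] at h
    exact absurd h (by simp)
  · rw [hx] at h
    simp only [Bool.and_eq_true] at h
    exact ⟨r, List.mem_of_getElem? hx, inM_mem hβ h.1, inM_mem hβ h.2⟩

/-- soundness of a rectangle step -/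
theorem rect_or (A : Ax v c) (hβ : ∀ g, β g < 29)
    (one : ∀ g g', β g = 27 → β g' = 27 → g = g') {F : Fs} (hF : F.ok v c β)
    (hem : ∀ t, v t ∅ ≤ 0) {tgts : List (List Fc)} {R : RectC}
    (h : rectOK F tgts R = true) : ∃ T ∈ tgts, ∀ f ∈ T, HU v c β f := by
  unfold rectOK at h
  simp only [Bool.and_eq_true] at h
  obtain ⟨hsh, hpq, hrs, hnv, s1, s2, s3, s4, hcells⟩ := h
  have hpq' : R.p ≠ R.q := by
    intro e
    rw [e] at hpq
    simp at hpq
  have hrs' : R.r ≠ R.s := by
    intro e
    rw [e] at hrs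
    simp at hrs
  have hS := shape_Sh hsh
  have hne := A.ne
  have hFace := valSys_face v A.mono
  have hsum := nv_sum A hβ hF hem hnv
  rw [List.map_append, List.sum_append, kloop_sum hFace hβ] at hsum
  have hregs := regs_addOn A hβ hF hem (regs := R.regs) (by
    unfold nvOK at hnv
    rw [Bool.and_eq_true] at hnv
    exact hnv.1)
  obtain ⟨r1, hr1, m1, m1'⟩ := side2_mem hβ s1
  obtain ⟨r2, hr2, m2, m2'⟩ := side2_mem hβ s2
  obtain ⟨r3, hr3, m3, m3'⟩ := side2_mem hβ s3
  obtain ⟨r4, hr4, m4, m4'⟩ := side2_mem hβ s4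
  simp only [rbd, List.map_cons, List.map_nil, List.sum_cons, List.sum_nil, add_zero] at hsum
  unfold WM at hsum
  simp only [plc_pcode hS] at hsum m1 m1' m2 m2' m3 m3' m4 m4'
  have memX : ∀ z, z ∈ LL β R.Xs ↔ (orAll R.Xs).testBit (β z) = true := mem_LL β R.Xs
  have memY : ∀ z, z ∈ LL β R.Ys ↔ (orAll R.Ys).testBit (β z) = true := mem_LL β R.Ys
  have hd3 := djs_tail _ _ _ (djs_tail _ _ _ (djs_tail _ _ _ hsh))
  have ndX : (LL β R.Xs).Nodup := LL_nodup β R.Xs _ (Or.inr ⟨R.Ys, hd3⟩)
  have ndY : (LL β R.Ys).Nodup := by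
    have key : ∀ (L : List ℕ) (acc : ℕ), djs acc (L ++ R.Ys) = true →
        ∃ acc, djs acc R.Ys = true := by
      intro L
      induction L with
      | nil => intro acc h; exact ⟨acc, h⟩
      | cons m L ih => intro acc h; exact ih _ (djs_tail _ _ _ h)
    obtain ⟨acc, hacc⟩ := key R.Xs _ hd3
    exact LL_nodup β R.Ys acc (Or.inl hacc)
  obtain ⟨a1, h, a2, b1, g, b2, ea, eb, _, hal⟩ := rect_cell v A.mono R.q R.s (LL β R.Xs)
    (LL β R.Ys) (by
      intro z hz hz'
      have h1 := (memX z).1 hz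
      have h2 := (memY z).1 hz'
      rw [hS.xy _ h1] at h2
      exact absurd h2 (by decide)) ndX ndY (pf β R.f (orAll R.Xs) (orAll R.Ys) R.p R.r)
    (hregs r1 hr1) (hregs r2 hr2) (hregs r3 hr3) (hregs r4 hr4) m1
    (by rw [up_pf memX]; exact m1')
    (by rw [up_pf memX]; exact m2)
    (by rw [up_pf memX, up_pf' hS memY]; exact m2')
    m3
    (by rw [up_pf' hS memY]; exact m3')
    (by rw [up_pf' hS memY]; exact m4)
    (by rw [up_pf' hS memY, up_pf memX]; exact m4')
    (by
      rw [up_pf memX, up_pf' hS memY, up_pf' hS memY, up_pf memX]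
      intro e
      apply absurd hsum
      rw [← add_assoc, e]
      have z := z2_add_self (D (valSys v A.mono) (pf β R.f (orAll R.Xs) (orAll R.Ys) R.p R.r)
        (pf β R.f (orAll R.Xs) (orAll R.Ys) R.p R.s))
      have z' := z2_add_self (D (valSys v A.mono) (pf β R.f (orAll R.Xs) (orAll R.Ys) R.p R.s)
        (pf β R.f (orAll R.Xs) (orAll R.Ys) R.q R.s))
      intro hc
      have : (1 : ZMod 2) = 0 := by linear_combination hc - z - z'
      exact absurd this (by decide))
  obtain ⟨sx, hsx, sy, hsy, hC⟩ := cell_gua v hβ hsh hpq' hrs' ea eb hal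
  obtain ⟨cc, hcc⟩ := all2_mem hcells (a := (sx, sy)) (by
    unfold pairs
    rw [List.mem_flatMap]
    exact ⟨sx, hsx, List.mem_map.2 ⟨sy, hsy, rfl⟩⟩)
  exact chk_ok A hβ one hF.1 hem hC cc hF.2 hcc

/-- soundness of a rectangle step with one list of facts -/
theorem rect_ok (A : Ax v c) (hβ : ∀ g, β g < 29)
    (one : ∀ g g', β g = 27 → β g' = 27 → g = g') {F : Fs} (hF : F.ok v c β)
    (hem : ∀ t, v t ∅ ≤ 0) {tgt : List Fc} {R : RectC} (h : rectOK F [tgt] R = true) :
    ∀ f ∈ tgt, HU v c β f := by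
  obtain ⟨T, hT, h2⟩ := rect_or A hβ one hF hem h
  rw [List.mem_singleton] at hT
  subst hT
  exact h2

end Pool.F6
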