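import Pool.Agent.F6.Chain3

/-!
# From a failure of the main statement to a normalised hypothetical instance
-/

namespace Pool.F6

open Finset

variable {G : Type*} [DecidableEq G] [Fintype G] {v : Fin 3 → Finset G → ℝ}

omit [Fintype G] in
lemma EF1_scale {u : Fin 3 → ℝ} (hu : ∀ i, 0 < u i) {B : Fin 3 → Finset G} :
    EF1 (fun i S => v i S / u i) B ↔ EF1 v B := by
  unfold EF1
  constructor
  · intro h i j hij
    rcases h i j hij with h1 | ⟨g, hg, h1⟩
    · exact Or.inl ((div_le_div_iff_of_pos_right (hu i)).1 h1)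
    · exact Or.inr ⟨g, hg, (div_le_div_iff_of_pos_right (hu i)).1 h1⟩
  · intro h i j hij
    rcases h i j hij with h1 | ⟨g, hg, h1⟩
    · exact Or.inl ((div_le_div_iff_of_pos_right (hu i)).2 h1)
    · exact Or.inr ⟨g, hg, (div_le_div_iff_of_pos_right (hu i)).2 h1⟩

/-- normalisation -/
theorem exists_inst (hm : ∀ i, Monotone (v i)) (hs : ∀ i S T, v i (S ∪ T) ≤ v i S + v i T)
    (he : ∀ i, v i ∅ = 0)
    (hd : ∀ B, Disj B → EF1 v B → ∃ b : G → Fin 3, ∀ i, RR * v i (B i) < v i (bl b i)) :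
    ∃ v' : Fin 3 → Finset G → ℝ, Inst v' := by
  classical
  obtain ⟨b0, hb0⟩ := hd _ disj_empty EF1_empty
  have hb : ∀ i, 0 < v i (bl b0 i) := by
    intro i
    have := hb0 i
    simp only [he, mul_zero] at this
    exact this
  have hnt : Nontrivial G := by
    have h : ∀ i, ∃ g, b0 g = i := by
      intro i
      by_contra hcon
      push Not at hcon
      have : bl b0 i = ∅ := by
        ext g
        simp [mem_bl, hcon g]
      have h2 := hb i
      rw [this, he] at h2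
      exact lt_irrefl _ h2
    obtain ⟨g0, h0⟩ := h 0
    obtain ⟨g1, h1⟩ := h 1
    refine ⟨⟨g0, g1, ?_⟩⟩
    rintro rfl
    rw [h0] at h1
    exact absurd h1 (by decide)
  obtain ⟨B0, hB1, hB2, hB3⟩ : ∃ B : Fin 3 → Finset G, Disj B ∧ EF1 v B ∧
      ∀ i, v i (bl b0 i) ≤ 3 * v i (B i) := by
    have n : ∀ i S, 0 ≤ v i S := by
      intro i S
      rw [← he i]
      exact hm i (Finset.empty_subset _)
    rcases FT hm hs b0 with ⟨j, B, h1, h2, _, h4⟩ | ⟨i, B, h1, h2, h3, h4⟩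
    · exact ⟨B, h1, h2, fun i => by linarith [h4 i, n i (B i)]⟩
    · refine ⟨B, h1, h2, fun k => ?_⟩
      by_cases hk : k = i
      · rw [hk]; exact h3
      · linarith [h4 k hk, n k (B k)]
  -- maxima
  let E : Finset (Fin 3 → Finset G) := Finset.univ.filter fun B => Disj B ∧ EF1 v B
  have hE : ∀ B, B ∈ E ↔ Disj B ∧ EF1 v B := by
    intro B
    simp [E]
  have hmax : ∀ i, ∃ B ∈ E, ∀ C ∈ E, v i (C i) ≤ v i (B i) := by
    intro i
    exact Finset.exists_max_image E (fun B => v i (B i)) ⟨B0, (hE B0).2 ⟨hB1, hB2⟩⟩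
  choose M hM1 hM2 using hmax
  have hU : ∀ i, 0 < v i (M i i) := by
    intro i
    have h1 := hM2 i B0 ((hE B0).2 ⟨hB1, hB2⟩)
    have h2 := hB3 i
    have h3 := hb i
    linarith
  refine ⟨fun i S => v i S / v i (M i i), ?_, ?_, ?_, ?_, ?_, ?_⟩
  · intro i S T hST
    exact (div_le_div_iff_of_pos_right (hU i)).2 (hm i hST)
  · intro i S T
    show v i (S ∪ T) / v i (M i i) ≤ v i S / v i (M i i) + v i T / v i (M i i)
    rw [← add_div]
    exact (div_le_div_iff_of_pos_right (hU i)).2 (hs i S T)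
  · intro i
    show v i ∅ / _ = 0
    rw [he, zero_div]
  · intro B h1 h2
    obtain ⟨b, hb⟩ := hd B h1 ((EF1_scale hU).1 h2)
    refine ⟨b, fun i => ?_⟩
    show RR * (v i (B i) / v i (M i i)) < v i (bl b i) / v i (M i i)
    rw [← mul_div_assoc]
    exact div_lt_div_of_pos_right (hb i) (hU i)
  · intro B h1 h2 i
    show v i (B i) / v i (M i i) ≤ 1
    rw [div_le_one (hU i)]
    exact hM2 i B ((hE B).2 ⟨h1, (EF1_scale hU).1 h2⟩)
  · intro i
    have h1 := (hE _).1 (hM1 i)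
    exact ⟨M i, h1.1, (EF1_scale hU).2 h1.2, div_self (hU i).ne'⟩

end Pool.F6
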