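import Pool.Agent.F6.Square3

/-!
# Dead regions: the edge cochain is exact
-/

namespace Pool.F6

open Finset

variable {G : Type*} [DecidableEq G] (S : LabSys G)

open Classical in
/-- the global edge cochain -/
noncomputable def fe (x : G → Fin 3) (g : G) (s : Fin 3) : ZMod 2 :=
  if EOK S 0 x g s then fv S 0 x g s else if EOK S 1 x g s then fv S 1 x g s else fv S 2 x g s

lemma fe_eq (ν : Fin 3) (x : G → Fin 3) (g : G) (s : Fin 3) (h : EOK S ν x g s) :
    fe S x g s = fv S ν x g s := by
  unfold fe
  by_cases h0 : EOK S 0 x g s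
  · rw [if_pos h0]
    exact fv_eq S 0 ν x g s h0 h
  · rw [if_neg h0]
    by_cases h1 : EOK S 1 x g s
    · rw [if_pos h1]
      exact fv_eq S 1 ν x g s h1 h
    · rw [if_neg h1]
      have : ν = 2 := by
        fin_cases ν
        · exact absurd h h0
        · exact absurd h h1
        · rfl
      rw [this]

lemma fe_triv (x : G → Fin 3) (g : G) : fe S x g (x g) = 0 := by
  unfold fe
  split_ifs <;> exact fv_triv S _ x g

/-- consistency of a state -/
def Cons (x : G → Fin 3) (H : Fin 3 → Finset G) : Prop :=
  ∀ i j, i ≠ j → ∀ a b, a ≠ b → a ∈ H i → b ∈ H i → a ∉ H j → b ∉ H j →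
    ¬ (x a = S.L x H j ∧ x b = S.L x H j)

/-- the placement belongs to the region -/
def Mem (A : G → Finset (Fin 3)) (x : G → Fin 3) : Prop := ∀ g, x g ∈ A g

/-- hidden sets allowed in the region `A` with viewer map `V` -/
def Hid (A : G → Finset (Fin 3)) (V : G → Fin 3) (H : Fin 3 → Finset G) : Prop :=
  (∃ a b, ∀ i, H i ⊆ {a, b}) ∧ ∀ i, ∀ g ∈ H i, V g ≠ i ∧ 2 ≤ (A g).card

/-- dead region: every allowed consistent state is non-bijective -/
def Dead (A : G → Finset (Fin 3)) (V : G → Fin 3) : Prop :=
  ∀ x, Mem A x → ∀ H, Hid A V H → Cons S x H → NB (S.L x H)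

variable {S}
variable {A : G → Finset (Fin 3)} {V : G → Fin 3}

lemma Mem.upd {x : G → Fin 3} (hx : Mem A x) {g : G} {s : Fin 3} (hs : s ∈ A g) :
    Mem A (Function.update x g s) := by
  intro k
  by_cases hk : k = g
  · subst hk; simpa using hs
  · rw [Function.update_of_ne hk]; exact hx k

lemma two_le_card {T : Finset (Fin 3)} {a b : Fin 3} (ha : a ∈ T) (hb : b ∈ T) (hab : a ≠ b) :
    2 ≤ T.card := by
  have : ({a, b} : Finset (Fin 3)) ⊆ T := by
    intro c hc
    simp only [Finset.mem_insert, Finset.mem_singleton] at hc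
    rcases hc with rfl | rfl
    · exact ha
    · exact hb
  calc 2 = ({a, b} : Finset (Fin 3)).card := (Finset.card_pair hab).symm
    _ ≤ _ := Finset.card_le_card this

lemma Dead.vok (hD : Dead S A V) {x : G → Fin 3} (hx : Mem A x) {g : G}
    (hg : 2 ≤ (A g).card) : VOK S (V g) x g := by
  intro B hB
  apply hD x hx
  · refine ⟨⟨g, g, fun i => ?_⟩, ?_⟩
    · unfold hs; split_ifs <;> simp
    · intro i k hk
      unfold hs at hk
      split_ifs at hk with hi
      · rw [Finset.mem_singleton] at hk
        subst hk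
        exact ⟨fun e => hB (e ▸ hi), hg⟩
      · exact absurd hk (Finset.notMem_empty _)
  · intro i j _ a b hab ha hb
    exfalso
    unfold hs at ha hb
    split_ifs at ha hb
    · rw [Finset.mem_singleton] at ha hb
      exact hab (ha.trans hb.symm)
    · exact absurd ha (Finset.notMem_empty _)

lemma Dead.eok (hD : Dead S A V) {x : G → Fin 3} (hx : Mem A x) {g : G} {s : Fin 3}
    (hs : s ∈ A g) (hne : s ≠ x g) : EOK S (V g) x g s :=
  ⟨hD.vok hx (two_le_card hs (hx g) hne), hD.vok (hx.upd hs) (two_le_card hs (hx g) hne)⟩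

lemma Dead.tri (hD : Dead S A V) {x : G → Fin 3} (hx : Mem A x) {g : G} {s t : Fin 3}
    (hs : s ∈ A g) (ht : t ∈ A g) :
    fe S x g s + fe S (Function.update x g s) g t = fe S x g t := by
  by_cases h1 : s = x g
  · subst h1
    rw [fe_triv, Function.update_eq_self, zero_add]
  by_cases h2 : t = s
  · subst h2
    have e := fe_triv S (Function.update x g t) g
    rw [Function.update_self] at e
    rw [e, add_zero]
  have hc : 2 ≤ (A g).card := two_le_card hs (hx g) h1
  rw [fe_eq S (V g) x g s (hD.eok hx hs h1),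
    fe_eq S (V g) _ g t (hD.eok (hx.upd hs) ht (by rw [Function.update_self]; exact h2))]
  have e := fv_tri S (V g) x g s t (hD.vok hx hc) (hD.vok (hx.upd hs) hc) (hD.vok (hx.upd ht) hc)
  rw [e]
  by_cases h3 : t = x g
  · subst h3
    rw [fv_triv, fe_triv]
  · exact (fe_eq S (V g) x g t (hD.eok hx ht h3)).symm

lemma P2_self (x : G → Fin 3) (h g : G) : P2 x h g (x h) (x g) = x := by
  unfold P2
  rw [Function.update_eq_self, Function.update_eq_self]

lemma P2_q (x : G → Fin 3) (h g : G) (hgh : h ≠ g) (q : Fin 3) :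
    P2 x h g q (x g) = Function.update x h q := by
  unfold P2
  have : x g = Function.update x h q g := by rw [Function.update_of_ne hgh.symm]
  conv_lhs => rw [this]
  rw [Function.update_eq_self]

lemma P2_s (x : G → Fin 3) (h g : G) (s : Fin 3) :
    P2 x h g (x h) s = Function.update x g s := by
  unfold P2
  rw [Function.update_eq_self]

lemma Dead.sqNB (hD : Dead S A V) {x : G → Fin 3} (hx : Mem A x) {h g : G} (hgh : h ≠ g)
    {q s : Fin 3} (hq : q ∈ A h) (hs : s ∈ A g) (hq' : q ≠ x h) (hs' : s ≠ x g) :
    SqNB S (V h) (V g) x h g (x h) q (x g) s := by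
  intro a b ha hb B C hB hC hcons
  have haA : a ∈ A h := by rcases ha with rfl | rfl; exacts [hx h, hq]
  have hbA : b ∈ A g := by rcases hb with rfl | rfl; exacts [hx g, hs]
  have hmem : Mem A (P2 x h g a b) := (hx.upd haA).upd hbA
  apply hD _ hmem
  · refine ⟨⟨h, g, fun i => ?_⟩, ?_⟩
    · unfold H2
      split_ifs <;> simp
    · intro i k hk
      unfold H2 at hk
      rw [Finset.mem_union] at hk
      rcases hk with hk | hk
      · split_ifs at hk with hi
        · rw [Finset.mem_singleton] at hk
          subst hk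
          exact ⟨fun e => hB (e ▸ hi), two_le_card hq (hx k) hq'⟩
        · exact absurd hk (Finset.notMem_empty _)
      · split_ifs at hk with hi
        · rw [Finset.mem_singleton] at hk
          subst hk
          exact ⟨fun e => hC (e ▸ hi), two_le_card hs (hx k) hs'⟩
        · exact absurd hk (Finset.notMem_empty _)
  · intro i j hij c d hcd hci hdi hcj hdj hxx
    have hmemH : ∀ k z, z ∈ H2 B C h g k ↔ (z = h ∧ k ∈ B) ∨ (z = g ∧ k ∈ C) := by
      intro k z
      unfold H2
      rw [Finset.mem_union]
      split_ifs <;> simp_all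
    rw [hmemH] at hci hdi hcj hdj
    -- c, d are h, g in some order
    have hh : (c = h ∧ d = g) ∨ (c = g ∧ d = h) := by
      rcases hci with ⟨e1, _⟩ | ⟨e1, _⟩ <;> rcases hdi with ⟨e2, _⟩ | ⟨e2, _⟩
      · exact absurd (e1.trans e2.symm) hcd
      · exact Or.inl ⟨e1, e2⟩
      · exact Or.inr ⟨e1, e2⟩
      · exact absurd (e1.trans e2.symm) hcd
    have hfin : i ∈ B ∧ i ∈ C ∧ j ∉ B ∧ j ∉ C ∧ a = S.L (P2 x h g a b) (H2 B C h g) j ∧
        b = S.L (P2 x h g a b) (H2 B C h g) j := by
      rcases hh with ⟨rfl, rfl⟩ | ⟨rfl, rfl⟩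
      · obtain ⟨e1, e2⟩ := hxx
        rw [P2_h x c d hgh] at e1
        rw [P2_g x c d] at e2
        simp only [true_and, hgh, hgh.symm, false_and, or_false, false_or] at hci hdi hcj hdj
        exact ⟨hci, hdi, hcj, hdj, e1, e2⟩
      · obtain ⟨e1, e2⟩ := hxx
        rw [P2_g x d c] at e1
        rw [P2_h x d c hgh] at e2
        simp only [true_and, hgh, hgh.symm, false_and, or_false, false_or] at hci hdi hcj hdj
        exact ⟨hdi, hci, hdj, hcj, e2, e1⟩
    exact hcons i j hij hfin.1 hfin.2.1 hfin.2.2.1 hfin.2.2.2.1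
      ⟨hfin.2.2.2.2.1, hfin.2.2.2.2.2⟩

lemma Dead.sq (hD : Dead S A V) {x : G → Fin 3} (hx : Mem A x) {h g : G} (hgh : h ≠ g)
    {q s : Fin 3} (hq : q ∈ A h) (hs : s ∈ A g) :
    fe S x h q + fe S (Function.update x h q) g s =
      fe S x g s + fe S (Function.update x g s) h q := by
  by_cases hq' : q = x h
  · subst hq'
    rw [fe_triv, Function.update_eq_self, zero_add]
    have e := fe_triv S (Function.update x g s) h
    rw [Function.update_of_ne hgh] at e
    rw [e, add_zero]
  by_cases hs' : s = x g
  · subst hs'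
    rw [fe_triv, Function.update_eq_self, zero_add]
    have e := fe_triv S (Function.update x h q) g
    rw [Function.update_of_ne hgh.symm] at e
    rw [e, add_zero]
  have e := sq_closed S (V h) (V g) x h g hgh (x h) q (x g) s (hD.sqNB hx hgh hq hs hq' hs')
  rw [P2_self, P2_q x h g hgh, P2_s x h g] at e
  rw [fe_eq S (V h) x h q (hD.eok hx hq hq'), fe_eq S (V g) x g s (hD.eok hx hs hs'),
    fe_eq S (V g) _ g s (hD.eok (hx.upd hq) hs
      (by rw [Function.update_of_ne hgh.symm]; exact hs')),
    fe_eq S (V h) _ h q (hD.eok (hx.upd hs) hq (by rw [Function.update_of_ne hgh]; exact hq'))]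
  exact e

/-! ### path sums -/

variable (S)

/-- sum along the path moving the goods of the list one after the other to their place in `y` -/
noncomputable def pl : List G → (G → Fin 3) → (G → Fin 3) → ZMod 2
  | [], _, _ => 0
  | g :: L, x, y => fe S x g (y g) + pl L (Function.update x g (y g)) y

/-- end of that path -/
def up : List G → (G → Fin 3) → (G → Fin 3) → (G → Fin 3)
  | [], x, _ => x
  | g :: L, x, y => up L (Function.update x g (y g)) y

lemma up_apply_notMem (L : List G) (x y : G → Fin 3) (g : G) (hg : g ∉ L) :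
    up L x y g = x g := by
  induction L generalizing x with
  | nil => rfl
  | cons k L ih =>
    rw [List.mem_cons, not_or] at hg
    rw [up, ih _ hg.2, Function.update_of_ne hg.1]

lemma up_apply_mem (L : List G) (x y : G → Fin 3) (g : G) (hg : g ∈ L) :
    up L x y g = y g := by
  induction L generalizing x with
  | nil => exact absurd hg List.not_mem_nil
  | cons k L ih =>
    rw [up]
    by_cases hL : g ∈ L
    · exact ih _ hL
    · rw [up_apply_notMem L _ y g hL]
      rcases List.mem_cons.1 hg with e | e
      · rw [e, Function.update_self]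
      · exact absurd e hL

lemma up_update (L : List G) (x y : G → Fin 3) (g : G) (t : Fin 3) (hg : g ∉ L) :
    up L (Function.update x g t) y = Function.update (up L x y) g t := by
  funext k
  by_cases hk : k = g
  · subst hk
    rw [up_apply_notMem L _ y k hg]
    simp
  · rw [Function.update_of_ne hk]
    by_cases hL : k ∈ L
    · rw [up_apply_mem L _ y k hL, up_apply_mem L _ y k hL]
    · rw [up_apply_notMem L _ y k hL, up_apply_notMem L _ y k hL, Function.update_of_ne hk]

lemma up_mem {A : G → Finset (Fin 3)} (L : List G) {x y : G → Fin 3} (hx : Mem A x)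
    (hy : Mem A y) : Mem A (up L x y) := by
  intro k
  by_cases hk : k ∈ L
  · rw [up_apply_mem L x y k hk]; exact hy k
  · rw [up_apply_notMem L x y k hk]; exact hx k

variable {S}

lemma Dead.pl_comm (hD : Dead S A V) (L : List G) {x y : G → Fin 3} (hx : Mem A x)
    (hy : Mem A y) {g : G} {t : Fin 3} (ht : t ∈ A g) (hg : g ∉ L) :
    pl S L x y + fe S (up L x y) g t = fe S x g t + pl S L (Function.update x g t) y := by
  induction L generalizing x with
  | nil => simp [pl, up]
  | cons k L ih =>
    rw [List.mem_cons, not_or] at hg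
    have e := ih (hx.upd (hy k)) hg.2
    have e2 := hD.sq hx (Ne.symm hg.1) (hy k) ht
    rw [pl, up, pl, Function.update_comm hg.1]
    linear_combination e + e2

lemma Dead.pl_add (hD : Dead S A V) (L : List G) (hL : L.Nodup) {x y z : G → Fin 3}
    (hx : Mem A x) (hy : Mem A y) (hz : Mem A z) :
    pl S L x y + pl S L (up L x y) z = pl S L x z := by
  induction L generalizing x with
  | nil => simp [pl]
  | cons g L ih =>
    rw [List.nodup_cons] at hL
    rw [pl, up, pl, pl]
    have e1 := hD.pl_comm L (hx.upd (hy g)) hy (hz g) hL.1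
    have e2 := hD.tri hx (hy g) (hz g)
    have e3 := ih hL.2 (hx.upd (hz g))
    rw [← up_update L _ y g (z g) hL.1, Function.update_idem]
    rw [Function.update_idem] at e1
    linear_combination e1 + e2 + e3

end Pool.F6
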