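import Pool.Agent.F6.Grid

/-!
# The local lemma for squares
-/

namespace Pool.F6

open Finset

def BadA (c b0 d0 bg bh dg dh : Fin 3) : Prop :=
  b0 ≠ c ∧ d0 ≠ c ∧ b0 ≠ d0 ∧ (bg = b0 ∨ bg = c) ∧ (bh = b0 ∨ bh = c) ∧ (dg = d0 ∨ dg = c) ∧
    (dh = d0 ∨ dh = c) ∧ NB (mk3 bg c dh) ∧ NB (mk3 bh c dg) ∧ NB (mk3 bg c dg) ∧
    NB (mk3 bh c dh)

instance (c b0 d0 bg bh dg dh : Fin 3) : Decidable (BadA c b0 d0 bg bh dg dh) := by
  unfold BadA; infer_instance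

def BadB (c bg bh dg dh bf df : Fin 3) : Prop :=
  (bf = bg ∨ bf = c) ∧ (bf = bh ∨ bf = c) ∧ (df = dg ∨ df = c) ∧ (df = dh ∨ df = c)

instance (c bg bh dg dh bf df : Fin 3) : Decidable (BadB c bg bh dg dh bf df) := by
  unfold BadB; infer_instance

def BadC (b0 d0 bg bh dg dh l1 l2 l3 : Fin 3) : Prop :=
  NB (mk3 b0 l1 d0) ∧ NB (mk3 b0 l2 d0) ∧ NB (mk3 b0 l3 d0) ∧ NB (mk3 b0 l1 dg) ∧
    NB (mk3 bg l1 d0) ∧ NB (mk3 bg l1 dg) ∧ NB (mk3 b0 l2 dh) ∧ NB (mk3 bh l2 d0) ∧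
    NB (mk3 bh l2 dh)

instance (b0 d0 bg bh dg dh l1 l2 l3 : Fin 3) : Decidable (BadC b0 d0 bg bh dg dh l1 l2 l3) := by
  unfold BadC; infer_instance

/-- the finite computation at a corner where the all-hidden state is bijective -/
lemma bad_calc : ∀ c b0 d0 bg bh dg dh : Fin 3, BadA c b0 d0 bg bh dg dh → ∀ bf df : Fin 3,
    BadB c bg bh dg dh bf df → ∀ l1 l2 l3 : Fin 3, BadC b0 d0 bg bh dg dh l1 l2 l3 →
    th (mk3 bf c df) (mk3 bg c df) + th (mk3 bg c df) (mk3 bg c dg) +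
      th (mk3 bg c dg) (mk3 bg l1 dg) + th (mk3 bg l1 dg) (mk3 bg l1 d0) +
      th (mk3 bg l1 d0) (mk3 b0 l1 d0) + th (mk3 b0 l1 d0) (mk3 b0 l3 d0) =
    th (mk3 bf c df) (mk3 bf c dh) + th (mk3 bf c dh) (mk3 bh c dh) +
      th (mk3 bh c dh) (mk3 bh l2 dh) + th (mk3 bh l2 dh) (mk3 b0 l2 dh) +
      th (mk3 b0 l2 dh) (mk3 b0 l2 d0) + th (mk3 b0 l2 d0) (mk3 b0 l3 d0) := by
  decide

lemma NB_perm : ∀ β γ δ : Fin 3, β ≠ γ → β ≠ δ → γ ≠ δ → ∀ a b c : Fin 3,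
    (NB (mk3 a b c) ↔ NB (mk3 (mk3 a b c β) (mk3 a b c γ) (mk3 a b c δ))) := by
  decide

lemma maj_perm : ∀ β γ δ : Fin 3, β ≠ γ → β ≠ δ → γ ≠ δ → ∀ a b c : Fin 3,
    maj (mk3 a b c) = maj (mk3 (mk3 a b c β) (mk3 a b c γ) (mk3 a b c δ)) := by
  decide

lemma NB_roles {β γ δ : Fin 3} (h1 : β ≠ γ) (h2 : β ≠ δ) (h3 : γ ≠ δ) (l : Lb) :
    NB l ↔ NB (mk3 (l β) (l γ) (l δ)) := by
  have h := NB_perm β γ δ h1 h2 h3 (l 0) (l 1) (l 2)
  rwa [mk3_eta] at h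

lemma th_roles {β γ δ : Fin 3} (h1 : β ≠ γ) (h2 : β ≠ δ) (h3 : γ ≠ δ) (l l' : Lb) :
    th l l' = th (mk3 (l β) (l γ) (l δ)) (mk3 (l' β) (l' γ) (l' δ)) := by
  have h := maj_perm β γ δ h1 h2 h3 (l 0) (l 1) (l 2)
  have h' := maj_perm β γ δ h1 h2 h3 (l' 0) (l' 1) (l' 2)
  rw [mk3_eta] at h h'
  unfold th
  rw [h, h']

variable {G : Type*} [DecidableEq G] (S : LabSys G)

/-- an agent `j` who sees both goods and owns the piece containing both, while `i` hides both,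
does not exist -/
def Cons2 (x : G → Fin 3) (h g : G) (a b : Fin 3) (A B : Finset (Fin 3)) : Prop :=
  ∀ i j, i ≠ j → i ∈ A → i ∈ B → j ∉ A → j ∉ B →
    ¬ (a = St S x h g a b A B j ∧ b = St S x h g a b A B j)

/-- all consistent states of the square (viewer `νh` of `h`, viewer `νg` of `g`) are
non-bijective -/
def SqNB (νh νg : Fin 3) (x : G → Fin 3) (h g : G) (p q r s : Fin 3) : Prop :=
  ∀ a b, (a = p ∨ a = q) → (b = r ∨ b = s) → ∀ A B, νh ∉ A → νg ∉ B →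
    Cons2 S x h g a b A B → NB (St S x h g a b A B)

variable {S}

lemma SqNB.voh {νh νg : Fin 3} {x : G → Fin 3} {h g : G} {p q r s : Fin 3}
    (H : SqNB S νh νg x h g p q r s) {a b : Fin 3} (ha : a = p ∨ a = q) (hb : b = r ∨ b = s) :
    VOK S νh (P2 x h g a b) h := by
  intro A hA
  rw [← St_A]
  exact H a b ha hb A ∅ hA (Finset.notMem_empty _) (fun i j _ _ hi => absurd hi (Finset.notMem_empty _))

lemma SqNB.vog {νh νg : Fin 3} {x : G → Fin 3} {h g : G} {p q r s : Fin 3}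
    (H : SqNB S νh νg x h g p q r s) {a b : Fin 3} (ha : a = p ∨ a = q) (hb : b = r ∨ b = s) :
    VOK S νg (P2 x h g a b) g := by
  intro B hB
  rw [← St_B]
  exact H a b ha hb ∅ B (Finset.notMem_empty _) hB (fun i j _ hi => absurd hi (Finset.notMem_empty _))

lemma SqNB.eoh {νh νg : Fin 3} {x : G → Fin 3} {h g : G} (hgh : h ≠ g) {p q r s : Fin 3}
    (H : SqNB S νh νg x h g p q r s) {b : Fin 3} (hb : b = r ∨ b = s) :
    EOK S νh (P2 x h g p b) h q :=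
  ⟨H.voh (Or.inl rfl) hb, by rw [P2_upd_h x h g hgh]; exact H.voh (Or.inr rfl) hb⟩

lemma SqNB.eog {νh νg : Fin 3} {x : G → Fin 3} {h g : G} {p q r s : Fin 3}
    (H : SqNB S νh νg x h g p q r s) {a : Fin 3} (ha : a = p ∨ a = q) :
    EOK S νg (P2 x h g a r) g s :=
  ⟨H.vog ha (Or.inl rfl), by rw [P2_upd_g x h g]; exact H.vog ha (Or.inr rfl)⟩

variable (S)

lemma gs_row0 (x : G → Fin 3) (h g : G) (hgh : h ≠ g) (p q r s : Fin 3) (o1 o2 u1 u2 : Fin 3) :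
    ∑ i ∈ range 5, th (gs S x h g p q r s o1 o2 u1 u2 i 0) (gs S x h g p q r s o1 o2 u1 u2 (i + 1) 0)
      = fo S (P2 x h g p r) h q o1 o2 := by
  unfold fo
  rw [P2_upd_h x h g hgh]
  simp only [Finset.sum_range_succ, Finset.sum_range_zero, gs, sch, ← St_A]
  simp

lemma gs_row5 (x : G → Fin 3) (h g : G) (hgh : h ≠ g) (p q r s : Fin 3) (o1 o2 u1 u2 : Fin 3) :
    ∑ i ∈ range 5, th (gs S x h g p q r s o1 o2 u1 u2 i 5) (gs S x h g p q r s o1 o2 u1 u2 (i + 1) 5)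
      = fo S (P2 x h g p s) h q o1 o2 := by
  unfold fo
  rw [P2_upd_h x h g hgh]
  simp only [Finset.sum_range_succ, Finset.sum_range_zero, gs, sch, ← St_A]
  simp

lemma gs_col0 (x : G → Fin 3) (h g : G) (p q r s : Fin 3) (o1 o2 u1 u2 : Fin 3) :
    ∑ j ∈ range 5, th (gs S x h g p q r s o1 o2 u1 u2 0 j) (gs S x h g p q r s o1 o2 u1 u2 0 (j + 1))
      = fo S (P2 x h g p r) g s u1 u2 := by
  unfold fo
  rw [P2_upd_g x h g]
  simp only [Finset.sum_range_succ, Finset.sum_range_zero, gs, sch, ← St_B]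
  simp

lemma gs_col5 (x : G → Fin 3) (h g : G) (p q r s : Fin 3) (o1 o2 u1 u2 : Fin 3) :
    ∑ j ∈ range 5, th (gs S x h g p q r s o1 o2 u1 u2 5 j) (gs S x h g p q r s o1 o2 u1 u2 5 (j + 1))
      = fo S (P2 x h g q r) g s u1 u2 := by
  unfold fo
  rw [P2_upd_g x h g]
  simp only [Finset.sum_range_succ, Finset.sum_range_zero, gs, sch, ← St_B]
  simp

/-- the square sum from the sums over the rows and columns of the grid -/
lemma sq_of_grid (νh νg : Fin 3) (x : G → Fin 3) (h g : G) (hgh : h ≠ g) (p q r s : Fin 3)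
    (o1 o2 u1 u2 : Fin 3)
    (h1 : o1 ≠ νh) (h2 : o2 ≠ νh) (h12 : o1 ≠ o2) (k1 : u1 ≠ νg) (k2 : u2 ≠ νg) (k12 : u1 ≠ u2)
    (H : SqNB S νh νg x h g p q r s)
    (hsum : ∑ i ∈ range 5, th (gs S x h g p q r s o1 o2 u1 u2 i 0)
        (gs S x h g p q r s o1 o2 u1 u2 (i + 1) 0) +
      ∑ j ∈ range 5, th (gs S x h g p q r s o1 o2 u1 u2 5 j)
        (gs S x h g p q r s o1 o2 u1 u2 5 (j + 1)) =
      ∑ j ∈ range 5, th (gs S x h g p q r s o1 o2 u1 u2 0 j)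
        (gs S x h g p q r s o1 o2 u1 u2 0 (j + 1)) +
      ∑ i ∈ range 5, th (gs S x h g p q r s o1 o2 u1 u2 i 5)
        (gs S x h g p q r s o1 o2 u1 u2 (i + 1) 5)) :
    fv S νh (P2 x h g p r) h q + fv S νg (P2 x h g q r) g s =
      fv S νg (P2 x h g p r) g s + fv S νh (P2 x h g p s) h q := by
  rw [gs_row0 S x h g hgh, gs_row5 S x h g hgh, gs_col0, gs_col5] at hsum
  rw [fo_eq S νh o1 o2 _ h q (H.eoh hgh (Or.inl rfl)) h1 h2 h12,
    fo_eq S νh o1 o2 _ h q (H.eoh hgh (Or.inr rfl)) h1 h2 h12,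
    fo_eq S νg u1 u2 _ g s (H.eog (Or.inl rfl)) k1 k2 k12,
    fo_eq S νg u1 u2 _ g s (H.eog (Or.inr rfl)) k1 k2 k12] at hsum
  exact hsum

lemma sch_notMem (o1 o2 ν : Fin 3) (h1 : o1 ≠ ν) (h2 : o2 ≠ ν) (i : ℕ) : ν ∉ sch o1 o2 i := by
  unfold sch
  split_ifs <;> simp [Ne.symm h1, Ne.symm h2]

/-- if the second agent hides then also the first one -/
lemma sch_second (o1 o2 : Fin 3) (h12 : o1 ≠ o2) (i : ℕ) (h : o2 ∈ sch o1 o2 i) :
    o1 ∈ sch o1 o2 i := by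
  unfold sch at *
  split_ifs at * <;> simp_all

/-- local lemma, different viewers -/
theorem sq_ne (νh νg : Fin 3) (hν : νh ≠ νg) (x : G → Fin 3) (h g : G) (hgh : h ≠ g)
    (p q r s : Fin 3) (H : SqNB S νh νg x h g p q r s) :
    fv S νh (P2 x h g p r) h q + fv S νg (P2 x h g q r) g s =
      fv S νg (P2 x h g p r) g s + fv S νh (P2 x h g p s) h q := by
  obtain ⟨β, hβ1, hβ2⟩ : ∃ β : Fin 3, β ≠ νh ∧ β ≠ νg := by
    clear * - hν; revert νh νg; decide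
  have hall : ∀ i j, NB (gs S x h g p q r s νg β νh β i j) := by
    intro i j
    unfold gs
    apply H
    · split_ifs <;> simp
    · split_ifs <;> simp
    · exact sch_notMem νg β νh hν.symm hβ1 i
    · exact sch_notMem νh β νg hν hβ2 j
    · intro a b hab ha ha' hb hb' _
      have e1 : a ≠ νh := fun e => sch_notMem νg β νh hν.symm hβ1 i (e ▸ ha)
      have e2 : a ≠ νg := fun e => sch_notMem νh β νg hν hβ2 j (e ▸ ha')
      have e3 : a = β := by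
        clear * - e1 e2 hν hβ1 hβ2; revert νh νg β a; decide
      subst e3
      have f1 := sch_second νg a hβ2.symm i ha
      have f2 := sch_second νh a hβ1.symm j ha'
      have g1 : b ≠ νg := fun e => hb (e ▸ f1)
      have g2 : b ≠ νh := fun e => hb' (e ▸ f2)
      have g3 : b = a := by
        clear * - g1 g2 hν hβ1 hβ2; revert νh νg a b; decide
      exact hab g3.symm
  apply sq_of_grid S νh νg x h g hgh p q r s νg β νh β hν.symm hβ1 hβ2.symm hν hβ2 hβ1.symm H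
  apply grid_sum
  intro i hi j hj
  exact gs_unit S x h g hgh p q r s νg β νh νh β νg hν.symm hβ1 hβ2.symm hν hβ2 hβ1.symm i j hi hj
    (hall _ _) (hall _ _) (hall _ _) (hall _ _)

end Pool.F6
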