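import Pool.Agent.F6.Square

/-!
# The local lemma for squares: one agent views both moving goods
-/

namespace Pool.F6

open Finset

variable {G : Type*} [DecidableEq G] (S : LabSys G)

/-- the all-hidden state at the corner `(a, b)` is bijective, `γ` owning the piece with both
goods -/
def Bad (γ β δ : Fin 3) (x : G → Fin 3) (h g : G) (a b : Fin 3) : Prop :=
  a = b ∧ lb S γ x h g a b false false = a ∧ ¬ NB (St S x h g a b {β, δ} {β, δ})

lemma third : ∀ γ β δ k : Fin 3, β ≠ γ → δ ≠ γ → β ≠ δ → k = γ ∨ k = β ∨ k = δ := by decide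

lemma not_NB_ne {l : Lb} (h : ¬ NB l) {i j : Fin 3} (hij : i ≠ j) : l i ≠ l j :=
  fun e => hij (not_NB_inj h e)

lemma nb_of_not_bad (γ β δ : Fin 3) (h1 : β ≠ γ) (h2 : δ ≠ γ) (h3 : β ≠ δ)
    (x : G → Fin 3) (h g : G) (hgh : h ≠ g) (p q r s : Fin 3) (H : SqNB S γ γ x h g p q r s)
    (i j : ℕ) (a b : Fin 3) (ha : a = if i ≤ 2 then p else q) (hb : b = if j ≤ 2 then r else s)
    (hnb : ¬ Bad S γ β δ x h g a b) : NB (gs S x h g p q r s β δ δ β i j) := by
  by_contra hN
  apply hnb
  unfold gs at hN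
  rw [← ha, ← hb] at hN
  have hA : γ ∉ sch β δ i := sch_notMem β δ γ h1 h2 i
  have hB : γ ∉ sch δ β j := sch_notMem δ β γ h2 h1 j
  have hC : ¬ Cons2 S x h g a b (sch β δ i) (sch δ β j) := by
    intro hC
    apply hN
    apply H a b _ _ _ _ hA hB hC
    · rw [ha]; split_ifs <;> simp
    · rw [hb]; split_ifs <;> simp
  unfold Cons2 at hC
  push Not at hC
  obtain ⟨i', j', hij, a1, a2, b1, b2, e1, e2⟩ := hC
  have hi'γ : i' ≠ γ := fun e => hA (e ▸ a1)
  have hj' : j' = γ := by
    rcases third γ β δ j' h1 h2 h3 with e | e | e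
    · exact e
    · exfalso
      subst e
      rcases third γ j' δ i' h1 h2 h3 with e' | e' | e'
      · exact hi'γ e'
      · exact hij e'
      · subst e'
        exact b1 (sch_second j' i' h3 i a1)
    · exfalso
      subst e
      rcases third γ β j' i' h1 h2 h3 with e' | e' | e'
      · exact hi'γ e'
      · subst e'
        exact b2 (sch_second j' i' h3.symm j a2)
      · exact hij e'
  subst hj'
  have hab : a = b := e1.trans e2.symm
  have hγ : St S x h g a b (sch β δ i) (sch δ β j) j' = lb S j' x h g a b false false := by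
    rw [St_apply]; simp [hA, hB]
  have hlabγ : lb S j' x h g a b false false = a := by rw [← hγ, ← e1]
  refine ⟨hab, hlabγ, ?_⟩
  -- labels of β and δ in the all hidden state agree with those in the state
  have key : ∀ k, k ≠ j' → lb S k x h g a b true true =
      St S x h g a b (sch β δ i) (sch δ β j) k := by
    intro k hk
    have hne : St S x h g a b (sch β δ i) (sch δ β j) k ≠ a := by
      intro e
      exact not_NB_ne hN hk (e.trans (e1))
    rw [St_apply] at hne ⊢
    have hB' : ∀ z, lb S k x h g a b true z ≠ a → lb S k x h g a b true true =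
        lb S k x h g a b true z := by
      intro z hz
      cases z with
      | true => rfl
      | false =>
        rcases lb_B S k x h g hgh a b true with e | e
        · exact e.symm
        · exact absurd (e.trans hab.symm) hz
    by_cases hkA : k ∈ sch β δ i
    · simp only [hkA, decide_true] at hne ⊢
      exact hB' _ hne
    · simp only [hkA, decide_false] at hne ⊢
      rcases lb_A S k x h g hgh a b (decide (k ∈ sch δ β j)) with e | e
      · rw [e] at hne ⊢
        exact hB' _ hne
      · exact absurd e hne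
  have hfun : St S x h g a b {β, δ} {β, δ} = St S x h g a b (sch β δ i) (sch δ β j) := by
    funext k
    by_cases hk : k = j'
    · subst hk
      rw [hγ, St_apply]
      simp [Ne.symm h1, Ne.symm h2]
    · rw [← key k hk, St_apply]
      have : k ∈ ({β, δ} : Finset (Fin 3)) := by
        rcases third j' β δ k h1 h2 h3 with e | e | e
        · exact absurd e hk
        · simp [e]
        · simp [e]
      simp only [this, decide_true]
  rw [hfun]
  exact hN

/-- the special block at a bad corner -/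
lemma block_bad (γ β δ : Fin 3) (h1 : β ≠ γ) (h2 : δ ≠ γ) (h3 : β ≠ δ)
    (x : G → Fin 3) (h g : G) (hgh : h ≠ g) (p q r s : Fin 3) (hpq : p ≠ q) (hrs : r ≠ s)
    (H : SqNB S γ γ x h g p q r s) (hbad : Bad S γ β δ x h g p r) :
    th (gs S x h g p q r s β δ δ β 0 0) (gs S x h g p q r s β δ δ β 1 0) +
      th (gs S x h g p q r s β δ δ β 1 0) (gs S x h g p q r s β δ δ β 2 0) +
      th (gs S x h g p q r s β δ δ β 2 0) (gs S x h g p q r s β δ δ β 3 0) +
      th (gs S x h g p q r s β δ δ β 3 0) (gs S x h g p q r s β δ δ β 3 1) +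
      th (gs S x h g p q r s β δ δ β 3 1) (gs S x h g p q r s β δ δ β 3 2) +
      th (gs S x h g p q r s β δ δ β 3 2) (gs S x h g p q r s β δ δ β 3 3) =
    th (gs S x h g p q r s β δ δ β 0 0) (gs S x h g p q r s β δ δ β 0 1) +
      th (gs S x h g p q r s β δ δ β 0 1) (gs S x h g p q r s β δ δ β 0 2) +
      th (gs S x h g p q r s β δ δ β 0 2) (gs S x h g p q r s β δ δ β 0 3) +
      th (gs S x h g p q r s β δ δ β 0 3) (gs S x h g p q r s β δ δ β 1 3) +
      th (gs S x h g p q r s β δ δ β 1 3) (gs S x h g p q r s β δ δ β 2 3) +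
      th (gs S x h g p q r s β δ δ β 2 3) (gs S x h g p q r s β δ δ β 3 3) := by
  obtain ⟨hpr, hlab, hbij⟩ := hbad
  subst hpr
  have hβδ' : δ ≠ β := h3.symm
  have hγβ : γ ≠ β := h1.symm
  have hγδ : γ ≠ δ := h2.symm
  set b0 := lb S β x h g p p true true with hb0
  set d0 := lb S δ x h g p p true true with hd0
  set bg := lb S β x h g p p true false with hbg
  set bh := lb S β x h g p p false true with hbh
  set dg := lb S δ x h g p p true false with hdg
  set dh := lb S δ x h g p p false true with hdh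
  set bf := lb S β x h g p p false false with hbf
  set df := lb S δ x h g p p false false with hdf
  set l1 := lb S γ x h g q p false false with hl1
  set l2 := lb S γ x h g p s false false with hl2
  set l3 := lb S γ x h g q s false false with hl3
  -- the labels at the four corners
  have hst : ∀ a b A B, γ ∉ A → γ ∉ B → mk3 (St S x h g a b A B β) (St S x h g a b A B γ)
      (St S x h g a b A B δ) = mk3 (lb S β x h g a b (decide (β ∈ A)) (decide (β ∈ B)))
      (lb S γ x h g a b false false) (lb S δ x h g a b (decide (δ ∈ A)) (decide (δ ∈ B))) := by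
    intro a b A B hA hB
    rw [St_apply, St_apply, St_apply]
    simp [hA, hB]
  have hnb : ∀ a b A B, (a = p ∨ a = q) → (b = p ∨ b = s) → γ ∉ A → γ ∉ B →
      Cons2 S x h g a b A B →
      NB (mk3 (lb S β x h g a b (decide (β ∈ A)) (decide (β ∈ B)))
      (lb S γ x h g a b false false) (lb S δ x h g a b (decide (δ ∈ A)) (decide (δ ∈ B)))) := by
    intro a b A B ha hb hA hB hC
    rw [← hst a b A B hA hB]
    exact (NB_roles h1 h3 hγδ _).1 (H a b ha hb A B hA hB hC)
  -- states hiding at most one good per agent are consistent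
  have hc1 : ∀ a b A B, (∀ k, k ∈ A → k ∉ B) → Cons2 S x h g a b A B :=
    fun a b A B hAB i j _ hi hi' => absurd hi' (hAB i hi)
  -- states in which the goods are in different pieces are consistent
  have hc2 : ∀ a b A B, a ≠ b → Cons2 S x h g a b A B :=
    fun a b A B hab i j _ _ _ _ _ e => hab (e.1.trans e.2.symm)
  -- hidden labels do not depend on the corner
  have hq1 : ∀ k z, lb S k x h g q p true z = lb S k x h g p p true z :=
    fun k z => lb_hideA S k x h g hgh q p p z
  have hq2 : ∀ k z, lb S k x h g p s z true = lb S k x h g p p z true :=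
    fun k z => lb_hideB S k x h g p s p z
  have hq3 : ∀ k, lb S k x h g q s true true = lb S k x h g p p true true := fun k =>
    (lb_hideA S k x h g hgh q p s true).trans (lb_hideB S k x h g p s p true)
  have hbij' : ¬ NB (mk3 b0 p d0) := by
    intro hN
    apply hbij
    rw [NB_roles h1 h3 hγδ, hst p p {β, δ} {β, δ} (by simp [hγβ, hγδ]) (by simp [hγβ, hγδ])]
    simp only [Finset.mem_insert, Finset.mem_singleton, true_or, or_true, decide_true, hlab]
    exact hN
  have hb : b0 ≠ p ∧ b0 ≠ d0 ∧ d0 ≠ p := by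
    unfold NB at hbij'
    push Not at hbij'
    exact ⟨hbij'.1, hbij'.2.1, hbij'.2.2.symm⟩
  -- hypotheses of the calculation
  have hA : BadA p b0 d0 bg bh dg dh := by
    refine ⟨hb.1, hb.2.2, hb.2.1, ?_, ?_, ?_, ?_, ?_, ?_, ?_, ?_⟩
    · exact lb_B S β x h g hgh p p true
    · exact lb_A S β x h g hgh p p true
    · exact lb_B S δ x h g hgh p p true
    · exact lb_A S δ x h g hgh p p true
    · have e := hnb p p {β} {δ} (Or.inl rfl) (Or.inl rfl) (by simp [hγβ]) (by simp [hγδ])
        (hc1 _ _ _ _ (by simp [h3]))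
      simpa [h3, hβδ', hlab] using e
    · have e := hnb p p {δ} {β} (Or.inl rfl) (Or.inl rfl) (by simp [hγδ]) (by simp [hγβ])
        (hc1 _ _ _ _ (by simp [hβδ']))
      simpa [h3, hβδ', hlab] using e
    · have e := hnb p p {β, δ} ∅ (Or.inl rfl) (Or.inl rfl) (by simp [hγδ, hγβ]) (by simp)
        (hc1 _ _ _ _ (by simp))
      simpa [h3, hβδ', hlab] using e
    · have e := hnb p p ∅ {β, δ} (Or.inl rfl) (Or.inl rfl) (by simp) (by simp [hγδ, hγβ])
        (hc1 _ _ _ _ (by simp))
      simpa [h3, hβδ', hlab] using e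
  have hB : BadB p bg bh dg dh bf df := by
    refine ⟨?_, ?_, ?_, ?_⟩
    · exact lb_A S β x h g hgh p p false
    · exact lb_B S β x h g hgh p p false
    · exact lb_A S δ x h g hgh p p false
    · exact lb_B S δ x h g hgh p p false
  have hqp : q ≠ p := hpq.symm
  have hC : BadC b0 d0 bg bh dg dh l1 l2 l3 := by
    refine ⟨?_, ?_, ?_, ?_, ?_, ?_, ?_, ?_, ?_⟩
    · have e := hnb q p {β, δ} {β, δ} (Or.inr rfl) (Or.inl rfl) (by simp [hγδ, hγβ])
        (by simp [hγδ, hγβ]) (hc2 _ _ _ _ hqp)
      simpa [h3, hβδ', hq1] using e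
    · have e := hnb p s {β, δ} {β, δ} (Or.inl rfl) (Or.inr rfl) (by simp [hγδ, hγβ])
        (by simp [hγδ, hγβ]) (hc2 _ _ _ _ hrs)
      simpa [h3, hβδ', hq2] using e
    · by_cases hcons : Cons2 S x h g q s {β, δ} {β, δ}
      · have e := hnb q s {β, δ} {β, δ} (Or.inr rfl) (Or.inr rfl) (by simp [hγδ, hγβ])
          (by simp [hγδ, hγβ]) hcons
        simpa [h3, hβδ', hq3] using e
      · unfold Cons2 at hcons
        push Not at hcons
        obtain ⟨i', j', hij, a1, a2, a3, a4, e1, e2⟩ := hcons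
        have hj' : j' = γ := by
          rcases third γ β δ j' h1 h2 h3 with e | e | e
          · exact e
          · exact absurd (by simp [e]) a3
          · exact absurd (by simp [e]) a3
        rw [hj', St_apply] at e1
        simp only [Finset.mem_insert, Finset.mem_singleton, hγβ, hγδ, or_self, decide_false] at e1
        -- l3 = q, not p, hence one of b0, d0
        have hl3q : l3 = q := e1.symm
        by_contra hN
        unfold NB at hN
        push Not at hN
        obtain ⟨n1, n2, n3⟩ := hN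
        have m1 : b0 ≠ l3 := n1
        have m2 : b0 ≠ d0 := n2
        have m3 : l3 ≠ d0 := n3
        have m4 : l3 ≠ p := by rw [hl3q]; exact hqp
        have m5 := hb.1
        have m6 := hb.2.2
        clear * - m1 m2 m3 m4 m5 m6
        revert m1 m2 m3 m4 m5 m6
        generalize b0 = u
        generalize d0 = v
        generalize l3 = w
        revert u v w p
        decide
    · have e := hnb q p {β, δ} {β} (Or.inr rfl) (Or.inl rfl) (by simp [hγδ, hγβ])
        (by simp [hγβ]) (hc2 _ _ _ _ hqp)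
      simpa [h3, hβδ', hq1] using e
    · have e := hnb q p {β, δ} {δ} (Or.inr rfl) (Or.inl rfl) (by simp [hγδ, hγβ])
        (by simp [hγδ]) (hc2 _ _ _ _ hqp)
      simpa [h3, hβδ', hq1] using e
    · have e := hnb q p {β, δ} ∅ (Or.inr rfl) (Or.inl rfl) (by simp [hγδ, hγβ])
        (by simp) (hc2 _ _ _ _ hqp)
      simpa [h3, hβδ', hq1] using e
    · have e := hnb p s {β} {β, δ} (Or.inl rfl) (Or.inr rfl) (by simp [hγβ])
        (by simp [hγδ, hγβ]) (hc2 _ _ _ _ hrs)
      simpa [h3, hβδ', hq2] using e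
    · have e := hnb p s {δ} {β, δ} (Or.inl rfl) (Or.inr rfl) (by simp [hγδ])
        (by simp [hγδ, hγβ]) (hc2 _ _ _ _ hrs)
      simpa [h3, hβδ', hq2] using e
    · have e := hnb p s ∅ {β, δ} (Or.inl rfl) (Or.inr rfl) (by simp)
        (by simp [hγδ, hγβ]) (hc2 _ _ _ _ hrs)
      simpa [h3, hβδ', hq2] using e
  have key := bad_calc p b0 d0 bg bh dg dh hA bf df hB l1 l2 l3 hC
  -- translate the states
  have hsch : ∀ i, γ ∉ sch β δ i := fun i => sch_notMem β δ γ h1 h2 i
  have hsch' : ∀ i, γ ∉ sch δ β i := fun i => sch_notMem δ β γ h2 h1 i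
  have T : ∀ i j, mk3 (gs S x h g p q p s β δ δ β i j β) (gs S x h g p q p s β δ δ β i j γ)
      (gs S x h g p q p s β δ δ β i j δ) =
      mk3 (lb S β x h g (if i ≤ 2 then p else q) (if j ≤ 2 then p else s)
        (decide (β ∈ sch β δ i)) (decide (β ∈ sch δ β j)))
      (lb S γ x h g (if i ≤ 2 then p else q) (if j ≤ 2 then p else s) false false)
      (lb S δ x h g (if i ≤ 2 then p else q) (if j ≤ 2 then p else s)
        (decide (δ ∈ sch β δ i)) (decide (δ ∈ sch δ β j))) :=
    fun i j => hst _ _ _ _ (hsch i) (hsch' j)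
  have t00 : mk3 (gs S x h g p q p s β δ δ β 0 0 β) (gs S x h g p q p s β δ δ β 0 0 γ)
      (gs S x h g p q p s β δ δ β 0 0 δ) = mk3 bf p df := by
    rw [T]; simp [sch, hlab, hbf, hdf]
  have t10 : mk3 (gs S x h g p q p s β δ δ β 1 0 β) (gs S x h g p q p s β δ δ β 1 0 γ)
      (gs S x h g p q p s β δ δ β 1 0 δ) = mk3 bg p df := by
    rw [T]; simp [sch, hlab, hbg, hdf, hβδ']
  have t20 : mk3 (gs S x h g p q p s β δ δ β 2 0 β) (gs S x h g p q p s β δ δ β 2 0 γ)
      (gs S x h g p q p s β δ δ β 2 0 δ) = mk3 bg p dg := by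
    rw [T]; simp [sch, hlab, hbg, hdg]
  have t30 : mk3 (gs S x h g p q p s β δ δ β 3 0 β) (gs S x h g p q p s β δ δ β 3 0 γ)
      (gs S x h g p q p s β δ δ β 3 0 δ) = mk3 bg l1 dg := by
    rw [T]; simp [sch, hbg, hdg, hl1, hq1]
  have t31 : mk3 (gs S x h g p q p s β δ δ β 3 1 β) (gs S x h g p q p s β δ δ β 3 1 γ)
      (gs S x h g p q p s β δ δ β 3 1 δ) = mk3 bg l1 d0 := by
    rw [T]; simp [sch, hbg, hd0, hl1, hq1, h3]
  have t32 : mk3 (gs S x h g p q p s β δ δ β 3 2 β) (gs S x h g p q p s β δ δ β 3 2 γ)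
      (gs S x h g p q p s β δ δ β 3 2 δ) = mk3 b0 l1 d0 := by
    rw [T]; simp [sch, hb0, hd0, hl1, hq1]
  have t33 : mk3 (gs S x h g p q p s β δ δ β 3 3 β) (gs S x h g p q p s β δ δ β 3 3 γ)
      (gs S x h g p q p s β δ δ β 3 3 δ) = mk3 b0 l3 d0 := by
    rw [T]; simp [sch, hb0, hd0, hl3, hq3]
  have t01 : mk3 (gs S x h g p q p s β δ δ β 0 1 β) (gs S x h g p q p s β δ δ β 0 1 γ)
      (gs S x h g p q p s β δ δ β 0 1 δ) = mk3 bf p dh := by
    rw [T]; simp [sch, hlab, hbf, hdh, h3]
  have t02 : mk3 (gs S x h g p q p s β δ δ β 0 2 β) (gs S x h g p q p s β δ δ β 0 2 γ)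
      (gs S x h g p q p s β δ δ β 0 2 δ) = mk3 bh p dh := by
    rw [T]; simp [sch, hlab, hbh, hdh]
  have t03 : mk3 (gs S x h g p q p s β δ δ β 0 3 β) (gs S x h g p q p s β δ δ β 0 3 γ)
      (gs S x h g p q p s β δ δ β 0 3 δ) = mk3 bh l2 dh := by
    rw [T]; simp [sch, hbh, hdh, hl2, hq2]
  have t13 : mk3 (gs S x h g p q p s β δ δ β 1 3 β) (gs S x h g p q p s β δ δ β 1 3 γ)
      (gs S x h g p q p s β δ δ β 1 3 δ) = mk3 b0 l2 dh := by
    rw [T]; simp [sch, hb0, hdh, hl2, hq2, hβδ']
  have t23 : mk3 (gs S x h g p q p s β δ δ β 2 3 β) (gs S x h g p q p s β δ δ β 2 3 γ)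
      (gs S x h g p q p s β δ δ β 2 3 δ) = mk3 b0 l2 d0 := by
    rw [T]; simp [sch, hb0, hd0, hl2, hq2]
  have U : ∀ i j i' j', th (gs S x h g p q p s β δ δ β i j) (gs S x h g p q p s β δ δ β i' j') =
      th (mk3 (gs S x h g p q p s β δ δ β i j β) (gs S x h g p q p s β δ δ β i j γ)
        (gs S x h g p q p s β δ δ β i j δ))
        (mk3 (gs S x h g p q p s β δ δ β i' j' β) (gs S x h g p q p s β δ δ β i' j' γ)
        (gs S x h g p q p s β δ δ β i' j' δ)) := fun i j i' j' => th_roles h1 h3 hγδ _ _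
  simp only [U, t00, t10, t20, t30, t31, t32, t33, t01, t02, t03, t13, t23]
  exact key

/-- square sum at a bad base corner -/
lemma sq_bad (γ β δ : Fin 3) (h1 : β ≠ γ) (h2 : δ ≠ γ) (h3 : β ≠ δ)
    (x : G → Fin 3) (h g : G) (hgh : h ≠ g) (p q r s : Fin 3) (hpq : p ≠ q) (hrs : r ≠ s)
    (H : SqNB S γ γ x h g p q r s) (hbad : Bad S γ β δ x h g p r) :
    fv S γ (P2 x h g p r) h q + fv S γ (P2 x h g q r) g s =
      fv S γ (P2 x h g p r) g s + fv S γ (P2 x h g p s) h q := by
  have hA := block_bad S γ β δ h1 h2 h3 x h g hgh p q r s hpq hrs H hbad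
  obtain ⟨hpr, hlab, hbij⟩ := hbad
  have hγβ : γ ≠ β := h1.symm
  have hγδ : γ ≠ δ := h2.symm
  have hm : ∀ k, k ≠ γ → k ∈ ({β, δ} : Finset (Fin 3)) := by
    intro k hk
    rcases third γ β δ k h1 h2 h3 with e | e | e
    · exact absurd e hk
    · simp [e]
    · simp [e]
  have hall : ∀ a b k, k ≠ γ → St S x h g a b {β, δ} {β, δ} k =
      St S x h g p r {β, δ} {β, δ} k := by
    intro a b k hk
    rw [St_apply, St_apply]
    simp only [hm k hk, decide_true]
    exact (lb_hideA S k x h g hgh a p b true).trans (lb_hideB S k x h g p b r true)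
  have hotherγ : ∀ a b, St S x h g a b {β, δ} {β, δ} γ = lb S γ x h g a b false false := by
    intro a b
    rw [St_apply]
    simp [hγβ, hγδ]
  -- other corners are not bad
  have hnot : ∀ a b, (a = p ∨ a = q) → (b = r ∨ b = s) → ¬ (a = p ∧ b = r) →
      ¬ Bad S γ β δ x h g a b := by
    intro a b ha hb hab hbad'
    obtain ⟨e1, e2, e3⟩ := hbad'
    rcases ha with rfl | rfl
    · rcases hb with rfl | rfl
      · exact hab ⟨rfl, rfl⟩
      · exact hrs (hpr.symm.trans e1)
    · rcases hb with rfl | rfl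
      · exact hpq (hpr.trans e1.symm)
      · -- both bijective with the same labels of β, δ
        have n1 := not_NB_ne hbij (i := γ) (j := β) hγβ
        have n2 := not_NB_ne hbij (i := γ) (j := δ) hγδ
        have n3 := not_NB_ne hbij (i := β) (j := δ) h3
        have m1 := not_NB_ne e3 (i := γ) (j := β) hγβ
        have m2 := not_NB_ne e3 (i := γ) (j := δ) hγδ
        rw [hall _ _ β h1] at m1
        rw [hall _ _ δ h2] at m2
        rw [hotherγ, hlab] at n1 n2
        rw [hotherγ, e2] at m1 m2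
        revert n1 n2 n3 m1 m2 hpq
        generalize St S x h g p r {β, δ} {β, δ} β = u
        generalize St S x h g p r {β, δ} {β, δ} δ = v
        clear * -
        intro q0 q1 q2 q3 q4 q5
        have := p.isLt
        have := a.isLt
        have := u.isLt
        have := v.isLt
        simp only [ne_eq, Fin.ext_iff] at q0 q1 q2 q3 q4 q5
        omega
  have hN : ∀ i j, (3 ≤ i ∨ 3 ≤ j) → NB (gs S x h g p q r s β δ δ β i j) := by
    intro i j hij
    apply nb_of_not_bad S γ β δ h1 h2 h3 x h g hgh p q r s H i j _ _ rfl rfl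
    apply hnot
    · split_ifs <;> simp
    · split_ifs <;> simp
    · rintro ⟨e1, e2⟩
      rcases hij with hi | hj
      · rw [if_neg (by omega)] at e1
        exact hpq e1.symm
      · rw [if_neg (by omega)] at e2
        exact hrs e2.symm
  have hu : ∀ i j, i < 5 → j < 5 → (3 ≤ i ∨ 3 ≤ j) →
      th (gs S x h g p q r s β δ δ β i j) (gs S x h g p q r s β δ δ β (i + 1) j) +
      th (gs S x h g p q r s β δ δ β (i + 1) j)
        (gs S x h g p q r s β δ δ β (i + 1) (j + 1)) =
    th (gs S x h g p q r s β δ δ β i j) (gs S x h g p q r s β δ δ β i (j + 1)) +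
      th (gs S x h g p q r s β δ δ β i (j + 1))
        (gs S x h g p q r s β δ δ β (i + 1) (j + 1)) := by
    intro i j hi hj hij
    exact gs_unit S x h g hgh p q r s β δ γ δ β γ h1 h2 h3 h2 h1 h3.symm i j hi hj
      (hN _ _ hij) (hN _ _ (by omega)) (hN _ _ (by omega)) (hN _ _ (by omega))
  have hB := grid_sum 2 3 (fun i j => gs S x h g p q r s β δ δ β (3 + i) j)
    (fun i hi j hj => hu (3 + i) j (by omega) (by omega) (by omega))
  have hC := grid_sum 3 2 (fun i j => gs S x h g p q r s β δ δ β i (3 + j))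
    (fun i hi j hj => hu i (3 + j) (by omega) (by omega) (by omega))
  have hD := grid_sum 2 2 (fun i j => gs S x h g p q r s β δ δ β (3 + i) (3 + j))
    (fun i hi j hj => hu (3 + i) (3 + j) (by omega) (by omega) (by omega))
  simp only [Finset.sum_range_succ, Finset.sum_range_zero, zero_add, Nat.reduceAdd] at hB hC hD
  apply sq_of_grid S γ γ x h g hgh p q r s β δ δ β h1 h2 h3 h2 h1 h3.symm H
  simp only [Finset.sum_range_succ, Finset.sum_range_zero, zero_add, Nat.reduceAdd]
  linear_combination hA + hB + hC + hD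

end Pool.F6
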