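import Pool.Agent.F6.Square2

/-!
# The local lemma for squares, final form
-/

namespace Pool.F6

open Finset

variable {G : Type*} [DecidableEq G] (S : LabSys G)

lemma fv_flip_h (ν : Fin 3) (x : G → Fin 3) (h g : G) (hgh : h ≠ g) (p q b : Fin 3) :
    fv S ν (P2 x h g q b) h p = fv S ν (P2 x h g p b) h q := by
  have e := fv_symm S ν (P2 x h g p b) h q
  rwa [P2_upd_h x h g hgh, P2_h x h g hgh] at e

lemma fv_flip_g (ν : Fin 3) (x : G → Fin 3) (h g : G) (a r s : Fin 3) :
    fv S ν (P2 x h g a s) g r = fv S ν (P2 x h g a r) g s := by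
  have e := fv_symm S ν (P2 x h g a r) g s
  rwa [P2_upd_g x h g, P2_g x h g] at e

variable {S}

lemma SqNB.swap_h {νh νg : Fin 3} {x : G → Fin 3} {h g : G} {p q r s : Fin 3}
    (H : SqNB S νh νg x h g p q r s) : SqNB S νh νg x h g q p r s :=
  fun a b ha hb => H a b ha.symm hb

lemma SqNB.swap_g {νh νg : Fin 3} {x : G → Fin 3} {h g : G} {p q r s : Fin 3}
    (H : SqNB S νh νg x h g p q r s) : SqNB S νh νg x h g p q s r :=
  fun a b ha hb => H a b ha hb.symm

variable (S)

/-- local lemma, same viewer -/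
theorem sq_same (γ : Fin 3) (x : G → Fin 3) (h g : G) (hgh : h ≠ g)
    (p q r s : Fin 3) (H : SqNB S γ γ x h g p q r s) :
    fv S γ (P2 x h g p r) h q + fv S γ (P2 x h g q r) g s =
      fv S γ (P2 x h g p r) g s + fv S γ (P2 x h g p s) h q := by
  by_cases hpq : p = q
  · subst hpq
    have e1 := fv_triv S γ (P2 x h g p r) h
    have e2 := fv_triv S γ (P2 x h g p s) h
    rw [P2_h x h g hgh] at e1 e2
    rw [e1, e2, zero_add, add_zero]
  by_cases hrs : r = s
  · subst hrs
    have e1 := fv_triv S γ (P2 x h g q r) g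
    have e2 := fv_triv S γ (P2 x h g p r) g
    rw [P2_g x h g] at e1 e2
    rw [e1, e2, zero_add, add_zero]
  have h1 : γ + 1 ≠ γ := by clear * -; revert γ; decide
  have h2 : γ + 2 ≠ γ := by clear * -; revert γ; decide
  have h3 : γ + 1 ≠ γ + 2 := by clear * -; revert γ; decide
  by_cases b1 : Bad S γ (γ + 1) (γ + 2) x h g p r
  · exact sq_bad S γ _ _ h1 h2 h3 x h g hgh p q r s hpq hrs H b1
  by_cases b2 : Bad S γ (γ + 1) (γ + 2) x h g q r
  · have e := sq_bad S γ _ _ h1 h2 h3 x h g hgh q p r s (Ne.symm hpq) hrs H.swap_h b2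
    rw [fv_flip_h S γ x h g hgh p q r, fv_flip_h S γ x h g hgh p q s] at e
    have z1 := z2_add_self (fv S γ (P2 x h g q r) g s)
    have z2 := z2_add_self (fv S γ (P2 x h g p r) g s)
    linear_combination e + z1 - z2
  by_cases b3 : Bad S γ (γ + 1) (γ + 2) x h g p s
  · have e := sq_bad S γ _ _ h1 h2 h3 x h g hgh p q s r hpq (Ne.symm hrs) H.swap_g b3
    rw [fv_flip_g S γ x h g q r s, fv_flip_g S γ x h g p r s] at e
    have z1 := z2_add_self (fv S γ (P2 x h g p s) h q)
    have z2 := z2_add_self (fv S γ (P2 x h g p r) h q)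
    linear_combination e - z1 + z2
  by_cases b4 : Bad S γ (γ + 1) (γ + 2) x h g q s
  · have e := sq_bad S γ _ _ h1 h2 h3 x h g hgh q p s r (Ne.symm hpq) (Ne.symm hrs)
      H.swap_h.swap_g b4
    rw [fv_flip_h S γ x h g hgh p q s, fv_flip_g S γ x h g p r s, fv_flip_g S γ x h g q r s,
      fv_flip_h S γ x h g hgh p q r] at e
    have z1 := z2_add_self (fv S γ (P2 x h g p s) h q)
    have z2 := z2_add_self (fv S γ (P2 x h g p r) h q)
    have z3 := z2_add_self (fv S γ (P2 x h g q r) g s)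
    have z4 := z2_add_self (fv S γ (P2 x h g p r) g s)
    linear_combination e + z2 + z3 - z1 - z4
  have hN : ∀ i j, NB (gs S x h g p q r s (γ + 1) (γ + 2) (γ + 2) (γ + 1) i j) := by
    intro i j
    apply nb_of_not_bad S γ _ _ h1 h2 h3 x h g hgh p q r s H i j _ _ rfl rfl
    by_cases hi : i ≤ 2 <;> by_cases hj : j ≤ 2
    · rw [if_pos hi, if_pos hj]; exact b1
    · rw [if_pos hi, if_neg hj]; exact b3
    · rw [if_neg hi, if_pos hj]; exact b2
    · rw [if_neg hi, if_neg hj]; exact b4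
  apply sq_of_grid S γ γ x h g hgh p q r s _ _ _ _ h1 h2 h3 h2 h1 h3.symm H
  apply grid_sum
  intro i hi j hj
  exact gs_unit S x h g hgh p q r s _ _ γ _ _ γ h1 h2 h3 h2 h1 h3.symm i j hi hj
    (hN _ _) (hN _ _) (hN _ _) (hN _ _)

/-- local lemma for squares, any viewers -/
theorem sq_closed (νh νg : Fin 3) (x : G → Fin 3) (h g : G) (hgh : h ≠ g)
    (p q r s : Fin 3) (H : SqNB S νh νg x h g p q r s) :
    fv S νh (P2 x h g p r) h q + fv S νg (P2 x h g q r) g s =
      fv S νg (P2 x h g p r) g s + fv S νh (P2 x h g p s) h q := by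
  by_cases hν : νh = νg
  · subst hν
    exact sq_same S νh x h g hgh p q r s H
  · exact sq_ne S νh νg hν x h g hgh p q r s H

end Pool.F6
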