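import Pool.Agent.F6.Near

/-!
# Tight facts in the alive cell of a near maximal allocation
-/

namespace Pool.F6

open Finset

lemma cap {a l : Fin 3 → ℝ} (hl : ∀ t, 0 < l t) {K : ℝ}
    (hA : RR ^ 3 * (a 0 * a 1 * a 2) < K * (l 0 * l 1 * l 2)) {θ ρ : ℝ} (hθ : 0 < θ)
    (hm : ∀ t, θ * l t ≤ a t) (hρ0 : 0 < ρ) (hρ : K ≤ RR ^ 3 * ρ * θ ^ 2) :
    ∀ t, a t ≤ ρ * l t := by
  intro t
  by_contra hcon
  push Not at hcon
  have hR : 0 < RR ^ 3 := by unfold RR; norm_num
  have hL : 0 < l 0 * l 1 * l 2 := mul_pos (mul_pos (hl 0) (hl 1)) (hl 2)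
  have h1 : ρ * θ ^ 2 * (l 0 * l 1 * l 2) ≤ a 0 * a 1 * a 2 := by
    have p := fun t => mul_pos hθ (hl t)
    have q := mul_pos hρ0 (hl t)
    fin_cases t
    · have := three q (p 1) (p 2) hcon.le (hm 1) (hm 2)
      calc _ = (ρ * l 0) * (θ * l 1) * (θ * l 2) := by ring
        _ ≤ _ := this
    · have := three (p 0) q (p 2) (hm 0) hcon.le (hm 2)
      calc _ = (θ * l 0) * (ρ * l 1) * (θ * l 2) := by ring
        _ ≤ _ := this
    · have := three (p 0) (p 1) q (hm 0) (hm 1) hcon.le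
      calc _ = (θ * l 0) * (θ * l 1) * (ρ * l 2) := by ring
        _ ≤ _ := this
  have h2 := mul_le_mul_of_nonneg_left h1 hR.le
  have h3 := mul_le_mul_of_nonneg_right hρ hL.le
  nlinarith

variable {G : Type*} [DecidableEq G] [Fintype G] {v : Fin 3 → Finset G → ℝ}

/-- goods at piece `k` in a cell, without the two moving goods -/
def Inn (x : G → Fin 3) (q s : Fin 3) (a1 b1 : List G) (h g : G) (k : Fin 3) : Finset G :=
  Finset.univ.filter fun y => y ≠ h ∧ y ≠ g ∧ cellP x q s a1 b1 h g 0 0 y = k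

lemma mem_Inn {x : G → Fin 3} {q s : Fin 3} {a1 b1 : List G} {h g : G} {k : Fin 3} {y : G} :
    y ∈ Inn x q s a1 b1 h g k ↔ y ≠ h ∧ y ≠ g ∧ cellP x q s a1 b1 h g 0 0 y = k := by
  simp [Inn]

omit [Fintype G] in
lemma cellP_ne {x : G → Fin 3} {q s : Fin 3} {a1 b1 : List G} {h g y : G} (h1 : y ≠ h)
    (h2 : y ≠ g) (c d : Fin 3) : cellP x q s a1 b1 h g c d y = cellP x q s a1 b1 h g 0 0 y := by
  unfold cellP
  rw [if_neg h2, if_neg h1, if_neg h2, if_neg h1]

lemma Inn_sub {x : G → Fin 3} {q s : Fin 3} {a1 b1 : List G} {h g : G} {k : Fin 3} (c d : Fin 3)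
    {H : Finset G} (hH : H ⊆ {h, g}) :
    Inn x q s a1 b1 h g k ⊆ pc (cellP x q s a1 b1 h g c d) H k := by
  intro y hy
  rw [mem_Inn] at hy
  rw [mem_pc]
  refine ⟨(cellP_ne hy.1 hy.2.1 c d).trans hy.2.2, ?_⟩
  intro hyH
  have := hH hyH
  rw [Finset.mem_insert, Finset.mem_singleton] at this
  rcases this with e | e
  · exact hy.1 e
  · exact hy.2.1 e

/-- lower bounds of an alive cell: full value for the uncut agent, half value for the others -/
noncomputable def low (v : Fin 3 → Finset G → ℝ) (b : G → Fin 3) (e : Equiv.Perm (Fin 3)) (u : Fin 3)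
    (t : Fin 3) : ℝ := if e t = u then v t (bl b t) else v t (bl b t) / 2

omit [Fintype G] in
/-- two parts argument -/
lemma half_inner {w : Finset G → ℝ} (hw : ∀ S T, w (S ∪ T) ≤ w S + w T) (hm : Monotone w)
    {T P0 P1 I0 I1 : Finset G} {h : G}
    (hT : ∀ y ∈ T, y = h ∨ y ∈ I0 ∨ y ∈ I1) (s0 : I0 ⊆ P0) (s1 : I1 ⊆ P1) (hh : h ∈ P0 ∨ h ∈ P1)
    {a : ℝ} (a0 : w P0 ≤ a) (a1 : w P1 ≤ a) :
    w T ≤ 2 * a ∧ (w T - a ≤ w I0 ∨ w T - a ≤ w I1) := by
  constructor
  · have : T ⊆ P0 ∪ P1 := by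
      intro y hy
      rw [Finset.mem_union]
      rcases hT y hy with rfl | e | e
      · exact hh
      · exact Or.inl (s0 e)
      · exact Or.inr (s1 e)
    have := (hm this).trans (hw _ _)
    linarith
  · rcases hh with hh | hh
    · right
      have : T ⊆ P0 ∪ I1 := by
        intro y hy
        rw [Finset.mem_union]
        rcases hT y hy with rfl | e | e
        · exact Or.inl hh
        · exact Or.inl (s0 e)
        · exact Or.inr e
      have := (hm this).trans (hw _ _)
      linarith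
    · left
      have : T ⊆ P1 ∪ I0 := by
        intro y hy
        rw [Finset.mem_union]
        rcases hT y hy with rfl | e | e
        · exact Or.inl hh
        · exact Or.inr e
        · exact Or.inl (s1 e)
      have := (hm this).trans (hw _ _)
      linarith

lemma RType.ne {u i j : Fin 3} (h : RType u i j) : u ≠ i ∧ u ≠ j ∧ i ≠ j := by
  rcases h with ⟨rfl, rfl, rfl⟩ | ⟨rfl, rfl, rfl⟩ | ⟨rfl, rfl, rfl⟩ <;> decide

/-- where the goods of the blocks are in a cell -/
lemma cell_blocks {be : G → Fin 3} {Ls : Fin 3 → List G}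
    (hL : ∀ p, Enum be p (Ls p)) {u i j : Fin 3} (hT : RType u i j) {a1 a2 b1 b2 : List G}
    {h g : G} (e1 : Ls i = a1 ++ h :: a2) (e2 : Ls j = b1 ++ g :: b2) (y : G) :
    (be y = u → y ∈ Inn (pb be (st u)) 0 2 a1 b1 h g u) ∧
    (be y = i → y = h ∨ y ∈ Inn (pb be (st u)) 0 2 a1 b1 h g 0 ∨
      y ∈ Inn (pb be (st u)) 0 2 a1 b1 h g 1) ∧
    (be y = j → y = g ∨ y ∈ Inn (pb be (st u)) 0 2 a1 b1 h g 1 ∨
      y ∈ Inn (pb be (st u)) 0 2 a1 b1 h g 2) := by
  obtain ⟨n1, n2, n3⟩ := hT.ne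
  have hh : be h = i := ((hL i).2 h).1 (by rw [e1]; simp)
  have hg : be g = j := ((hL j).2 g).1 (by rw [e2]; simp)
  have ha1 : ∀ y ∈ a1, be y = i := fun y hy => ((hL i).2 y).1 (by rw [e1]; simp [hy])
  have hb1 : ∀ y ∈ b1, be y = j := fun y hy => ((hL j).2 y).1 (by rw [e2]; simp [hy])
  refine ⟨?_, ?_, ?_⟩
  · intro hy
    rw [mem_Inn]
    have m1 : y ≠ h := by rintro rfl; exact n1 (hy.symm.trans hh)
    have m2 : y ≠ g := by rintro rfl; exact n2 (hy.symm.trans hg)
    refine ⟨m1, m2, ?_⟩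
    unfold cellP
    rw [if_neg m2, if_neg m1, if_neg (fun m => n2 (hy.symm.trans (hb1 y m))),
      if_neg (fun m => n1 (hy.symm.trans (ha1 y m)))]
    unfold pb st
    rw [if_pos hy]
  · intro hy
    by_cases m1 : y = h
    · exact Or.inl m1
    right
    have m2 : y ≠ g := by rintro rfl; exact n3 (hy.symm.trans hg)
    rw [mem_Inn, mem_Inn]
    by_cases m : y ∈ a1
    · left
      refine ⟨m1, m2, ?_⟩
      unfold cellP
      rw [if_neg m2, if_neg m1, if_neg (fun m => n3 (hy.symm.trans (hb1 y m))), if_pos m]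
    · right
      refine ⟨m1, m2, ?_⟩
      unfold cellP
      rw [if_neg m2, if_neg m1, if_neg (fun m => n3 (hy.symm.trans (hb1 y m))), if_neg m]
      unfold pb st
      rw [if_neg (fun q => n1 (q.symm.trans hy))]
  · intro hy
    by_cases m1 : y = g
    · exact Or.inl m1
    right
    have m2 : y ≠ h := by rintro rfl; exact n3 (hh.symm.trans hy)
    rw [mem_Inn, mem_Inn]
    by_cases m : y ∈ b1
    · right
      refine ⟨m2, m1, ?_⟩
      unfold cellP
      rw [if_neg m1, if_neg m2, if_pos m]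
    · left
      refine ⟨m2, m1, ?_⟩
      unfold cellP
      rw [if_neg m1, if_neg m2, if_neg m, if_neg (fun m => n3 ((ha1 y m).symm.trans hy))]
      unfold pb st
      rw [if_neg (fun q => n2 (q.symm.trans hy))]

/-- the tight facts of an alive cell -/
theorem tight (I : Inst v) {P : ℝ} (hP0 : 0 < P) (hP : ∀ b, prd v b ≤ P) {b : G → Fin 3}
    (hb : Near v P b) (e : Equiv.Perm (Fin 3)) {Ls : Fin 3 → List G}
    (hL : ∀ p, Enum (fun g => e (b g)) p (Ls p)) {u i j : Fin 3} (hT : RType u i j)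
    {a1 a2 b1 b2 : List G} {h g : G} (e1 : Ls i = a1 ++ h :: a2) (e2 : Ls j = b1 ++ g :: b2)
    (hal : Alive v (pb (fun g => e (b g)) (st u)) 0 2 a1 b1 h g) :
    (∃ B : Fin 3 → Finset G, Disj B ∧ EF1 v B ∧ ∀ t, low v b e u t ≤ v t (B t)) ∧
    ∀ νh νg : Fin 3, ∃ (c d : Fin 3) (H : Fin 3 → Finset G), (c = 1 ∨ c = 0) ∧ (d = 1 ∨ d = 2) ∧
      (∀ i, H i ⊆ {h, g}) ∧ h ∉ H νh ∧ g ∉ H νg ∧
      ∀ t k, v t (pc (cellP (pb (fun g => e (b g)) (st u)) 0 2 a1 b1 h g c d) (H t) k) ≤
        10001 / 10000 * low v b e u t := by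
  obtain ⟨n1, n2, n3⟩ := hT.ne
  have hpos := fun t => hb.pos I hP0 t
  have hlow : ∀ t, 0 < low v b e u t := by
    intro t
    unfold low
    split_ifs
    · exact hpos t
    · exact half_pos (hpos t)
  have hh : e (b h) = i := ((hL i).2 h).1 (by rw [e1]; simp)
  have hg : e (b g) = j := ((hL j).2 g).1 (by rw [e2]; simp)
  have hhi : pb (fun g => e (b g)) (st u) h = 1 := by
    show (if e (b h) = u then u else 1) = 1
    rw [hh, if_neg (Ne.symm n1)]
  have hgi : pb (fun g => e (b g)) (st u) g = 1 := by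
    show (if e (b g) = u then u else 1) = 1
    rw [hg, if_neg (Ne.symm n2)]
  -- product of the lower bounds
  have hprod : 4 * (low v b e u 0 * low v b e u 1 * low v b e u 2) = prd v b := by
    obtain ⟨w, hw⟩ := e.surjective u
    have hne : ∀ t, t ≠ w → low v b e u t = v t (bl b t) / 2 := by
      intro t ht
      unfold low
      rw [if_neg (fun q => ht (e.injective (q.trans hw.symm)))]
    have heq : low v b e u w = v w (bl b w) := by
      unfold low
      rw [if_pos hw]
    unfold prd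
    fin_cases w
    · have q1 := hne 1 (by decide)
      have q2 := hne 2 (by decide)
      have q0 : low v b e u 0 = v 0 (bl b 0) := heq
      rw [q0, q1, q2]; ring
    · have q1 := hne 0 (by decide)
      have q2 := hne 2 (by decide)
      have q0 : low v b e u 1 = v 1 (bl b 1) := heq
      rw [q0, q1, q2]; ring
    · have q1 := hne 0 (by decide)
      have q2 := hne 1 (by decide)
      have q0 : low v b e u 2 = v 2 (bl b 2) := heq
      rw [q0, q1, q2]; ring
  have hK : P ≤ (4 / (1 - 1 / 100000)) * (low v b e u 0 * low v b e u 1 * low v b e u 2) := by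
    unfold Near at hb
    rw [← hprod] at hb
    rw [div_mul_eq_mul_div, le_div_iff₀ (by norm_num)]
    linarith
  -- lower bounds in a cell
  have hcell := fun y => cell_blocks hL hT e1 e2 y
  -- standard viewers
  obtain ⟨c, d, H, hc, hd, hH, hνh, hνg, B, hB1, hB2, hB3⟩ := hal (e.symm i) (e.symm j)
  rw [hhi] at hc
  rw [hgi] at hd
  have hpr := I.PR hP hB1 hB2
  set z := cellP (pb (fun g => e (b g)) (st u)) 0 2 a1 b1 h g c d with hz
  have hzh : z h = c := by
    rw [hz]; unfold cellP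
    rw [if_neg (by rintro rfl; exact n3 (hh.symm.trans hg)), if_pos rfl]
  have hzg : z g = d := by
    rw [hz]; unfold cellP
    rw [if_pos rfl]
  have hi2 := half_inner (w := v (e.symm i)) (I.sub _) (I.mono _) (T := bl b (e.symm i))
    (P0 := pc z (H (e.symm i)) 0) (P1 := pc z (H (e.symm i)) 1)
    (I0 := Inn (pb (fun g => e (b g)) (st u)) 0 2 a1 b1 h g 0)
    (I1 := Inn (pb (fun g => e (b g)) (st u)) 0 2 a1 b1 h g 1) (h := h)
    (by
      intro y hy
      rw [mem_bl] at hy
      exact (hcell y).2.1 (by show e (b y) = i; rw [hy]; simp))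
    (Inn_sub c d (hH _)) (Inn_sub c d (hH _))
    (by
      rcases hc with e0 | e0
      · right; rw [mem_pc]; exact ⟨hzh.trans e0, hνh⟩
      · left; rw [mem_pc]; exact ⟨hzh.trans e0, hνh⟩)
    (a := v (e.symm i) (B (e.symm i))) (hB3 _ _) (hB3 _ _)
  have hj2 := half_inner (w := v (e.symm j)) (I.sub _) (I.mono _) (T := bl b (e.symm j))
    (P0 := pc z (H (e.symm j)) 1) (P1 := pc z (H (e.symm j)) 2)
    (I0 := Inn (pb (fun g => e (b g)) (st u)) 0 2 a1 b1 h g 1)
    (I1 := Inn (pb (fun g => e (b g)) (st u)) 0 2 a1 b1 h g 2) (h := g)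
    (by
      intro y hy
      rw [mem_bl] at hy
      exact (hcell y).2.2 (by show e (b y) = j; rw [hy]; simp))
    (Inn_sub c d (hH _)) (Inn_sub c d (hH _))
    (by
      rcases hd with e0 | e0
      · left; rw [mem_pc]; exact ⟨hzg.trans e0, hνg⟩
      · right; rw [mem_pc]; exact ⟨hzg.trans e0, hνg⟩)
    (a := v (e.symm j) (B (e.symm j))) (hB3 _ _) (hB3 _ _)
  have hu2 : ∀ t, e t = u → bl b t ⊆ Inn (pb (fun g => e (b g)) (st u)) 0 2 a1 b1 h g u := by
    intro t ht y hy
    rw [mem_bl] at hy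
    exact (hcell y).1 (by show e (b y) = u; rw [hy, ht])
  have hlB : ∀ t, low v b e u t ≤ v t (B t) := by
    intro t
    have hcases : e t = u ∨ e t = i ∨ e t = j := by
      have : ∀ a, a = u ∨ a = i ∨ a = j := by
        rcases hT with ⟨rfl, rfl, rfl⟩ | ⟨rfl, rfl, rfl⟩ | ⟨rfl, rfl, rfl⟩ <;> decide
      exact this _
    rcases hcases with q | q | q
    · unfold low
      rw [if_pos q]
      exact (I.mono t ((hu2 t q).trans (Inn_sub c d (hH t)))).trans (hB3 t u)
    · unfold low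
      rw [if_neg (by rw [q]; exact Ne.symm n1)]
      have q' : e.symm i = t := by rw [← q]; simp
      rw [q'] at hi2
      linarith [hi2.1]
    · unfold low
      rw [if_neg (by rw [q]; exact Ne.symm n2)]
      have q' : e.symm j = t := by rw [← q]; simp
      rw [q'] at hj2
      linarith [hj2.1]
  have hup : ∀ t, v t (B t) ≤ 100002 / 100000 * low v b e u t :=
    cap (a := fun t => v t (B t)) hlow (lt_of_lt_of_le hpr hK) (θ := 1) one_pos
      (fun t => by rw [one_mul]; exact hlB t) (by norm_num) (by unfold RR; norm_num)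
  refine ⟨⟨B, hB1, hB2, hlB⟩, ?_⟩
  -- inner parts are large
  have hin : ∀ t, ∃ k, 99998 / 100000 * low v b e u t ≤
      v t (Inn (pb (fun g => e (b g)) (st u)) 0 2 a1 b1 h g k) := by
    intro t
    have hcases : e t = u ∨ e t = i ∨ e t = j := by
      have : ∀ a, a = u ∨ a = i ∨ a = j := by
        rcases hT with ⟨rfl, rfl, rfl⟩ | ⟨rfl, rfl, rfl⟩ | ⟨rfl, rfl, rfl⟩ <;> decide
      exact this _
    have hupt := hup t
    have hlt := hlow t
    rcases hcases with q | q | q
    · refine ⟨u, ?_⟩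
      have h3 := I.mono t (hu2 t q)
      have h4 : low v b e u t = v t (bl b t) := by unfold low; rw [if_pos q]
      rw [h4] at hlt ⊢
      linarith
    · have h4 : low v b e u t = v t (bl b t) / 2 := by
        unfold low; rw [if_neg (by rw [q]; exact Ne.symm n1)]
      have q' : e.symm i = t := by rw [← q]; simp
      rw [q'] at hi2
      rw [h4] at hupt ⊢
      rcases hi2.2 with h5 | h5
      · exact ⟨0, by linarith⟩
      · exact ⟨1, by linarith⟩
    · have h4 : low v b e u t = v t (bl b t) / 2 := by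
        unfold low; rw [if_neg (by rw [q]; exact Ne.symm n2)]
      have q' : e.symm j = t := by rw [← q]; simp
      rw [q'] at hj2
      rw [h4] at hupt ⊢
      rcases hj2.2 with h5 | h5
      · exact ⟨1, by linarith⟩
      · exact ⟨2, by linarith⟩
  intro νh νg
  obtain ⟨c', d', H', hc', hd', hH', hνh', hνg', B', hB1', hB2', hB3'⟩ := hal νh νg
  rw [hhi] at hc'
  rw [hgi] at hd'
  refine ⟨c', d', H', hc', hd', hH', hνh', hνg', ?_⟩
  have hpr' := I.PR hP hB1' hB2'
  have hup' : ∀ t, v t (B' t) ≤ 10001 / 10000 * low v b e u t :=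
    cap (a := fun t => v t (B' t)) hlow (lt_of_lt_of_le hpr' hK) (θ := 99998 / 100000)
      (by norm_num) (fun t => by
        obtain ⟨k, hk⟩ := hin t
        exact hk.trans ((I.mono t (Inn_sub c' d' (hH' t))).trans (hB3' t k)))
      (by norm_num) (by unfold RR; norm_num)
  intro t k
  exact (hB3' t k).trans (hup' t)

end Pool.F6
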