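import Pool.Agent.F6.Base
import Pool.Agent.F6.KKM

/-!
# The label system of three valuations
-/

namespace Pool.F6

open Finset

/-- argmax of three values, ties to the smallest index -/
def am {α : Type*} [LinearOrder α] (w : Fin 3 → α) : Fin 3 :=
  if w 1 ≤ w 0 ∧ w 2 ≤ w 0 then 0 else if w 2 ≤ w 1 then 1 else 2

lemma am_max {α : Type*} [LinearOrder α] (w : Fin 3 → α) (k : Fin 3) : w k ≤ w (am w) := by
  unfold am
  split_ifs with h1 h2
  · fin_cases k
    · exact le_rfl
    · exact h1.1
    · exact h1.2
  · have h3 : w 0 ≤ w 1 := by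
      by_contra h
      push Not at h
      exact h1 ⟨h.le, h2.trans h.le⟩
    fin_cases k
    · exact h3
    · exact le_rfl
    · exact h2
  · push Not at h2
    have h3 : w 0 ≤ w 2 := by
      by_contra h
      push Not at h
      exact h1 ⟨(h2.trans h).le, h.le⟩
    fin_cases k
    · exact h3
    · exact h2.le
    · exact le_rfl

/-- the argmax is the smallest index of a maximum -/
lemma am_eq_iff {α : Type*} [LinearOrder α] (w : Fin 3 → α) (m : Fin 3) :
    am w = m ↔ (∀ k, w k ≤ w m) ∧ ∀ k, k < m → w k < w m := by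
  constructor
  · rintro rfl
    refine ⟨am_max w, ?_⟩
    intro k hk
    unfold am at hk ⊢
    split_ifs at hk ⊢ with h1 h2
    · exact absurd hk (Fin.not_lt_zero k)
    · have hk0 : k = 0 := by
        have : k.val < 1 := hk
        ext; simp; omega
      subst hk0
      by_contra h
      push Not at h
      exact h1 ⟨h, h2.trans h⟩
    · push Not at h2
      have hk2 : k = 0 ∨ k = 1 := by
        have : k.val < 2 := hk
        rcases Nat.lt_or_ge k.val 1 with h | h
        · left; ext; simp; omega
        · right; ext; simp; omega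
      rcases hk2 with rfl | rfl
      · by_contra h
        push Not at h
        exact h1 ⟨h2.le.trans h, h⟩
      · exact h2
  · rintro ⟨h1, h2⟩
    have h3 := am_max w m
    have h4 : w m = w (am w) := le_antisymm h3 (h1 _)
    by_contra hne
    rcases lt_or_gt_of_ne hne with h | h
    · have := h2 _ h
      rw [h4] at this
      exact lt_irrefl _ this
    · -- m < am w, but am w is the smallest maximum
      unfold am at h h4
      split_ifs at h h4 with c1 c2
      · exact absurd h (Fin.not_lt_zero m)
      · have hm0 : m = 0 := by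
          have : m.val < 1 := h
          ext; simp; omega
        subst hm0
        exact c1 ⟨h4.ge, c2.trans h4.ge⟩
      · push Not at c2
        have hm : m = 0 ∨ m = 1 := by
          have : m.val < 2 := h
          rcases Nat.lt_or_ge m.val 1 with h | h
          · left; ext; simp; omega
          · right; ext; simp; omega
        rcases hm with rfl | rfl
        · exact c1 ⟨c2.le.trans h4.ge, h4.ge⟩
        · rw [h4] at c2
          exact lt_irrefl _ c2

/-- increasing one value changes the argmax only to its index -/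
lemma am_incr {α : Type*} [LinearOrder α] (w w' : Fin 3 → α) (s : Fin 3)
    (h : ∀ k, k ≠ s → w' k = w k) (hs : w s ≤ w' s) : am w' = am w ∨ am w' = s := by
  by_cases hm : am w' = s
  · exact Or.inr hm
  left
  symm
  rw [am_eq_iff]
  obtain ⟨h1, h2⟩ := (am_eq_iff w' (am w')).1 rfl
  have e : w' (am w') = w (am w') := h _ hm
  have hle : ∀ k, w k ≤ w' k := by
    intro k
    by_cases hk : k = s
    · rw [hk]; exact hs
    · exact (h k hk).ge
  exact ⟨fun k => (hle k).trans ((h1 k).trans e.le), fun k hk =>
    (hle k).trans_lt ((h2 k hk).trans_le e.le)⟩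

variable {G : Type*} [DecidableEq G] [Fintype G]

/-- visible part of a piece -/
def pc (x : G → Fin 3) (H : Finset G) (j : Fin 3) : Finset G :=
  Finset.univ.filter fun g => x g = j ∧ g ∉ H

lemma mem_pc {x : G → Fin 3} {H : Finset G} {j : Fin 3} {g : G} :
    g ∈ pc x H j ↔ x g = j ∧ g ∉ H := by simp [pc]

/-- lexicographic weight -/
def wt (v : Finset G → ℝ) (T : Finset G) : ℝ ×ₗ ℕ := toLex (v T, T.card)

lemma wt_mono {v : Finset G → ℝ} (hv : Monotone v) {T U : Finset G} (h : T ⊆ U) :
    wt v T ≤ wt v U := by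
  unfold wt
  rw [Prod.Lex.toLex_le_toLex]
  rcases (hv h).lt_or_eq with e | e
  · exact Or.inl e
  · exact Or.inr ⟨e, Finset.card_le_card h⟩

lemma le_of_wt {v : Finset G → ℝ} {T U : Finset G} (h : wt v T ≤ wt v U) : v T ≤ v U := by
  unfold wt at h
  rw [Prod.Lex.toLex_le_toLex] at h
  rcases h with e | e
  · exact e.le
  · exact e.1.le

open Classical in
/-- label function of a valuation -/
noncomputable def labv (v : Finset G → ℝ) (x : G → Fin 3) (H : Finset G) : Fin 3 :=
  am (fun j => wt v (pc x H j))

lemma labv_max (v : Finset G → ℝ) (x : G → Fin 3) (H : Finset G) (k : Fin 3) :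
    v (pc x H k) ≤ v (pc x H (labv v x H)) :=
  le_of_wt (am_max (fun j => wt v (pc x H j)) k)

/-- the label system of monotone valuations -/
noncomputable def valSys (v : Fin 3 → Finset G → ℝ) (hv : ∀ i, Monotone (v i)) : LabSys G where
  lab i x H := labv (v i) x H
  hide := by
    intro i x H g hg
    unfold labv
    apply am_incr
    · intro k hk
      have : pc x H k = pc x (insert g H) k := by
        ext y
        rw [mem_pc, mem_pc, Finset.mem_insert, not_or]
        constructor
        · rintro ⟨h1, h2⟩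
          refine ⟨h1, ?_, h2⟩
          rintro rfl
          exact hk h1.symm
        · rintro ⟨h1, _, h2⟩
          exact ⟨h1, h2⟩
      rw [this]
    · apply wt_mono (hv i)
      intro y hy
      rw [mem_pc, Finset.mem_insert, not_or] at hy
      rw [mem_pc]
      exact ⟨hy.1, hy.2.2⟩
  indep := by
    intro i x H g s hg
    unfold labv
    congr 1
    funext j
    have : pc (Function.update x g s) H j = pc x H j := by
      ext y
      rw [mem_pc, mem_pc]
      by_cases hy : y = g
      · subst hy
        simp [hg]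
      · rw [Function.update_of_ne hy]
    rw [this]

/-- nobody prefers an empty piece -/
lemma valSys_face (v : Fin 3 → Finset G → ℝ) (hv : ∀ i, Monotone (v i))
    [Nontrivial G] : FaceOK (valSys v hv) := by
  intro x c hx i g
  have key : ∀ H : Finset G, H ⊆ {g} → labv (v i) x H ≠ c := by
    intro H hH hc
    obtain ⟨g', hg'⟩ := exists_ne g
    have hmem : g' ∈ pc x H (x g') := by
      rw [mem_pc]
      exact ⟨rfl, fun h => hg' (Finset.mem_singleton.1 (hH h))⟩
    have hmax := am_max (fun j => wt (v i) (pc x H j)) (x g')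
    have hempty : pc x H c = ∅ := by
      ext y
      rw [mem_pc]
      simp [hx y]
    have hc' : am (fun j => wt (v i) (pc x H j)) = c := hc
    rw [hc'] at hmax
    have hmax' : wt (v i) (pc x H (x g')) ≤ wt (v i) (pc x H c) := hmax
    rw [hempty] at hmax'
    unfold wt at hmax'
    rw [Prod.Lex.toLex_le_toLex] at hmax'
    have hpos : v i ∅ ≤ v i (pc x H (x g')) := hv i (Finset.empty_subset _)
    rcases hmax' with e | e
    · exact absurd e (not_lt.2 hpos)
    · have h2 := e.2
      rw [Finset.card_empty] at h2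
      have h3 : (pc x H (x g')).card = 0 := Nat.le_zero.1 h2
      rw [Finset.card_eq_zero] at h3
      rw [h3] at hmem
      exact absurd hmem (Finset.notMem_empty _)
  exact ⟨key ∅ (Finset.empty_subset _), key {g} (Finset.Subset.refl _)⟩

/-- extraction: a bijective state gives an incomplete EF1 allocation; the owner of a piece gets the
visible part and possibly some of her own hidden goods, as long as everybody else hides at most
one good of the bundle -/
theorem extract (v : Fin 3 → Finset G → ℝ) (hv : ∀ i, Monotone (v i)) (x : G → Fin 3)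
    (H : Fin 3 → Finset G) (hb : ¬ NB ((valSys v hv).L x H)) (B : Fin 3 → Finset G)
    (h1 : ∀ j, pc x (H j) ((valSys v hv).L x H j) ⊆ B j)
    (h2 : ∀ j, ∀ g ∈ B j, x g = (valSys v hv).L x H j)
    (h3 : ∀ i j, i ≠ j → ∀ a b, a ∈ B j → b ∈ B j → a ∈ H i → b ∈ H i → a = b) :
    Disj B ∧ EF1 v B ∧ ∀ j k, v j (pc x (H j) k) ≤ v j (B j) := by
  have hinj := not_NB_inj hb
  have hval : ∀ j k, v j (pc x (H j) k) ≤ v j (B j) := by
    intro j k
    exact (labv_max (v j) x (H j) k).trans (hv j (h1 j))
  refine ⟨?_, ?_, hval⟩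
  · intro i j hij
    rw [Finset.disjoint_left]
    intro g hgi hgj
    exact hij (hinj ((h2 i g hgi).symm.trans (h2 j g hgj)))
  · intro i j hij
    have hsub : B j \ H i ⊆ pc x (H i) ((valSys v hv).L x H j) := by
      intro g hg
      rw [Finset.mem_sdiff] at hg
      rw [mem_pc]
      exact ⟨h2 j g hg.1, hg.2⟩
    have hle : v i (B j \ H i) ≤ v i (B i) := (hv i hsub).trans (hval i _)
    by_cases hem : ∃ a, a ∈ B j ∧ a ∈ H i
    · obtain ⟨a, haB, haH⟩ := hem
      right
      refine ⟨a, haB, ?_⟩
      have : (B j).erase a ⊆ B j \ H i := by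
        intro g hg
        rw [Finset.mem_erase] at hg
        rw [Finset.mem_sdiff]
        refine ⟨hg.2, fun hgH => hg.1 ?_⟩
        exact h3 i j hij g a hg.2 haB hgH haH
      exact (hv i this).trans hle
    · left
      push Not at hem
      have : B j ⊆ B j \ H i := by
        intro g hg
        rw [Finset.mem_sdiff]
        exact ⟨hg, hem g hg⟩
      exact (hv i this).trans hle

/-- extraction from a consistent state, everybody gets the visible part of her piece -/
theorem extract_cons (v : Fin 3 → Finset G → ℝ) (hv : ∀ i, Monotone (v i)) (x : G → Fin 3)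
    (H : Fin 3 → Finset G) (hb : ¬ NB ((valSys v hv).L x H)) (hc : Cons (valSys v hv) x H) :
    ∃ B : Fin 3 → Finset G, Disj B ∧ EF1 v B ∧ (∀ j k, v j (pc x (H j) k) ≤ v j (B j)) ∧
      ∀ j, B j = pc x (H j) ((valSys v hv).L x H j) := by
  obtain ⟨e1, e2, e3⟩ := extract v hv x H hb (fun j => pc x (H j) ((valSys v hv).L x H j))
    (fun j => Finset.Subset.refl _) (fun j g hg => (mem_pc.1 hg).1) (by
      intro i j hij a b ha hb' haH hbH
      by_contra hab
      exact hc i j hij a b hab haH hbH (mem_pc.1 ha).2 (mem_pc.1 hb').2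
        ⟨(mem_pc.1 ha).1, (mem_pc.1 hb').1⟩)
  exact ⟨_, e1, e2, e3, fun j => rfl⟩

/-- rule for dead regions: guaranteed values `l` contradict a rule -/
theorem dead_of (v : Fin 3 → Finset G → ℝ) (hv : ∀ i, Monotone (v i))
    (A : G → Finset (Fin 3)) (V : G → Fin 3) (l : Fin 3 → ℝ)
    (hl : ∀ x, Mem A x → ∀ H, Hid A V H → ∀ B : Fin 3 → Finset G,
      (∀ j k, v j (pc x (H j) k) ≤ v j (B j)) → ∀ j, l j ≤ v j (B j))
    (rule : ∀ B : Fin 3 → Finset G, Disj B → EF1 v B → (∀ j, l j ≤ v j (B j)) → False) :
    Dead (valSys v hv) A V := by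
  intro x hx H hH hc
  by_contra hb
  obtain ⟨B, h1, h2, h3, _⟩ := extract_cons v hv x H hb hc
  exact rule B h1 h2 (hl x hx H hH B h3)

/-- guarantee: a set of goods allowed in only one piece -/
lemma guar1 {v : Finset G → ℝ} (hv : Monotone v) {A : G → Finset (Fin 3)} {V : G → Fin 3}
    {x : G → Fin 3} (hx : Mem A x) {H : Fin 3 → Finset G} (hH : Hid A V H) {j : Fin 3}
    {T : Finset G} {k : Fin 3} (hT : ∀ g ∈ T, A g = {k}) {B : Finset G}
    (hB : ∀ k, v (pc x (H j) k) ≤ v B) : v T ≤ v B := by
  refine (hv ?_).trans (hB k)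
  intro g hg
  rw [mem_pc]
  constructor
  · have := hx g
    rw [hT g hg, Finset.mem_singleton] at this
    exact this
  · intro h
    have := (hH.2 j g h).2
    rw [hT g hg, Finset.card_singleton] at this
    omega

/-- guarantee: a visible set of goods allowed in two pieces -/
lemma guar2 {v : Finset G → ℝ} (hv : Monotone v) (hs : ∀ S T, v (S ∪ T) ≤ v S + v T)
    {A : G → Finset (Fin 3)} {V : G → Fin 3}
    {x : G → Fin 3} (hx : Mem A x) {H : Fin 3 → Finset G} (hH : Hid A V H) {j : Fin 3}
    {T : Finset G} {k k' : Fin 3} (hT : ∀ g ∈ T, A g ⊆ {k, k'} ∧ (V g = j ∨ (A g).card ≤ 1))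
    {B : Finset G} (hB : ∀ k, v (pc x (H j) k) ≤ v B) : v T ≤ 2 * v B := by
  have hsub : T ⊆ pc x (H j) k ∪ pc x (H j) k' := by
    intro g hg
    have hgH : g ∉ H j := by
      intro h
      have h1 := hH.2 j g h
      rcases (hT g hg).2 with e | e
      · exact h1.1 e
      · omega
    have hmem := (hT g hg).1 (hx g)
    rw [Finset.mem_insert, Finset.mem_singleton] at hmem
    rw [Finset.mem_union, mem_pc, mem_pc]
    rcases hmem with e | e
    · exact Or.inl ⟨e, hgH⟩
    · exact Or.inr ⟨e, hgH⟩
  have h1 := (hv hsub).trans (hs _ _)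
  have h2 := hB k
  have h3 := hB k'
  linarith

/-- guarantee: any visible set of goods -/
lemma guar3 {v : Finset G → ℝ} (hv : Monotone v) (hs : ∀ S T, v (S ∪ T) ≤ v S + v T)
    {A : G → Finset (Fin 3)} {V : G → Fin 3}
    {x : G → Fin 3} {H : Fin 3 → Finset G} (hH : Hid A V H) {j : Fin 3}
    {T : Finset G} (hT : ∀ g ∈ T, V g = j ∨ (A g).card ≤ 1)
    {B : Finset G} (hB : ∀ k, v (pc x (H j) k) ≤ v B) : v T ≤ 3 * v B := by
  have hsub : T ⊆ (pc x (H j) 0 ∪ pc x (H j) 1) ∪ pc x (H j) 2 := by
    intro g hg
    have hgH : g ∉ H j := by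
      intro h
      have h1 := hH.2 j g h
      rcases hT g hg with e | e
      · exact h1.1 e
      · omega
    rw [Finset.mem_union, Finset.mem_union, mem_pc, mem_pc, mem_pc]
    have h3 : x g = 0 ∨ x g = 1 ∨ x g = 2 := by
      generalize x g = u
      revert u; decide
    rcases h3 with e | e | e
    · exact Or.inl (Or.inl ⟨e, hgH⟩)
    · exact Or.inl (Or.inr ⟨e, hgH⟩)
    · exact Or.inr ⟨e, hgH⟩
  have h1 := (hv hsub).trans (hs _ _)
  have h1' := hs (pc x (H j) 0) (pc x (H j) 1)
  have h2 := hB 0
  have h3 := hB 1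
  have h4 := hB 2
  linarith

end Pool.F6
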